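import Mathlib

/-!
# The Farkas lemma and strong duality of linear programming
-/

namespace Pool.Agent.Simplex.QP

theorem farkas_fin {T : Type*} [Fintype T] : ∀ (m : ℕ) (A : Fin m → T → ℝ) (b : T → ℝ),
    (∀ v : T → ℝ, (∀ j, A j ⬝ᵥ v ≤ 0) → b ⬝ᵥ v ≤ 0) →
    ∃ u : Fin m → ℝ, (∀ j, 0 ≤ u j) ∧ ∀ t, ∑ j, u j * A j t = b t := by
  intro m
  induction m with
  | zero =>
    intro A b h
    refine ⟨Fin.elim0, fun j => j.elim0, fun t => ?_⟩
    have h1 := h b (fun j => j.elim0)
    have h2 : b ⬝ᵥ b = ∑ t, b t ^ 2 := by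
      unfold dotProduct
      exact Finset.sum_congr rfl fun t _ => by ring
    have h3 : b t ^ 2 ≤ ∑ t, b t ^ 2 :=
      Finset.single_le_sum (f := fun t => b t ^ 2) (fun _ _ => sq_nonneg _) (Finset.mem_univ t)
    have h4 : b t ^ 2 = 0 := by
      have := sq_nonneg (b t)
      linarith
    rw [pow_eq_zero_iff (two_ne_zero)] at h4
    simp [h4]
  | succ m ih =>
    intro A b h
    by_cases hc : ∀ v : T → ℝ, (∀ j : Fin m, A j.succ ⬝ᵥ v ≤ 0) → b ⬝ᵥ v ≤ 0
    · obtain ⟨u, hu, hu'⟩ := ih (fun j => A j.succ) b hc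
      refine ⟨Fin.cons 0 u, fun j => ?_, fun t => ?_⟩
      · refine Fin.cases ?_ (fun j => ?_) j
        · simp
        · simpa using hu j
      · rw [Fin.sum_univ_succ]
        simpa using hu' t
    · push Not at hc
      obtain ⟨v1, hv1, hb1⟩ := hc
      have h0 : 0 < A 0 ⬝ᵥ v1 := by
        by_contra hcon
        push Not at hcon
        have := h v1 (fun j => Fin.cases hcon (fun j => hv1 j) j)
        linarith
      set v0 : T → ℝ := (A 0 ⬝ᵥ v1)⁻¹ • v1 with hv0
      have e0 : A 0 ⬝ᵥ v0 = 1 := by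
        rw [hv0, dotProduct_smul, smul_eq_mul, inv_mul_cancel₀ h0.ne']
      have ej : ∀ j : Fin m, A j.succ ⬝ᵥ v0 ≤ 0 := fun j => by
        rw [hv0, dotProduct_smul, smul_eq_mul]
        exact mul_nonpos_of_nonneg_of_nonpos (inv_pos.2 h0).le (hv1 j)
      have eb : 0 < b ⬝ᵥ v0 := by
        rw [hv0, dotProduct_smul, smul_eq_mul]
        exact mul_pos (inv_pos.2 h0) hb1
      obtain ⟨u, hu, hu'⟩ := ih (fun j => A j.succ - (A j.succ ⬝ᵥ v0) • A 0)
        (b - (b ⬝ᵥ v0) • A 0) (by
          intro v hv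
          have key := h (v - (A 0 ⬝ᵥ v) • v0) (fun j => by
            refine Fin.cases ?_ (fun j => ?_) j
            · rw [dotProduct_sub, dotProduct_smul, e0, smul_eq_mul, mul_one, sub_self]
            · have := hv j
              rw [sub_dotProduct, smul_dotProduct, smul_eq_mul] at this
              rw [dotProduct_sub, dotProduct_smul, smul_eq_mul]
              linarith)
          rw [dotProduct_sub, dotProduct_smul, smul_eq_mul] at key
          rw [sub_dotProduct, smul_dotProduct, smul_eq_mul]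
          linarith)
      refine ⟨Fin.cons (b ⬝ᵥ v0 - ∑ j, u j * (A j.succ ⬝ᵥ v0)) u, fun j => ?_, fun t => ?_⟩
      · refine Fin.cases ?_ (fun j => ?_) j
        · simp only [Fin.cons_zero]
          have : ∑ j, u j * (A j.succ ⬝ᵥ v0) ≤ 0 :=
            Finset.sum_nonpos fun j _ => mul_nonpos_of_nonneg_of_nonpos (hu j) (ej j)
          linarith
        · simpa using hu j
      · rw [Fin.sum_univ_succ]
        simp only [Fin.cons_zero, Fin.cons_succ]
        have h1 := hu' t
        simp only [Pi.sub_apply, Pi.smul_apply, smul_eq_mul] at h1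
        have h2 : ∑ j, u j * (A j.succ t - (A j.succ ⬝ᵥ v0) * A 0 t) =
            ∑ j, u j * A j.succ t - (∑ j, u j * (A j.succ ⬝ᵥ v0)) * A 0 t := by
          rw [Finset.sum_mul, ← Finset.sum_sub_distrib]
          exact Finset.sum_congr rfl fun j _ => by ring
        rw [h2] at h1
        linarith

theorem farkas {J T : Type*} [Fintype J] [Fintype T] (A : J → T → ℝ) (b : T → ℝ)
    (h : ∀ v : T → ℝ, (∀ j, ∑ t, A j t * v t ≤ 0) → ∑ t, b t * v t ≤ 0) :
    ∃ u : J → ℝ, (∀ j, 0 ≤ u j) ∧ ∀ t, ∑ j, u j * A j t = b t := by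
  let e := Fintype.equivFin J
  obtain ⟨u, hu, hu'⟩ := farkas_fin (Fintype.card J) (fun j => A (e.symm j)) b
    (fun v hv => h v fun j => by
      have := hv (e j)
      rw [Equiv.symm_apply_apply] at this
      exact this)
  refine ⟨fun j => u (e j), fun j => hu _, fun t => ?_⟩
  rw [← hu' t]
  exact Fintype.sum_equiv e _ _ fun j => by simp

theorem lp_duality {κ ι : Type} [Fintype κ] [Fintype ι] {n : ℕ} (Ae : κ → Fin n → ℝ)
    (be : κ → ℝ) (Ai : ι → Fin n → ℝ) (bi : ι → ℝ) (c : Fin n → ℝ)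
    (x0 : Fin n → ℝ) (h0e : ∀ k, ∑ j, Ae k j * x0 j = be k) (h0i : ∀ i, ∑ j, Ai i j * x0 j ≤ bi i)
    (M : ℝ) (hM : ∀ x : Fin n → ℝ, (∀ k, ∑ j, Ae k j * x j = be k) →
      (∀ i, ∑ j, Ai i j * x j ≤ bi i) → ∑ j, c j * x j ≤ M) :
    ∃ (x : Fin n → ℝ) (lam : κ → ℝ) (mu : ι → ℝ), (∀ k, ∑ j, Ae k j * x j = be k) ∧
      (∀ i, ∑ j, Ai i j * x j ≤ bi i) ∧ (∀ i, 0 ≤ mu i) ∧
      (∀ j, ∑ k, lam k * Ae k j + ∑ i, mu i * Ai i j = c j) ∧
      ∑ j, c j * x j = ∑ k, lam k * be k + ∑ i, mu i * bi i := by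
  classical
  -- unknowns `x, lam, mu, tau`
  let T := Fin n ⊕ (κ ⊕ (ι ⊕ Unit))
  -- constraints
  let J := κ ⊕ (κ ⊕ (ι ⊕ (ι ⊕ (Fin n ⊕ (Fin n ⊕ Unit)))))
  let mk : (Fin n → ℝ) → (κ → ℝ) → (ι → ℝ) → ℝ → T → ℝ := fun a b c d =>
    Sum.elim a (Sum.elim b (Sum.elim c (fun _ => d)))
  let A : J → T → ℝ := Sum.elim (fun k => mk (Ae k) 0 0 (-be k))
    (Sum.elim (fun k => mk (fun j => -Ae k j) 0 0 (be k))
    (Sum.elim (fun i => mk (Ai i) 0 0 (-bi i))
    (Sum.elim (fun i => mk 0 0 (fun i' => if i' = i then -1 else 0) 0)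
    (Sum.elim (fun j => mk 0 (fun k => Ae k j) (fun i => Ai i j) (-c j))
    (Sum.elim (fun j => mk 0 (fun k => -Ae k j) (fun i => -Ai i j) (c j))
    (fun _ => mk (fun j => -c j) be bi 0))))))
  by_cases hsol : ∃ v : T → ℝ, (∀ j, ∑ t, A j t * v t ≤ 0) ∧ 0 < v (Sum.inr (Sum.inr (Sum.inr ())))
  · obtain ⟨v, hv, ht⟩ := hsol
    set τ := v (Sum.inr (Sum.inr (Sum.inr ()))) with hτ
    have hτ0 : τ ≠ 0 := ht.ne'
    let x : Fin n → ℝ := fun j => v (Sum.inl j) / τ
    let lam : κ → ℝ := fun k => v (Sum.inr (Sum.inl k)) / τ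
    let mu : ι → ℝ := fun i => v (Sum.inr (Sum.inr (Sum.inl i))) / τ
    have hsumx : ∀ a : Fin n → ℝ, ∑ j, a j * x j = (∑ j, a j * v (Sum.inl j)) / τ := fun a => by
      rw [Finset.sum_div]
      exact Finset.sum_congr rfl fun j _ => by simp only [x]; ring
    have hsuml : ∀ a : κ → ℝ, ∑ j, lam j * a j = (∑ j, a j * v (Sum.inr (Sum.inl j))) / τ :=
      fun a => by
        rw [Finset.sum_div]
        exact Finset.sum_congr rfl fun j _ => by simp only [lam]; ring
    have hsumm : ∀ a : ι → ℝ, ∑ j, mu j * a j =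
        (∑ j, a j * v (Sum.inr (Sum.inr (Sum.inl j)))) / τ := fun a => by
      rw [Finset.sum_div]
      exact Finset.sum_congr rfl fun j _ => by simp only [mu]; ring
    have hA : ∀ (a : Fin n → ℝ) (b : κ → ℝ) (c : ι → ℝ) (d : ℝ), ∑ t, mk a b c d t * v t =
        ∑ j, a j * v (Sum.inl j) + (∑ k, b k * v (Sum.inr (Sum.inl k)) +
          (∑ i, c i * v (Sum.inr (Sum.inr (Sum.inl i))) + d * τ)) := by
      intro a b c d
      simp only [T, Fintype.sum_sum_type, mk, Sum.elim_inl, Sum.elim_inr, Finset.univ_unique,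
        Finset.sum_singleton]
      rfl
    have h1 : ∀ k, ∑ j, Ae k j * x j = be k := fun k => by
      have a1 := hv (Sum.inl k)
      have a2 := hv (Sum.inr (Sum.inl k))
      simp only [A, Sum.elim_inl, Sum.elim_inr, hA] at a1 a2
      simp only [Pi.zero_apply, zero_mul, Finset.sum_const_zero, zero_add, neg_mul,
        Finset.sum_neg_distrib] at a1 a2
      rw [hsumx, div_eq_iff hτ0]
      linarith
    have h2 : ∀ i, ∑ j, Ai i j * x j ≤ bi i := fun i => by
      have a1 := hv (Sum.inr (Sum.inr (Sum.inl i)))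
      simp only [A, Sum.elim_inl, Sum.elim_inr, hA] at a1
      simp only [Pi.zero_apply, zero_mul, Finset.sum_const_zero, zero_add, neg_mul] at a1
      rw [hsumx, div_le_iff₀ ht]
      linarith
    have h3 : ∀ i, 0 ≤ mu i := fun i => by
      have a1 := hv (Sum.inr (Sum.inr (Sum.inr (Sum.inl i))))
      simp only [A, Sum.elim_inl, Sum.elim_inr, hA] at a1
      simp only [Pi.zero_apply, zero_mul, Finset.sum_const_zero, zero_add, add_zero, ite_mul,
        Finset.sum_ite_eq', Finset.mem_univ, if_true] at a1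
      exact div_nonneg (by linarith) ht.le
    have h4 : ∀ j, ∑ k, lam k * Ae k j + ∑ i, mu i * Ai i j = c j := fun j => by
      have a1 := hv (Sum.inr (Sum.inr (Sum.inr (Sum.inr (Sum.inl j)))))
      have a2 := hv (Sum.inr (Sum.inr (Sum.inr (Sum.inr (Sum.inr (Sum.inl j))))))
      simp only [A, Sum.elim_inl, Sum.elim_inr, hA] at a1 a2
      simp only [Pi.zero_apply, zero_mul, Finset.sum_const_zero, zero_add, neg_mul,
        Finset.sum_neg_distrib] at a1 a2
      rw [hsuml, hsumm, ← add_div, div_eq_iff hτ0]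
      linarith
    have h5 : ∑ k, lam k * be k + ∑ i, mu i * bi i ≤ ∑ j, c j * x j := by
      have a1 := hv (Sum.inr (Sum.inr (Sum.inr (Sum.inr (Sum.inr (Sum.inr ()))))))
      simp only [A, Sum.elim_inl, Sum.elim_inr, hA] at a1
      simp only [zero_mul, add_zero, neg_mul, Finset.sum_neg_distrib] at a1
      rw [hsuml, hsumm, hsumx, ← add_div, div_le_div_iff_of_pos_right ht]
      linarith
    refine ⟨x, lam, mu, h1, h2, h3, h4, le_antisymm ?_ h5⟩
    -- weak duality
    have e1 : ∑ j, c j * x j = ∑ k, lam k * (∑ j, Ae k j * x j) +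
        ∑ i, mu i * (∑ j, Ai i j * x j) := by
      simp only [← h4, add_mul, Finset.sum_add_distrib, Finset.sum_mul, Finset.mul_sum]
      congr 1
      · rw [Finset.sum_comm]
        exact Finset.sum_congr rfl fun k _ => Finset.sum_congr rfl fun j _ => by ring
      · rw [Finset.sum_comm]
        exact Finset.sum_congr rfl fun k _ => Finset.sum_congr rfl fun j _ => by ring
    rw [e1]
    refine add_le_add (le_of_eq ?_) (Finset.sum_le_sum fun i _ =>
      mul_le_mul_of_nonneg_left (h2 i) (h3 i))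
    exact Finset.sum_congr rfl fun k _ => by rw [h1]
  · exfalso
    push Not at hsol
    obtain ⟨u, hu, hu'⟩ := farkas A (mk 0 0 0 1) (fun v hv => by
      have := hsol v hv
      simp only [T, Fintype.sum_sum_type, mk, Sum.elim_inl, Sum.elim_inr, Finset.univ_unique,
        Finset.sum_singleton, Pi.zero_apply, zero_mul, Finset.sum_const_zero, zero_add, one_mul]
      exact this)
    -- multipliers
    let p : κ → ℝ := fun k => u (Sum.inl k) - u (Sum.inr (Sum.inl k))
    let q : ι → ℝ := fun i => u (Sum.inr (Sum.inr (Sum.inl i)))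
    let s : ι → ℝ := fun i => u (Sum.inr (Sum.inr (Sum.inr (Sum.inl i))))
    let r : Fin n → ℝ := fun j => u (Sum.inr (Sum.inr (Sum.inr (Sum.inr (Sum.inl j))))) -
      u (Sum.inr (Sum.inr (Sum.inr (Sum.inr (Sum.inr (Sum.inl j))))))
    let t : ℝ := u (Sum.inr (Sum.inr (Sum.inr (Sum.inr (Sum.inr (Sum.inr ()))))))
    have hq : ∀ i, 0 ≤ q i := fun i => hu _
    have hs : ∀ i, 0 ≤ s i := fun i => hu _
    have ht : 0 ≤ t := hu _
    have hexp : ∀ t' : T, ∑ j, u j * A j t' = mk 0 0 0 1 t' := hu'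
    simp only [J, Fintype.sum_sum_type, Finset.univ_unique, Finset.sum_singleton, A,
      Sum.elim_inl, Sum.elim_inr] at hexp
    have r1 : ∀ j : Fin n, ∑ k, p k * Ae k j + ∑ i, q i * Ai i j = t * c j := fun j => by
      have a1 := hexp (Sum.inl j)
      simp only [mk, Sum.elim_inl, Sum.elim_inr, Pi.zero_apply, mul_zero, Finset.sum_const_zero,
        add_zero, zero_add, mul_neg, Finset.sum_neg_distrib] at a1
      have e1 : ∑ k, p k * Ae k j = ∑ k, u (Sum.inl k) * Ae k j -
          ∑ k, u (Sum.inr (Sum.inl k)) * Ae k j := by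
        rw [← Finset.sum_sub_distrib]
        exact Finset.sum_congr rfl fun k _ => by simp only [p]; ring
      rw [e1]
      change _ + (-_ + (_ + -(t * c j))) = 0 at a1
      simp only [q]
      linarith
    have r2 : ∀ k, ∑ j, r j * Ae k j + t * be k = 0 := fun k => by
      have a1 := hexp (Sum.inr (Sum.inl k))
      simp only [mk, Sum.elim_inl, Sum.elim_inr, Pi.zero_apply, mul_zero, Finset.sum_const_zero,
        add_zero, zero_add, mul_neg, Finset.sum_neg_distrib] at a1
      have e1 : ∑ j, r j * Ae k j =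
          ∑ j, u (Sum.inr (Sum.inr (Sum.inr (Sum.inr (Sum.inl j))))) * Ae k j -
          ∑ j, u (Sum.inr (Sum.inr (Sum.inr (Sum.inr (Sum.inr (Sum.inl j)))))) * Ae k j := by
        rw [← Finset.sum_sub_distrib]
        exact Finset.sum_congr rfl fun k _ => by simp only [r]; ring
      rw [e1]
      change _ + (-_ + t * be k) = 0 at a1
      linarith
    have r3 : ∀ i, 0 ≤ ∑ j, r j * Ai i j + t * bi i := fun i => by
      have a1 := hexp (Sum.inr (Sum.inr (Sum.inl i)))
      simp only [mk, Sum.elim_inl, Sum.elim_inr, Pi.zero_apply, mul_zero, Finset.sum_const_zero,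
        add_zero, zero_add, mul_neg, Finset.sum_neg_distrib, mul_ite, mul_one,
        Finset.sum_ite_eq, Finset.mem_univ, if_true] at a1
      have e1 : ∑ j, r j * Ai i j =
          ∑ j, u (Sum.inr (Sum.inr (Sum.inr (Sum.inr (Sum.inl j))))) * Ai i j -
          ∑ j, u (Sum.inr (Sum.inr (Sum.inr (Sum.inr (Sum.inr (Sum.inl j)))))) * Ai i j := by
        rw [← Finset.sum_sub_distrib]
        exact Finset.sum_congr rfl fun k _ => by simp only [r]; ring
      rw [e1]
      change -(s i) + (_ + (-_ + t * bi i)) = 0 at a1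
      have := hs i
      linarith
    have r4 : ∑ k, p k * be k + ∑ i, q i * bi i + ∑ j, r j * c j = -1 := by
      have a1 := hexp (Sum.inr (Sum.inr (Sum.inr ())))
      simp only [mk, Sum.elim_inl, Sum.elim_inr, mul_zero, Finset.sum_const_zero,
        add_zero, zero_add, mul_neg, Finset.sum_neg_distrib] at a1
      have e1 : ∑ k, p k * be k = ∑ k, u (Sum.inl k) * be k -
          ∑ k, u (Sum.inr (Sum.inl k)) * be k := by
        rw [← Finset.sum_sub_distrib]
        exact Finset.sum_congr rfl fun k _ => by simp only [p]; ring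
      have e2 : ∑ j, r j * c j =
          ∑ j, u (Sum.inr (Sum.inr (Sum.inr (Sum.inr (Sum.inl j))))) * c j -
          ∑ j, u (Sum.inr (Sum.inr (Sum.inr (Sum.inr (Sum.inr (Sum.inl j)))))) * c j := by
        rw [← Finset.sum_sub_distrib]
        exact Finset.sum_congr rfl fun k _ => by simp only [r]; ring
      rw [e1, e2]
      simp only [q]
      linarith
    have hpq : ∀ x : Fin n → ℝ, (∀ k, ∑ j, Ae k j * x j = be k) →
        (∀ i, ∑ j, Ai i j * x j ≤ bi i) →
        t * ∑ j, c j * x j ≤ ∑ k, p k * be k + ∑ i, q i * bi i := by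
      intro x hx1 hx2
      have e1 : t * ∑ j, c j * x j = ∑ k, p k * (∑ j, Ae k j * x j) +
          ∑ i, q i * (∑ j, Ai i j * x j) := by
        have e2 : t * ∑ j, c j * x j = ∑ j, (∑ k, p k * Ae k j + ∑ i, q i * Ai i j) * x j := by
          rw [Finset.mul_sum]
          exact Finset.sum_congr rfl fun j _ => by rw [r1]; ring
        rw [e2]
        simp only [add_mul, Finset.sum_add_distrib, Finset.sum_mul, Finset.mul_sum]
        congr 1
        · rw [Finset.sum_comm]
          exact Finset.sum_congr rfl fun k _ => Finset.sum_congr rfl fun j _ => by ring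
        · rw [Finset.sum_comm]
          exact Finset.sum_congr rfl fun k _ => Finset.sum_congr rfl fun j _ => by ring
      rw [e1]
      refine add_le_add (le_of_eq ?_) (Finset.sum_le_sum fun i _ =>
        mul_le_mul_of_nonneg_left (hx2 i) (hq i))
      exact Finset.sum_congr rfl fun k _ => by rw [hx1]
    rcases ht.lt_or_eq with ht' | ht'
    · -- `t > 0`
      have hk := hpq (fun j => -(r j) / t) (fun k => by
        have : ∑ j, Ae k j * (-(r j) / t) = -(∑ j, r j * Ae k j) / t := by
          rw [← Finset.sum_neg_distrib, Finset.sum_div]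
          exact Finset.sum_congr rfl fun j _ => by ring
        rw [this, div_eq_iff ht'.ne']
        have := r2 k
        linarith) (fun i => by
        have : ∑ j, Ai i j * (-(r j) / t) = -(∑ j, r j * Ai i j) / t := by
          rw [← Finset.sum_neg_distrib, Finset.sum_div]
          exact Finset.sum_congr rfl fun j _ => by ring
        rw [this, div_le_iff₀ ht']
        have := r3 i
        linarith)
      have e1 : t * ∑ j, c j * (-(r j) / t) = -∑ j, r j * c j := by
        rw [Finset.mul_sum, ← Finset.sum_neg_distrib]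
        refine Finset.sum_congr rfl fun j _ => ?_
        field_simp
      rw [e1] at hk
      linarith
    · -- `t = 0`
      have hk := hpq x0 h0e h0i
      rw [← ht', zero_mul] at hk
      have hr : ∑ j, r j * c j ≤ -1 := by linarith
      -- move along `-r`
      set s0 : ℝ := |M| + |∑ j, c j * x0 j| + 1 with hs0
      have hs0' : 0 ≤ s0 := by positivity
      have hb := hM (fun j => x0 j - s0 * r j) (fun k => by
        have e1 : ∑ j, Ae k j * (x0 j - s0 * r j) = ∑ j, Ae k j * x0 j -
            s0 * ∑ j, r j * Ae k j := by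
          rw [Finset.mul_sum, ← Finset.sum_sub_distrib]
          exact Finset.sum_congr rfl fun j _ => by ring
        have := r2 k
        rw [← ht', zero_mul, add_zero] at this
        rw [e1, h0e, this, mul_zero, sub_zero]) (fun i => by
        have e1 : ∑ j, Ai i j * (x0 j - s0 * r j) = ∑ j, Ai i j * x0 j -
            s0 * ∑ j, r j * Ai i j := by
          rw [Finset.mul_sum, ← Finset.sum_sub_distrib]
          exact Finset.sum_congr rfl fun j _ => by ring
        have h6 := r3 i
        rw [← ht', zero_mul, add_zero] at h6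
        rw [e1]
        have := mul_nonneg hs0' h6
        have := h0i i
        linarith)
      have e1 : ∑ j, c j * (x0 j - s0 * r j) = ∑ j, c j * x0 j - s0 * ∑ j, r j * c j := by
        rw [Finset.mul_sum, ← Finset.sum_sub_distrib]
        exact Finset.sum_congr rfl fun j _ => by ring
      rw [e1] at hb
      have h7 : s0 ≤ -(s0 * ∑ j, r j * c j) := by nlinarith
      have h8 := neg_abs_le (∑ j, c j * x0 j)
      have h9 := le_abs_self M
      linarith

end Pool.Agent.Simplex.QP
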