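import Mathlib

/-!
# Fraction-free orthogonal projectors: matrix identities
-/

namespace Pool.Agent.Simplex.QP

open Matrix

variable {ι : Type} [Fintype ι] [DecidableEq ι] {N : ℕ}

/-- The integer matrix `D • Π`, `Π` the projector onto the kernel of `A`, `D = det (A Aᵀ)`. -/
def pmat (A : Matrix ι (Fin N) ℤ) : Matrix (Fin N) (Fin N) ℤ :=
  (A * Aᵀ).det • 1 - Aᵀ * (A * Aᵀ).adjugate * A

omit [Fintype ι] [DecidableEq ι] in
lemma gram_symm (A : Matrix ι (Fin N) ℤ) : (A * Aᵀ)ᵀ = A * Aᵀ := by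
  rw [transpose_mul, transpose_transpose]

lemma pmat_transpose (A : Matrix ι (Fin N) ℤ) : (pmat A)ᵀ = pmat A := by
  unfold pmat
  rw [transpose_sub, transpose_smul, transpose_one, transpose_mul, transpose_mul,
    transpose_transpose, adjugate_transpose, gram_symm, Matrix.mul_assoc]

lemma pmat_mul_transpose (A : Matrix ι (Fin N) ℤ) : pmat A * Aᵀ = 0 := by
  unfold pmat
  rw [Matrix.sub_mul, Matrix.mul_assoc, Matrix.mul_assoc, adjugate_mul, Matrix.smul_mul,
    Matrix.mul_smul, Matrix.one_mul, Matrix.mul_one, sub_self]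

lemma pmat_mul_self (A : Matrix ι (Fin N) ℤ) : pmat A * pmat A = (A * Aᵀ).det • pmat A := by
  have h : pmat A * pmat A = pmat A * ((A * Aᵀ).det • 1 - Aᵀ * (A * Aᵀ).adjugate * A) := rfl
  rw [h, Matrix.mul_sub, ← Matrix.mul_assoc, ← Matrix.mul_assoc, pmat_mul_transpose,
    Matrix.zero_mul, Matrix.zero_mul, sub_zero, Matrix.mul_smul, Matrix.mul_one]

lemma det_gram_fromRows (A : Matrix ι (Fin N) ℤ) (R : Matrix Unit (Fin N) ℤ)
    (hD : (A * Aᵀ).det ≠ 0) :
    (fromRows A R * (fromRows A R)ᵀ).det = (R * pmat A * Rᵀ) () () := by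
  have h1 : fromRows A R * (fromRows A R)ᵀ =
      fromBlocks (A * Aᵀ) (A * Rᵀ) (R * Aᵀ) (R * Rᵀ) := by
    rw [transpose_fromRows, fromRows_mul_fromCols]
  have h2 : (fromRows A R * (fromRows A R)ᵀ) *
      fromBlocks 1 (-((A * Aᵀ).adjugate * (A * Rᵀ))) 0 ((A * Aᵀ).det • 1) =
      fromBlocks (A * Aᵀ) 0 (R * Aᵀ) (R * pmat A * Rᵀ) := by
    rw [h1, fromBlocks_multiply]
    congr 1
    · simp
    · rw [Matrix.mul_neg, ← Matrix.mul_assoc, mul_adjugate, Matrix.smul_mul, Matrix.one_mul,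
        Matrix.mul_smul, Matrix.mul_one, neg_add_cancel]
    · simp
    · unfold pmat
      rw [Matrix.mul_sub, Matrix.sub_mul]
      simp only [Matrix.mul_neg, Matrix.mul_smul, Matrix.smul_mul, Matrix.mul_one,
        Matrix.mul_assoc]
      abel
  have h3 := congrArg Matrix.det h2
  rw [det_mul, det_fromBlocks_zero₂₁, det_fromBlocks_zero₁₂, det_one, one_mul, det_smul] at h3
  simp only [Fintype.card_unit, pow_one, det_one, mul_one] at h3
  have h4 : (R * pmat A * Rᵀ).det = (R * pmat A * Rᵀ) () () := det_unique _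
  rw [h4, mul_comm] at h3
  exact mul_left_cancel₀ hD h3

/-- Uniqueness of the projector. -/
lemma proj_unique {κ : Type} [Fintype κ] [DecidableEq κ] (B : Matrix κ (Fin N) ℤ)
    (hB : (B * Bᵀ).det ≠ 0) (X : Matrix (Fin N) (Fin N) ℤ) (Z : Matrix (Fin N) κ ℤ)
    (h1 : X = Z * B) (h2 : X * Bᵀ = 0) : X = 0 := by
  have h3 : Z * (B * Bᵀ) = 0 := by rw [← Matrix.mul_assoc, ← h1, h2]
  have h4 : Z * (B * Bᵀ) * (B * Bᵀ).adjugate = 0 := by rw [h3, Matrix.zero_mul]
  rw [Matrix.mul_assoc, mul_adjugate, Matrix.mul_smul, Matrix.mul_one] at h4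
  have h5 : Z = 0 := by
    rcases smul_eq_zero.1 h4 with h | h
    · exact absurd h hB
    · exact h
  rw [h1, h5, Matrix.zero_mul]

lemma pmat_fromRows (A : Matrix ι (Fin N) ℤ) (R : Matrix Unit (Fin N) ℤ)
    (hD : (A * Aᵀ).det ≠ 0) (hd : (R * pmat A * Rᵀ) () () ≠ 0) :
    (A * Aᵀ).det • pmat (fromRows A R) =
      ((R * pmat A * Rᵀ) () ()) • pmat A - (pmat A * Rᵀ) * (R * pmat A) := by
  have hdet := det_gram_fromRows A R hD
  set D := (A * Aᵀ).det with hDdef
  set d := (R * pmat A * Rᵀ) () () with hddef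
  have hRPR : R * pmat A * Rᵀ = d • 1 := by
    ext i j
    simp [hddef, Unique.eq_default i, Unique.eq_default j]
  rw [← sub_eq_zero]
  refine proj_unique (fromRows A R) (by rw [hdet]; exact hd) _
    (-(D • ((fromRows A R)ᵀ * (fromRows A R * (fromRows A R)ᵀ).adjugate)) +
      fromCols (d • (Aᵀ * (A * Aᵀ).adjugate) -
        (pmat A * Rᵀ) * (R * (Aᵀ * (A * Aᵀ).adjugate))) (D • (pmat A * Rᵀ))) ?_ ?_
  · rw [Matrix.add_mul, Matrix.neg_mul, Matrix.smul_mul, fromCols_mul_fromRows]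
    have e1 : pmat (fromRows A R) = d • 1 - (fromRows A R)ᵀ *
      (fromRows A R * (fromRows A R)ᵀ).adjugate * fromRows A R := by
      unfold pmat
      rw [hdet]
    have e2 : R * pmat A = D • R - R * (Aᵀ * (A * Aᵀ).adjugate) * A := by
      unfold pmat
      rw [Matrix.mul_sub]
      simp only [Matrix.mul_smul, Matrix.mul_one, Matrix.mul_assoc, hDdef]
    rw [e1, e2]
    have e3 : d • pmat A = (D * d) • 1 - d • (Aᵀ * (A * Aᵀ).adjugate * A) := by
      unfold pmat
      rw [smul_sub, smul_smul, ← hDdef, mul_comm]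
    rw [e3]
    simp only [Matrix.mul_sub, Matrix.sub_mul, smul_sub, Matrix.mul_smul, Matrix.smul_mul,
      smul_smul, Matrix.mul_assoc]
    abel
  · have e1 : (D • pmat (fromRows A R)) * (fromRows A R)ᵀ = 0 := by
      rw [Matrix.smul_mul, pmat_mul_transpose, smul_zero]
    have e2 : (d • pmat A - pmat A * Rᵀ * (R * pmat A)) * (fromRows A R)ᵀ = 0 := by
      rw [transpose_fromRows, mul_fromCols, Matrix.sub_mul, Matrix.sub_mul]
      have f1 : pmat A * Rᵀ * (R * pmat A) * Aᵀ = 0 := by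
        rw [Matrix.mul_assoc, Matrix.mul_assoc R, pmat_mul_transpose]
        simp
      have f2 : pmat A * Rᵀ * (R * pmat A) * Rᵀ = d • (pmat A * Rᵀ) := by
        rw [Matrix.mul_assoc, hRPR, Matrix.mul_smul, Matrix.mul_one]
      rw [f1, f2, Matrix.smul_mul, Matrix.smul_mul, pmat_mul_transpose]
      simp
    rw [Matrix.sub_mul, e1, e2, sub_zero]

end Pool.Agent.Simplex.QP
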