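import Pool.Agent.Lib.MP_4d246d_lc.QP.ListLin
import Pool.Agent.Lib.MP_4d246d_lc.QP.ProjMat

/-!
# Correctness of the projector
-/

namespace Pool.Agent.Simplex.QP

open Matrix

/-! ### Further matrix facts -/

section

variable {ι : Type} [Fintype ι] [DecidableEq ι] {N : ℕ}

/-- a vector as a matrix with one row -/
def rowM (m : Fin N → ℤ) : Matrix Unit (Fin N) ℤ := Matrix.of fun _ => m

lemma rowM_apply (m : Fin N → ℤ) (i : Unit) (j : Fin N) : rowM m i j = m j := rfl

lemma mul_rowM_transpose (P : Matrix (Fin N) (Fin N) ℤ) (m : Fin N → ℤ) (i : Fin N) (j : Unit) :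
    (P * (rowM m)ᵀ) i j = (P *ᵥ m) i := by
  rw [Matrix.mul_apply]
  rfl

lemma rowM_mul (P : Matrix (Fin N) (Fin N) ℤ) (m : Fin N → ℤ) (i : Unit) (j : Fin N) :
    (rowM m * P) i j = (Pᵀ *ᵥ m) j := by
  rw [Matrix.mul_apply]
  refine Finset.sum_congr rfl fun k _ => ?_
  exact mul_comm _ _

lemma quad_eq (P : Matrix (Fin N) (Fin N) ℤ) (m : Fin N → ℤ) :
    (rowM m * P * (rowM m)ᵀ) () () = m ⬝ᵥ (P *ᵥ m) := by
  rw [Matrix.mul_assoc, Matrix.mul_apply]
  refine Finset.sum_congr rfl fun k _ => ?_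
  rw [mul_rowM_transpose, rowM_apply]

lemma det_mul_quad (A : Matrix ι (Fin N) ℤ) (m : Fin N → ℤ) :
    (A * Aᵀ).det * (m ⬝ᵥ (pmat A *ᵥ m)) = (pmat A *ᵥ m) ⬝ᵥ (pmat A *ᵥ m) := by
  have h1 : (pmat A *ᵥ m) ⬝ᵥ (pmat A *ᵥ m) = m ⬝ᵥ ((pmat A * pmat A) *ᵥ m) := by
    rw [← Matrix.mulVec_mulVec, Matrix.dotProduct_mulVec m (pmat A), ← Matrix.mulVec_transpose,
      pmat_transpose]
  rw [h1, pmat_mul_self, Matrix.smul_mulVec, dotProduct_smul, smul_eq_mul]

lemma quad_nonneg (A : Matrix ι (Fin N) ℤ) (hD : 0 < (A * Aᵀ).det) (m : Fin N → ℤ) :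
    0 ≤ m ⬝ᵥ (pmat A *ᵥ m) := by
  have h1 := det_mul_quad A m
  have h2 : 0 ≤ (pmat A *ᵥ m) ⬝ᵥ (pmat A *ᵥ m) :=
    Finset.sum_nonneg fun i _ => mul_self_nonneg _
  rw [← h1] at h2
  exact nonneg_of_mul_nonneg_right h2 hD

lemma mulVec_eq_zero_of_quad (A : Matrix ι (Fin N) ℤ) (m : Fin N → ℤ)
    (h : m ⬝ᵥ (pmat A *ᵥ m) = 0) : pmat A *ᵥ m = 0 := by
  have h1 := det_mul_quad A m
  rw [h, mul_zero] at h1
  funext i
  have h2 := (Finset.sum_eq_zero_iff_of_nonneg
    (fun i _ => mul_self_nonneg ((pmat A *ᵥ m) i))).1 h1.symm i (Finset.mem_univ i)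
  exact mul_self_eq_zero.1 h2

lemma pmat_entry_le (A : Matrix ι (Fin N) ℤ) (hD : 0 < (A * Aᵀ).det) (i j : Fin N) :
    |pmat A i j| ≤ (A * Aᵀ).det := by
  have hs : ∀ i j, pmat A j i = pmat A i j := fun i j => by
    conv_lhs => rw [← pmat_transpose A]
    rfl
  have h1 : ∀ i, ∑ k, pmat A i k * pmat A i k = (A * Aᵀ).det * pmat A i i := by
    intro i
    have h := congrFun (congrFun (pmat_mul_self A) i) i
    rw [Matrix.mul_apply] at h
    rw [Matrix.smul_apply, smul_eq_mul] at h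
    rw [← h]
    exact Finset.sum_congr rfl fun k _ => by rw [hs i k]
  have h2 : ∀ i j, pmat A i j * pmat A i j ≤ (A * Aᵀ).det * pmat A i i := by
    intro i j
    rw [← h1]
    exact Finset.single_le_sum (f := fun k => pmat A i k * pmat A i k)
      (fun k _ => mul_self_nonneg _) (Finset.mem_univ j)
  have h3 : pmat A i i ≤ (A * Aᵀ).det := by
    by_contra hcon
    push Not at hcon
    have := h2 i i
    nlinarith
  have h4 := h2 i j
  refine abs_le_of_sq_le_sq ?_ hD.le
  nlinarith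

lemma card_le_of_det_ne_zero (A : Matrix ι (Fin N) ℤ) (hD : (A * Aᵀ).det ≠ 0) :
    Fintype.card ι ≤ N := by
  have h1 : ((A * Aᵀ).map (Int.castRingHom ℚ)).det ≠ 0 := by
    rw [← RingHom.mapMatrix_apply, ← RingHom.map_det]
    simpa using hD
  rw [Matrix.map_mul] at h1
  have h2 := Matrix.rank_of_isUnit _ ((Matrix.isUnit_iff_isUnit_det _).2 (isUnit_iff_ne_zero.2 h1))
  have h3 := Matrix.rank_mul_le_left (A.map (Int.castRingHom ℚ)) (Aᵀ.map (Int.castRingHom ℚ))
  have h4 := Matrix.rank_le_card_width (A.map (Int.castRingHom ℚ))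
  rw [Fintype.card_fin] at h4
  omega

lemma det_gram_le (A : Matrix ι (Fin N) ℤ) (B : ℕ) (hD : (A * Aᵀ).det ≠ 0)
    (hB : ∀ i j, |A i j| ≤ B) :
    (A * Aᵀ).det ≤ ((N.factorial * (N * B ^ 2 + 1) ^ N : ℕ) : ℤ) := by
  have hc := card_le_of_det_ne_zero A hD
  have h1 : ∀ i j, |(A * Aᵀ) i j| ≤ (N * B ^ 2 + 1 : ℤ) := by
    intro i j
    rw [Matrix.mul_apply]
    refine (Finset.abs_sum_le_sum_abs _ _).trans ?_
    have h2 : ∀ k ∈ (Finset.univ : Finset (Fin N)), |A i k * Aᵀ k j| ≤ (B : ℤ) ^ 2 := by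
      intro k _
      rw [abs_mul, transpose_apply, pow_two]
      exact mul_le_mul (hB i k) (hB j k) (abs_nonneg _) (by positivity)
    refine (Finset.sum_le_sum h2).trans ?_
    simp
  have h2 := Matrix.det_le (A := A * Aᵀ) (abv := AbsoluteValue.abs) (x := (N * B ^ 2 + 1 : ℤ)) h1
  have h3 : (A * Aᵀ).det ≤ (Fintype.card ι).factorial • (N * B ^ 2 + 1 : ℤ) ^ Fintype.card ι :=
    (le_abs_self _).trans h2
  refine h3.trans ?_
  rw [nsmul_eq_mul]
  have h4 : (Fintype.card ι).factorial ≤ N.factorial := Nat.factorial_le hc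
  have h5 : (N * B ^ 2 + 1) ^ Fintype.card ι ≤ (N * B ^ 2 + 1) ^ N :=
    Nat.pow_le_pow_right (by omega) hc
  have h6 := Nat.mul_le_mul h4 h5
  exact_mod_cast h6

end

/-! ### Lists as vectors and matrices -/

/-- list to vector -/
def toV (N : ℕ) (v : List ℤ) : Fin N → ℤ := fun j => v.getD j 0

/-- list to matrix -/
def toM (N : ℕ) (P : List (List ℤ)) : Matrix (Fin N) (Fin N) ℤ :=
  Matrix.of fun i j => (P.getD i []).getD j 0

lemma dotZ_eq_dotProduct {N : ℕ} {u v : List ℤ} (h : u.length ≤ N ∨ v.length ≤ N) :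
    dotZ u v = toV N u ⬝ᵥ toV N v := dotZ_eq_fin u v N h

lemma toV_mulVecZ {N : ℕ} {P : List (List ℤ)} {m : List ℤ} (hm : m.length = N) :
    toV N (mulVecZ P m) = toM N P *ᵥ toV N m := by
  funext i
  unfold toV
  rw [getD_mulVecZ, dotZ_eq_fin _ _ N (Or.inr hm.le)]
  rfl

/-- The invariant of the Gram-Schmidt process. -/
def GS (N : ℕ) (rows : List (List ℤ)) (s : ℤ × List (List ℤ)) : Prop :=
  0 < s.1 ∧ s.2.length = N ∧ (∀ p ∈ s.2, p.length = N) ∧
    ∃ (ι : Type) (_ : Fintype ι) (_ : DecidableEq ι) (A : Matrix ι (Fin N) ℤ),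
      (∀ i, ∃ r ∈ rows, ∀ j, A i j = toV N r j) ∧ (A * Aᵀ).det = s.1 ∧ toM N s.2 = pmat A ∧
        ∀ r ∈ rows, pmat A *ᵥ toV N r = 0

lemma gs_init (N : ℕ) : GS N [] (1, idZ N) := by
  refine ⟨one_pos, by simp, fun p hp => ?_, Empty, inferInstance, inferInstance,
    Matrix.of fun i => i.elim, fun i => i.elim, by simp, ?_, by simp⟩
  · unfold idZ at hp
    obtain ⟨i, -, rfl⟩ := List.mem_map.1 hp
    simp
  · ext i j
    unfold pmat toM idZ
    rw [Matrix.of_apply, getD_map_range, if_pos i.2, getD_unitZ]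
    simp only [Matrix.sub_apply, Matrix.smul_apply, Matrix.one_apply]
    rw [Matrix.mul_apply]
    simp only [Finset.univ_eq_empty, Finset.sum_empty, sub_zero, Matrix.det_isEmpty, smul_eq_mul,
      one_mul]
    by_cases h : i = j
    · subst h; simp
    · rw [if_neg h, if_neg]
      rintro ⟨-, h2⟩
      exact h (Fin.ext h2.symm)

lemma gs_step {N : ℕ} {rows : List (List ℤ)} {s : ℤ × List (List ℤ)} (h : GS N rows s)
    {m : List ℤ} (hm : m.length = N) : GS N (rows ++ [m]) (projStep s m) := by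
  obtain ⟨hD, hl, hr, ι, _, _, A, hA, hdet, hP, hz⟩ := h
  have hq : dotZ m (mulVecZ s.2 m) = toV N m ⬝ᵥ (pmat A *ᵥ toV N m) := by
    rw [dotZ_eq_dotProduct (Or.inl hm.le), toV_mulVecZ hm, hP]
  unfold projStep
  split_ifs with h0
  · -- the new row depends on the old ones
    rw [hq] at h0
    refine ⟨hD, hl, hr, ι, inferInstance, inferInstance, A, fun i => ?_, hdet, hP, ?_⟩
    · obtain ⟨r, hr1, hr2⟩ := hA i
      exact ⟨r, by simp [hr1], hr2⟩
    · intro r hr1
      rcases List.mem_append.1 hr1 with h1 | h1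
      · exact hz r h1
      · rw [List.mem_singleton] at h1
        rw [h1]
        exact mulVec_eq_zero_of_quad A _ h0
  · have hDne : (A * Aᵀ).det ≠ 0 := by rw [hdet]; exact hD.ne'
    have hquad := quad_eq (pmat A) (toV N m)
    have hdpos : 0 < toV N m ⬝ᵥ (pmat A *ᵥ toV N m) := by
      refine lt_of_le_of_ne (quad_nonneg A (by rw [hdet]; exact hD) _) ?_
      rw [← hq]
      exact fun h => h0 h.symm
    have hid := pmat_fromRows A (rowM (toV N m)) hDne (by rw [hquad]; exact hdpos.ne')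
    have hentry : ∀ i j, s.1 * pmat (fromRows A (rowM (toV N m))) i j =
        (toV N m ⬝ᵥ (pmat A *ᵥ toV N m)) * pmat A i j -
          (pmat A *ᵥ toV N m) i * (pmat A *ᵥ toV N m) j := by
      intro i j
      have h1 := congrFun (congrFun hid i) j
      rw [hdet, hquad] at h1
      rw [Matrix.smul_apply, Matrix.sub_apply, Matrix.smul_apply, Matrix.mul_apply, smul_eq_mul,
        smul_eq_mul] at h1
      rw [h1]
      simp only [Finset.univ_unique, Finset.sum_singleton, mul_rowM_transpose, rowM_mul,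
        pmat_transpose]
    refine ⟨?_, ?_, ?_, ι ⊕ Unit, inferInstance, inferInstance, fromRows A (rowM (toV N m)),
      ?_, ?_, ?_, ?_⟩
    · rw [hq]; exact hdpos
    · simp [hl]
    · intro p hp
      obtain ⟨i, hi, rfl⟩ := List.mem_iff_getElem.1 hp
      rw [List.getElem_zipWith, List.length_zipWith, length_mulVecZ, hl,
        hr _ (List.getElem_mem _)]
      simp
    · intro i
      cases i with
      | inl i =>
        obtain ⟨r, hr1, hr2⟩ := hA i
        exact ⟨r, by simp [hr1], fun j => by rw [fromRows_apply_inl]; exact hr2 j⟩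
      | inr i =>
        exact ⟨m, by simp, fun j => by rw [fromRows_apply_inr]; rfl⟩
    · rw [det_gram_fromRows A _ hDne, hquad, hq]
    · ext i j
      have hi : (i : ℕ) < s.2.length := by rw [hl]; exact i.2
      have e1 : (i : ℕ) < (mulVecZ s.2 m).length := by rw [length_mulVecZ]; exact hi
      have hj1 : (j : ℕ) < (s.2[(i : ℕ)]).length := by rw [hr _ (List.getElem_mem _)]; exact j.2
      have hj2 : (j : ℕ) < (mulVecZ s.2 m).length := by rw [length_mulVecZ, hl]; exact j.2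
      have e2 : s.2[(i : ℕ)][(j : ℕ)] = pmat A i j := by
        rw [← hP]
        unfold toM
        rw [Matrix.of_apply, List.getD_eq_getElem _ _ hi, List.getD_eq_getElem _ _ hj1]
      have e3 : ∀ k : Fin N, ∀ hk : (k : ℕ) < (mulVecZ s.2 m).length,
          (mulVecZ s.2 m)[(k : ℕ)] = (pmat A *ᵥ toV N m) k := by
        intro k hk
        rw [← hP, ← toV_mulVecZ hm]
        unfold toV
        rw [List.getD_eq_getElem _ _ hk]
      unfold toM
      rw [Matrix.of_apply]
      have e4 : (List.zipWith (fun row ui => List.zipWith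
          (fun p uj => (dotZ m (mulVecZ s.2 m) * p - ui * uj) / s.1) row (mulVecZ s.2 m))
          s.2 (mulVecZ s.2 m)).getD i [] = List.zipWith
          (fun p uj => (dotZ m (mulVecZ s.2 m) * p - (mulVecZ s.2 m)[(i : ℕ)] * uj) / s.1)
          s.2[(i : ℕ)] (mulVecZ s.2 m) := by
        rw [List.getD_eq_getElem _ _ (by
          rw [List.length_zipWith, length_mulVecZ, hl, min_self]; exact i.2), List.getElem_zipWith]
      rw [e4, List.getD_eq_getElem _ _ (by
          rw [List.length_zipWith, length_mulVecZ, hl]; exact lt_min hj1 j.2),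
        List.getElem_zipWith, e2, e3 i e1, e3 j hj2, hq, ← hentry]
      exact Int.mul_ediv_cancel_left _ hD.ne'
    · intro r hr1
      rcases List.mem_append.1 hr1 with h1 | h1
      · have h2 := hz r h1
        have h3 : s.1 • (pmat (fromRows A (rowM (toV N m))) *ᵥ toV N r) = 0 := by
          rw [← hdet, ← Matrix.smul_mulVec, hid, Matrix.sub_mulVec, Matrix.smul_mulVec, h2,
            ← Matrix.mulVec_mulVec (toV N r) (pmat A * (rowM (toV N m))ᵀ)
              (rowM (toV N m) * pmat A),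
            ← Matrix.mulVec_mulVec (toV N r) (rowM (toV N m)) (pmat A), h2]
          simp
        rcases smul_eq_zero.1 h3 with h4 | h4
        · exact absurd h4 hD.ne'
        · exact h4
      · rw [List.mem_singleton] at h1
        rw [h1]
        have h2 := pmat_mul_transpose (fromRows A (rowM (toV N m)))
        funext i
        have h3 := congrFun (congrFun h2 i) (Sum.inr ())
        rw [Matrix.mul_apply] at h3
        exact h3

lemma gs_foldl {N : ℕ} : ∀ (l rows : List (List ℤ)) (s : ℤ × List (List ℤ)), GS N rows s →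
    (∀ r ∈ l, r.length = N) → GS N (rows ++ l) (l.foldl projStep s) := by
  intro l
  induction l with
  | nil => intro rows s h _; simpa using h
  | cons m l ih =>
    intro rows s h hl
    have h1 := ih (rows ++ [m]) (projStep s m) (gs_step h (hl m (by simp)))
      (fun r hr => hl r (by simp [hr]))
    simpa using h1

lemma gs_projZ {N : ℕ} {rows : List (List ℤ)} (hlen : ∀ r ∈ rows, r.length = N) :
    GS N rows (projZ N rows) := by
  have := gs_foldl rows [] (1, idZ N) (gs_init N) hlen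
  unfold projZ
  simpa using this

theorem projZ_spec (N : ℕ) (rows : List (List ℤ)) (hlen : ∀ r ∈ rows, r.length = N) :
    0 < (projZ N rows).1 ∧ (projZ N rows).2.length = N ∧
    (∀ p ∈ (projZ N rows).2, p.length = N) ∧
    (∀ i j, ((projZ N rows).2.getD i []).getD j 0 = ((projZ N rows).2.getD j []).getD i 0) ∧
    (∀ r ∈ rows, ∀ p ∈ (projZ N rows).2, dotZ p r = 0) ∧
    (∀ x : ℕ → ℝ, (∀ r ∈ rows, ldot r x = 0) → ∀ i < N,
      ldot ((projZ N rows).2.getD i []) x = ((projZ N rows).1 : ℝ) * x i) := by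
  obtain ⟨hD, hl, hr, ι, _, _, A, hA, hdet, hP, hz⟩ := gs_projZ hlen
  have hout : ∀ i j, N ≤ j → ((projZ N rows).2.getD i []).getD j 0 = 0 := by
    intro i j hj
    by_cases hi : i < (projZ N rows).2.length
    · refine getD_eq_zero ?_
      rw [List.getD_eq_getElem _ _ hi, hr _ (List.getElem_mem _)]
      exact hj
    · rw [List.getD_eq_default _ _ (by omega : (projZ N rows).2.length ≤ i)]
      simp
  have hout' : ∀ i j, N ≤ i → ((projZ N rows).2.getD i []).getD j 0 = 0 := by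
    intro i j hi
    rw [List.getD_eq_default _ _ (by omega : (projZ N rows).2.length ≤ i)]
    simp
  refine ⟨hD, hl, hr, fun i j => ?_, fun r hr1 p hp => ?_, fun x hx i hi => ?_⟩
  · by_cases hi : i < N
    · by_cases hj : j < N
      · have h1 : ∀ i j : Fin N, toM N (projZ N rows).2 i j = toM N (projZ N rows).2 j i := by
          intro i j
          rw [hP]
          conv_lhs => rw [← pmat_transpose A]
          rfl
        exact h1 ⟨i, hi⟩ ⟨j, hj⟩
      · rw [hout i j (by omega), hout' j i (by omega)]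
    · rw [hout' i j (by omega), hout j i (by omega)]
  · obtain ⟨i, hi, rfl⟩ := List.mem_iff_getElem.1 hp
    have hi' : i < N := by rw [← hl]; exact hi
    have h1 := congrFun (hz r hr1) ⟨i, hi'⟩
    rw [← hP, ← toV_mulVecZ (hlen r hr1)] at h1
    unfold toV at h1
    rw [getD_mulVecZ] at h1
    simp only [Pi.zero_apply] at h1
    rwa [List.getD_eq_getElem _ _ hi] at h1
  · have hlen' : ((projZ N rows).2.getD i []).length ≤ N := by
      rw [List.getD_eq_getElem _ _ (by omega), hr _ (List.getElem_mem _)]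
    rw [ldot_eq_fin _ _ N hlen']
    have h1 : ∀ k, ∑ j : Fin N, ((A k j : ℤ) : ℝ) * x j = 0 := by
      intro k
      obtain ⟨r, hr1, hr2⟩ := hA k
      have h2 := hx r hr1
      rw [ldot_eq_fin _ _ N (hlen r hr1).le] at h2
      rw [← h2]
      exact Finset.sum_congr rfl fun j _ => by rw [hr2 j]; rfl
    have h2 : ∀ j : Fin N, ((projZ N rows).2.getD i []).getD j 0 =
        (if (⟨i, hi⟩ : Fin N) = j then (projZ N rows).1 else 0) -
          ∑ k, (Aᵀ * (A * Aᵀ).adjugate) ⟨i, hi⟩ k * A k j := by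
      intro j
      have h3 : toM N (projZ N rows).2 ⟨i, hi⟩ j = pmat A ⟨i, hi⟩ j := by rw [hP]
      unfold toM pmat at h3
      rw [Matrix.of_apply, Matrix.sub_apply, Matrix.smul_apply, Matrix.mul_apply,
        Matrix.one_apply, hdet] at h3
      rw [h3]
      split_ifs <;> simp
    have h3 : ∀ j : Fin N, ((((projZ N rows).2.getD i []).getD j 0 : ℤ) : ℝ) * x j =
        (if (⟨i, hi⟩ : Fin N) = j then ((projZ N rows).1 : ℝ) * x j else 0) -
          ∑ k, (((Aᵀ * (A * Aᵀ).adjugate) ⟨i, hi⟩ k : ℤ) : ℝ) * (((A k j : ℤ) : ℝ) * x j) := by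
      intro j
      rw [h2 j]
      push_cast
      rw [sub_mul, Finset.sum_mul]
      congr 1
      · split_ifs <;> simp
      · exact Finset.sum_congr rfl fun k _ => by ring
    rw [Finset.sum_congr rfl fun j _ => h3 j, Finset.sum_sub_distrib, Finset.sum_comm]
    have h4 : ∀ k, ∑ j : Fin N, (((Aᵀ * (A * Aᵀ).adjugate) ⟨i, hi⟩ k : ℤ) : ℝ) *
        (((A k j : ℤ) : ℝ) * x j) = 0 := by
      intro k
      rw [← Finset.mul_sum, h1 k, mul_zero]
    rw [Finset.sum_congr rfl fun k _ => h4 k]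
    simp

theorem projZ_bound (N : ℕ) (rows : List (List ℤ)) (hlen : ∀ r ∈ rows, r.length = N)
    (B : ℕ) (hB : ∀ r ∈ rows, ∀ a ∈ r, |a| ≤ B) :
    (projZ N rows).1 ≤ ((N.factorial * (N * B ^ 2 + 1) ^ N : ℕ) : ℤ) ∧
    ∀ p ∈ (projZ N rows).2, ∀ a ∈ p, |a| ≤ (projZ N rows).1 := by
  obtain ⟨hD, hl, hr, ι, _, _, A, hA, hdet, hP, hz⟩ := gs_projZ hlen
  refine ⟨?_, fun p hp a ha => ?_⟩
  · rw [← hdet]
    refine det_gram_le A B (by rw [hdet]; exact hD.ne') fun i j => ?_
    obtain ⟨r, hr1, hr2⟩ := hA i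
    rw [hr2 j]
    unfold toV
    refine hB r hr1 _ (getD_mem ?_)
    rw [hlen r hr1]
    exact j.2
  · obtain ⟨i, hi, rfl⟩ := List.mem_iff_getElem.1 hp
    obtain ⟨j, hj, rfl⟩ := List.mem_iff_getElem.1 ha
    have hi' : i < N := by rw [← hl]; exact hi
    have hj' : j < N := by rw [← hr _ hp]; exact hj
    have h1 := pmat_entry_le A (by rw [hdet]; exact hD) ⟨i, hi'⟩ ⟨j, hj'⟩
    rw [← hP, hdet] at h1
    unfold toM at h1
    rw [Matrix.of_apply, List.getD_eq_getElem _ _ hi, List.getD_eq_getElem _ _ hj] at h1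
    exact h1

end Pool.Agent.Simplex.QP
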