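import Pool.Agent.Lib.MP_4d246d_lc.QP.LpSolve
import Pool.Agent.Lib.MP_4d246d_lc.QP.Duality
import Pool.Agent.Lib.MP_4d246d_lc.QP.Proj

/-!
# The linear programming solver is correct
-/

namespace Pool.Agent.Simplex.QP

theorem isProj_projZ (N : ℕ) (rows : List (List ℤ)) (h : ∀ r ∈ rows, r.length = N) :
    IsProj N rows (projZ N rows).1 (projZ N rows).2 := by
  obtain ⟨h1, h2, h3, h4, h5, h6⟩ := projZ_spec N rows h
  exact ⟨h1, h2, h3, h4, h5, h6⟩

/-- The linear programming solver is correct. -/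
theorem lpsolve_spec (n : ℕ) (E I : List (List ℤ × ℤ)) (c : List ℤ) :
    match lpsolve n E I c with
    | .infeas => ¬ ∃ x, Sat n E I x
    | .unb => (∃ x, Sat n E I x) ∧ ∀ M : ℝ, ∃ x, Sat n E I x ∧ M < rdot n c x
    | .opt x d => 0 < d ∧ x.length = n ∧
        Sat n E I (fun j => ((x.getD j 0 : ℤ) : ℝ) / d) ∧
        ∀ y, Sat n E I y → rdot n c y ≤ rdot n c (fun j => ((x.getD j 0 : ℤ) : ℝ) / d) :=
  lpsolve_spec_aux isProj_projZ lp_duality n E I c

end Pool.Agent.Simplex.QP
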