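import Pool.Agent.Lib.MP_4d246d_lc.QP.Next

/-! Vertices and edges in the sense of convex geometry. -/

namespace Pool.Agent.Simplex.QP

variable {E : Type*} [AddCommGroup E] [Module ℝ E] {S : Sys E}

namespace Sys

theorem sl_comb (i : ℕ) (x y : E) {a b : ℝ} (h : a + b = 1) :
    S.sl i (a • x + b • y) = a * S.sl i x + b * S.sl i y := by
  have e : a • x + b • y = x + b • (y - x) := by
    have : a = 1 - b := by linarith
    rw [this, smul_sub, sub_smul, one_smul]
    abel
  rw [e, S.smul_add, S.ln_sub]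
  have : a = 1 - b := by linarith
  rw [this]
  ring

theorem convex_Q (J I : List ℕ) : Convex ℝ (S.Q J I) := by
  intro x hx y hy a b ha hb hab
  refine ⟨fun i hi => ?_, fun i hi => ?_⟩
  · rw [S.sl_comb i x y hab, hx.1 i hi, hy.1 i hi]; ring
  · rw [S.sl_comb i x y hab]
    exact add_nonneg (mul_nonneg ha (hx.2 i hi)) (mul_nonneg hb (hy.2 i hi))

/-- faces are extreme -/
theorem extreme_Q {M : ℕ} {J : List ℕ} (hJ : ∀ j ∈ J, j < M) :
    IsExtreme ℝ (S.Q [] (List.range M)) (S.Q J (List.range M)) := by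
  refine ⟨fun x hx => ⟨fun i hi => by simp at hi, hx.2⟩, ?_⟩
  rintro x hx y hy z hz ⟨a, b, ha, hb, hab, rfl⟩
  refine ⟨fun j hj => ?_, hx.2⟩
  have h1 := hz.1 j hj
  rw [S.sl_comb j x y hab] at h1
  have h2 := hx.2 j (List.mem_range.2 (hJ j hj))
  have h3 := hy.2 j (List.mem_range.2 (hJ j hj))
  have h4 := mul_nonneg hb.le h3
  have h5 := mul_nonneg ha.le h2
  have h6 : a * S.sl j x = 0 := by linarith
  rcases mul_eq_zero.1 h6 with h7 | h7
  · exact absurd h7 ha.ne'
  · exact h7

/-- vertices are extreme points -/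
theorem extreme_of_vx {M : ℕ} {x : E} (hx : x ∈ S.Q [] (List.range M))
    (hv : S.Vx (fun i => i < M) x) : x ∈ Set.extremePoints ℝ (S.Q [] (List.range M)) := by
  refine ⟨hx, ?_⟩
  rintro y hy z hz ⟨a, b, ha, hb, hab, rfl⟩
  have key : ∀ i, i < M → S.sl i (a • y + b • z) = 0 → S.sl i y = 0 ∧ S.sl i z = 0 := by
    intro i hi h0
    rw [S.sl_comb i y z hab] at h0
    have h2 := hy.2 i (List.mem_range.2 hi)
    have h3 := hz.2 i (List.mem_range.2 hi)
    have h4 := mul_nonneg hb.le h3
    have h5 := mul_nonneg ha.le h2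
    constructor
    · have h6 : a * S.sl i y = 0 := by linarith
      exact (mul_eq_zero.1 h6).resolve_left ha.ne'
    · have h6 : b * S.sl i z = 0 := by linarith
      exact (mul_eq_zero.1 h6).resolve_left hb.ne'
  have h1 : z - y = 0 := hv _ fun i hi h0 => by
    rw [S.ln_sub, (key i hi h0).1, (key i hi h0).2, sub_zero]
  have h2 : z = y := sub_eq_zero.1 h1
  subst h2
  rw [← add_smul, hab, one_smul]

/-- extreme points are vertices -/
theorem vx_of_extreme {M : ℕ} {x : E} (hx : x ∈ Set.extremePoints ℝ (S.Q [] (List.range M))) :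
    S.Vx (fun i => i < M) x := by
  intro q hq
  have hx1 := hx.1
  have h1 : ∀ i ∈ List.range M, 0 < S.sl i x ∨ (0 ≤ S.sl i x ∧ 0 ≤ S.ln i q) := by
    intro i hi
    rcases (hx1.2 i hi).lt_or_eq with h | h
    · exact Or.inl h
    · exact Or.inr ⟨h.le, (hq i (List.mem_range.1 hi) h.symm).ge⟩
  have h2 : ∀ i ∈ List.range M, 0 < S.sl i x ∨ (0 ≤ S.sl i x ∧ 0 ≤ S.ln i (-q)) := by
    intro i hi
    rcases (hx1.2 i hi).lt_or_eq with h | h
    · exact Or.inl h
    · refine Or.inr ⟨h.le, ?_⟩
      rw [map_neg, hq i (List.mem_range.1 hi) h.symm, neg_zero]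
  obtain ⟨e1, he1, h3⟩ := S.pert _ x q h1
  obtain ⟨e2, he2, h4⟩ := S.pert _ x (-q) h2
  set e := min e1 e2 with he
  have hpos : 0 < e := lt_min he1 he2
  have h5 : x + e • q ∈ S.Q [] (List.range M) :=
    ⟨fun i hi => by simp at hi, h3 e hpos.le (min_le_left _ _)⟩
  have h6 : x + e • (-q) ∈ S.Q [] (List.range M) :=
    ⟨fun i hi => by simp at hi, h4 e hpos.le (min_le_right _ _)⟩
  have h7 : x ∈ openSegment ℝ (x + e • q) (x + e • (-q)) := by
    refine ⟨1 / 2, 1 / 2, by norm_num, by norm_num, by norm_num, ?_⟩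
    rw [smul_neg, _root_.smul_add, _root_.smul_add, smul_neg]
    have : (1 / 2 : ℝ) • x + (1 / 2 : ℝ) • x = x := by rw [← add_smul]; norm_num
    calc _ = (1 / 2 : ℝ) • x + (1 / 2 : ℝ) • x := by abel
      _ = x := this
  have h8 := hx.2 h5 h6 h7
  have h9 : e • q = 0 := by
    have : x + e • q = x + 0 := by rw [add_zero]; exact h8
    exact add_left_cancel this
  exact (smul_eq_zero.1 h9).resolve_left hpos.ne'

end Sys

theorem EStep.edge {M : ℕ} {x y : E} (h : EStep S M x y) :
    IsExtreme ℝ (S.Q [] (List.range M)) (segment ℝ x y) ∧ S.c x < S.c y ∧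
      x ∈ Set.extremePoints ℝ (S.Q [] (List.range M)) ∧
      y ∈ Set.extremePoints ℝ (S.Q [] (List.range M)) := by
  obtain ⟨J, z, t, hJ, hz, hx, hy, hc, ht, hxy, hvx, hvy⟩ := h
  have hz0 : z ≠ 0 := by rintro rfl; simp at hc
  have hx' : x ∈ S.Q [] (List.range M) := ⟨fun i hi => by simp at hi, hx.2⟩
  have hy' : y ∈ S.Q [] (List.range M) := ⟨fun i hi => by simp at hi, hy.2⟩
  refine ⟨?_, ?_, S.extreme_of_vx hx' hvx, S.extreme_of_vx hy' hvy⟩
  · have e : segment ℝ x y = S.Q J (List.range M) := by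
      apply Set.Subset.antisymm
      · exact (S.convex_Q J _).segment_subset hx hy
      · intro w hw
        obtain ⟨s, hs⟩ := hz.2 (w - x) fun j hj => by
          rw [S.ln_sub, hx.1 j hj, hw.1 j hj, sub_zero]
        have hw' : w = x + s • z := by rw [← hs]; abel
        obtain ⟨i, hi, hix, hiz⟩ : ∃ i < M, S.sl i x = 0 ∧ S.ln i z ≠ 0 := by
          by_contra hno
          push Not at hno
          exact hz0 (hvx z fun i hi h0 => hno i hi h0)
        obtain ⟨i', hi', hix', hiz'⟩ : ∃ i < M, S.sl i y = 0 ∧ S.ln i z ≠ 0 := by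
          by_contra hno
          push Not at hno
          exact hz0 (hvy z fun i hi h0 => hno i hi h0)
        have hs0 : 0 ≤ s := by
          have h1 := hy.2 i (List.mem_range.2 hi)
          rw [hxy, S.smul_add, hix, zero_add] at h1
          have h2 : 0 < S.ln i z := by
            rcases lt_or_gt_of_ne hiz with h | h
            · exact absurd (mul_neg_of_pos_of_neg ht h) (not_lt.2 h1)
            · exact h
          have h3 := hw.2 i (List.mem_range.2 hi)
          rw [hw', S.smul_add, hix, zero_add] at h3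
          exact nonneg_of_mul_nonneg_left h3 h2
        have hst : s ≤ t := by
          have hyx : S.sl i' x = - (t * S.ln i' z) := by
            have := S.smul_add i' x z t
            rw [← hxy, hix'] at this
            linarith
          have h1 := hx.2 i' (List.mem_range.2 hi')
          rw [hyx] at h1
          have h2 : S.ln i' z < 0 := by
            rcases lt_or_gt_of_ne hiz' with h | h
            · exact h
            · have := mul_pos ht h
              linarith
          have h3 := hw.2 i' (List.mem_range.2 hi')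
          rw [hw', S.smul_add, hyx] at h3
          by_contra hlt
          push Not at hlt
          have := mul_lt_mul_of_neg_right hlt h2
          linarith
        rw [segment_eq_image_lineMap]
        refine ⟨s / t, ⟨div_nonneg hs0 ht.le, (div_le_one ht).2 hst⟩, ?_⟩
        rw [AffineMap.lineMap_apply, vsub_eq_sub, vadd_eq_add, hw', hxy, add_sub_cancel_left,
          smul_smul, div_mul_cancel₀ _ ht.ne', add_comm]
    rw [e]
    exact S.extreme_Q hJ
  · rw [hxy, map_add, map_smul, smul_eq_mul]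
    have := mul_pos ht hc
    linarith

theorem RStep.ray {M : ℕ} {J0 : List ℕ} {x : E} (h : RStep S M J0 x) :
    ∃ z, 0 < S.c z ∧ IsExtreme ℝ (S.Q [] (List.range M)) {w | ∃ s : ℝ, 0 ≤ s ∧ w = x + s • z} ∧
      x ∈ Set.extremePoints ℝ (S.Q [] (List.range M)) := by
  obtain ⟨J, z, hJ, -, hz, hx, hc, hi, hvx⟩ := h
  have hz0 : z ≠ 0 := by rintro rfl; simp at hc
  have hx' : x ∈ S.Q [] (List.range M) := ⟨fun i hi => by simp at hi, hx.2⟩
  refine ⟨z, hc, ?_, S.extreme_of_vx hx' hvx⟩
  have e : {w | ∃ s : ℝ, 0 ≤ s ∧ w = x + s • z} = S.Q J (List.range M) := by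
    apply Set.Subset.antisymm
    · rintro w ⟨s, hs, rfl⟩
      refine ⟨fun j hj => ?_, fun i hi' => ?_⟩
      · rw [S.smul_add, hx.1 j hj, hz.1 j hj]; ring
      · rw [S.smul_add]
        exact add_nonneg (hx.2 i hi') (mul_nonneg hs (hi i (List.mem_range.1 hi')))
    · intro w hw
      obtain ⟨s, hs⟩ := hz.2 (w - x) fun j hj => by
        rw [S.ln_sub, hx.1 j hj, hw.1 j hj, sub_zero]
      have hw' : w = x + s • z := by rw [← hs]; abel
      obtain ⟨i, hiM, hix, hiz⟩ : ∃ i < M, S.sl i x = 0 ∧ S.ln i z ≠ 0 := by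
        by_contra hno
        push Not at hno
        exact hz0 (hvx z fun i hi h0 => hno i hi h0)
      refine ⟨s, ?_, hw'⟩
      have h2 : 0 < S.ln i z := lt_of_le_of_ne (hi i hiM) (Ne.symm hiz)
      have h3 := hw.2 i (List.mem_range.2 hiM)
      rw [hw', S.smul_add, hix, zero_add] at h3
      exact nonneg_of_mul_nonneg_left h3 h2
  rw [e]
  exact S.extreme_Q hJ

end Pool.Agent.Simplex.QP
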