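import Pool.Agent.Lib.MP_4d246d_lc.QP.PolyMachine

/-!
# Conversion of rational data in polynomial time
-/

namespace Pool.Agent.Lib.PolyTime

open Pool.Agent.Simplex.QP Function

section

variable {α β γ δ ε : Type*} [TEnc α] [TEnc β] [TEnc γ] [TEnc δ] [TEnc ε]

namespace PolyF

theorem denZ {l : β → List ℚ} (hl : PolyF l) : PolyF (fun b => denZ (l b)) :=
  (hl.map (h := fun _ (q : ℚ) => ((q.den : ℕ) : ℤ)) snd'.ratDenZ).intProd

theorem clr {d : β → ℤ} {l : β → List ℚ} (hd : PolyF d) (hl : PolyF l) :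
    PolyF (fun b => clr (d b) (l b)) :=
  hl.map (h := fun b (q : ℚ) => q.num * (d b / (q.den : ℤ)))
    (snd'.ratNum.intMul ((hd.comp fst').intEdiv snd'.ratDenZ))

theorem clrRow {r : β → List ℚ × ℚ} (hr : PolyF r) : PolyF (fun b => clrRow (r b)) := by
  have hd := PolyF.denZ (hr.snd.cons hr.fst)
  exact (PolyF.clr hd hr.fst).pair (hr.snd.ratNum.intMul (hd.intEdiv hr.snd.ratDenZ))

theorem staOf {P : β → Inp} (hP : PolyF P) : PolyF (fun b => staOf (P b)) := by
  refine hP.fst.pair (((((hP.snd.fst.zip hP.snd.snd.fst).map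
    (h := fun _ r => Pool.Agent.Simplex.QP.clrRow r) (PolyF.clrRow snd')).append
    (hP.fst.range.map (h := fun b j => (Pool.Agent.Simplex.QP.negZ
      (Pool.Agent.Simplex.QP.unitZ (P b).1 j), (0 : ℤ)))
      ((PolyF.negZ (PolyF.unitZ (hP.fst.comp fst') snd')).pair (const 0))))).pair ?_)
  exact PolyF.clr (PolyF.denZ hP.snd.snd.snd.fst) hP.snd.snd.snd.fst

theorem pntOf {P : β → Inp} (hP : PolyF P) : PolyF (fun b => pntOf (P b)) :=
  (PolyF.clr (PolyF.denZ hP.snd.snd.snd.snd) hP.snd.snd.snd.snd).pair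
    (PolyF.denZ hP.snd.snd.snd.snd)

theorem ratsOf {p : β → Pnt} (hp : PolyF p) : PolyF (fun b => ratsOf (p b)) := by
  refine (hp.fst.map (h := fun b (a : ℤ) => (a : ℚ) /
    ((Pool.Agent.Simplex.QP.dn (p b).2 : ℤ) : ℚ))
    (snd'.ratDivZ (PolyF.dn (hp.snd.comp fst')))).congr fun b => ?_
  unfold Pool.Agent.Simplex.QP.ratsOf
  first
    | rfl
    | (induction (p b).1 with
      | nil => rfl
      | cons a l ih => simpa using ih)

end PolyF

end

end Pool.Agent.Lib.PolyTime
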