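import Pool.Agent.Lib.MP_4d246d_lc.QP.Next

/-! The run from the root frame. -/

namespace Pool.Agent.Simplex.QP

variable {Pt Vl : Type} [DecidableEq Pt] {o : Orc Pt Vl} {vle : Vl → Vl → Bool}
variable {E : Type*} [AddCommGroup E] [Module ℝ E] {S : Sys E} {val : Pt → E}

/-- The run of the rule from a good root frame. -/
theorem run_root [FiniteDimensional ℝ E] (ho : Spec o vle S val) (hv : VOrd vle) {f₀ : Frame}
    {x₀ : Pt} {d k : ℕ} (hG : Good S o.M (val x₀) f₀ [])
    (hd : Module.finrank ℝ (S.V f₀.J) ≤ d) (hk : (active o vle x₀ f₀.J f₀.I).length ≤ k) :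
    ∃ N ≤ hb d k,
      (∀ t, GoodS o vle S val f₀ ((next o vle)^[t] (x₀, [f₀], .running))) ∧
      (∀ t ≤ N, ((next o vle)^[t] (x₀, [f₀], .running)).2.2 = .running) ∧
      (∀ t < N, EStep S o.M (val ((next o vle)^[t] (x₀, [f₀], .running)).1)
        (val ((next o vle)^[t + 1] (x₀, [f₀], .running)).1)) ∧
      ((next o vle)^[N + 1] (x₀, [f₀], .running)).1 =
        ((next o vle)^[N] (x₀, [f₀], .running)).1 ∧
      (((next o vle)^[N + 1] (x₀, [f₀], .running)).2.2 = .optimal ∧
          Good S o.M (val ((next o vle)^[N] (x₀, [f₀], .running)).1) f₀ [] ∧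
          (∀ z ∈ S.Q f₀.J f₀.I, S.c z ≤ S.c (val ((next o vle)^[N] (x₀, [f₀], .running)).1)) ∨
        ((next o vle)^[N + 1] (x₀, [f₀], .running)).2.2 = .unbounded ∧
          RStep S o.M f₀.J (val ((next o vle)^[N] (x₀, [f₀], .running)).1)) := by
  -- all states are good
  have hgood : ∀ t, GoodS o vle S val f₀ ((next o vle)^[t] (x₀, [f₀], .running)) := by
    intro t
    induction t with
    | zero => exact GoodS.run x₀ f₀ [] hG rfl
    | succ t ih =>
      rw [Function.iterate_succ_apply']
      exact (next_good ho ih).1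
  obtain ⟨s', n, h1, h2, h3⟩ := big ho hv k d x₀ f₀ [] hG hk hd
  -- a run to a halting state
  obtain ⟨s'', h4, h5⟩ : ∃ s'', Runs o vle (x₀, [f₀], .running) s'' n ∧ s''.2.2 ≠ .running := by
    cases h3 with
    | opt w a b c =>
      obtain ⟨ha, hio⟩ := opt_active ho a c
      refine ⟨(w, [f₀], .optimal), ?_, by simp⟩
      have hq : Runs o vle (w, [f₀], .running) (w, [f₀], .optimal) 0 := by
        refine Runs.quiet ?_ ?_
        · rw [step_fin ha hio]
        · rw [step_fin ha hio]; exact Runs.refl _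
      exact h1.trans hq
    | hit y pre g p r' i e1 _ _ _ _ =>
      exfalso
      have := congrArg List.length e1
      simp at this
      omega
    | unb w f' r' a b c d => exact ⟨_, h1, by simp⟩
  obtain ⟨N, h6, h7, h8⟩ := halts ho n _ _ h4 h5 (hgood 0) rfl
  have hlast := next_good ho (hgood N)
  rw [← Function.iterate_succ_apply' (next o vle)] at hlast
  refine ⟨N, h6.trans h2, hgood, h7, fun t ht => ?_, hlast.2.2 h8, ?_⟩
  · have h9 := next_good ho (hgood t)
    rw [← Function.iterate_succ_apply' (next o vle)] at h9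
    exact h9.2.1 (h7 (t + 1) ht)
  · have h10 := hgood (N + 1)
    have h11 := hlast.2.2 h8
    rw [← h11]
    revert h8
    generalize (next o vle)^[N + 1] (x₀, [f₀], .running) = s at h10
    intro h8
    cases h10 with
    | run x f r a b => exact absurd rfl h8
    | opt x a b => exact Or.inl ⟨rfl, a, b⟩
    | unb x f r a b => exact Or.inr ⟨rfl, b⟩

end Pool.Agent.Simplex.QP
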