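import Pool.Agent.Lib.MP_4d246d_lc.QP.PolySolver

/-!
# Linear dependence of integer rows
-/

namespace Pool.Agent.Simplex.QP

/-- Does the form `r` vanish on the common kernel of the forms `rows`? -/
def depZ (N : ℕ) (rows : List (List ℤ)) (r : List ℤ) : Bool :=
  (mulVecZ (projZ N (rows.map (fun s => padZ N s))).2 (padZ N r)).all (fun a => decide (a = 0))

theorem ldot_padZ_rdotD (N : ℕ) (r : List ℤ) (x : ℕ → ℝ) :
    ldot (padZ N r) x = rdot N r (fun j => x j) := ldot_padZ N r x

theorem depZ_spec (N : ℕ) (rows : List (List ℤ)) (r : List ℤ) :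
    depZ N rows r = true ↔
      ∀ x : Fin N → ℝ, (∀ s ∈ rows, rdot N s x = 0) → rdot N r x = 0 := by
  have hlen : ∀ s ∈ rows.map (fun s => padZ N s), s.length = N := by
    intro s hs
    obtain ⟨s', -, rfl⟩ := List.mem_map.1 hs
    exact length_padZ N s'
  obtain ⟨hD, hl, hr, hsym, hker, hfix⟩ := projZ_spec N _ hlen
  set D := (projZ N (rows.map (fun s => padZ N s))).1 with hDdef
  set P := (projZ N (rows.map (fun s => padZ N s))).2 with hPdef
  have hrow : ∀ i < N, (P.getD i []).length = N := fun i hi =>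
    hr _ (getD_mem (by omega))
  have hdep : depZ N rows r = true ↔ ∀ i < N, dotZ (P.getD i []) (padZ N r) = 0 := by
    unfold depZ
    rw [← hPdef, List.all_eq_true]
    constructor
    · intro h i hi
      have h1 : (mulVecZ P (padZ N r)).getD i 0 ∈ mulVecZ P (padZ N r) :=
        getD_mem (by rw [length_mulVecZ]; omega)
      have h2 := h _ h1
      rw [getD_mulVecZ] at h2
      exact of_decide_eq_true h2
    · intro h a ha
      unfold mulVecZ at ha
      obtain ⟨p, hp, rfl⟩ := List.mem_map.1 ha
      obtain ⟨i, hi, rfl⟩ := List.mem_iff_getElem.1 hp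
      have h1 := h i (by omega)
      rw [List.getD_eq_getElem _ _ hi] at h1
      exact decide_eq_true h1
  rw [hdep]
  constructor
  · intro h x hx
    -- extend `x` by zero
    let y : ℕ → ℝ := fun j => if hj : j < N then x ⟨j, hj⟩ else 0
    have hy : ∀ s : List ℤ, ldot (padZ N s) y = rdot N s x := by
      intro s
      rw [ldot_padZ_rdotD]
      refine congrArg (rdot N s) (funext fun j => ?_)
      simp only [y, j.2, dif_pos]
    have h1 : ∀ s ∈ rows.map (fun s => padZ N s), ldot s y = 0 := by
      intro s hs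
      obtain ⟨s', hs', rfl⟩ := List.mem_map.1 hs
      rw [hy]
      exact hx s' hs'
    have h2 := hfix y h1
    have h3 : (D : ℝ) * ldot (padZ N r) y = 0 := by
      rw [ldot_eq_fin _ _ N (by simp), Finset.mul_sum]
      have h4 : ∀ i : Fin N, (D : ℝ) * ((((padZ N r).getD i 0 : ℤ) : ℝ) * y i) =
          ∑ j : Fin N, (((padZ N r).getD i 0 : ℤ) : ℝ) *
            ((((P.getD i []).getD j 0 : ℤ) : ℝ) * y j) := by
        intro i
        rw [← Finset.mul_sum, ← ldot_eq_fin (P.getD i []) y N (hrow i i.2).le, h2 i i.2]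
        ring
      rw [Finset.sum_congr rfl fun i _ => h4 i, Finset.sum_comm]
      refine Finset.sum_eq_zero fun j _ => ?_
      have h5 := h j j.2
      rw [dotZ_eq_fin _ _ N (Or.inl (hrow j j.2).le)] at h5
      have h6 : ∑ i : Fin N, (((padZ N r).getD i 0 : ℤ) : ℝ) *
          ((((P.getD i []).getD j 0 : ℤ) : ℝ) * y j) =
          ((∑ i : Fin N, (P.getD j []).getD i 0 * (padZ N r).getD i 0 : ℤ) : ℝ) * y j := by
        push_cast
        rw [Finset.sum_mul]
        refine Finset.sum_congr rfl fun i _ => ?_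
        rw [hsym i j]
        ring
      rw [h6, h5]
      simp
    rw [← hy]
    have hD' : (D : ℝ) ≠ 0 := by exact_mod_cast hD.ne'
    exact (mul_eq_zero.1 h3).resolve_left hD'
  · intro h i hi
    have h1 := h (fun j => (((P.getD i []).getD j 0 : ℤ) : ℝ)) (fun s hs => ?_)
    · rw [dotZ_comm, dotZ_eq_fin _ _ N (Or.inl (by simp))]
      unfold rdot at h1
      have h2 : ∀ j : Fin N, (padZ N r).getD j 0 = r.getD j 0 := fun j => by
        rw [getD_padZ, if_pos j.2]
      rw [Finset.sum_congr rfl fun j _ => by rw [h2 j]]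
      beta_reduce at h1
      exact_mod_cast h1
    · have h2 := hker (padZ N s) (List.mem_map.2 ⟨s, hs, rfl⟩) (P.getD i [])
        (getD_mem (by omega))
      rw [dotZ_comm, dotZ_eq_fin _ _ N (Or.inl (by simp))] at h2
      unfold rdot
      have h3 : ∀ j : Fin N, (padZ N s).getD j 0 = s.getD j 0 := fun j => by
        rw [getD_padZ, if_pos j.2]
      rw [Finset.sum_congr rfl fun j _ => by rw [h3 j]] at h2
      beta_reduce
      exact_mod_cast h2

end Pool.Agent.Simplex.QP

namespace Pool.Agent.Lib.PolyTime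

open Pool.Agent.Simplex.QP

section

variable {α β γ δ ε : Type*} [TEnc α] [TEnc β] [TEnc γ] [TEnc δ] [TEnc ε]

namespace PolyF

theorem depZ {N : α → ℕ} {rows : α → List (List ℤ)} {r : α → List ℤ} (hN : PolyF N)
    (hrows : PolyF rows) (hr : PolyF r) : PolyF (fun x => depZ (N x) (rows x) (r x)) := by
  have hP : PolyF (fun x => (Pool.Agent.Simplex.QP.projZ (N x)
      ((rows x).map (fun s => Pool.Agent.Simplex.QP.padZ (N x) s))).2) := by
    refine (PolyF.projZ projBound hN (hrows.map
      (h := fun x r => Pool.Agent.Simplex.QP.padZ (N x) r) (PolyF.padZ (hN.comp fst') snd'))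
      fun x r hr => ?_).snd
    obtain ⟨r', -, rfl⟩ := List.mem_map.1 hr
    exact length_padZ _ _
  exact (PolyF.mulVecZ hP (PolyF.padZ hN hr)).all (p := fun _ a => decide (a = 0))
    (snd'.intEq (const 0))

end PolyF

end

end Pool.Agent.Lib.PolyTime
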