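import Pool.Agent.Lib.MP_4d246d_lc.QP.Machine
import Pool.Agent.Lib.MP_4d246d_lc.QP.Dep
import Pool.Agent.Lib.PolyTime.RatBin

/-! The concrete oracle, the root frame, and the conversion from and to rational data. -/

namespace Pool.Agent.Simplex.QP

open Pool.Agent.Lib.PolyTime

instance : TEnc Status := ⟨fun s => match s with
  | .running => enc (0 : ℕ)
  | .optimal => enc (1 : ℕ)
  | .unbounded => enc (2 : ℕ)⟩

/-- integer data of a linear program: dimension, rows `a x ≤ b`, objective -/
abbrev Sta : Type := ℕ × List (List ℤ × ℤ) × List ℤ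

/-- points: `p.1 / p.2` -/
abbrev Pnt : Type := List ℤ × ℤ

/-- a positive denominator -/
def dn (d : ℤ) : ℤ := if 0 < d then d else 1

/-- comparison of fractions -/
def vleZ (u v : ℤ × ℤ) : Bool := decide (u.1 * dn v.2 ≤ v.1 * dn u.2)

/-- a row of the data -/
def rowOf (D : Sta) (i : ℕ) : List ℤ × ℤ := D.2.1.getD i ([], 0)

/-- tightness -/
def ttZ (D : Sta) (p : Pnt) (i : ℕ) : Bool :=
  decide (dotZ (padZ D.1 (rowOf D i).1) p.1 = (rowOf D i).2 * dn p.2)

/-- objective value -/
def objZ (D : Sta) (p : Pnt) : ℤ × ℤ := (dotZ (padZ D.1 D.2.2) p.1, p.2)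

/-- linear dependence on the rows of `J` -/
def depO (D : Sta) (J : List ℕ) (i : ℕ) : Bool :=
  depZ D.1 (J.map (fun j => (rowOf D j).1)) (rowOf D i).1

/-- linear programs on faces -/
def lpZ (D : Sta) (J I : List ℕ) : LRes Pnt :=
  match lpsolve D.1 (J.map (rowOf D)) (I.map (rowOf D)) D.2.2 with
  | .infeas => .infeas
  | .unb => .unb
  | .opt x d => .opt (x, d)

/-- the concrete oracle -/
def orc (D : Sta) : Orc Pnt (ℤ × ℤ) where
  M := D.2.1.length
  tt := ttZ D
  obj := objZ D
  dep := depO D
  lp := lpZ D

section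

variable {Pt Vl : Type} (o : Orc Pt Vl) (vle : Vl → Vl → Bool)

/-- `b` is at least as good a result as `a` -/
def sameTop (a b : LRes Pt) : Bool :=
  match a, b with
  | .unb, .unb => true
  | .opt y, .opt z => vle (o.obj y) (o.obj z)
  | _, _ => false

/-- greedy choice of equalities, tight at `x`, that keep the value of the linear program -/
def rootJ (x : Pt) : List ℕ :=
  ((List.range o.M).filter (o.tt x)).foldl
    (fun J i => if sameTop o vle (o.lp [] (List.range o.M)) (o.lp (i :: J) (List.range o.M))
      then i :: J else J) []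

/-- the root frame -/
def rootF (x : Pt) : Frame :=
  (rootJ o vle x, (List.range o.M).filter (fun j => !o.dep (rootJ o vle x) j), [])

/-- the initial state -/
def initS (x : Pt) : St Pt := (x, [rootF o vle x], .running)

end

/-! ### Rational data -/

/-- product of the denominators -/
def denZ (l : List ℚ) : ℤ := (l.map (fun q => (q.den : ℤ))).prod

/-- clear denominators with the common denominator `d` -/
def clr (d : ℤ) (l : List ℚ) : List ℤ := l.map (fun q : ℚ => q.num * (d / (q.den : ℤ)))

/-- a row `a x ≤ b` with cleared denominators -/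
def clrRow (r : List ℚ × ℚ) : List ℤ × ℤ :=
  (clr (denZ (r.2 :: r.1)) r.1, r.2.num * (denZ (r.2 :: r.1) / (r.2.den : ℤ)))

/-- rational data: dimension, rows of the matrix, right-hand side, objective, starting vertex -/
abbrev Inp : Type := ℕ × List (List ℚ) × List ℚ × List ℚ × List ℚ

/-- integer data: the rows of the matrix, then the sign constraints -/
def staOf (P : Inp) : Sta :=
  (P.1, (List.zip P.2.1 P.2.2.1).map clrRow ++
    (List.range P.1).map (fun j => (negZ (unitZ P.1 j), 0)), clr (denZ P.2.2.2.1) P.2.2.2.1)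

/-- the starting point -/
def pntOf (P : Inp) : Pnt := (clr (denZ P.2.2.2.2) P.2.2.2.2, denZ P.2.2.2.2)

/-- the rational coordinates of a point -/
def ratsOf (p : Pnt) : List ℚ := p.1.map (fun a : ℤ => (a : ℚ) / ((dn p.2 : ℤ) : ℚ))

end Pool.Agent.Simplex.QP
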