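import Pool.Agent.Lib.MP_4d246d_lc.QP.RootFace
import Pool.Agent.Lib.MP_4d246d_lc.QP.Conc

/-!
# The root frame of the concrete machine
-/

namespace Pool.Agent.Simplex.QP

variable {Pt Vl : Type} {o : Orc Pt Vl} {vle : Vl → Vl → Bool}
variable {E : Type*} [AddCommGroup E] [Module ℝ E] {S : Sys E} {val : Pt → E}

theorem fold_spec' (ho : Spec o vle S val) {x : E} (hx : x ∈ S.Q [] (List.range o.M))
    (L : List ℕ) : ∀ (J : List ℕ), (∀ i ∈ L, i < o.M) → (∀ j ∈ J, j < o.M) → Full S o.M J →
    Full S o.M (L.foldl (addJ o vle) J) ∧ (∀ j ∈ J, j ∈ L.foldl (addJ o vle) J) ∧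
    (∀ j ∈ L.foldl (addJ o vle) J, j < o.M ∧ (j ∈ J ∨ j ∈ L)) ∧
    ∀ i ∈ L, i ∉ L.foldl (addJ o vle) J → ¬ Full S o.M (i :: L.foldl (addJ o vle) J) := by
  induction L with
  | nil =>
    intro J _ hJ hF
    exact ⟨hF, fun _ h => h, fun j hj => ⟨hJ j hj, Or.inl hj⟩, by simp⟩
  | cons a L ih =>
    intro J hL hJ hF
    have ha := hL a List.mem_cons_self
    have hL' : ∀ i ∈ L, i < o.M := fun i hi => hL i (List.mem_cons_of_mem _ hi)
    have hk := keep_iff ho hx hJ ha
    rw [List.foldl_cons]
    cases hb : keep o vle J a with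
    | true =>
      have e : addJ o vle J a = a :: J := by unfold addJ; rw [hb]; rfl
      rw [e]
      rw [hb] at hk
      have hF' : Full S o.M (a :: J) := hk.1 rfl
      obtain ⟨h1, h2, h3, h4⟩ := ih (a :: J) hL' (by
        intro j hj
        rcases List.mem_cons.1 hj with rfl | hj
        · exact ha
        · exact hJ j hj) hF'
      refine ⟨h1, fun j hj => h2 j (List.mem_cons_of_mem _ hj), fun j hj => ⟨(h3 j hj).1, ?_⟩,
        fun i hi hi' => ?_⟩
      · rcases (h3 j hj).2 with h | h
        · rcases List.mem_cons.1 h with rfl | h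
          · exact Or.inr List.mem_cons_self
          · exact Or.inl h
        · exact Or.inr (List.mem_cons_of_mem _ h)
      · rcases List.mem_cons.1 hi with rfl | hi
        · exact absurd (h2 _ List.mem_cons_self) hi'
        · exact h4 i hi hi'
    | false =>
      have e : addJ o vle J a = J := by unfold addJ; rw [hb]; rfl
      rw [e]
      rw [hb] at hk
      have hF' : ¬ Full S o.M (a :: J) := fun h => by
        have := hk.2 h
        simp at this
      obtain ⟨h1, h2, h3, h4⟩ := ih J hL' hJ hF
      refine ⟨h1, h2, fun j hj => ⟨(h3 j hj).1, ?_⟩, fun i hi hi' => ?_⟩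
      · rcases (h3 j hj).2 with h | h
        · exact Or.inl h
        · exact Or.inr (List.mem_cons_of_mem _ h)
      · rcases List.mem_cons.1 hi with rfl | hi
        · intro hf
          refine hF' (hf.anti fun j hj => ?_)
          rcases List.mem_cons.1 hj with rfl | hj
          · exact List.mem_cons_self
          · exact List.mem_cons_of_mem _ (h2 j hj)
        · exact h4 i hi hi'

theorem rootJ_eq (x : Pt) :
    rootJ o vle x = ((List.range o.M).filter (o.tt x)).foldl (addJ o vle) [] := by
  unfold rootJ
  congr 1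

theorem full_nil {M : ℕ} : Full S M [] := fun z hz => ⟨z, hz, le_rfl⟩

/-- properties of the greedy choice among the tight constraints -/
theorem rootJ_spec (ho : Spec o vle S val) {x : Pt} (hx : val x ∈ S.Q [] (List.range o.M)) :
    Full S o.M (rootJ o vle x) ∧ (∀ j ∈ rootJ o vle x, j < o.M ∧ S.sl j (val x) = 0) ∧
    ∀ i < o.M, S.sl i (val x) = 0 → i ∉ rootJ o vle x → ¬ Full S o.M (i :: rootJ o vle x) := by
  have hL : ∀ i ∈ (List.range o.M).filter (o.tt x), i < o.M := fun i hi =>
    List.mem_range.1 (List.mem_filter.1 hi).1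
  obtain ⟨h1, -, h3, h4⟩ := fold_spec' (vle := vle) ho hx ((List.range o.M).filter (o.tt x)) []
    hL (by simp) full_nil
  rw [← rootJ_eq] at h1 h3 h4
  refine ⟨h1, fun j hj => ⟨(h3 j hj).1, ?_⟩, fun i hi hi0 hij => h4 i ?_ hij⟩
  · rcases (h3 j hj).2 with h | h
    · simp at h
    · exact (ho.tt x j (h3 j hj).1).1 (List.mem_filter.1 h).2
  · rw [List.mem_filter, List.mem_range]
    exact ⟨hi, (ho.tt x i hi).2 hi0⟩

/-- a maximal full set of equalities extending the root equalities -/
theorem exists_target (ho : Spec o vle S val) {x : Pt} (hx : val x ∈ S.Q [] (List.range o.M)) :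
    ∃ T : List ℕ, (∀ j ∈ T, j < o.M) ∧ Full S o.M T ∧
      (∀ i < o.M, i ∉ T → ¬ Full S o.M (i :: T)) ∧
      ∀ j, j ∈ rootJ o vle x ↔ j ∈ T ∧ o.tt x j = true := by
  obtain ⟨r1, r2, r3⟩ := rootJ_spec (vle := vle) ho hx
  obtain ⟨h1, h2, h3, h4⟩ := fold_spec' (vle := vle) ho hx (List.range o.M) (rootJ o vle x)
    (fun i hi => List.mem_range.1 hi) (fun j hj => (r2 j hj).1) r1
  refine ⟨_, fun j hj => (h3 j hj).1, h1, fun i hi => h4 i (List.mem_range.2 hi), fun j => ?_⟩
  constructor
  · intro hj
    exact ⟨h2 j hj, (ho.tt x j (r2 j hj).1).2 (r2 j hj).2⟩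
  · rintro ⟨hj, ht⟩
    by_contra hno
    have hjM := (h3 j hj).1
    refine r3 j hjM ((ho.tt x j hjM).1 ht) hno (h1.anti fun l hl => ?_)
    rcases List.mem_cons.1 hl with rfl | hl
    · exact hj
    · exact h2 l hl

/-- directions in a maximal full face along which the objective is constant vanish -/
theorem dir_of_maximal {M : ℕ} {x : E} (hx : x ∈ S.Q [] (List.range M))
    (hv : S.Vx (fun i => i < M) x) {T : List ℕ} (h1 : Full S M T)
    (h3 : ∀ i < M, i ∉ T → ¬ Full S M (i :: T)) {q : E} (hq : ∀ j ∈ T, S.ln j q = 0)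
    (hc : S.c q = 0) : q = 0 := by
  by_contra hne
  obtain ⟨i, hi, hiq⟩ : ∃ i < M, S.ln i q ≠ 0 := by
    by_contra hno
    push Not at hno
    exact hne (hv q fun i hi _ => hno i hi)
  obtain ⟨q2, hq2c, hq2J, hq2i⟩ : ∃ q2 : E, S.c q2 = 0 ∧ (∀ j ∈ T, S.ln j q2 = 0) ∧
      S.ln i q2 < 0 := by
    rcases lt_or_gt_of_ne hiq with h | h
    · exact ⟨q, hc, hq, h⟩
    · refine ⟨-q, by rw [map_neg, hc, neg_zero], fun j hj => by
        rw [map_neg, hq j hj, neg_zero], by rw [map_neg]; linarith⟩
  -- a point above all the faces outside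
  obtain ⟨z, hz, hzm⟩ : ∃ z ∈ S.Q [] (List.range M), ∀ j < M, j ∉ T →
      ∀ y ∈ S.Q (j :: T) (List.range M), S.c y < S.c z := by
    have key : ∀ m ≤ M, ∃ z ∈ S.Q [] (List.range M), ∀ j < m, j ∉ T →
        ∀ y ∈ S.Q (j :: T) (List.range M), S.c y < S.c z := by
      intro m
      induction m with
      | zero => intro _; exact ⟨x, hx, fun j hj => by omega⟩
      | succ m ih =>
        intro hm
        obtain ⟨z, hz, hz1⟩ := ih (by omega)
        by_cases hmJ : m ∈ T
        · refine ⟨z, hz, fun j hj hjJ => ?_⟩
          have : j ≠ m := by rintro rfl; exact hjJ hmJ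
          exact hz1 j (by omega) hjJ
        · have h4 := h3 m (by omega) hmJ
          unfold Full at h4
          push Not at h4
          obtain ⟨z', hz', h5⟩ := h4
          rcases le_total (S.c z) (S.c z') with h6 | h6
          · refine ⟨z', hz', fun j hj hjJ y hy => ?_⟩
            by_cases hjm : j = m
            · subst hjm; exact h5 y hy
            · exact (hz1 j (by omega) hjJ y hy).trans_le h6
          · refine ⟨z, hz, fun j hj hjJ y hy => ?_⟩
            by_cases hjm : j = m
            · subst hjm; exact (h5 y hy).trans_le h6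
            · exact hz1 j (by omega) hjJ y hy
    exact key M le_rfl
  obtain ⟨y, hy, hzy⟩ := h1 z hz
  obtain ⟨t, ht, h6, j, hj, h7, h8⟩ := S.first_hit (List.range M) y q2 hy.2
    ⟨i, List.mem_range.2 hi, hq2i⟩
  have hjJ : j ∉ T := fun h => by
    rw [hq2J j h] at h7
    exact lt_irrefl _ h7
  have h9 : y + t • q2 ∈ S.Q (j :: T) (List.range M) := by
    refine ⟨fun l hl => ?_, h6⟩
    rcases List.mem_cons.1 hl with rfl | hl
    · exact h8
    · rw [S.smul_add, hy.1 l hl, hq2J l hl]; ring
  have h10 := hzm j (List.mem_range.1 hj) hjJ _ h9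
  rw [map_add, map_smul, hq2c, smul_zero, add_zero] at h10
  linarith

/-- The counting lemma. -/
theorem counts_of_target [FiniteDimensional ℝ E] (ho : Spec o vle S val) {x : Pt}
    (hv : S.Vx (fun i => i < o.M) (val x)) {m : ℕ}
    (hm : o.M = m + Module.finrank ℝ E) {T C : List ℕ} (hlt : ∀ j ∈ T, j < o.M)
    (hdir : ∀ q : E, (∀ j ∈ T, S.ln j q = 0) → S.c q = 0 → q = 0)
    (hCt : ∀ j, j ∈ C ↔ j ∈ T ∧ o.tt x j = true) :
    Module.finrank ℝ (S.V C) ≤ m + 1 ∧
      ((List.range o.M).filter (fun i => !o.dep C i)).length ≤ 2 * m + 1 := by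
  classical
  have hCM : ∀ j ∈ C, j < o.M := fun j hj => hlt j ((hCt j).1 hj).1
  set n := Module.finrank ℝ E with hn
  -- the independent and the dependent constraints
  set I0 := (List.range o.M).filter (fun i => !o.dep C i) with hI0
  set Z := (List.range o.M).filter (fun i => o.dep C i) with hZ
  have hlen : I0.length + Z.length = o.M := by
    rw [hI0, hZ, ← List.countP_eq_length_filter, ← List.countP_eq_length_filter]
    have := List.length_eq_countP_add_countP (fun i => o.dep C i) (l := List.range o.M)
    rw [List.length_range] at this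
    have e : List.countP (fun i => !o.dep C i) (List.range o.M) =
      List.countP (fun a => decide (¬ o.dep C a = true)) (List.range o.M) := by
      congr 1
      funext a
      cases o.dep C a <;> rfl
    omega
  have hVZ' : S.V (Z ++ []) = S.V C := by
    rw [List.append_nil]
    apply le_antisymm
    · intro q hq j hj
      refine hq j ?_
      rw [hZ, List.mem_filter, List.mem_range]
      exact ⟨hCM j hj, (ho.dep C j hCM (hCM j hj)).2 fun q' hq' => hq' j hj⟩
    · intro q hq j hj
      rw [hZ, List.mem_filter, List.mem_range] at hj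
      exact (ho.dep C j hCM hj.1).1 hj.2 q hq
  have hVnil : Module.finrank ℝ (S.V []) = n := by
    have : S.V [] = ⊤ := by
      rw [eq_top_iff]
      intro q _ j hj
      simp at hj
    rw [this, finrank_top]
  have h1 : n ≤ Module.finrank ℝ (S.V C) + Z.length := by
    have := finrank_V_append (S := S) Z []
    rw [hVZ', hVnil] at this
    exact this
  -- the constraints of `I0` tight at `x`, and those in the target
  set A := I0.filter (fun i => o.tt x i) with hA
  set B := I0.filter (fun i => decide (i ∈ T)) with hB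
  have hVA : S.V (A ++ C) = ⊥ := by
    rw [eq_bot_iff]
    intro q hq
    rw [Submodule.mem_bot]
    apply hv
    intro i hi hi0
    have hti : o.tt x i = true := (ho.tt x i hi).2 hi0
    cases hd : o.dep C i with
    | true => exact (ho.dep C i hCM hi).1 hd q fun j hj => hq j (List.mem_append_right _ hj)
    | false =>
      refine hq i (List.mem_append_left _ ?_)
      rw [hA, List.mem_filter, hI0, List.mem_filter, List.mem_range]
      exact ⟨⟨hi, by rw [hd]; rfl⟩, hti⟩
  have h2 : Module.finrank ℝ (S.V C) ≤ A.length := by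
    have := finrank_V_append (S := S) A C
    rw [hVA, finrank_bot] at this
    omega
  have hVB : Module.finrank ℝ (S.V (B ++ C)) ≤ 1 := by
    have hinj : Function.Injective ((S.c).comp (S.V (B ++ C)).subtype) := by
      rw [← LinearMap.ker_eq_bot, LinearMap.ker_eq_bot']
      intro q hq
      apply Subtype.ext
      refine hdir q.1 (fun j hj => ?_) hq
      have hjM := hlt j hj
      cases hd : o.dep C j with
      | true => exact (ho.dep C j hCM hjM).1 hd q.1 fun l hl => q.2 l (List.mem_append_right _ hl)
      | false =>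
        refine q.2 j (List.mem_append_left _ ?_)
        rw [hB, List.mem_filter, hI0, List.mem_filter, List.mem_range, decide_eq_true_eq]
        exact ⟨⟨hjM, by rw [hd]; rfl⟩, hj⟩
    have := LinearMap.finrank_le_finrank_of_injective hinj
    rwa [Module.finrank_self] at this
  have h3 : Module.finrank ℝ (S.V C) ≤ 1 + B.length := by
    have := finrank_V_append (S := S) B C
    omega
  -- they are disjoint
  have h4 : A.length + B.length ≤ I0.length := by
    have hsub : ∀ i ∈ I0, ¬ (o.tt x i = true ∧ i ∈ T) := by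
      rintro i hi ⟨ht, hT⟩
      rw [hI0, List.mem_filter, List.mem_range] at hi
      have : o.dep C i = true :=
        (ho.dep C i hCM hi.1).2 fun q hq => hq i ((hCt i).2 ⟨hT, ht⟩)
      rw [this] at hi
      simp at hi
    have key : ∀ l : List ℕ, (∀ i ∈ l, ¬ (o.tt x i = true ∧ i ∈ T)) →
        (l.filter (fun i => o.tt x i)).length +
        (l.filter (fun i => decide (i ∈ T))).length ≤ l.length := by
      intro l
      induction l with
      | nil => intro _; simp
      | cons a l ih =>
        intro h
        have h5 := ih fun i hi => h i (List.mem_cons_of_mem _ hi)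
        have h6 := h a List.mem_cons_self
        rw [List.filter_cons, List.filter_cons]
        by_cases ha : o.tt x a = true
        · have hb : a ∉ T := fun hb => h6 ⟨ha, hb⟩
          simp only [ha, hb, if_true, decide_false, Bool.false_eq_true, if_false,
            List.length_cons]
          omega
        · by_cases hb : a ∈ T
          · simp only [ha, hb, decide_true, if_true, List.length_cons]
            simp only [Bool.false_eq_true, if_false]
            omega
          · simp only [ha, hb, decide_false, Bool.false_eq_true, if_false, List.length_cons]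
            omega
    exact key I0 hsub
  constructor <;> omega

/-- The root frame: dimension and number of constraints. -/
theorem rootF_counts [FiniteDimensional ℝ E] (ho : Spec o vle S val) {x : Pt}
    (hx : val x ∈ S.Q [] (List.range o.M)) (hv : S.Vx (fun i => i < o.M) (val x)) {m : ℕ}
    (hm : o.M = m + Module.finrank ℝ E) :
    Module.finrank ℝ (S.V (rootF o vle x).J) ≤ min (Module.finrank ℝ E) (m + 1) ∧
      (rootF o vle x).I.length ≤ min (m + Module.finrank ℝ E) (2 * m + 1) := by
  obtain ⟨T, h1, h2, h3, h4⟩ := exists_target (vle := vle) ho hx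
  obtain ⟨h5, h6⟩ := counts_of_target ho hv hm h1
    (fun q hq hc => dir_of_maximal hx hv h2 h3 hq hc) h4
  refine ⟨le_min (Submodule.finrank_le _) h5, le_min ?_ h6⟩
  have := List.length_filter_le (fun i => !o.dep (rootJ o vle x) i) (List.range o.M)
  rw [List.length_range] at this
  exact this.trans hm.le

theorem length_active_root_le (x : Pt) :
    (active o vle x (rootF o vle x).J (rootF o vle x).I).length ≤ (rootF o vle x).I.length :=
  List.length_filterMap_le _ _

/-- The root state is good. -/
theorem rootF_good (ho : Spec o vle S val) {x : Pt} (hx : val x ∈ S.Q [] (List.range o.M))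
    (hv : S.Vx (fun i => i < o.M) (val x)) :
    Good S o.M (val x) (rootF o vle x) [] := by
  obtain ⟨r1, r2, r3⟩ := rootJ_spec (vle := vle) ho hx
  have hCM : ∀ j ∈ rootJ o vle x, j < o.M := fun j hj => (r2 j hj).1
  have hmem : ∀ i, i ∈ (rootF o vle x).I ↔ i < o.M ∧ ¬ S.Dep (rootJ o vle x) i := by
    intro i
    show i ∈ (List.range o.M).filter _ ↔ _
    rw [List.mem_filter, List.mem_range]
    constructor
    · rintro ⟨h1, h2⟩
      refine ⟨h1, fun h3 => ?_⟩
      rw [(ho.dep _ _ hCM h1).2 h3] at h2
      simp at h2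
    · rintro ⟨h1, h2⟩
      refine ⟨h1, ?_⟩
      cases h3 : o.dep (rootJ o vle x) i with
      | false => rfl
      | true => exact absurd ((ho.dep _ _ hCM h1).1 h3) h2
  refine ⟨⟨rfl, fun i hi => ?_, fun i hi => ((hmem i).1 hi).1, hCM,
    List.nodup_range.filter _, fun i hi => ((hmem i).1 hi).2⟩, ⟨fun j hj => (r2 j hj).2, hx.2⟩,
    ?_⟩
  · by_cases hd : S.Dep (rootJ o vle x) i
    · exact Or.inr hd
    · exact Or.inl ((hmem i).2 ⟨hi, hd⟩)
  · intro q hq
    have hJq : ∀ j ∈ rootJ o vle x, S.ln j q = 0 := fun j hj =>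
      hq j (Or.inl hj) (r2 j hj).2
    apply hv
    intro i hi hi0
    by_cases hd : S.Dep (rootJ o vle x) i
    · exact hd q hJq
    · exact hq i (Or.inr ((hmem i).2 ⟨hi, hd⟩)) hi0

/-- An optimum over the root frame is an optimum over the polyhedron. -/
theorem rootF_opt (ho : Spec o vle S val) {x : Pt} (hx : val x ∈ S.Q [] (List.range o.M)) {w : E}
    (hw : ∀ z ∈ S.Q (rootF o vle x).J (rootF o vle x).I, S.c z ≤ S.c w) :
    ∀ z ∈ S.Q [] (List.range o.M), S.c z ≤ S.c w := by
  intro z hz
  obtain ⟨y, hy, h1⟩ := (rootJ_spec (vle := vle) ho hx).1 z hz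
  refine h1.trans (hw y ⟨hy.1, fun i hi => hy.2 i (List.mem_filter.1 hi).1⟩)

end Pool.Agent.Simplex.QP
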