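import Pool.Agent.Lib.MP_4d246d_lc.QP.PolyProj

/-!
# The linear programming solver is computable in polynomial time
-/

set_option linter.unusedSimpArgs false

namespace Pool.Agent.Simplex.QP

/-! ### Lengths and sizes -/

theorem abs_dotZ_le {u v : List ℤ} {A B : ℤ} (hA : 0 ≤ A) (hB : 0 ≤ B)
    (hu : ∀ a ∈ u, |a| ≤ A) (hv : ∀ b ∈ v, |b| ≤ B) : |dotZ u v| ≤ u.length * (A * B) := by
  unfold dotZ
  induction u generalizing v with
  | nil => simp
  | cons a u ih =>
    cases v with
    | nil => simp; positivity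
    | cons b v =>
      have h1 := ih (v := v) (fun a ha => hu a (by simp [ha])) (fun b hb => hv b (by simp [hb]))
      have h2 := hu a (by simp)
      have h3 := hv b (by simp)
      have h4 := abs_add_le (a * b) (List.zipWith (fun a b => a * b) u v).sum
      have h5 : |a * b| ≤ A * B := by
        rw [abs_mul]
        exact mul_le_mul h2 h3 (abs_nonneg _) hA
      simp only [List.zipWith_cons_cons, List.sum_cons, List.length_cons]
      push_cast
      linarith

theorem length_percStep (c : List (Option ℕ)) (P : List (List ℤ)) (Y : List ℤ) :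
    (percStep c P Y).length = Y.length := by
  unfold percStep
  split <;> simp

theorem percStep_bound {c : List (Option ℕ)} {P : List (List ℤ)} {Y : List ℤ} {i : ℤ}
    (h : ∀ a ∈ Y, 0 ≤ a ∧ a ≤ i) : ∀ a ∈ percStep c P Y, 0 ≤ a ∧ a ≤ i + 1 := by
  unfold percStep
  split
  · intro a ha
    have := h a ha
    omega
  · rename_i k hk
    intro a ha
    rcases List.mem_or_eq_of_mem_set ha with h1 | h1
    · have := h a h1
      omega
    · by_cases hkl : k < Y.length
      · have h2 : Y.getD k 0 ∈ Y := by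
          rw [List.getD_eq_getElem _ _ hkl]
          exact List.getElem_mem hkl
        have := h _ h2
        omega
      · rw [List.set_eq_of_length_le (by omega)] at ha
        have := h a ha
        omega

theorem percIter_bound (c : List (Option ℕ)) (P : List (List ℤ)) (N : ℕ) (i : ℕ) :
    ((fun Y => percStep c P Y)^[i] (List.replicate N 0)).length = N ∧
    ∀ a ∈ (fun Y => percStep c P Y)^[i] (List.replicate N 0), 0 ≤ a ∧ a ≤ (i : ℤ) := by
  induction i with
  | zero =>
    refine ⟨by simp, fun a ha => ?_⟩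
    simp only [Function.iterate_zero, id_eq, List.mem_replicate] at ha
    rw [ha.2]
    simp
  | succ i ih =>
    rw [Function.iterate_succ_apply']
    refine ⟨by rw [length_percStep]; exact ih.1, fun a ha => ?_⟩
    have := percStep_bound ih.2 a ha
    push_cast
    exact this

theorem phaseY_bound (N : ℕ) (c : List (Option ℕ)) (P : List (List ℤ)) :
    (phaseY N c P).length = N ∧ ∀ a ∈ phaseY N c P, 0 ≤ a ∧ a ≤ 4 * (N : ℤ) ^ 3 := by
  have h := percIter_bound c P N (4 * N ^ 3)
  unfold phaseY
  refine ⟨h.1, fun a ha => ?_⟩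
  have := h.2 a ha
  push_cast at this
  exact this

/-- The phase with padded rows. -/
def phase' (N K : ℕ) (M : List (List ℤ)) (st : List (Option ℕ) × Option (List ℤ)) :
    List (Option ℕ) × Option (List ℤ) :=
  match st.2 with
  | some _ => st
  | none =>
    phaseEnd N K st.1
      (phaseY N st.1 (projZ N ((phaseRows N K st.1 M).map (fun r => padZ N r))).2)
      (mulVecZ (projZ N ((phaseRows N K st.1 M).map (fun r => padZ N r))).2
        (phaseY N st.1 (projZ N ((phaseRows N K st.1 M).map (fun r => padZ N r))).2))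

theorem length_scaleRowP (K : ℕ) (c : List (Option ℕ)) (r : List ℤ) :
    (scaleRow K c r).length = min c.length r.length := by simp [scaleRow]

theorem length_of_mem_phaseRows {N K : ℕ} {M : List (List ℤ)} {c : List (Option ℕ)}
    (hM : ∀ r ∈ M, r.length = N) (hc : c.length = N) :
    ∀ r ∈ phaseRows N K c M, r.length = N := by
  intro r hr
  unfold phaseRows at hr
  rcases List.mem_append.1 hr with h | h
  · obtain ⟨i, -, rfl⟩ := List.mem_map.1 h
    exact length_unitZ N i
  · obtain ⟨r', hr', rfl⟩ := List.mem_map.1 h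
    rw [length_scaleRowP, hc, hM r' hr']
    simp

theorem phase'_eq {N K : ℕ} {M : List (List ℤ)} {st : List (Option ℕ) × Option (List ℤ)}
    (hM : ∀ r ∈ M, r.length = N) (hc : st.1.length = N) : phase' N K M st = phase N K M st := by
  have h : (phaseRows N K st.1 M).map (fun r => padZ N r) = phaseRows N K st.1 M := by
    conv_rhs => rw [← List.map_id (phaseRows N K st.1 M)]
    refine List.map_congr_left fun r hr => ?_
    exact padZ_of_length (length_of_mem_phaseRows hM hc r hr)
  unfold phase' phase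
  rw [h]
  cases st.2 <;> rfl

/-- Exponent bounding the entries of the result of a phase. -/
def rexp (N K s : ℕ) : ℕ := K + (N + (pexp N (K + s) + (4 * N ^ 3 + 1)))

theorem abs_scaleOf_le (K : ℕ) (o : Option ℕ) : |scaleOf K o| ≤ 2 ^ K := by
  unfold scaleOf
  split
  · simp
  · rw [abs_of_nonneg (by positivity)]
    exact pow_le_pow_right₀ (by norm_num) (by omega)

theorem abs_scaleRow_le {K : ℕ} {c : List (Option ℕ)} {r : List ℤ} {A : ℤ}
    (h : ∀ a ∈ r, |a| ≤ A) : ∀ a ∈ scaleRow K c r, |a| ≤ 2 ^ K * A := by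
  intro a ha
  unfold scaleRow at ha
  obtain ⟨i, hi, rfl⟩ := List.mem_iff_getElem.1 ha
  rw [List.getElem_zipWith, abs_mul]
  exact mul_le_mul (abs_scaleOf_le K _) (h _ (List.getElem_mem _)) (abs_nonneg _) (by positivity)

/-- Invariant of the phases. -/
def PInv (N K s : ℕ) (st : List (Option ℕ) × Option (List ℤ)) : Prop :=
  st.1.length = N ∧ (∀ o ∈ st.1, ∀ e, o = some e → e ≤ K) ∧
    ∀ v, st.2 = some v → v.length ≤ N ∧ ∀ a ∈ v, |a| < 2 ^ rexp N K s

theorem phaseRows_abs_le {N K s : ℕ} {M : List (List ℤ)} {c : List (Option ℕ)}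
    (hs : ∀ r ∈ M, ∀ a ∈ r, |a| ≤ 2 ^ s) :
    ∀ r ∈ phaseRows N K c M, ∀ a ∈ r, |a| ≤ 2 ^ (K + s) := by
  intro r hr a ha
  unfold phaseRows at hr
  rcases List.mem_append.1 hr with h | h
  · obtain ⟨i, -, rfl⟩ := List.mem_map.1 h
    unfold unitZ at ha
    obtain ⟨j, -, rfl⟩ := List.mem_map.1 ha
    have h1 : (1 : ℤ) ≤ 2 ^ (K + s) := one_le_pow₀ (by norm_num)
    split_ifs
    · simpa using h1
    · simp
  · obtain ⟨r', hr', rfl⟩ := List.mem_map.1 h
    rw [pow_add]
    exact abs_scaleRow_le (hs r' hr') a ha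

theorem bump_le {K : ℕ} {o : Option ℕ} (h : ∀ e, o = some e → e ≤ K) :
    ∀ e, bump K o = some e → e ≤ K := by
  unfold bump
  intro e he
  split at he
  · simp at he
  · split_ifs at he with h1
    · simp only [Option.some.injEq] at he
      omega

theorem pInv_phase (H : ProjBound) {N K s : ℕ} {M : List (List ℤ)}
    {st : List (Option ℕ) × Option (List ℤ)} (hM : ∀ r ∈ M, r.length = N)
    (hs : ∀ r ∈ M, ∀ a ∈ r, |a| ≤ 2 ^ s) (h : PInv N K s st) : PInv N K s (phase N K M st) := by
  unfold phase
  split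
  · exact h
  · rename_i hst
    obtain ⟨h1, h2, h3, h4, h5⟩ := projZ_lt H (N := N) (s := K + s)
      (rows := phaseRows N K st.1 M) (length_of_mem_phaseRows hM h.1) (phaseRows_abs_le hs)
    obtain ⟨hY1, hY2⟩ := phaseY_bound N st.1 (projZ N (phaseRows N K st.1 M)).2
    set P := (projZ N (phaseRows N K st.1 M)).2 with hP
    set Y := phaseY N st.1 P with hY
    have hz : ∀ a ∈ mulVecZ P Y, |a| ≤ N * (2 ^ pexp N (K + s) * (4 * (N : ℤ) ^ 3)) := by
      intro a ha
      unfold mulVecZ at ha
      obtain ⟨r, hr, rfl⟩ := List.mem_map.1 ha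
      have e1 := abs_dotZ_le (u := r) (v := Y) (A := 2 ^ pexp N (K + s)) (B := 4 * (N : ℤ) ^ 3)
        (by positivity) (by positivity) (fun a ha => (h5 r hr a ha).le)
        (fun b hb => by rw [abs_of_nonneg (hY2 b hb).1]; exact (hY2 b hb).2)
      rwa [h4 r hr] at e1
    have hb : (N : ℤ) * (2 ^ pexp N (K + s) * (4 * (N : ℤ) ^ 3)) <
        2 ^ (N + (pexp N (K + s) + (4 * N ^ 3 + 1))) := by
      rw [pow_add, pow_add]
      have e1 : (N : ℤ) < 2 ^ N := by exact_mod_cast Nat.lt_two_pow_self
      have e2 : (4 * (N : ℤ) ^ 3) < 2 ^ (4 * N ^ 3 + 1) := by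
        have : 4 * N ^ 3 < 2 ^ (4 * N ^ 3 + 1) :=
          Nat.lt_two_pow_self.trans (Nat.pow_lt_pow_right (by norm_num) (by omega))
        exact_mod_cast this
      have e3 : (0 : ℤ) < 2 ^ pexp N (K + s) := by positivity
      have e4 : (0 : ℤ) ≤ 4 * (N : ℤ) ^ 3 := by positivity
      exact mul_lt_mul'' e1 (mul_lt_mul_of_pos_left e2 e3) (by positivity) (by positivity)
    unfold phaseEnd
    split
    · refine ⟨h.1, h.2.1, fun v hv => ?_⟩
      simp only [Option.some.injEq] at hv
      subst hv
      refine ⟨by rw [length_scaleRowP, h.1]; exact min_le_left _ _, fun a ha => ?_⟩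
      have e1 := abs_scaleRow_le (K := K) (c := st.1) hz a ha
      refine e1.trans_lt ?_
      unfold rexp
      rw [pow_add 2 K]
      exact mul_lt_mul_of_pos_left hb (by positivity)
    · split
      · exact ⟨h.1, h.2.1, fun v hv => by simp at hv⟩
      · rename_i k hk
        refine ⟨by simpa using h.1, fun o ho e he => ?_, fun v hv => by simp at hv⟩
        rcases List.mem_or_eq_of_mem_set ho with h6 | h6
        · exact h.2.1 o h6 e he
        · subst h6
          refine bump_le (fun e' he' => ?_) e he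
          by_cases hk' : k < st.1.length
          · rw [List.getD_eq_getElem _ _ hk'] at he'
            exact h.2.1 _ (List.getElem_mem hk') e' he'
          · rw [List.getD_eq_default _ _ (by omega)] at he'
            simp at he'

theorem pInv_iterate (H : ProjBound) {N K s : ℕ} {M : List (List ℤ)}
    (hM : ∀ r ∈ M, r.length = N) (hs : ∀ r ∈ M, ∀ a ∈ r, |a| ≤ 2 ^ s) (i : ℕ) :
    PInv N K s ((fun st => phase N K M st)^[i] (List.replicate N (some 0), none)) ∧
    (fun st => phase' N K M st)^[i] (List.replicate N (some 0), none) =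
      (fun st => phase N K M st)^[i] (List.replicate N (some 0), none) := by
  induction i with
  | zero =>
    refine ⟨⟨by simp, fun o ho e he => ?_, fun v hv => by simp at hv⟩, rfl⟩
    simp only [Function.iterate_zero, id_eq, List.mem_replicate] at ho
    rw [ho.2] at he
    simp only [Option.some.injEq] at he
    omega
  | succ i ih =>
    rw [Function.iterate_succ_apply', Function.iterate_succ_apply', ih.2]
    exact ⟨pInv_phase H hM hs ih.1, phase'_eq hM ih.1.1⟩

end Pool.Agent.Simplex.QP

namespace Pool.Agent.Lib.PolyTime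

open Pool.Agent.Simplex.QP Function

/-- Results of the solver as nested options. -/
def resOpt : Res → Option (Option (List ℤ × ℤ))
  | .infeas => none
  | .unb => some none
  | .opt x d => some (some (x, d))

instance : TEnc Res := ⟨fun r => enc (resOpt r)⟩

theorem enc_res (r : Res) : enc r = enc (resOpt r) := rfl

theorem sz_res_infeas : sz Res.infeas = 0 := rfl

theorem sz_res_unb : sz Res.unb = 1 := rfl

theorem sz_res_opt (x : List ℤ) (d : ℤ) : sz (Res.opt x d) = 1 + (1 + sz (x, d)) := rfl

instance : TInj Res := ⟨fun a b h => by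
  have h1 : resOpt a = resOpt b := TInj.inj h
  cases a <;> cases b <;> simp_all [resOpt]⟩

section

variable {α β γ δ ε : Type*} [TEnc α] [TEnc β] [TEnc γ] [TEnc δ] [TEnc ε]

theorem PBd.rexp {N K s : α → ℕ} (hN : PBd N) (hK : PBd K) (hs : PBd s) :
    PBd (fun x => rexp (N x) (K x) (s x)) :=
  (hK.add (hN.add ((hN.pexp (hK.add hs)).add (((PBd.const 4).mul (hN.pow 3)).add
    (PBd.const 1))))).of_le fun _ => le_rfl

namespace PolyF

theorem phaseY {N : α → ℕ} {c : α → List (Option ℕ)} {P : α → List (List ℤ)} (hN : PolyF N)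
    (hc : PolyF c) (hP : PolyF P) : PolyF (fun x => phaseY (N x) (c x) (P x)) := by
  have hn : PolyF (fun x => 4 * N x ^ 3) := (const 4).natMul (hN.natPow 3)
  refine natIterate (f := fun x Y => Pool.Agent.Simplex.QP.percStep (c x) (P x) Y)
    (g := fun x => List.replicate (N x) 0) hn
    (PolyF.percStep (hc.comp fst') (hP.comp fst') snd') (PolyF.replicate hN (const 0)) ?_
  refine ((((PBd.const 2).mul hn.pbdNat).add (PBd.const 3)).mul hN.pbdNat).imp
    fun B hB x i hi => ?_
  refine le_trans ?_ (hB x)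
  beta_reduce
  obtain ⟨h1, h2⟩ := percIter_bound (c x) (P x) (N x) i
  refine sz_vecZ_le h1.le fun a ha => ?_
  rw [abs_of_nonneg (h2 a ha).1]
  refine (h2 a ha).2.trans_lt ?_
  have : i < 2 ^ (4 * N x ^ 3) := hi.trans_lt Nat.lt_two_pow_self
  exact_mod_cast this

theorem phase' (H : ProjBound) {N K : α → ℕ} {M : α → List (List ℤ)}
    {st : α → List (Option ℕ) × Option (List ℤ)} (hN : PolyF N) (hK : PolyF K) (hM : PolyF M)
    (hst : PolyF st) : PolyF (fun x => phase' (N x) (K x) (M x) (st x)) := by
  have hP : PolyF (fun x => (Pool.Agent.Simplex.QP.projZ (N x)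
      ((Pool.Agent.Simplex.QP.phaseRows (N x) (K x) (st x).1 (M x)).map
        (fun r => Pool.Agent.Simplex.QP.padZ (N x) r))).2) := by
    refine (PolyF.projZ H hN ((PolyF.phaseRows hN hK hst.fst hM).map
      (h := fun x r => Pool.Agent.Simplex.QP.padZ (N x) r) (PolyF.padZ (hN.comp fst') snd'))
      fun x r hr => ?_).snd
    obtain ⟨r', -, rfl⟩ := List.mem_map.1 hr
    exact length_padZ _ _
  have hY := PolyF.phaseY hN hst.fst hP
  refine optionCases (g := fun x => Pool.Agent.Simplex.QP.phaseEnd (N x) (K x) (st x).1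
      (Pool.Agent.Simplex.QP.phaseY (N x) (st x).1 (Pool.Agent.Simplex.QP.projZ (N x)
      ((Pool.Agent.Simplex.QP.phaseRows (N x) (K x) (st x).1 (M x)).map
        (fun r => Pool.Agent.Simplex.QP.padZ (N x) r))).2)
      (Pool.Agent.Simplex.QP.mulVecZ (Pool.Agent.Simplex.QP.projZ (N x)
      ((Pool.Agent.Simplex.QP.phaseRows (N x) (K x) (st x).1 (M x)).map
        (fun r => Pool.Agent.Simplex.QP.padZ (N x) r))).2
        (Pool.Agent.Simplex.QP.phaseY (N x) (st x).1 (Pool.Agent.Simplex.QP.projZ (N x)
      ((Pool.Agent.Simplex.QP.phaseRows (N x) (K x) (st x).1 (M x)).map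
        (fun r => Pool.Agent.Simplex.QP.padZ (N x) r))).2)))
    (h := fun p : α × List ℤ => st p.1) hst.snd
    (PolyF.phaseEnd hN hK hst.fst hY (PolyF.mulVecZ hP hY)) (hst.comp fst')
    (fun x h => ?_) (fun x b h => ?_)
  · simp only [Pool.Agent.Simplex.QP.phase', h]
  · simp only [Pool.Agent.Simplex.QP.phase', h]

theorem maxSolCore (H : ProjBound) {N : α → ℕ} {M : α → List (List ℤ)} (hN : PolyF N)
    (hM : PolyF M) (hlen : ∀ x, ∀ r ∈ M x, r.length = N x) :
    PolyF (fun x => maxSolCore (N x) (M x)) := by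
  have hK : PolyF (fun x => Pool.Agent.Simplex.QP.kBound (N x) (M x)) := PolyF.kBound hN hM
  have hn : PolyF (fun x => N x * (Pool.Agent.Simplex.QP.kBound (N x) (M x) + 1) + 1) :=
    (hN.natMul hK.succ).succ
  have hi : PolyF (fun x => ((fun st => Pool.Agent.Simplex.QP.phase' (N x)
      (Pool.Agent.Simplex.QP.kBound (N x) (M x)) (M x) st)^[N x *
        (Pool.Agent.Simplex.QP.kBound (N x) (M x) + 1) + 1]
      (List.replicate (N x) (Option.some 0), none))) := by
    refine natIterate (f := fun x st => Pool.Agent.Simplex.QP.phase' (N x)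
      (Pool.Agent.Simplex.QP.kBound (N x) (M x)) (M x) st)
      (g := fun x => (List.replicate (N x) (Option.some 0), none)) hn
      (PolyF.phase' H (hN.comp fst') (hK.comp fst') (hM.comp fst') snd')
      ((PolyF.replicate hN (const (Option.some 0))).pair (const none)) ?_
    have hb : PBd (fun x => 1 + (1 + Pool.Agent.Simplex.QP.kBound (N x) (M x) + 1) * N x +
        (1 + (2 * rexp (N x) (Pool.Agent.Simplex.QP.kBound (N x) (M x)) (sz (M x)) + 3) * N x)) :=
      ((PBd.const 1).add (((((PBd.const 1).add hK.pbdNat).add (PBd.const 1))).mul hN.pbdNat)).add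
        ((PBd.const 1).add ((((PBd.const 2).mul (hN.pbdNat.rexp hK.pbdNat hM.pbd)).add
          (PBd.const 3)).mul hN.pbdNat))
    refine hb.imp fun B hB x i _ => ?_
    refine le_trans ?_ (hB x)
    beta_reduce
    obtain ⟨h1, h2⟩ := pInv_iterate H (K := Pool.Agent.Simplex.QP.kBound (N x) (M x)) (hlen x)
      (fun r hr a ha => abs_le_two_pow_sz_of_mem hr ha) i
    rw [h2, sz_prod]
    obtain ⟨h3, h4, h5⟩ := h1
    generalize ((fun st => phase (N x) (Pool.Agent.Simplex.QP.kBound (N x) (M x)) (M x) st)^[i]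
      (List.replicate (N x) (Option.some 0), none)) = st at h3 h4 h5
    have e1 : sz st.1 ≤ (1 + Pool.Agent.Simplex.QP.kBound (N x) (M x) + 1) * N x := by
      refine (sz_le_of_forall (M := 1 + Pool.Agent.Simplex.QP.kBound (N x) (M x))
        fun o ho => ?_).trans (Nat.mul_le_mul_left _ h3.le)
      cases o with
      | none => simp
      | some e =>
        have := h4 _ ho e rfl
        simp only [sz_some, sz_nat]
        omega
    have e2 : sz st.2 ≤ 1 + (2 * rexp (N x) (Pool.Agent.Simplex.QP.kBound (N x) (M x))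
        (sz (M x)) + 3) * N x := by
      cases hs : st.2 with
      | none => simp
      | some v =>
        obtain ⟨h6, h7⟩ := h5 v hs
        have := sz_vecZ_le h6 h7
        simp only [sz_some]
        omega
    omega
  refine (hi.snd.getD nil).congr fun x => ?_
  unfold Pool.Agent.Simplex.QP.maxSolCore
  rw [(pInv_iterate H (hlen x) (fun r hr a ha => abs_le_two_pow_sz_of_mem hr ha) _).2]

theorem maxSol (H : ProjBound) {N : α → ℕ} {M : α → List (List ℤ)} (hN : PolyF N)
    (hM : PolyF M) : PolyF (fun x => maxSol (N x) (M x)) := by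
  refine PolyF.maxSolCore H hN (hM.map (h := fun x r => Pool.Agent.Simplex.QP.padZ (N x) r)
    (PolyF.padZ (hN.comp fst') snd')) fun x r hr => ?_
  obtain ⟨r', -, rfl⟩ := List.mem_map.1 hr
  exact length_padZ _ _

theorem resOfOpt {f : α → Option (Option (List ℤ × ℤ))} (hf : PolyF f) {g : α → Res}
    (h : ∀ x, resOpt (g x) = f x) : PolyF g :=
  hf.of_enc (fun x => x) (fun _ => rfl) fun x => by rw [enc_res, h]

theorem resOpt {f : α → Res} (hf : PolyF f) : PolyF (fun x => resOpt (f x)) :=
  hf.of_enc (fun x => x) (fun _ => rfl) fun _ => rfl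

/-- Case distinction on the result of the solver. -/
theorem resCases {o : α → Res} {f g1 g2 : α → δ} {h : α × List ℤ × ℤ → δ} (ho : PolyF o)
    (hg1 : PolyF g1) (hg2 : PolyF g2) (hh : PolyF h)
    (h1 : ∀ x, o x = .infeas → f x = g1 x) (h2 : ∀ x, o x = .unb → f x = g2 x)
    (h3 : ∀ x v d, o x = .opt v d → f x = h (x, v, d)) : PolyF f := by
  have key : PolyF (fun x => (Pool.Agent.Lib.PolyTime.resOpt (o x)).elim (g1 x)
      (fun q => q.elim (g2 x) (fun r => h (x, r)))) := by
    refine optionElim (h := fun x (q : Option (List ℤ × ℤ)) => q.elim (g2 x)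
      (fun r => h (x, r))) ho.resOpt hg1 ?_
    exact optionElim (h := fun (p : α × Option (List ℤ × ℤ)) r => h (p.1, r)) snd'
      (hg2.comp fst') (hh.comp (fst'.fst.pair snd'))
  refine key.congr fun x => ?_
  cases ho' : o x with
  | infeas => rw [h1 x ho']; rfl
  | unb => rw [h2 x ho']; rfl
  | opt v d => rw [h3 x v d ho']; rfl

theorem resInfeas : PolyF (fun _ : α => Res.infeas) := const _

theorem resUnb : PolyF (fun _ : α => Res.unb) := const _

theorem resMkOpt {v : α → List ℤ} {d : α → ℤ} (hv : PolyF v) (hd : PolyF d) :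
    PolyF (fun x => Res.opt (v x) (d x)) :=
  resOfOpt (hv.pair hd).some.some fun _ => rfl

theorem lpsolve_of (H : ProjBound) {n : α → ℕ} {E I : α → List (List ℤ × ℤ)} {c : α → List ℤ}
    (hn : PolyF n) (hE : PolyF E) (hI : PolyF I) (hc : PolyF c) :
    PolyF (fun x => lpsolve (n x) (E x) (I x) (c x)) := by
  have hN1 : PolyF (fun x => n x + n x + 1 + (I x).length) :=
    ((hn.natAdd hn).natAdd (const 1)).natAdd hI.length
  have hN2 : PolyF (fun x => n x + n x + 1 + (I x).length +
      ((E x).length + (E x).length + (I x).length)) :=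
    hN1.natAdd ((hE.length.natAdd hE.length).natAdd hI.length)
  have h1 := PolyF.maxSol H hN1 (PolyF.feasRows hn hE hI)
  have h2 := PolyF.maxSol H hN2 (PolyF.pdRows hn hE hI hc)
  exact ite ((h1.getDZ (hn.natAdd hn)).intEq (const 0)) (const Res.infeas)
    (ite ((h2.getDZ (hn.natAdd hn)).intEq (const 0)) (const Res.unb)
      (resMkOpt (PolyF.pointOf hn h2) (h2.getDZ (hn.natAdd hn))))

/-- The linear programming solver runs in polynomial time. -/
theorem lpsolve {n : α → ℕ} {E I : α → List (List ℤ × ℤ)} {c : α → List ℤ}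
    (hn : PolyF n) (hE : PolyF E) (hI : PolyF I) (hc : PolyF c) :
    PolyF (fun x => lpsolve (n x) (E x) (I x) (c x)) :=
  PolyF.lpsolve_of projBound hn hE hI hc

end PolyF

end

end Pool.Agent.Lib.PolyTime
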