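import Pool.Agent.Lib.MP_4d246d_lc.QP.Next
import Pool.Agent.Lib.MP_4d246d_lc.QP.Conc
import Pool.Agent.Lib.MP_4d246d_lc.QP.PolySolver

/-!
# The machine step is computable in polynomial time if the oracle is
-/

set_option linter.unusedSimpArgs false

namespace Pool.Agent.Lib.PolyTime

open Pool.Agent.Simplex.QP Function

/-! ### Encodings -/

/-- Results as nested options. -/
def lresOpt {Pt : Type} : LRes Pt → Option (Option Pt)
  | .infeas => none
  | .unb => some none
  | .opt y => some (some y)

instance {Pt : Type} [TEnc Pt] : TEnc (LRes Pt) := ⟨fun r => enc (lresOpt r)⟩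

theorem enc_lres {Pt : Type} [TEnc Pt] (r : LRes Pt) : enc r = enc (lresOpt r) := rfl

theorem sz_status_le (s : Status) : sz s ≤ 2 := by
  cases s <;> decide

instance : TInj Status := ⟨fun a b h => by
  cases a <;> cases b <;> first | rfl | (exfalso; revert h; decide)⟩

section

variable {α β γ δ ε : Type*} [TEnc α] [TEnc β] [TEnc γ] [TEnc δ] [TEnc ε]

namespace PolyF

theorem lresOpt {Pt : Type} [TEnc Pt] {f : α → LRes Pt} (hf : PolyF f) :
    PolyF (fun x => lresOpt (f x)) :=
  hf.of_enc (fun x => x) (fun _ => rfl) fun _ => rfl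

theorem lresOfOpt {Pt : Type} [TEnc Pt] {f : α → Option (Option Pt)} (hf : PolyF f)
    {g : α → LRes Pt} (h : ∀ x, Pool.Agent.Lib.PolyTime.lresOpt (g x) = f x) : PolyF g :=
  hf.of_enc (fun x => x) (fun _ => rfl) fun x => by rw [enc_lres, h]

/-- Case distinction on the result of the oracle. -/
theorem lresCases {Pt : Type} [TEnc Pt] {o : α → LRes Pt} {f g1 g2 : α → δ} {h : α × Pt → δ}
    (ho : PolyF o) (hg1 : PolyF g1) (hg2 : PolyF g2) (hh : PolyF h)
    (h1 : ∀ x, o x = .infeas → f x = g1 x) (h2 : ∀ x, o x = .unb → f x = g2 x)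
    (h3 : ∀ x y, o x = .opt y → f x = h (x, y)) : PolyF f := by
  have key : PolyF (fun x => (Pool.Agent.Lib.PolyTime.lresOpt (o x)).elim (g1 x)
      (fun q => q.elim (g2 x) (fun r => h (x, r)))) := by
    refine optionElim (h := fun x (q : Option Pt) => q.elim (g2 x)
      (fun r => h (x, r))) ho.lresOpt hg1 ?_
    exact optionElim (h := fun (p : α × Option Pt) r => h (p.1, r)) snd'
      (hg2.comp fst') (hh.comp (fst'.fst.pair snd'))
  refine key.congr fun x => ?_
  cases ho' : o x with
  | infeas => rw [h1 x ho']; rfl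
  | unb => rw [h2 x ho']; rfl
  | opt y => rw [h3 x y ho']; rfl

end PolyF

/-! ### The machine -/

variable {Pt Vl : Type} [TEnc Pt] [TEnc Vl]

/-- The oracle is computable in polynomial time. -/
structure POrc (o : α → Orc Pt Vl) (vle : Vl → Vl → Bool) : Prop where
  M : PolyF (fun a => (o a).M)
  tt : PolyF (fun p : α × Pt × ℕ => (o p.1).tt p.2.1 p.2.2)
  obj : PolyF (fun p : α × Pt => (o p.1).obj p.2)
  dep : PolyF (fun p : α × List ℕ × ℕ => (o p.1).dep p.2.1 p.2.2)
  lp : PolyF (fun p : α × List ℕ × List ℕ => (o p.1).lp p.2.1 p.2.2)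
  vle : PolyF (fun p : Vl × Vl => vle p.1 p.2)

namespace PolyF

theorem kle {vle : Vl → Vl → Bool} (hv : PolyF (fun p : Vl × Vl => vle p.1 p.2))
    {f g : β → Option Vl × ℕ} (hf : PolyF f) (hg : PolyF g) :
    PolyF (fun x => kle vle (f x) (g x)) := by
  refine optionCases (g := fun _ => true)
    (h := fun p : β × Vl => (f p.1).1.elim false (fun u => vle u p.2)) hg.fst (const true) ?_
    (fun x h => ?_) (fun x b h => ?_)
  · exact optionElim (h := fun (p : β × Vl) u => vle u p.2) (hf.comp fst').fst (const false)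
      (hv.comp (snd'.pair fst'.snd))
  · unfold Pool.Agent.Simplex.QP.kle
    rw [h]
  · unfold Pool.Agent.Simplex.QP.kle
    rw [h]
    cases (f x).1 <;> rfl

variable {o : α → Orc Pt Vl} {vle : Vl → Vl → Bool}

theorem keyOf (ho : POrc o vle) {a : β → α} {x : β → Pt} {J I : β → List ℕ} {i : β → ℕ}
    (ha : PolyF a) (hx : PolyF x) (hJ : PolyF J) (hI : PolyF I) (hi : PolyF i) :
    PolyF (fun b => keyOf (o (a b)) vle (x b) (J b) (I b) (i b)) := by
  refine lresCases (o := fun b => (o (a b)).lp (i b :: J b) (I b)) (g1 := fun _ => none)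
    (g2 := fun b => Option.some (none, i b))
    (h := fun p : β × Pt => if vle ((o (a p.1)).obj p.2) ((o (a p.1)).obj (x p.1)) = true
      then none else Option.some (Option.some ((o (a p.1)).obj p.2), i p.1))
    (ho.lp.comp (ha.pair ((hi.cons hJ).pair hI))) (const none) ((const none).pair hi).some ?_
    (fun b h => ?_) (fun b h => ?_) (fun b y h => ?_)
  · have h1 : PolyF (fun p : β × Pt => (o (a p.1)).obj p.2) :=
      ho.obj.comp ((ha.comp fst').pair snd')
    have h2 : PolyF (fun p : β × Pt => (o (a p.1)).obj (x p.1)) :=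
      ho.obj.comp ((ha.comp fst').pair (hx.comp fst'))
    exact iteBool (ho.vle.comp (h1.pair h2)) (const none) (h1.some.pair (hi.comp fst')).some
  · unfold Pool.Agent.Simplex.QP.keyOf; rw [h]
  · unfold Pool.Agent.Simplex.QP.keyOf; rw [h]
  · unfold Pool.Agent.Simplex.QP.keyOf; rw [h]

theorem active (ho : POrc o vle) {a : β → α} {x : β → Pt} {J I : β → List ℕ}
    (ha : PolyF a) (hx : PolyF x) (hJ : PolyF J) (hI : PolyF I) :
    PolyF (fun b => active (o (a b)) vle (x b) (J b) (I b)) :=
  hI.filterMap (h := fun b i => Pool.Agent.Simplex.QP.keyOf (o (a b)) vle (x b) (J b) (I b) i)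
    (PolyF.keyOf ho (ha.comp fst') (hx.comp fst') (hJ.comp fst') (hI.comp fst') snd')

theorem isOpt (ho : POrc o vle) {a : β → α} {x : β → Pt} {J I : β → List ℕ}
    (ha : PolyF a) (hx : PolyF x) (hJ : PolyF J) (hI : PolyF I) :
    PolyF (fun b => isOpt (o (a b)) vle (x b) (J b) (I b)) := by
  refine lresCases (o := fun b => (o (a b)).lp (J b) (I b)) (g1 := fun _ => false)
    (g2 := fun _ => false)
    (h := fun p : β × Pt => vle ((o (a p.1)).obj p.2) ((o (a p.1)).obj (x p.1)))
    (ho.lp.comp (ha.pair (hJ.pair hI))) (const false) (const false) ?_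
    (fun b h => ?_) (fun b h => ?_) (fun b y h => ?_)
  · exact ho.vle.comp ((ho.obj.comp ((ha.comp fst').pair snd')).pair
      (ho.obj.comp ((ha.comp fst').pair (hx.comp fst'))))
  · unfold Pool.Agent.Simplex.QP.isOpt; rw [h]
  · unfold Pool.Agent.Simplex.QP.isOpt; rw [h]
  · unfold Pool.Agent.Simplex.QP.isOpt; rw [h]

theorem face (ho : POrc o vle) {a : β → α} {i : β → ℕ} {f : β → Frame}
    (ha : PolyF a) (hi : PolyF i) (hf : PolyF f) :
    PolyF (fun b => face (o (a b)) (i b) (f b)) := by
  refine (hi.cons hf.fst).pair ((hf.snd.fst.filter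
    (p := fun b j => !(o (a b)).dep (i b :: (f b).J) j) ?_).pair (const []))
  exact (ho.dep.comp ((ha.comp fst').pair (((hi.comp fst').cons (hf.comp fst').fst).pair
    snd'))).not

theorem sorted (ho : POrc o vle) {a : β → α} {x : β → Pt} {J I : β → List ℕ}
    (ha : PolyF a) (hx : PolyF x) (hJ : PolyF J) (hI : PolyF I) :
    PolyF (fun b => sorted (o (a b)) vle (x b) (J b) (I b)) :=
  insertionSort (r := fun a b => Pool.Agent.Simplex.QP.kle vle a b = true)
    (PolyF.kle ho.vle fst' snd').decide_bool (PolyF.active ho ha hx hJ hI)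

theorem lowH (ho : POrc o vle) {a : β → α} {x : β → Pt} {J I : β → List ℕ}
    (ha : PolyF a) (hx : PolyF x) (hJ : PolyF J) (hI : PolyF I) :
    PolyF (fun b => lowH (o (a b)) vle (x b) (J b) (I b)) := by
  have hs := PolyF.sorted ho ha hx hJ hI
  exact ((hs.length.natDiv (const 2)).take hs).map (h := fun _ (q : Option Vl × ℕ) => q.2)
    snd'.snd

theorem upH (ho : POrc o vle) {a : β → α} {x : β → Pt} {J I : β → List ℕ}
    (ha : PolyF a) (hx : PolyF x) (hJ : PolyF J) (hI : PolyF I) :
    PolyF (fun b => upH (o (a b)) vle (x b) (J b) (I b)) := by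
  have hs := PolyF.sorted ho ha hx hJ hI
  exact ((hs.length.natDiv (const 2)).drop hs).map (h := fun _ (q : Option Vl × ℕ) => q.2)
    snd'.snd

theorem relax (ho : POrc o vle) {a : β → α} {x : β → Pt} {f : β → Frame}
    (ha : PolyF a) (hx : PolyF x) (hf : PolyF f) :
    PolyF (fun b => relax (o (a b)) vle (x b) (f b)) := by
  have hl := PolyF.lowH ho ha hx hf.fst hf.snd.fst
  have hu := PolyF.upH ho ha hx hf.fst hf.snd.fst
  refine hf.fst.pair ((hf.snd.fst.filter (p := fun b i => (o (a b)).tt (x b) i ||
    decide (i ∈ Pool.Agent.Simplex.QP.lowH (o (a b)) vle (x b) (f b).J (f b).I)) ?_).pair hu)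
  exact (ho.tt.comp ((ha.comp fst').pair ((hx.comp fst').pair snd'))).or
    (snd'.mem (hl.comp fst'))

theorem findTT (ho : POrc o vle) {a : β → α} {x : β → Pt} {l : β → List ℕ}
    (ha : PolyF a) (hx : PolyF x) (hl : PolyF l) :
    PolyF (fun b => (l b).find? ((o (a b)).tt (x b))) :=
  hl.find? (p := fun b i => (o (a b)).tt (x b) i)
    (ho.tt.comp ((ha.comp fst').pair ((hx.comp fst').pair snd')))

end PolyF

/-! ### Popping -/

omit [TEnc Pt] [TEnc Vl] in
theorem sz_face_le (o : Orc Pt Vl) (i : ℕ) (f : Frame) :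
    sz (face o i f) ≤ 3 + i + sz f := by
  obtain ⟨J, I, B⟩ := f
  unfold face
  have h1 : sz (List.filter (fun j => !o.dep (i :: Frame.J (J, I, B)) j)
      (Frame.I (J, I, B))) ≤ sz I := sz_sublist List.filter_sublist
  simp only [sz_prod, sz_cons, sz_nat, sz_nil, Frame.J, Frame.I] at *
  omega

omit [TEnc Pt] [TEnc Vl] in
theorem foldr_popStep (o : Orc Pt Vl) (y : Pt) (st : List Frame) :
    (st.foldr (popStep o y) ([], none)).1 = st ∧
    ∀ w, (st.foldr (popStep o y) ([], none)).2 = some w → ∃ (i : ℕ) (f p : Frame)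
      (r : List Frame), f ∈ st ∧ i ∈ f.B ∧ w = face o i p :: p :: r ∧ (p :: r) <:+ st := by
  induction st with
  | nil => exact ⟨rfl, fun w hw => by simp at hw⟩
  | cons f st ih =>
    rw [List.foldr_cons]
    obtain ⟨h1, h2⟩ := ih
    generalize st.foldr (popStep o y) ([], none) = s at h1 h2
    obtain ⟨s1, s2⟩ := s
    dsimp only at h1 h2
    subst h1
    refine ⟨rfl, fun w hw => ?_⟩
    unfold popStep at hw
    dsimp only at hw
    cases s2 with
    | some st' =>
      simp only [Option.some.injEq] at hw
      subst hw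
      obtain ⟨i, f', p, r, h3, h4, h5, h6⟩ := h2 _ rfl
      exact ⟨i, f', p, r, by simp [h3], h4, h5, h6.trans (List.suffix_cons _ _)⟩
    | none =>
      dsimp only at hw
      cases hfi : f.B.find? (o.tt y) with
      | none => rw [hfi] at hw; simp at hw
      | some i =>
        rw [hfi] at hw
        cases s1 with
        | nil => simp at hw
        | cons p r =>
          simp only [Option.some.injEq] at hw
          exact ⟨i, f, p, r, by simp, List.mem_of_find?_eq_some hfi, hw.symm,
            List.suffix_cons _ _⟩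

omit [TEnc Pt] [TEnc Vl] in
theorem sz_foldr_popStep (o : Orc Pt Vl) (y : Pt) (st : List Frame) :
    sz (st.foldr (popStep o y) ([], none)) ≤ 4 * sz st + 10 := by
  obtain ⟨h1, h2⟩ := foldr_popStep o y st
  rw [sz_prod, h1]
  cases hs : (st.foldr (popStep o y) ([], none)).2 with
  | none => simp only [sz_none]; omega
  | some w =>
    obtain ⟨i, f, p, r, h3, h4, h5, h6⟩ := h2 w hs
    subst h5
    have e1 := sz_face_le o i p
    have e2 := sz_mem h3
    have e3 : 1 + sz i ≤ sz f.B := sz_mem h4
    have e4 : sz f.B ≤ sz f := by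
      obtain ⟨J, I, B⟩ := f
      simp only [sz_prod, Frame.B]
      omega
    have e5 := sz_sublist h6.sublist
    simp only [sz_cons, sz_some, sz_nat] at *
    omega

namespace PolyF

variable {o : α → Orc Pt Vl} {vle : Vl → Vl → Bool}

theorem popStep (ho : POrc o vle) {a : β → α} {y : β → Pt} {f : β → Frame}
    {s : β → List Frame × Option (List Frame)} (ha : PolyF a) (hy : PolyF y) (hf : PolyF f)
    (hs : PolyF s) : PolyF (fun b => popStep (o (a b)) (y b) (f b) (s b)) := by
  refine (hf.cons hs.fst).pair ?_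
  refine optionCases (o := fun b => (s b).2)
    (g := fun b => match (f b).B.find? ((o (a b)).tt (y b)), (s b).1 with
      | .some i, p :: r => Option.some (Pool.Agent.Simplex.QP.face (o (a b)) i p :: p :: r)
      | _, _ => none)
    (h := fun p => Option.some p.2) hs.snd ?_ snd'.some (fun b h => ?_) (fun b c h => ?_)
  · refine optionCases (o := fun b => (f b).B.find? ((o (a b)).tt (y b))) (g := fun _ => none)
      (h := fun q : β × ℕ => match (s q.1).1 with
        | p :: r => Option.some (Pool.Agent.Simplex.QP.face (o (a q.1)) q.2 p :: p :: r)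
        | [] => none) (PolyF.findTT ho ha hy hf.snd.snd) (const none) ?_
      (fun b h => ?_) (fun b c h => ?_)
    · refine listCases (l := fun q : β × ℕ => (s q.1).1) (g := fun _ => none)
        (h := fun u : (β × ℕ) × Frame × List Frame =>
          Option.some (Pool.Agent.Simplex.QP.face (o (a u.1.1)) u.1.2 u.2.1 :: u.2.1 :: u.2.2))
        (hs.comp fst').fst (const none) ?_ (fun q h => ?_) (fun q p r h => ?_)
      · exact ((PolyF.face ho (ha.comp fst'.fst) fst'.snd snd'.fst).cons
          (snd'.fst.cons snd'.snd)).some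
      · simp only [h]
      · simp only [h]
    · simp only [h]
    · simp only [h]
      cases (s b).1 <;> rfl
  · simp only [h]
    cases (f b).B.find? ((o (a b)).tt (y b)) <;> cases (s b).1 <;> rfl
  · simp only [h]

theorem popTo (ho : POrc o vle) {a : β → α} {y : β → Pt} {st : β → List Frame}
    (ha : PolyF a) (hy : PolyF y) (hst : PolyF st) :
    PolyF (fun b => popTo (o (a b)) (y b) (st b)) := by
  have key : PolyF (fun b => (st b).foldr (Pool.Agent.Simplex.QP.popStep (o (a b)) (y b))
      ([], none)) := by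
    refine (foldl' (l := fun b => (st b).reverse) (i := fun _ => ([], none))
      (f := fun b c f => Pool.Agent.Simplex.QP.popStep (o (a b)) (y b) f c) hst.reverse
      (const _) (PolyF.popStep ho (ha.comp fst') (hy.comp fst') snd'.snd snd'.fst)
      (fun b => 4 * sz (st b) + 10) (((PBd.const 4).mul hst.pbd).add (PBd.const 10))
      (fun b k _ => ?_)).congr fun b => ?_
    · have h1 : ((st b).reverse.take k).foldl (fun c f =>
          Pool.Agent.Simplex.QP.popStep (o (a b)) (y b) f c) ([], none) =
          (((st b).reverse.take k).reverse).foldr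
            (Pool.Agent.Simplex.QP.popStep (o (a b)) (y b)) ([], none) := by
        rw [List.foldr_reverse]
      rw [h1]
      refine (sz_foldr_popStep _ _ _).trans ?_
      have h2 : sz ((st b).reverse.take k).reverse ≤ sz (st b) := by
        rw [sz_reverse]
        refine (sz_sublist (List.take_sublist _ _)).trans ?_
        rw [sz_reverse]
      omega
    · rw [List.foldl_reverse]
  exact key.snd.getD hst

/-- The continuation of the step after an optimality test has failed. -/
theorem moveStep (ho : POrc o vle) {a : β → α} {s : β → Pool.Agent.Simplex.QP.St Pt} {f : β → Frame}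
    {rest : β → List Frame} (ha : PolyF a) (hs : PolyF s) (hf : PolyF f) (hr : PolyF rest) :
    PolyF (fun b => match (o (a b)).lp (f b).J (List.range (o (a b)).M) with
        | .opt y => (y, Pool.Agent.Simplex.QP.popTo (o (a b)) y (f b :: rest b), Status.running)
        | _ => ((s b).1, f b :: rest b, Status.unbounded)) := by
  have hM : PolyF (fun b => (o (a b)).M) := ho.M.comp ha
  refine lresCases (o := fun b => (o (a b)).lp (f b).J (List.range (o (a b)).M))
    (g1 := fun b => ((s b).1, f b :: rest b, Status.unbounded))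
    (g2 := fun b => ((s b).1, f b :: rest b, Status.unbounded))
    (h := fun q : β × Pt => (q.2, Pool.Agent.Simplex.QP.popTo (o (a q.1)) q.2
      (f q.1 :: rest q.1), Status.running))
    (ho.lp.comp (ha.pair (hf.fst.pair hM.range)))
    (hs.fst.pair ((hf.cons hr).pair (const _))) (hs.fst.pair ((hf.cons hr).pair (const _)))
    ?_ (fun b h => ?_) (fun b h => ?_) (fun b y h => ?_)
  · exact snd'.pair ((PolyF.popTo ho (ha.comp fst') snd' ((hf.comp fst').cons
      (hr.comp fst'))).pair (const _))
  · simp only [h]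
  · simp only [h]
  · simp only [h]

/-- The step of the machine. -/
theorem step (ho : POrc o vle) {a : β → α} {s : β → Pool.Agent.Simplex.QP.St Pt} (ha : PolyF a) (hs : PolyF s) :
    PolyF (fun b => step (o (a b)) vle (s b)) := by
  have main : PolyF (fun b => (s b).2.1.casesOn (motive := fun _ => Pool.Agent.Simplex.QP.St Pt) (s b)
      (fun f rest => if (Pool.Agent.Simplex.QP.active (o (a b)) vle (s b).1 f.J f.I).length = 0 then
      if Pool.Agent.Simplex.QP.isOpt (o (a b)) vle (s b).1 f.J f.I = true then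
        match rest with
        | [] => ((s b).1, f :: rest, Status.optimal)
        | _ => ((s b).1, rest, Status.running)
      else
        match (o (a b)).lp f.J (List.range (o (a b)).M) with
        | .opt y => (y, Pool.Agent.Simplex.QP.popTo (o (a b)) y (f :: rest), Status.running)
        | _ => ((s b).1, f :: rest, Status.unbounded)
    else
      match (Pool.Agent.Simplex.QP.upH (o (a b)) vle (s b).1 f.J f.I).find?
        ((o (a b)).tt (s b).1) with
      | .some i => ((s b).1, Pool.Agent.Simplex.QP.face (o (a b)) i f :: f :: rest, Status.running)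
      | none => ((s b).1, Pool.Agent.Simplex.QP.relax (o (a b)) vle (s b).1 f :: f :: rest,
          Status.running))) := by
    refine listCases (l := fun b => (s b).2.1) (g := s) (h := fun q : β × Frame × List Frame =>
      if (Pool.Agent.Simplex.QP.active (o (a q.1)) vle (s q.1).1 q.2.1.J q.2.1.I).length = 0 then
      if Pool.Agent.Simplex.QP.isOpt (o (a q.1)) vle (s q.1).1 q.2.1.J q.2.1.I = true then
        (match q.2.2 with
        | [] => ((s q.1).1, q.2.1 :: q.2.2, Status.optimal)
        | _ => ((s q.1).1, q.2.2, Status.running))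
      else
        (match (o (a q.1)).lp q.2.1.J (List.range (o (a q.1)).M) with
        | .opt y => (y, Pool.Agent.Simplex.QP.popTo (o (a q.1)) y (q.2.1 :: q.2.2),
            Status.running)
        | _ => ((s q.1).1, q.2.1 :: q.2.2, Status.unbounded))
      else
      (match (Pool.Agent.Simplex.QP.upH (o (a q.1)) vle (s q.1).1 q.2.1.J q.2.1.I).find?
        ((o (a q.1)).tt (s q.1).1) with
      | .some i => ((s q.1).1, Pool.Agent.Simplex.QP.face (o (a q.1)) i q.2.1 :: q.2.1 :: q.2.2,
          Status.running)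
      | none => ((s q.1).1, Pool.Agent.Simplex.QP.relax (o (a q.1)) vle (s q.1).1 q.2.1 ::
          q.2.1 :: q.2.2, Status.running))) hs.snd.fst hs ?_ (fun b h => ?_)
      (fun b f rest h => ?_)
    · have ha' : PolyF (fun q : β × Frame × List Frame => a q.1) := ha.comp fst'
      have hs' : PolyF (fun q : β × Frame × List Frame => s q.1) := hs.comp fst'
      have hf : PolyF (fun q : β × Frame × List Frame => q.2.1) := snd'.fst
      have hr : PolyF (fun q : β × Frame × List Frame => q.2.2) := snd'.snd
      refine ite ((PolyF.active ho ha' hs'.fst hf.fst hf.snd.fst).length.natEq (const 0))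
        (iteBool (PolyF.isOpt ho ha' hs'.fst hf.fst hf.snd.fst) ?_
          (PolyF.moveStep ho ha' hs' hf hr)) ?_
      · refine listCases (l := fun q : β × Frame × List Frame => q.2.2)
          (g := fun q => ((s q.1).1, q.2.1 :: q.2.2, Status.optimal))
          (h := fun u : (β × Frame × List Frame) × Frame × List Frame =>
            ((s u.1.1).1, u.1.2.2, Status.running)) hr
          (hs'.fst.pair ((hf.cons hr).pair (const _)))
          ((hs'.fst.comp fst').pair ((hr.comp fst').pair (const _)))
          (fun q h => ?_) (fun q p r h => ?_)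
        · simp only [h]
        · simp only [h]
      · refine optionCases (o := fun q : β × Frame × List Frame =>
          (Pool.Agent.Simplex.QP.upH (o (a q.1)) vle (s q.1).1 q.2.1.J q.2.1.I).find?
            ((o (a q.1)).tt (s q.1).1))
          (g := fun q => ((s q.1).1, Pool.Agent.Simplex.QP.relax (o (a q.1)) vle (s q.1).1 q.2.1 ::
            q.2.1 :: q.2.2, Status.running))
          (h := fun u : (β × Frame × List Frame) × ℕ => ((s u.1.1).1,
            Pool.Agent.Simplex.QP.face (o (a u.1.1)) u.2 u.1.2.1 :: u.1.2.1 :: u.1.2.2,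
            Status.running))
          (PolyF.findTT ho ha' hs'.fst (PolyF.upH ho ha' hs'.fst hf.fst hf.snd.fst))
          (hs'.fst.pair (((PolyF.relax ho ha' hs'.fst hf).cons (hf.cons hr)).pair (const _)))
          ?_ (fun q h => ?_) (fun q i h => ?_)
        · exact (hs'.fst.comp fst').pair (((PolyF.face ho (ha'.comp fst') snd'
            (hf.comp fst')).cons ((hf.comp fst').cons (hr.comp fst'))).pair (const _))
        · simp only [h]
        · simp only [h]
    · simp only [h]
    · simp only [h]
  refine (ite (p := fun b => (s b).2.2 = Status.running) (hs.snd.snd.eq (const Status.running))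
    main hs).congr fun b => ?_
  unfold Pool.Agent.Simplex.QP.step
  obtain ⟨x, st, sta⟩ := s b
  cases sta with
  | optimal => rfl
  | unbounded => rfl
  | running =>
    cases st with
    | nil => rfl
    | cons f rest =>
      cases rest <;> cases (o (a b)).lp f.J (List.range (o (a b)).M) <;>
        cases (Pool.Agent.Simplex.QP.upH (o (a b)) vle x f.J f.I).find? ((o (a b)).tt x) <;> rfl

end PolyF

/-! ### Size bounds for all states -/

/-- Bounds for a frame. -/
def FB (W L : ℕ) (f : Frame) : Prop :=
  (∀ j ∈ f.J, j ≤ W) ∧ (∀ j ∈ f.I, j ≤ W) ∧ (∀ j ∈ f.B, j ≤ W) ∧ f.J.length ≤ L ∧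
    f.I.length ≤ W ∧ f.B.length ≤ W

/-- Bounds for a stack. -/
def SI (W L : ℕ) (st : List Frame) : Prop := st.length ≤ L ∧ ∀ f ∈ st, FB W L f

theorem FB.mono {W L L' : ℕ} {f : Frame} (h : FB W L f) (hL : L ≤ L') : FB W L' f :=
  ⟨h.1, h.2.1, h.2.2.1, h.2.2.2.1.trans hL, h.2.2.2.2⟩

theorem SI.mono {W L L' : ℕ} {st : List Frame} (h : SI W L st) (hL : L ≤ L') : SI W L' st :=
  ⟨h.1.trans hL, fun f hf => (h.2 f hf).mono hL⟩

theorem SI.cons {W L : ℕ} {st : List Frame} (h : SI W L st) {f : Frame} (hf : FB W (L + 1) f) :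
    SI W (L + 1) (f :: st) := by
  refine ⟨by simpa using h.1, fun g hg => ?_⟩
  rcases List.mem_cons.1 hg with rfl | hg
  · exact hf
  · exact (h.2 g hg).mono (Nat.le_succ _)

section

variable {Pt Vl : Type} (o : Orc Pt Vl) (vle : Vl → Vl → Bool)

theorem FB.face {W L i : ℕ} {f : Frame} (hi : i ≤ W) (h : FB W L f) :
    FB W (L + 1) (face o i f) := by
  obtain ⟨J, I, B⟩ := f
  obtain ⟨h1, h2, h3, h4, h5, h6⟩ := h
  refine ⟨fun j hj => ?_, fun j hj => h2 j (List.mem_of_mem_filter hj), fun j hj => ?_, ?_, ?_,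
    Nat.zero_le _⟩
  · rcases List.mem_cons.1 hj with rfl | hj
    · exact hi
    · exact h1 j hj
  · exact absurd hj List.not_mem_nil
  · exact Nat.succ_le_succ h4
  · exact (List.length_filter_le _ _).trans h5

theorem mem_upH {x : Pt} {J I : List ℕ} {i : ℕ} (h : i ∈ upH o vle x J I) : i ∈ I := by
  have h1 := mem_halves.2 (Or.inr h)
  rw [actI_eq] at h1
  exact List.mem_of_mem_filter h1

theorem length_upH_le (x : Pt) (J I : List ℕ) : (upH o vle x J I).length ≤ I.length := by
  have h1 := length_upH (o := o) (vle := vle) x J I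
  have h2 := length_active_le (o := o) (vle := vle) x J I
  omega

theorem FB.relax {W L : ℕ} {x : Pt} {f : Frame} (h : FB W L f) :
    FB W (L + 1) (relax o vle x f) := by
  obtain ⟨J, I, B⟩ := f
  obtain ⟨h1, h2, h3, h4, h5, h6⟩ := h
  refine ⟨h1, fun j hj => h2 j (List.mem_of_mem_filter hj), fun j hj => h2 j (mem_upH o vle hj),
    h4.trans (Nat.le_succ _), (List.length_filter_le _ _).trans h5, ?_⟩
  exact (length_upH_le o vle x J I).trans h5

theorem SI.popTo {W L : ℕ} {y : Pt} {st : List Frame} (h : SI W L st) :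
    SI W (L + 1) (popTo o y st) := by
  unfold Pool.Agent.Simplex.QP.popTo
  cases hs : (st.foldr (popStep o y) ([], none)).2 with
  | none => exact h.mono (Nat.le_succ _)
  | some w =>
    obtain ⟨i, f, p, r, h1, h2, h3, h4⟩ := (foldr_popStep o y st).2 w hs
    subst h3
    have h5 : SI W L (p :: r) :=
      ⟨h4.length_le.trans h.1, fun g hg => h.2 g (h4.subset hg)⟩
    exact h5.cons (FB.face o ((h.2 f h1).2.2.1 i h2) (h5.2 p (by simp)))

theorem SI.step {W L : ℕ} {s : Pool.Agent.Simplex.QP.St Pt} (h : SI W L s.2.1) :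
    SI W (L + 1) (step o vle s).2.1 := by
  obtain ⟨x, st, sta⟩ := s
  cases sta with
  | optimal => exact h.mono (Nat.le_succ _)
  | unbounded => exact h.mono (Nat.le_succ _)
  | running =>
    cases st with
    | nil => exact h.mono (Nat.le_succ _)
    | cons f rest =>
      have hf : FB W L f := h.2 f (by simp)
      have hr : SI W L rest := ⟨(by simp : rest.length ≤ (f :: rest).length).trans h.1,
        fun g hg => h.2 g (by simp [hg])⟩
      unfold Pool.Agent.Simplex.QP.step
      dsimp only
      split_ifs with h0 h1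
      · cases rest with
        | nil => exact h.mono (Nat.le_succ _)
        | cons p r => exact hr.mono (Nat.le_succ _)
      · cases o.lp f.J (List.range o.M) with
        | infeas => exact h.mono (Nat.le_succ _)
        | unb => exact h.mono (Nat.le_succ _)
        | opt y => exact SI.popTo o h
      · cases hfi : (upH o vle x f.J f.I).find? (o.tt x) with
        | some i =>
          exact h.cons (FB.face o (hf.2.1 i (mem_upH o vle (List.mem_of_find?_eq_some hfi))) hf)
        | none => exact h.cons (FB.relax o vle hf)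

theorem step_point (s : Pool.Agent.Simplex.QP.St Pt) : (step o vle s).1 = s.1 ∨
    ∃ f ∈ s.2.1, o.lp f.J (List.range o.M) = .opt (step o vle s).1 := by
  obtain ⟨x, st, sta⟩ := s
  cases sta with
  | optimal => exact Or.inl rfl
  | unbounded => exact Or.inl rfl
  | running =>
    cases st with
    | nil => exact Or.inl rfl
    | cons f rest =>
      unfold Pool.Agent.Simplex.QP.step
      dsimp only
      split_ifs with h0 h1
      · cases rest <;> exact Or.inl rfl
      · cases hl : o.lp f.J (List.range o.M) with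
        | infeas => exact Or.inl rfl
        | unb => exact Or.inl rfl
        | opt y => exact Or.inr ⟨f, by simp, hl⟩
      · cases (upH o vle x f.J f.I).find? (o.tt x) <;> exact Or.inl rfl

variable [DecidableEq Pt]

/-- `runB` as an iteration. -/
def runG (s : Pool.Agent.Simplex.QP.St Pt × Bool) : Pool.Agent.Simplex.QP.St Pt × Bool :=
  if s.2 = true then s else
    if (step o vle s.1).2.2 = .running ∧ (step o vle s.1).1 = s.1.1 then (step o vle s.1, false)
    else (step o vle s.1, true)

theorem runG_true (n : ℕ) (s : Pool.Agent.Simplex.QP.St Pt) :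
    (runG o vle)^[n] (s, true) = (s, true) := by
  induction n with
  | zero => rfl
  | succ n ih =>
    rw [iterate_succ_apply']
    rw [ih]
    rfl

theorem runG_eq (b : ℕ) : ∀ s : Pool.Agent.Simplex.QP.St Pt,
    ((runG o vle)^[b] (s, false)).1 = runB o vle b s := by
  induction b with
  | zero => intro s; rfl
  | succ b ih =>
    intro s
    rw [iterate_succ_apply]
    unfold runB
    have h1 : runG o vle (s, false) = if (step o vle s).2.2 = .running ∧
        (step o vle s).1 = s.1 then (step o vle s, false) else (step o vle s, true) := rfl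
    rw [h1]
    split_ifs with h
    · exact ih _
    · rw [runG_true]

theorem runG_inv {W S b : ℕ} {s : Pool.Agent.Simplex.QP.St Pt} [TEnc Pt] (hs : SI W W s.2.1)
    (h0 : sz s.1 ≤ S)
    (hS : ∀ (f : Frame) (y : Pt), FB W (W + b) f → o.lp f.J (List.range o.M) = .opt y → sz y ≤ S) :
    ∀ i ≤ b, SI W (W + i) ((runG o vle)^[i] (s, false)).1.2.1 ∧
      (((runG o vle)^[i] (s, false)).2 = false → ((runG o vle)^[i] (s, false)).1.1 = s.1) ∧
      sz ((runG o vle)^[i] (s, false)).1.1 ≤ S := by
  intro i
  induction i with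
  | zero => intro _; exact ⟨hs, fun _ => rfl, h0⟩
  | succ i ih =>
    intro hi
    obtain ⟨h1, h2, h3⟩ := ih (by omega)
    rw [iterate_succ_apply']
    generalize (runG o vle)^[i] (s, false) = u at h1 h2 h3
    obtain ⟨u, d⟩ := u
    dsimp only at h1 h2 h3
    cases d with
    | true => exact ⟨h1.mono (by omega), fun h => by simp [runG] at h, h3⟩
    | false =>
      have h4 := SI.step o vle h1
      have h5 : sz (step o vle u).1 ≤ S := by
        rcases step_point o vle u with h | ⟨f, hf, h⟩
        · rw [h]; exact h3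
        · exact hS f _ ((h1.2 f hf).mono (by omega)) h
      have h6 : runG o vle (u, false) = if (step o vle u).2.2 = .running ∧
        (step o vle u).1 = u.1 then (step o vle u, false) else (step o vle u, true) := rfl
      rw [h6]
      split_ifs with h
      · exact ⟨h4, fun _ => by rw [h.2, h2 rfl], h5⟩
      · exact ⟨h4, fun h => by simp at h, h5⟩

end

theorem sz_nats_le {l : List ℕ} {W L : ℕ} (h : ∀ j ∈ l, j ≤ W) (hl : l.length ≤ L) :
    sz l ≤ (W + 1) * L :=
  (sz_le_of_forall fun j hj => by rw [sz_nat]; exact h j hj).trans (Nat.mul_le_mul_left _ hl)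

theorem FB.sz_le {W L : ℕ} {f : Frame} (h : FB W L f) :
    sz f ≤ 2 + (W + 1) * L + 2 * ((W + 1) * W) := by
  obtain ⟨J, I, B⟩ := f
  have h1 := sz_nats_le h.1 h.2.2.2.1
  have h2 := sz_nats_le h.2.1 h.2.2.2.2.1
  have h3 := sz_nats_le h.2.2.1 h.2.2.2.2.2
  simp only [sz_prod, Frame.J, Frame.I, Frame.B] at *
  omega

theorem SI.sz_le {W L : ℕ} {st : List Frame} (h : SI W L st) :
    sz st ≤ (2 + (W + 1) * L + 2 * ((W + 1) * W) + 1) * L :=
  (sz_le_of_forall fun f hf => (h.2 f hf).sz_le).trans (Nat.mul_le_mul_left _ h.1)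

theorem SI.init (st : List Frame) {W : ℕ} (hW : sz st ≤ W) : SI W W st := by
  refine ⟨(length_le_sz st).trans hW, fun f hf => ?_⟩
  obtain ⟨J, I, B⟩ := f
  have h1 := sz_mem hf
  simp only [sz_prod] at h1
  have h2 : ∀ (l : List ℕ), sz l ≤ W → ∀ j ∈ l, j ≤ W := fun l hl j hj => by
    have := sz_mem hj
    rw [sz_nat] at this
    omega
  have h3 := length_le_sz J
  have h4 := length_le_sz I
  have h5 := length_le_sz B
  exact ⟨h2 J (by omega), h2 I (by omega), h2 B (by omega), by simp only [Frame.J]; omega,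
    by simp only [Frame.I]; omega, by simp only [Frame.B]; omega⟩

namespace PolyF

variable {o : α → Orc Pt Vl} {vle : Vl → Vl → Bool}

theorem runB [DecidableEq Pt] [TInj Pt] (ho : POrc o vle) {a : β → α} {n : β → ℕ}
    {s : β → Pool.Agent.Simplex.QP.St Pt} (ha : PolyF a) (hn : PolyF n) (hs : PolyF s) :
    PolyF (fun b => runB (o (a b)) vle (n b) (s b)) := by
  have hg : PolyF (fun p : β × (Pool.Agent.Simplex.QP.St Pt × Bool) =>
      runG (o (a p.1)) vle p.2) := by
    have hst := PolyF.step ho (ha.comp fst') (snd'.fst : PolyF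
      (fun p : β × (Pool.Agent.Simplex.QP.St Pt × Bool) => p.2.1))
    refine iteBool snd'.snd snd' (ite ?_ (hst.pair (const false)) (hst.pair (const true)))
    exact (hst.snd.snd.eq (const Status.running)).decide_and (hst.fst.eq snd'.fst.fst)
  obtain ⟨Q, hQ⟩ := ho.lp.bound
  have hM : PolyF (fun b => (o (a b)).M) := ho.M.comp ha
  -- the bound for the points
  have hS : PBd (fun b => sz (s b) + Q.eval (2 + sz (a b) + (sz (s b) + 1) * (sz (s b) + n b) +
      ((o (a b)).M + 1) * (o (a b)).M)) :=
    hs.pbd.add (PBd.peval ((((PBd.const 2).add ha.pbd).add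
      ((hs.pbd.add (PBd.const 1)).mul (hs.pbd.add hn.pbdNat))).add
      ((hM.pbdNat.add (PBd.const 1)).mul hM.pbdNat)) Q)
  have hL : PBd (fun b => (2 + (sz (s b) + 1) * (sz (s b) + n b) +
      2 * ((sz (s b) + 1) * sz (s b)) + 1) * (sz (s b) + n b)) :=
    (((((PBd.const 2).add ((hs.pbd.add (PBd.const 1)).mul (hs.pbd.add hn.pbdNat))).add
      ((PBd.const 2).mul ((hs.pbd.add (PBd.const 1)).mul hs.pbd))).add (PBd.const 1)).mul
      (hs.pbd.add hn.pbdNat))
  have key : PolyF (fun b => (runG (o (a b)) vle)^[n b] (s b, false)) := by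
    refine natIterate (f := fun b => runG (o (a b)) vle) (g := fun b => (s b, false)) hn hg
      (hs.pair (const false)) ?_
    refine (((PBd.const 6).add hS).add hL).imp fun B hB b i hi => ?_
    refine le_trans ?_ (hB b)
    beta_reduce
    have hW : sz (s b).2.1 ≤ sz (s b) := by
      obtain ⟨x, st, sta⟩ := s b
      simp only [sz_prod]
      omega
    have hx : sz (s b).1 ≤ sz (s b) := by
      obtain ⟨x, st, sta⟩ := s b
      simp only [sz_prod]
      omega
    obtain ⟨h1, -, h3⟩ := runG_inv (o (a b)) vle (W := sz (s b)) (b := n b) (s := s b)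
      (S := sz (s b) + Q.eval (2 + sz (a b) + (sz (s b) + 1) * (sz (s b) + n b) +
        ((o (a b)).M + 1) * (o (a b)).M)) (SI.init _ hW) (by omega) (fun f y hf hl => by
        have e1 := hQ (a b, f.J, List.range (o (a b)).M)
        dsimp only at e1
        rw [hl] at e1
        have e2 : sz y ≤ sz (LRes.opt y) := by
          change sz y ≤ 1 + (1 + sz y)
          omega
        have e3 : Q.eval (sz (a b, f.J, List.range (o (a b)).M)) ≤ Q.eval (2 + sz (a b) +
            (sz (s b) + 1) * (sz (s b) + n b) + ((o (a b)).M + 1) * (o (a b)).M) := by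
          refine peval_mono Q ?_
          have e4 := sz_nats_le hf.1 hf.2.2.2.1
          have e5 : sz (List.range (o (a b)).M) ≤ ((o (a b)).M + 1) * (o (a b)).M :=
            sz_nats_le (fun j hj => (List.mem_range.1 hj).le) (by simp)
          have e6 : sz (a b, f.J, List.range (o (a b)).M) =
            1 + sz (a b) + (1 + sz f.J + sz (List.range (o (a b)).M)) := rfl
          rw [e6]
          omega
        omega) i hi
    have h4 := (h1.mono (show sz (s b) + i ≤ sz (s b) + n b by omega)).sz_le
    generalize (runG (o (a b)) vle)^[i] (s b, false) = u at h1 h3 h4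
    obtain ⟨⟨x, st, sta⟩, d⟩ := u
    have h5 := sz_status_le sta
    have h6 := sz_bool_le d
    have h7 : sz ((x, st, sta), d) = 1 + (1 + sz x + (1 + sz st + sz sta)) + sz d := rfl
    dsimp only at h1 h3 h4
    rw [h7]
    omega
  exact key.fst.congr fun b => runG_eq _ _ _ _

theorem next [DecidableEq Pt] [TInj Pt] (ho : POrc o vle) {a : β → α}
    {s : β → Pool.Agent.Simplex.QP.St Pt} (ha : PolyF a) (hs : PolyF s) :
    PolyF (fun b => next (o (a b)) vle (s b)) :=
  PolyF.runB ho ha (((const 2).natMul (ho.M.comp ha)).natAdd (const 2)) hs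

/-! ### The initial state -/

theorem sameTop (ho : POrc o vle) {a : β → α} {u v : β → LRes Pt} (ha : PolyF a) (hu : PolyF u)
    (hv : PolyF v) : PolyF (fun b => sameTop (o (a b)) vle (u b) (v b)) := by
  refine lresCases (o := u) (g1 := fun _ => false)
    (g2 := fun b => match v b with | .unb => true | _ => false)
    (h := fun q : β × Pt => match v q.1 with
      | .opt z => vle ((o (a q.1)).obj q.2) ((o (a q.1)).obj z)
      | _ => false) hu (const false) ?_ ?_ (fun b h => ?_) (fun b h => ?_) (fun b y h => ?_)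
  · refine lresCases (o := v) (g1 := fun _ => false) (g2 := fun _ => true) (h := fun _ => false)
      hv (const _) (const _) (const _) (fun b h => ?_) (fun b h => ?_) (fun b y h => ?_)
    · simp only [h]
    · simp only [h]
    · simp only [h]
  · refine lresCases (o := fun q : β × Pt => v q.1) (g1 := fun _ => false) (g2 := fun _ => false)
      (h := fun u : (β × Pt) × Pt => vle ((o (a u.1.1)).obj u.1.2) ((o (a u.1.1)).obj u.2))
      (hv.comp fst') (const _) (const _) (ho.vle.comp ((ho.obj.comp ((ha.comp fst'.fst).pair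
        fst'.snd)).pair (ho.obj.comp ((ha.comp fst'.fst).pair snd'))))
      (fun b h => ?_) (fun b h => ?_) (fun b y h => ?_)
    · simp only [h]
    · simp only [h]
    · simp only [h]
  · unfold Pool.Agent.Simplex.QP.sameTop; rw [h]
  · unfold Pool.Agent.Simplex.QP.sameTop; rw [h]
    cases v b <;> rfl
  · unfold Pool.Agent.Simplex.QP.sameTop; rw [h]
    cases v b <;> rfl

theorem rootJ (ho : POrc o vle) {a : β → α} {x : β → Pt} (ha : PolyF a) (hx : PolyF x) :
    PolyF (fun b => rootJ (o (a b)) vle (x b)) := by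
  have hM : PolyF (fun b => (o (a b)).M) := ho.M.comp ha
  have hl : PolyF (fun b => (List.range (o (a b)).M).filter ((o (a b)).tt (x b))) :=
    hM.range.filter (p := fun b i => (o (a b)).tt (x b) i)
      (ho.tt.comp ((ha.comp fst').pair ((hx.comp fst').pair snd')))
  refine foldl_add (i := fun _ => ([] : List ℕ))
    (f := fun b J i => if Pool.Agent.Simplex.QP.sameTop (o (a b)) vle
      ((o (a b)).lp [] (List.range (o (a b)).M)) ((o (a b)).lp (i :: J)
        (List.range (o (a b)).M)) = true then i :: J else J) hl (const _) ?_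
    (fun b => sz ((List.range (o (a b)).M).filter ((o (a b)).tt (x b)))) hl.pbd
    (fun b J i hi => ?_)
  · have hMr : PolyF (fun p : β × List ℕ × ℕ => List.range (o (a p.1)).M) :=
      (hM.comp fst').range
    exact iteBool (PolyF.sameTop ho (ha.comp fst')
      (ho.lp.comp ((ha.comp fst').pair (nil.pair hMr)))
      (ho.lp.comp ((ha.comp fst').pair ((snd'.snd.cons snd'.fst).pair hMr))))
      (snd'.snd.cons snd'.fst) snd'.fst
  · have := sz_mem hi
    split_ifs
    · simp only [sz_cons]
      omega
    · omega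

theorem initS (ho : POrc o vle) {a : β → α} {x : β → Pt} (ha : PolyF a) (hx : PolyF x) :
    PolyF (fun b => initS (o (a b)) vle (x b)) := by
  have hM : PolyF (fun b => (o (a b)).M) := ho.M.comp ha
  have hJ := PolyF.rootJ ho ha hx
  refine hx.pair ((singleton (hJ.pair ((hM.range.filter
    (p := fun b j => !(o (a b)).dep (Pool.Agent.Simplex.QP.rootJ (o (a b)) vle (x b)) j) ?_).pair
    (const [])))).pair (const _))
  exact (ho.dep.comp ((ha.comp fst').pair ((hJ.comp fst').pair snd'))).not

/-! ### The concrete oracle -/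

theorem dn {d : β → ℤ} (hd : PolyF d) : PolyF (fun b => dn (d b)) :=
  ite ((const 0).intLt hd) hd (const 1)

theorem vleZ {u v : β → ℤ × ℤ} (hu : PolyF u) (hv : PolyF v) :
    PolyF (fun b => vleZ (u b) (v b)) :=
  (hu.fst.intMul (PolyF.dn hv.snd)).intLe (hv.fst.intMul (PolyF.dn hu.snd))

theorem rowOf {D : β → Sta} {i : β → ℕ} (hD : PolyF D) (hi : PolyF i) :
    PolyF (fun b => rowOf (D b) (i b)) :=
  hD.snd.fst.getDL hi (const _)

theorem ttZ {D : β → Sta} {p : β → Pnt} {i : β → ℕ} (hD : PolyF D) (hp : PolyF p)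
    (hi : PolyF i) : PolyF (fun b => ttZ (D b) (p b) (i b)) :=
  (PolyF.dotZ (PolyF.padZ hD.fst (PolyF.rowOf hD hi).fst) hp.fst).intEq
    ((PolyF.rowOf hD hi).snd.intMul (PolyF.dn hp.snd))

theorem objZ {D : β → Sta} {p : β → Pnt} (hD : PolyF D) (hp : PolyF p) :
    PolyF (fun b => objZ (D b) (p b)) :=
  (PolyF.dotZ (PolyF.padZ hD.fst hD.snd.snd) hp.fst).pair hp.snd

theorem depO {D : β → Sta} {J : β → List ℕ} {i : β → ℕ} (hD : PolyF D) (hJ : PolyF J)
    (hi : PolyF i) : PolyF (fun b => depO (D b) (J b) (i b)) :=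
  PolyF.depZ hD.fst (hJ.map (h := fun b j => (Pool.Agent.Simplex.QP.rowOf (D b) j).1)
    (PolyF.rowOf (hD.comp fst') snd').fst) (PolyF.rowOf hD hi).fst

theorem lpZ {D : β → Sta} {J I : β → List ℕ} (hD : PolyF D) (hJ : PolyF J)
    (hI : PolyF I) : PolyF (fun b => lpZ (D b) (J b) (I b)) := by
  have hrow : ∀ {L : β → List ℕ}, PolyF L → PolyF (fun b =>
      (L b).map (Pool.Agent.Simplex.QP.rowOf (D b))) := fun {L} hL =>
    hL.map (h := fun b j => Pool.Agent.Simplex.QP.rowOf (D b) j)
      (PolyF.rowOf (hD.comp fst') snd')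
  refine lresOfOpt (PolyF.resOpt (PolyF.lpsolve hD.fst (hrow hJ) (hrow hI) hD.snd.snd))
    fun b => ?_
  unfold Pool.Agent.Simplex.QP.lpZ
  cases Pool.Agent.Simplex.QP.lpsolve (D b).1 ((J b).map (Pool.Agent.Simplex.QP.rowOf (D b)))
    ((I b).map (Pool.Agent.Simplex.QP.rowOf (D b))) (D b).2.2 <;> rfl

end PolyF

/-- The concrete oracle is computable in polynomial time. -/
theorem pOrc_orc : POrc orc vleZ where
  M := (PolyF.id : PolyF (fun D : Sta => D)).snd.fst.length
  tt := PolyF.ttZ PolyF.fst' PolyF.snd'.fst PolyF.snd'.snd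
  obj := PolyF.objZ PolyF.fst' PolyF.snd'
  dep := PolyF.depO PolyF.fst' PolyF.snd'.fst PolyF.snd'.snd
  lp := PolyF.lpZ PolyF.fst' PolyF.snd'.fst PolyF.snd'.snd
  vle := PolyF.vleZ PolyF.fst' PolyF.snd'

theorem PolyF.nextZ {D : β → Sta} {s : β → Pool.Agent.Simplex.QP.St Pnt} (hD : PolyF D)
    (hs : PolyF s) : PolyF (fun b => Pool.Agent.Simplex.QP.next (orc (D b)) Pool.Agent.Simplex.QP.vleZ (s b)) :=
  PolyF.next pOrc_orc hD hs

theorem PolyF.stepZ {D : β → Sta} {s : β → Pool.Agent.Simplex.QP.St Pnt} (hD : PolyF D)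
    (hs : PolyF s) : PolyF (fun b => Pool.Agent.Simplex.QP.step (orc (D b)) Pool.Agent.Simplex.QP.vleZ (s b)) :=
  PolyF.step pOrc_orc hD hs

theorem PolyF.initZ {D : β → Sta} {p : β → Pnt} (hD : PolyF D)
    (hp : PolyF p) : PolyF (fun b => Pool.Agent.Simplex.QP.initS (orc (D b)) Pool.Agent.Simplex.QP.vleZ (p b)) :=
  PolyF.initS pOrc_orc hD hp

end

end Pool.Agent.Lib.PolyTime
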