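import Pool.Agent.Lib.MP_4d246d_lc.QP.Next
import Pool.Agent.Lib.MP_4d246d_lc.QP.PolyMachine

/-!
# The states of the machine have polynomial size
-/

namespace Pool.Agent.Simplex.QP

open Pool.Agent.Lib.PolyTime

/-! ### Structural bounds for good states -/

section

variable {Pt Vl : Type} {o : Orc Pt Vl} {vle : Vl → Vl → Bool}

/-- Bounds for the frames of a stack; `k` frames are below. -/
structure WfF (M k : ℕ) (f : Frame) : Prop where
  lJ : f.J.length ≤ M + k
  lI : f.I.length ≤ M
  lB : f.B.length ≤ M
  mJ : ∀ j ∈ f.J, j < M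
  mI : ∀ j ∈ f.I, j < M
  mB : ∀ j ∈ f.B, j < M

/-- Bounds for a stack. -/
def WfL (M : ℕ) : List Frame → Prop
  | [] => True
  | f :: r => WfF M r.length f ∧ WfL M r

theorem WfL.suffix {M : ℕ} {st st' : List Frame} (h : WfL M st) (hs : st' <:+ st) :
    WfL M st' := by
  induction st with
  | nil => rw [List.suffix_nil.1 hs]; exact h
  | cons f r ih =>
    rcases List.suffix_cons_iff.1 hs with rfl | hs
    · exact h
    · exact ih h.2 hs

theorem WfL.mem {M : ℕ} {st : List Frame} (h : WfL M st) {f : Frame} (hf : f ∈ st) :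
    WfF M st.length f := by
  induction st with
  | nil => simp at hf
  | cons g r ih =>
    have mono : ∀ {k}, WfF M k f → k ≤ (g :: r).length → WfF M (g :: r).length f :=
      fun h hk => ⟨h.lJ.trans (by omega), h.lI, h.lB, h.mJ, h.mI, h.mB⟩
    rcases List.mem_cons.1 hf with rfl | hf
    · exact mono h.1 (by simp)
    · exact mono (ih h.2 hf) (by simp)

theorem WfF.face {M k i : ℕ} {f : Frame} (hi : i < M) (h : WfF M k f) :
    WfF M (k + 1) (face o i f) where
  lJ := Nat.succ_le_succ h.lJ
  lI := (List.length_filter_le _ _).trans h.lI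
  lB := Nat.zero_le _
  mJ := fun j hj => by
    rcases List.mem_cons.1 hj with rfl | hj
    · exact hi
    · exact h.mJ j hj
  mI := fun j hj => h.mI j (List.mem_of_mem_filter hj)
  mB := fun j hj => absurd hj List.not_mem_nil

theorem WfF.relax {M k : ℕ} {x : Pt} {f : Frame} (h : WfF M k f) :
    WfF M (k + 1) (relax o vle x f) where
  lJ := h.lJ.trans (Nat.le_succ _)
  lI := (List.length_filter_le _ _).trans h.lI
  lB := (length_upH_le o vle x f.J f.I).trans h.lI
  mJ := h.mJ
  mI := fun j hj => h.mI j (List.mem_of_mem_filter hj)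
  mB := fun j hj => h.mI j (mem_upH o vle hj)

theorem WfL.popTo {M : ℕ} {y : Pt} {st : List Frame} (h : WfL M st) :
    WfL M (popTo o y st) := by
  unfold Pool.Agent.Simplex.QP.popTo
  cases hs : (st.foldr (popStep o y) ([], none)).2 with
  | none => exact h
  | some w =>
    obtain ⟨i, f, p, r, h1, h2, h3, h4⟩ := (foldr_popStep o y st).2 w hs
    subst h3
    have h5 : WfL M (p :: r) := h.suffix h4
    exact ⟨h5.1.face ((h.mem h1).mB i h2), h5⟩

theorem WfL.step {s : St Pt} (h : WfL o.M s.2.1) : WfL o.M (step o vle s).2.1 := by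
  obtain ⟨x, st, sta⟩ := s
  cases sta with
  | optimal => exact h
  | unbounded => exact h
  | running =>
    cases st with
    | nil => exact h
    | cons f rest =>
      unfold Pool.Agent.Simplex.QP.step
      dsimp only
      split_ifs with h0 h1
      · cases rest with
        | nil => exact h
        | cons p r => exact h.2
      · cases o.lp f.J (List.range o.M) with
        | infeas => exact h
        | unb => exact h
        | opt y => exact WfL.popTo h
      · cases hfi : (upH o vle x f.J f.I).find? (o.tt x) with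
        | some i =>
          exact ⟨h.1.face (h.1.mI i (mem_upH o vle (List.mem_of_find?_eq_some hfi))), h⟩
        | none => exact ⟨h.1.relax, h⟩

variable {E : Type*} [AddCommGroup E] [Module ℝ E] {S : Sys E} {val : Pt → E}

/-- The stack of a good state has at most `M + 1` frames. -/
theorem GoodS.length_le {f₀ : Frame} {s : St Pt} (h : GoodS o vle S val f₀ s) :
    s.2.1.length ≤ o.M + 1 := by
  cases h with
  | run x f r h1 h2 => have := h1.chain.depth; simp only [List.length_cons]; omega
  | opt x h1 h2 => simp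
  | unb x f r h1 h2 => have := h1.chain.depth; simp only [List.length_cons]; omega

/-- points which occur: the starting point and optimal points of faces -/
def PtOk (o : Orc Pt Vl) (p x : Pt) : Prop :=
  x = p ∨ ∃ J : List ℕ, J.length ≤ 2 * o.M + 1 ∧ (∀ j ∈ J, j < o.M) ∧
    o.lp J (List.range o.M) = .opt x

/-- All structural invariants. -/
structure Inv (o : Orc Pt Vl) (vle : Vl → Vl → Bool) (S : Sys E) (val : Pt → E) (f₀ : Frame)
    (p : Pt) (s : St Pt) : Prop where
  good : GoodS o vle S val f₀ s
  wf : WfL o.M s.2.1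
  pt : PtOk o p s.1

theorem Inv.step (ho : Spec o vle S val) {f₀ : Frame} {p : Pt} {s : St Pt}
    (h : Inv o vle S val f₀ p s) : Inv o vle S val f₀ p (step o vle s) := by
  refine ⟨(step_good ho h.good).1, h.wf.step, ?_⟩
  rcases step_point o vle s with h1 | ⟨f, hf, h1⟩
  · rw [h1]; exact h.pt
  · have h2 := h.wf.mem hf
    have h3 := h.good.length_le
    exact Or.inr ⟨f.J, h2.lJ.trans (by omega), h2.mJ, h1⟩

variable [DecidableEq Pt]

theorem Inv.runB (ho : Spec o vle S val) {f₀ : Frame} {p : Pt} (b : ℕ) {s : St Pt}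
    (h : Inv o vle S val f₀ p s) : Inv o vle S val f₀ p (runB o vle b s) := by
  induction b generalizing s with
  | zero => exact h
  | succ b ih =>
    unfold Pool.Agent.Simplex.QP.runB
    split_ifs
    · exact ih (h.step ho)
    · exact h.step ho

theorem Inv.iterate (ho : Spec o vle S val) {f₀ : Frame} {p : Pt} (t : ℕ) {s : St Pt}
    (h : Inv o vle S val f₀ p s) : Inv o vle S val f₀ p ((next o vle)^[t] s) := by
  induction t with
  | zero => exact h
  | succ t ih =>
    rw [Function.iterate_succ_apply']
    exact ih.runB ho _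

end

/-! ### Sizes -/

theorem sz_wfF {M k : ℕ} {f : Frame} (h : WfF M k f) :
    sz f ≤ 2 + (M + 1) * (M + k) + 2 * ((M + 1) * M) := by
  have h1 := sz_nats_le (fun j hj => (h.mJ j hj).le) h.lJ
  have h2 := sz_nats_le (fun j hj => (h.mI j hj).le) h.lI
  have h3 := sz_nats_le (fun j hj => (h.mB j hj).le) h.lB
  obtain ⟨J, I, B⟩ := f
  simp only [sz_prod, Frame.J, Frame.I, Frame.B] at *
  omega

theorem sz_wfL {M L : ℕ} {st : List Frame} (h : WfL M st) (hL : st.length ≤ L) :
    sz st ≤ (2 + (M + 1) * (M + L) + 2 * ((M + 1) * M) + 1) * L := by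
  refine (sz_le_of_forall fun f hf => ?_).trans (Nat.mul_le_mul_left _ hL)
  have h1 := sz_wfF (h.mem hf)
  have h2 : (M + 1) * (M + st.length) ≤ (M + 1) * (M + L) := Nat.mul_le_mul_left _ (by omega)
  omega

/-- The points which occur have polynomial size. -/
theorem sz_ptOk : ∃ Q : Polynomial ℕ, ∀ (D : Sta) (p x : Pnt), PtOk (orc D) p x →
    sz x ≤ Q.eval (sz (D, p)) := by
  obtain ⟨Q, hQ⟩ := (PolyF.lpZ (β := Sta × List ℕ) PolyF.fst' PolyF.snd'
    (PolyF.fst'.snd.fst.length.range)).bound
  refine ⟨Q.comp (1 + Polynomial.X + (Polynomial.X + 1) * (2 * Polynomial.X + 1)) +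
    Polynomial.X, fun D p x hx => ?_⟩
  have hM : (orc D).M ≤ sz (D, p) := by
    have h1 := length_le_sz D.2.1
    have h2 : sz D.2.1 ≤ sz (D, p) := by
      obtain ⟨n, l, c⟩ := D
      simp only [sz_prod]
      omega
    exact h1.trans h2
  rcases hx with rfl | ⟨J, h1, h2, h3⟩
  · have : sz x ≤ sz (D, x) := by simp only [sz_prod]; omega
    simp only [Polynomial.eval_add, Polynomial.eval_X]
    omega
  · have h4 := hQ (D, J)
    have h5 : (orc D).lp J (List.range (orc D).M) =
        lpZ D J (List.range D.2.1.length) := rfl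
    rw [h5] at h3
    have h3' : lpZ (D, J).1 (D, J).2 (List.range (D, J).1.2.1.length) = .opt x := h3
    rw [h3'] at h4
    have h6 : sz x ≤ sz (LRes.opt x) := by
      show sz x ≤ sz (some (some x))
      simp only [sz_some]
      omega
    have h7 : sz (D, J) ≤ 1 + sz (D, p) + (sz (D, p) + 1) * (2 * sz (D, p) + 1) := by
      have h8 := sz_nats_le (fun j hj => (h2 j hj).le) h1
      have h9 : ((orc D).M + 1) * (2 * (orc D).M + 1) ≤
          (sz (D, p) + 1) * (2 * sz (D, p) + 1) := Nat.mul_le_mul (by omega) (by omega)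
      have h10 : sz D ≤ sz (D, p) := by simp only [sz_prod]; omega
      have h11 : sz (D, J) = 1 + sz D + sz J := rfl
      omega
    refine (h6.trans h4).trans ((peval_mono Q h7).trans ?_)
    simp only [Polynomial.eval_add, Polynomial.eval_comp, Polynomial.eval_X, Polynomial.eval_mul,
      Polynomial.eval_one, Polynomial.eval_ofNat]
    omega

/-- All states reached from a good state with one frame have polynomial size. -/
theorem state_size_of : ∃ Q : Polynomial ℕ, ∀ (D : Sta) (p : Pnt) (f : Frame) {E : Type}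
    [AddCommGroup E] [Module ℝ E] (S : Sys E) (val : Pnt → E) (f₀ : Frame),
    Spec (orc D) vleZ S val → GoodS (orc D) vleZ S val f₀ (p, [f], .running) →
    f.J.length ≤ (orc D).M →
    ∀ t, sz ((next (orc D) vleZ)^[t] (p, [f], .running)) ≤ Q.eval (sz (D, p)) := by
  obtain ⟨Q, hQ⟩ := sz_ptOk
  refine ⟨Q + (4 + ((2 + (Polynomial.X + 1) * (Polynomial.X + (Polynomial.X + 1)) +
    2 * ((Polynomial.X + 1) * Polynomial.X) + 1) * (Polynomial.X + 1))),
    fun D p f E _ _ S val f₀ ho hG hJ t => ?_⟩
  have hM : (orc D).M ≤ sz (D, p) := by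
    have h1 := length_le_sz D.2.1
    have h2 : sz D.2.1 ≤ sz (D, p) := by
      obtain ⟨n, l, c⟩ := D
      simp only [sz_prod]
      omega
    exact h1.trans h2
  have hwf : WfL (orc D).M [f] := by
    refine ⟨?_, trivial⟩
    cases hG with
    | run x f r h1 h2 =>
      have h3 := h1.chain
      have h4 := h3.depth
      refine ⟨by simpa using hJ, by simpa using h4, ?_, h3.basic.2.1, h3.basic.1, ?_⟩
      · rw [h3.1]; exact Nat.zero_le _
      · rw [h3.1]; intro j hj; exact absurd hj List.not_mem_nil
  have hinv : Inv (orc D) vleZ S val f₀ p (p, [f], .running) := ⟨hG, hwf, Or.inl rfl⟩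
  have h1 := hinv.iterate ho t
  generalize (next (orc D) vleZ)^[t] (p, [f], .running) = s at h1
  have h2 := hQ D p s.1 h1.pt
  have h3 := sz_wfL h1.wf h1.good.length_le
  have h4 := sz_status_le s.2.2
  have h5 : (2 + ((orc D).M + 1) * ((orc D).M + ((orc D).M + 1)) +
      2 * (((orc D).M + 1) * (orc D).M) + 1) * ((orc D).M + 1) ≤
      (2 + (sz (D, p) + 1) * (sz (D, p) + (sz (D, p) + 1)) +
      2 * ((sz (D, p) + 1) * sz (D, p)) + 1) * (sz (D, p) + 1) := by
    gcongr
  obtain ⟨x, st, sta⟩ := s
  simp only [Polynomial.eval_add, Polynomial.eval_X, Polynomial.eval_mul,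
      Polynomial.eval_one, Polynomial.eval_ofNat]
  dsimp only at h2 h3 h4
  have h6 : sz (x, st, sta) = 1 + sz x + (1 + sz st + sz sta) := rfl
  omega

theorem length_rootJ_le {Pt Vl : Type} (o : Orc Pt Vl) (vle : Vl → Vl → Bool) (x : Pt) :
    (rootJ o vle x).length ≤ o.M := by
  have key : ∀ (l J : List ℕ), (l.foldl (fun J i =>
      if sameTop o vle (o.lp [] (List.range o.M)) (o.lp (i :: J) (List.range o.M))
        then i :: J else J) J).length ≤ J.length + l.length := by
    intro l
    induction l with
    | nil => intro J; simp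
    | cons a l ih =>
      intro J
      rw [List.foldl_cons]
      split_ifs
      · refine (ih _).trans ?_
        simp only [List.length_cons]
        omega
      · refine (ih _).trans ?_
        simp only [List.length_cons]
        omega
  refine (key _ _).trans ?_
  rw [List.length_nil, Nat.zero_add]
  refine (List.length_filter_le _ _).trans ?_
  rw [List.length_range]

/-- All states reached from a good initial state have polynomial size. -/
theorem state_size : ∃ Q : Polynomial ℕ, ∀ (D : Sta) (p : Pnt) {E : Type}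
    [AddCommGroup E] [Module ℝ E] (S : Sys E) (val : Pnt → E) (f₀ : Frame),
    Spec (orc D) vleZ S val → GoodS (orc D) vleZ S val f₀ (initS (orc D) vleZ p) →
    ∀ t, sz ((next (orc D) vleZ)^[t] (initS (orc D) vleZ p)) ≤ Q.eval (sz (D, p)) := by
  obtain ⟨Q, hQ⟩ := state_size_of
  exact ⟨Q, fun D p E _ _ S val f₀ ho hG t =>
    hQ D p (rootF (orc D) vleZ p) S val f₀ ho hG (length_rootJ_le _ _ _) t⟩

end Pool.Agent.Simplex.QP
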