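import Pool.Agent.Lib.MP_4d246d_lc.QP.Data
import Pool.Agent.Lib.MP_4d246d_lc.QP.Edges
import Pool.Agent.Lib.MP_4d246d_lc.QP.Root
import Pool.Agent.Lib.MP_4d246d_lc.QP.RootCount
import Pool.Agent.Lib.MP_4d246d_lc.QP.Size
import Pool.Agent.Lib.MP_4d246d_lc.QP.PolyInput
import Pool.Agent.Lib.PolyTime.Emit

/-! The final assembly. -/

namespace Pool.Agent.Simplex.QP

open Pool.Agent.Lib.PolyTime Turing

/-- states of the rule -/
abbrev Sg : Type := Sta × St Pnt

/-- initial state -/
def initR (I : Input) : Sg := (dat I, initS (orc (dat I)) vleZ (pntOf I.data))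

/-- one pivot -/
def nextR (s : Sg) : Sg := (s.1, next (orc s.1) vleZ s.2)

/-- translation of the status -/
def verd : Status → Verdict
  | .running => .pivot
  | .optimal => .optimal
  | .unbounded => .unbounded

/-- the report: coordinates of the current vertex, and what happens next -/
def report (s : Sg) : List ℚ × Verdict := (ratsOf s.2.1, verd (next (orc s.1) vleZ s.2).2.2)

/-- the machine stops after this report -/
def haltR (s : Sg) : Bool := decide (verd (next (orc s.1) vleZ s.2).2.2 ≠ .pivot)

theorem enc_verd (s : Status) : enc (verd s) = enc s := by cases s <;> rfl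

theorem polyF_data : PolyF (fun I : Input => I.data) :=
  PolyF.id.of_enc (fun x => x) (fun _ => rfl) fun _ => rfl

theorem polyF_initR : PolyF initR := by
  have h1 : PolyF (fun I : Input => dat I) := PolyF.staOf polyF_data
  exact h1.pair (PolyF.initZ h1 (PolyF.pntOf polyF_data))

theorem polyF_nextR : PolyF nextR :=
  PolyF.fst'.pair (PolyF.nextZ PolyF.fst' PolyF.snd')

theorem polyF_verd : PolyF (fun s : Sg => verd (next (orc s.1) vleZ s.2).2.2) := by
  have h : PolyF (fun s : Sg => (next (orc s.1) vleZ s.2).2.2) :=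
    (PolyF.nextZ PolyF.fst' PolyF.snd').snd.snd
  exact h.of_enc (fun x => x) (fun _ => rfl) fun s => enc_verd _

theorem polyF_report : PolyF report :=
  (PolyF.ratsOf PolyF.snd'.fst).pair polyF_verd

instance : TInj Verdict := ⟨fun a b h => by
  cases a <;> cases b <;> first
    | rfl
    | exact absurd (TInj.inj (α := ℕ) h) (by decide)⟩

theorem polyF_haltR : PolyF haltR :=
  (polyF_verd.eqConst Verdict.pivot).decide_not

theorem iterate_nextR (D : Sta) (s : St Pnt) (t : ℕ) :
    nextR^[t] (D, s) = (D, (next (orc D) vleZ)^[t] s) := by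
  induction t generalizing s with
  | zero => rfl
  | succ t ih =>
    rw [Function.iterate_succ_apply, Function.iterate_succ_apply]
    exact ih _

/-- points in a run have the right number of coordinates -/
theorem len_ptOk {D : Sta} {p x : Pnt} (hp : p.1.length = D.1) (h : PtOk (orc D) p x) :
    x.1.length = D.1 := by
  rcases h with rfl | ⟨J, _, _, h⟩
  · exact hp
  · have h1 := lpsolve_spec D.1 (J.map (rowOf D)) ((List.range (orc D).M).map (rowOf D)) D.2.2
    rw [lpZ_opt (show lpZ D J (List.range (orc D).M) = .opt x from h)] at h1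
    exact h1.2.1

/-- the bound on the number of pivots -/
def bd (m n : ℕ) : ℕ := pivotBound (min n (m + 1)) (min (m + n) (2 * m + 1))

/-- the rational vertex after `t` pivots -/
def xq (I : Input) (t : ℕ) : Fin I.n → ℚ := qv I.n (nextR^[t] (initR I)).2.1

theorem improving_of_estep (I : Input) {a b : Pnt}
    (h : EStep (sysI I) (orc (dat I)).M (valI I a) (valI I b)) :
    I.lp.Improving (toReal (qv I.n a)) (toReal (qv I.n b)) := by
  obtain ⟨dc, hdc, hobj⟩ := obj_eq I
  obtain ⟨h1, h2, h3, h4⟩ := h.edge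
  have hfe : (sysI I).Q [] (List.range (orc (dat I)).M) = I.lp.feasible := feasible_eq I
  rw [hfe] at h1 h3 h4
  rw [hobj, hobj] at h2
  have h5 := lt_of_mul_lt_mul_left h2 hdc.le
  rw [toReal_qv, toReal_qv]
  refine ⟨⟨h3, h4, ?_, h1⟩, h5⟩
  intro he
  rw [he] at h5
  exact lt_irrefl _ h5

theorem unbounded_of_rstep (I : Input) {a : Pnt} {J0 : List ℕ}
    (h : RStep (sysI I) (orc (dat I)).M J0 (valI I a)) :
    I.lp.Unbounded (toReal (qv I.n a)) := by
  obtain ⟨dc, hdc, hobj⟩ := obj_eq I
  obtain ⟨z, h1, h2, h3⟩ := h.ray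
  have hfe : (sysI I).Q [] (List.range (orc (dat I)).M) = I.lp.feasible := feasible_eq I
  rw [hfe] at h2 h3
  rw [hobj] at h1
  rw [toReal_qv]
  exact ⟨h3, z, (mul_pos_iff_of_pos_left hdc).1 h1, h2⟩

/-- The run on an input is correct and stops after `N` pivots. -/
structure RunOK (I : Input) (N : ℕ) : Prop where
  bound : N ≤ bd I.m I.n
  start : xq I 0 = I.v
  rep : ∀ t, (report (nextR^[t] (initR I))).1 = List.ofFn (xq I t)
  pivot : ∀ t < N, I.lp.Improving (toReal (xq I t)) (toReal (xq I (t + 1))) ∧
      (report (nextR^[t] (initR I))).2 = .pivot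
  stop : (report (nextR^[N] (initR I))).2 = .optimal ∧ I.lp.Vertex (toReal (xq I N)) ∧
        I.lp.Optimal (toReal (xq I N)) ∨
      (report (nextR^[N] (initR I))).2 = .unbounded ∧ I.lp.Unbounded (toReal (xq I N))

/-- The run on an input. -/
theorem run_input (I : Input) : ∃ N, RunOK I N := by
  have ho := spec_I I
  obtain ⟨dc, hdc, hobj⟩ := obj_eq I
  have hfe := feasible_eq I
  have hval := val_pntOf I
  have hx : valI I (pntOf I.data) ∈ (sysI I).Q [] (List.range (orc (dat I)).M) := by
    show _ ∈ (sysI I).Q [] (List.range (dat I).2.1.length)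
    rw [hfe, hval]
    exact I.vertex.1
  have hv : (sysI I).Vx (fun i => i < (orc (dat I)).M) (valI I (pntOf I.data)) := by
    apply Sys.vx_of_extreme
    show _ ∈ Set.extremePoints ℝ ((sysI I).Q [] (List.range (dat I).2.1.length))
    rw [hfe, hval]
    exact I.vertex
  have hM : (orc (dat I)).M = I.m + Module.finrank ℝ (Fin I.n → ℝ) := by
    show (dat I).2.1.length = _
    rw [dat_len, Module.finrank_fin_fun]
  have hG := rootF_good (vle := vleZ) ho hx hv
  obtain ⟨hc1, hc2⟩ := rootF_counts (vle := vleZ) ho hx hv hM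
  rw [Module.finrank_fin_fun] at hc1 hc2
  obtain ⟨N, hN, hgood, hrun, hE, hlast, hfin⟩ := run_root ho vord hG hc1
    ((length_active_root_le (pntOf I.data)).trans hc2)
  have hst : ∀ t, nextR^[t] (initR I) = (dat I, (next (orc (dat I)) vleZ)^[t]
      (pntOf I.data, [rootF (orc (dat I)) vleZ (pntOf I.data)], .running)) :=
    fun t => iterate_nextR _ _ t
  have hxq : ∀ t, xq I t = qv I.n ((next (orc (dat I)) vleZ)^[t]
      (pntOf I.data, [rootF (orc (dat I)) vleZ (pntOf I.data)], .running)).1 := fun t => by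
    unfold xq; rw [hst]
  have hrep : ∀ t, (report (nextR^[t] (initR I))).2 = verd ((next (orc (dat I)) vleZ)^[t + 1]
      (pntOf I.data, [rootF (orc (dat I)) vleZ (pntOf I.data)], .running)).2.2 := fun t => by
    rw [Function.iterate_succ_apply', hst]
    rfl
  have hlen : ∀ t, ((next (orc (dat I)) vleZ)^[t]
      (pntOf I.data, [rootF (orc (dat I)) vleZ (pntOf I.data)], .running)).1.1.length = I.n := by
    intro t
    have h0 : Inv (orc (dat I)) vleZ (sysI I) (valI I) (rootF (orc (dat I)) vleZ (pntOf I.data))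
        (pntOf I.data)
        (pntOf I.data, [rootF (orc (dat I)) vleZ (pntOf I.data)], .running) := by
      refine ⟨hgood 0, ⟨⟨?_, ?_, ?_, ?_, ?_, ?_⟩, trivial⟩, Or.inl rfl⟩
      · exact length_rootJ_le (orc (dat I)) vleZ (pntOf I.data)
      · exact (List.length_filter_le _ _).trans (by simp)
      · exact Nat.zero_le _
      · exact hG.chain.basic.2.1
      · exact hG.chain.basic.1
      · intro j hj; exact absurd hj List.not_mem_nil
    have h1 := (h0.iterate ho t).pt
    refine len_ptOk (D := dat I) (p := pntOf I.data) ?_ h1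
    show (clr _ (List.ofFn I.v)).length = I.n
    simp [clr]
  refine ⟨N, hN, ?_, fun t => ?_, fun t ht => ⟨?_, ?_⟩, ?_⟩
  · exact qv_pntOf I
  · rw [hxq, ofFn_qv (hlen t), hst]
    rfl
  · rw [hxq, hxq]
    exact improving_of_estep I (hE t ht)
  · rw [hrep, hrun (t + 1) ht]
    rfl
  · rw [hrep, hxq]
    rcases hfin with ⟨h1, h2, h3⟩ | ⟨h1, h2⟩
    · left
      have h4 := rootF_opt (vle := vleZ) ho hx h3
      have hmem := h2.mem
      have hmem' : valI I ((next (orc (dat I)) vleZ)^[N] (pntOf I.data,
          [rootF (orc (dat I)) vleZ (pntOf I.data)], .running)).1 ∈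
          (sysI I).Q [] (List.range (orc (dat I)).M) := ⟨fun i hi => by simp at hi, hmem.2⟩
      have hex := Sys.extreme_of_vx hmem' h2.vxM
      have hfe' : (sysI I).Q [] (List.range (orc (dat I)).M) = I.lp.feasible := hfe
      rw [hfe'] at h4 hmem' hex
      rw [h1, toReal_qv]
      refine ⟨rfl, hex, hmem', fun y hy => ?_⟩
      have h5 := h4 y hy
      rw [hobj, hobj] at h5
      exact le_of_mul_le_mul_left h5 hdc
    · right
      rw [h1]
      exact ⟨rfl, unbounded_of_rstep I h2⟩

/-- number of pivots -/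
noncomputable def numP (I : Input) : ℕ := (run_input I).choose

theorem numP_spec (I : Input) : RunOK I (numP I) := (run_input I).choose_spec

theorem dim_le_sz (I : Input) : I.m + I.n ≤ sz I := by
  have h1 : sz I = sz I.data := rfl
  rw [h1]
  unfold Input.data
  simp only [sz_prod, sz_nat]
  have h2 : I.m ≤ sz (List.ofFn I.lp.b) := by
    have := length_le_sz (List.ofFn I.lp.b)
    simpa using this
  omega

theorem pow_size_le (L : ℕ) : 2 ^ Nat.size L ≤ 2 * L + 1 := by
  rcases Nat.eq_zero_or_pos L with rfl | h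
  · simp
  · have h1 : 0 < Nat.size L := Nat.size_pos.2 h
    have h2 : ¬ Nat.size L ≤ Nat.size L - 1 := by omega
    rw [Nat.size_le] at h2
    have h3 : 2 ^ Nat.size L = 2 * 2 ^ (Nat.size L - 1) := by
      rw [← pow_succ']; congr 1; omega
    omega

theorem bd_le (I : Input) : bd I.m I.n ≤ hb (sz I) (sz I) := by
  have h := dim_le_sz I
  exact hb_mono (by omega) (by omega)

theorem bd_le_small (I : Input) {c : ℕ} (h : min I.n (I.m + 1) ≤ c) :
    bd I.m I.n ≤ 2 ^ c * (2 * sz I + 1) ^ 2 := by
  have h0 := dim_le_sz I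
  have h1 : bd I.m I.n ≤ hb c (sz I) := hb_mono h (by omega)
  refine h1.trans ?_
  unfold hb
  have h2 := Nat.choose_le_two_pow (c + Nat.size (sz I)) (Nat.size (sz I))
  have h3 := pow_size_le (sz I)
  calc 2 ^ Nat.size (sz I) * (c + Nat.size (sz I)).choose (Nat.size (sz I))
      ≤ 2 ^ Nat.size (sz I) * 2 ^ (c + Nat.size (sz I)) := Nat.mul_le_mul_left _ h2
    _ = 2 ^ c * (2 ^ Nat.size (sz I)) ^ 2 := by ring
    _ ≤ 2 ^ c * (2 * sz I + 1) ^ 2 := Nat.mul_le_mul_left _ (Nat.pow_le_pow_left h3 2)

theorem mono_qp : Monotone fun L : ℕ => hb L L := fun _ _ h => hb_mono h h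

theorem haltR_iff (s : Sg) : haltR s = decide ((report s).2 ≠ .pivot) := rfl

theorem halt_lt (I : Input) : ∀ j < numP I, haltR (nextR^[j] (initR I)) = false := by
  intro j hj
  rw [haltR_iff, ((numP_spec I).pivot j hj).2]
  rfl

theorem halt_at (I : Input) : haltR (nextR^[numP I] (initR I)) = true := by
  rw [haltR_iff]
  rcases (numP_spec I).stop with ⟨h, _⟩ | ⟨h, _⟩ <;>
  · rw [h]
    rfl

/-- the states have polynomial size -/
theorem size_states : ∃ Q : Polynomial ℕ, ∀ (I : Input) (t : ℕ),
    sz (nextR^[t] (initR I)) ≤ Q.eval (sz I) := by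
  obtain ⟨Q, hQ⟩ := state_size
  have h1 : PolyF (fun I : Input => (dat I, pntOf I.data)) :=
    (PolyF.staOf polyF_data).pair (PolyF.pntOf polyF_data)
  obtain ⟨R, hR⟩ := h1.bound
  refine ⟨1 + R + Q.comp R, fun I t => ?_⟩
  have ho := spec_I I
  have hfe := feasible_eq I
  have hval := val_pntOf I
  have hx : valI I (pntOf I.data) ∈ (sysI I).Q [] (List.range (orc (dat I)).M) := by
    show _ ∈ (sysI I).Q [] (List.range (dat I).2.1.length)
    rw [hfe, hval]
    exact I.vertex.1
  have hv : (sysI I).Vx (fun i => i < (orc (dat I)).M) (valI I (pntOf I.data)) := by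
    apply Sys.vx_of_extreme
    show _ ∈ Set.extremePoints ℝ ((sysI I).Q [] (List.range (dat I).2.1.length))
    rw [hfe, hval]
    exact I.vertex
  have hG := rootF_good (vle := vleZ) ho hx hv
  have h2 := hQ (dat I) (pntOf I.data) (sysI I) (valI I)
    (rootF (orc (dat I)) vleZ (pntOf I.data)) ho
    (GoodS.run _ _ [] hG rfl) t
  have h3 : nextR^[t] (initR I) = (dat I, (next (orc (dat I)) vleZ)^[t]
      (initS (orc (dat I)) vleZ (pntOf I.data))) := iterate_nextR _ _ t
  have h4 := hR I
  have h5 : sz (dat I) ≤ sz (dat I, pntOf I.data) := by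
    rw [sz_prod]
    exact (Nat.le_add_left _ _).trans (Nat.le_add_right _ _)
  rw [h3, sz_prod]
  simp only [Polynomial.eval_add, Polynomial.eval_one, Polynomial.eval_comp]
  have h6 := h2.trans (peval_mono Q h4)
  omega

/-- the list of all reports -/
noncomputable def runOf (I : Input) : List (List ℚ × Verdict) :=
  (List.range (numP I + 1)).map fun t => report (nextR^[t] (initR I))

/-- **The whole pivot sequence is computed in quasi-polynomial time.** -/
theorem machine : ∃ (P : Polynomial ℕ) (M : TM2ComputableInTime (fun I : Input => wd false true I)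
    (fun b : List (List ℚ × Verdict) => wd false true b) runOf),
    ∀ L, M.time L ≤ P.eval L * (L + Nat.size L).choose (Nat.size L) := by
  obtain ⟨Q, hQ⟩ := size_states
  obtain ⟨P, M, hM⟩ := emit_tm2_word polyF_initR polyF_nextR polyF_haltR polyF_report numP
    halt_lt halt_at (fun _ => rfl) Q (fun x j _ => hQ x j)
    (fun L : ℕ => hb L L) mono_qp (fun x => (numP_spec x).bound.trans (bd_le x))
  refine ⟨2 * P * (2 * Polynomial.X + 1), M, fun L => ?_⟩
  rw [hM]
  have h1 : 1 ≤ hb L L := hb_pos L L
  have h2 := pow_size_le L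
  simp only [Polynomial.eval_mul, Polynomial.eval_ofNat, Polynomial.eval_add,
    Polynomial.eval_X, Polynomial.eval_one]
  calc P.eval L * (hb L L + 1) ≤ P.eval L * (2 * hb L L) := Nat.mul_le_mul_left _ (by omega)
    _ = 2 * P.eval L * (2 ^ Nat.size L * (L + Nat.size L).choose (Nat.size L)) := by
        unfold hb; ring
    _ ≤ 2 * P.eval L * ((2 * L + 1) * (L + Nat.size L).choose (Nat.size L)) :=
        Nat.mul_le_mul_left _ (Nat.mul_le_mul_right _ h2)
    _ = 2 * P.eval L * (2 * L + 1) * (L + Nat.size L).choose (Nat.size L) := by ring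

/-- inputs of logarithmic dimension -/
abbrev Small (C : ℕ) : Type := {I : Input // min I.n (I.m + 1) ≤ C * Nat.size (code I).length}

/-- **Polynomial time for linear programs of logarithmic dimension.** -/
theorem machine_small (C : ℕ) : Nonempty (TM2ComputableInPolyTime
    (fun I : Small C => wd false true I.1)
    (fun b : List (List ℚ × Verdict) => wd false true b) (fun I => runOf I.1)) := by
  obtain ⟨Q, hQ⟩ := size_states
  have hv : PolyF (fun I : Small C => I.1) := PolyF.id.val
  let R : Polynomial ℕ := (4 * Polynomial.X + 3) ^ C * (2 * Polynomial.X + 1) ^ 2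
  have hR : ∀ L, R.eval L = (4 * L + 3) ^ C * (2 * L + 1) ^ 2 := fun L => by simp [R]
  obtain ⟨P, M, hM⟩ := emit_tm2_word (α := Small C) (f := fun I => runOf I.1)
    (polyF_initR.comp hv) polyF_nextR polyF_haltR polyF_report (fun I => numP I.1)
    (fun I => halt_lt I.1) (fun I => halt_at I.1) (fun _ => rfl) Q (fun x j _ => hQ x.1 j)
    (fun L : ℕ => R.eval L) (fun a b h => peval_mono R h) (fun x => by
      refine (numP_spec x.1).bound.trans ((bd_le_small x.1 x.2).trans ?_)
      rw [hR]
      have h1 : (code x.1).length = 2 * sz x.1 + 1 := length_wd _ _ _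
      have h2 : sz x = sz x.1 := rfl
      rw [h1, h2]
      refine Nat.mul_le_mul_right _ ?_
      rw [mul_comm C, pow_mul]
      refine Nat.pow_le_pow_left ?_ _
      have := pow_size_le (2 * sz x.1 + 1)
      omega)
  have e : M.time = fun L => (P * (R + 1)).eval L := by
    rw [hM]
    funext L
    simp
  exact ⟨⟨M.toTM2ComputableAux, P * (R + 1), fun a => by
    have h := M.outputsFun a
    rw [e] at h
    exact h⟩⟩

end Pool.Agent.Simplex.QP
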