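import Mathlib

/-!
# Nonnegative solutions of homogeneous integer systems with large coordinates
-/

namespace Pool.Agent.Simplex.QP

open Matrix

section

variable {ι : Type} [Fintype ι] {N : ℕ} (A : ι → Fin N → ℤ)

/-- real solutions -/
def RSol (x : Fin N → ℝ) : Prop := (∀ j, 0 ≤ x j) ∧ ∀ i, ∑ j, (A i j : ℝ) * x j = 0

open Classical in
/-- the auxiliary positive definite matrix -/
noncomputable def auxH (S : Finset (Fin N)) (k : Fin N) : Matrix (Fin N) (Fin N) ℤ :=
  fun i j => if i ∈ S ∧ j ∈ S then ∑ r, A r i * A r j + (if i = k ∧ j = k then 1 else 0)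
    else if i = j then 1 else 0

variable {A}

lemma minimal_support {k : Fin N} {x0 : Fin N → ℝ} (h0 : RSol A x0) (hk : 0 < x0 k) :
    ∃ x : Fin N → ℝ, RSol A x ∧ 0 < x k ∧ ∀ u : Fin N → ℝ, (∀ i, ∑ j, (A i j : ℝ) * u j = 0) →
      (∀ j, x j = 0 → u j = 0) → u k = 0 → u = 0 := by
  classical
  -- choose the support of minimal cardinality
  let p : ℕ → Prop := fun m => ∃ x : Fin N → ℝ, RSol A x ∧ 0 < x k ∧
    (Finset.univ.filter (fun j => x j ≠ 0)).card = m
  have hp : ∃ m, p m := ⟨_, x0, h0, hk, rfl⟩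
  obtain ⟨x, hx, hxk, hm⟩ := Nat.find_spec hp
  refine ⟨x, hx, hxk, ?_⟩
  -- it suffices to exclude a vector with a negative coordinate
  have main : ∀ u : Fin N → ℝ, (∀ i, ∑ j, (A i j : ℝ) * u j = 0) →
      (∀ j, x j = 0 → u j = 0) → u k = 0 → ∀ j, 0 ≤ u j := by
    intro u hu hsupp huk
    by_contra hneg
    push Not at hneg
    obtain ⟨j0, hj0⟩ := hneg
    -- the set of negative coordinates
    let s : Finset (Fin N) := Finset.univ.filter (fun j => u j < 0)
    have hs : s.Nonempty := ⟨j0, by simp [s, hj0]⟩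
    obtain ⟨j1, hj1, hmin⟩ := s.exists_min_image (fun j => x j / (-u j)) hs
    have hj1' : u j1 < 0 := by simpa [s] using hj1
    set t : ℝ := x j1 / (-u j1) with ht
    have hx1 : 0 < x j1 := by
      rcases (hx.1 j1).lt_or_eq with h | h
      · exact h
      · exact absurd (hsupp j1 h.symm) hj1'.ne
    have ht0 : 0 < t := div_pos hx1 (by linarith)
    let y : Fin N → ℝ := fun j => x j + t * u j
    have hy0 : ∀ j, 0 ≤ y j := by
      intro j
      by_cases hj : u j < 0
      · have h1 := hmin j (by simp [s, hj])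
        have h2 : t ≤ x j / (-u j) := h1
        rw [le_div_iff₀ (by linarith)] at h2
        simp only [y]
        linarith
      · push Not at hj
        have := hx.1 j
        simp only [y]
        positivity
    have hyS : RSol A y := by
      refine ⟨hy0, fun i => ?_⟩
      have : ∑ j, (A i j : ℝ) * y j = ∑ j, (A i j : ℝ) * x j + t * ∑ j, (A i j : ℝ) * u j := by
        rw [Finset.mul_sum, ← Finset.sum_add_distrib]
        exact Finset.sum_congr rfl fun j _ => by simp only [y]; ring
      rw [this, hx.2, hu]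
      ring
    have hyk : 0 < y k := by simp only [y, huk]; linarith
    have hy1 : y j1 = 0 := by
      have hne : u j1 ≠ 0 := hj1'.ne
      have h1 : x j1 / (-u j1) * u j1 = -x j1 := by
        rw [div_neg, neg_mul, div_mul_cancel₀ _ hne]
      simp only [y, ht, h1]
      ring
    have hlt : (Finset.univ.filter (fun j => y j ≠ 0)).card < Nat.find hp := by
      rw [← hm]
      apply Finset.card_lt_card
      refine ⟨fun j hj => ?_, fun hsub => ?_⟩
      · simp only [Finset.mem_filter, Finset.mem_univ, true_and] at hj ⊢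
        intro hxj
        apply hj
        simp only [y, hxj, hsupp j hxj]
        ring
      · have := hsub (show j1 ∈ Finset.univ.filter (fun j => x j ≠ 0) by simp [hx1.ne'])
        simp [hy1] at this
    exact Nat.find_min hp hlt ⟨y, hyS, hyk, rfl⟩
  intro u hu hsupp huk
  have h1 := main u hu hsupp huk
  have h2 := main (fun j => -u j) (fun i => by
    have : ∑ j, (A i j : ℝ) * -u j = -∑ j, (A i j : ℝ) * u j := by
      rw [← Finset.sum_neg_distrib]
      exact Finset.sum_congr rfl fun j _ => by ring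
    rw [this, hu, neg_zero]) (fun j hj => by simp [hsupp j hj]) (by simp [huk])
  funext j
  have a := h1 j
  have b : 0 ≤ -u j := h2 j
  show u j = 0
  linarith

/-- sum of the squares of the entries -/
def sqSum (A : ι → Fin N → ℤ) : ℤ := ∑ i, ∑ j, A i j ^ 2

lemma sqSum_nonneg : 0 ≤ sqSum A :=
  Finset.sum_nonneg fun _ _ => Finset.sum_nonneg fun _ _ => sq_nonneg _

lemma auxH_entry (S : Finset (Fin N)) (k i j : Fin N) : |auxH A S k i j| ≤ sqSum A + 1 := by
  classical
  have h0 := sqSum_nonneg (A := A)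
  unfold auxH
  split_ifs with h1 h2 h3
  · have h3 : |∑ r, A r i * A r j| ≤ sqSum A := by
      refine (Finset.abs_sum_le_sum_abs _ _).trans (Finset.sum_le_sum fun r _ => ?_)
      have ha : A r i ^ 2 ≤ ∑ j, A r j ^ 2 :=
        Finset.single_le_sum (f := fun j => A r j ^ 2) (fun j _ => sq_nonneg _) (Finset.mem_univ i)
      have hb : A r j ^ 2 ≤ ∑ j, A r j ^ 2 :=
        Finset.single_le_sum (f := fun j => A r j ^ 2) (fun j _ => sq_nonneg _) (Finset.mem_univ j)
      rw [abs_le]
      constructor
      · nlinarith [sq_nonneg (A r i + A r j)]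
      · nlinarith [sq_nonneg (A r i - A r j)]
    calc |∑ r, A r i * A r j + 1| ≤ |∑ r, A r i * A r j| + |1| := abs_add_le _ _
      _ ≤ sqSum A + 1 := by simpa using h3
  · have h3 : |∑ r, A r i * A r j| ≤ sqSum A := by
      refine (Finset.abs_sum_le_sum_abs _ _).trans (Finset.sum_le_sum fun r _ => ?_)
      have ha : A r i ^ 2 ≤ ∑ j, A r j ^ 2 :=
        Finset.single_le_sum (f := fun j => A r j ^ 2) (fun j _ => sq_nonneg _) (Finset.mem_univ i)
      have hb : A r j ^ 2 ≤ ∑ j, A r j ^ 2 :=
        Finset.single_le_sum (f := fun j => A r j ^ 2) (fun j _ => sq_nonneg _) (Finset.mem_univ j)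
      rw [abs_le]
      constructor
      · nlinarith [sq_nonneg (A r i + A r j)]
      · nlinarith [sq_nonneg (A r i - A r j)]
    rw [add_zero]
    linarith
  · simpa using h0
  · simp
    linarith

/-- If a homogeneous integer system has a nonnegative solution with a positive `k`-th coordinate
then it has one in the unit cube whose `k`-th coordinate is not too small. -/
theorem exists_large {k : Fin N} {x0 : Fin N → ℝ} (h0 : RSol A x0) (hk : 0 < x0 k) :
    ∃ x : Fin N → ℝ, RSol A x ∧ (∀ j, x j ≤ 1) ∧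
      1 ≤ x k * ((N.factorial : ℝ) * ((sqSum A : ℝ) + 1) ^ N) := by
  classical
  obtain ⟨x, hx, hxk, hu⟩ := minimal_support h0 hk
  let S : Finset (Fin N) := Finset.univ.filter (fun j => x j ≠ 0)
  have hkS : k ∈ S := by simp [S, hxk.ne']
  have hS : ∀ j, j ∉ S → x j = 0 := fun j hj => by simpa [S] using hj
  let H := auxH A S k
  -- the quadratic form
  have hHw : ∀ w : Fin N → ℝ, (∀ j, j ∉ S → w j = 0) → ∀ i ∈ S,
      ((H.map (Int.castRingHom ℝ)) *ᵥ w) i =
        ∑ r, (A r i : ℝ) * (∑ j, (A r j : ℝ) * w j) + if i = k then w k else 0 := by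
    intro w hw i hi
    simp only [mulVec, dotProduct, Matrix.map_apply]
    have e1 : ∀ j, (Int.castRingHom ℝ) (H i j) * w j =
        (∑ r, (A r i : ℝ) * (A r j : ℝ)) * w j + (if i = k ∧ j = k then w j else 0) := by
      intro j
      by_cases hj : j ∈ S
      · simp only [H, auxH, hi, hj, and_self, if_true]
        push_cast
        split_ifs <;> simp <;> ring
      · have : j ≠ k := fun h => hj (h ▸ hkS)
        simp [hw j hj, this]
    simp only [e1]
    rw [Finset.sum_add_distrib]
    congr 1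
    · calc ∑ j, (∑ r, (A r i : ℝ) * (A r j : ℝ)) * w j
          = ∑ j, ∑ r, (A r i : ℝ) * ((A r j : ℝ) * w j) := by
            refine Finset.sum_congr rfl fun j _ => ?_
            rw [Finset.sum_mul]
            exact Finset.sum_congr rfl fun r _ => by ring
        _ = ∑ r, ∑ j, (A r i : ℝ) * ((A r j : ℝ) * w j) := Finset.sum_comm
        _ = _ := by
            refine Finset.sum_congr rfl fun r _ => ?_
            rw [Finset.mul_sum]
    · by_cases hik : i = k
      · simp [hik]
      · simp [hik]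
  have hHout : ∀ w : Fin N → ℝ, ∀ i, i ∉ S → ((H.map (Int.castRingHom ℝ)) *ᵥ w) i = w i := by
    intro w i hi
    simp only [mulVec, dotProduct, Matrix.map_apply, H, auxH, hi, false_and, if_false]
    simp
  -- a vector supported on `S` with `A w = 0` on the quadratic form
  have hquad : ∀ w : Fin N → ℝ, (∀ j, j ∉ S → w j = 0) →
      ∑ i, w i * (∑ r, (A r i : ℝ) * (∑ j, (A r j : ℝ) * w j)) =
        ∑ r, (∑ j, (A r j : ℝ) * w j) ^ 2 := by
    intro w _
    calc ∑ i, w i * (∑ r, (A r i : ℝ) * (∑ j, (A r j : ℝ) * w j))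
        = ∑ i, ∑ r, ((A r i : ℝ) * w i) * (∑ j, (A r j : ℝ) * w j) := by
          refine Finset.sum_congr rfl fun i _ => ?_
          rw [Finset.mul_sum]
          exact Finset.sum_congr rfl fun r _ => by ring
      _ = ∑ r, ∑ i, ((A r i : ℝ) * w i) * (∑ j, (A r j : ℝ) * w j) := Finset.sum_comm
      _ = _ := by
          refine Finset.sum_congr rfl fun r _ => ?_
          rw [← Finset.sum_mul, sq]
  have hdet : (H.map (Int.castRingHom ℝ)).det ≠ 0 := by
    intro hdet
    obtain ⟨w, hw0, hw⟩ := Matrix.exists_mulVec_eq_zero_iff.2 hdet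
    have hwS : ∀ j, j ∉ S → w j = 0 := fun j hj => by
      rw [← hHout w j hj, hw]; rfl
    have e : ∑ r, (∑ j, (A r j : ℝ) * w j) ^ 2 + w k ^ 2 = 0 := by
      have e1 : ∑ i, w i * ((H.map (Int.castRingHom ℝ)) *ᵥ w) i = 0 := by
        rw [hw]
        exact Finset.sum_eq_zero fun i _ => mul_zero _
      have e2 : ∑ i, w i * ((H.map (Int.castRingHom ℝ)) *ᵥ w) i =
          ∑ i, (w i * (∑ r, (A r i : ℝ) * (∑ j, (A r j : ℝ) * w j)) +
            w i * (if i = k then w k else 0)) := by
        refine Finset.sum_congr rfl fun i _ => ?_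
        by_cases hi : i ∈ S
        · rw [hHw w hwS i hi]; ring
        · rw [hwS i hi]; ring
      rw [e2, Finset.sum_add_distrib, hquad w hwS] at e1
      simp only [mul_ite, mul_zero, Finset.sum_ite_eq', Finset.mem_univ, if_true] at e1
      rw [sq (w k)]
      exact e1
    have e3 : ∀ r, ∑ j, (A r j : ℝ) * w j = 0 := by
      intro r
      have h1 : (∑ j, (A r j : ℝ) * w j) ^ 2 ≤ ∑ r, (∑ j, (A r j : ℝ) * w j) ^ 2 :=
        Finset.single_le_sum (f := fun r => (∑ j, (A r j : ℝ) * w j) ^ 2)
          (fun r _ => sq_nonneg _) (Finset.mem_univ r)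
      have h2 := sq_nonneg (∑ j, (A r j : ℝ) * w j)
      have h3 := sq_nonneg (w k)
      have h4 : (∑ j, (A r j : ℝ) * w j) ^ 2 = 0 := by linarith
      exact pow_eq_zero_iff (two_ne_zero) |>.1 h4
    have e4 : w k = 0 := by
      have h2 : 0 ≤ ∑ r, (∑ j, (A r j : ℝ) * w j) ^ 2 := Finset.sum_nonneg fun r _ => sq_nonneg _
      have h3 := sq_nonneg (w k)
      have h4 : w k ^ 2 = 0 := by linarith
      exact pow_eq_zero_iff (two_ne_zero) |>.1 h4
    exact hw0 (hu w e3 (fun j hj => hwS j (by simp [S, hj])) e4)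
  have hdetZ : (H.map (Int.castRingHom ℝ)).det = ((H.det : ℤ) : ℝ) := by
    rw [← RingHom.mapMatrix_apply, ← RingHom.map_det]
    rfl
  have hadj : H * H.adjugate = H.det • (1 : Matrix (Fin N) (Fin N) ℤ) := Matrix.mul_adjugate H
  obtain ⟨dd, hdd⟩ : ∃ dd, H.det = dd := ⟨_, rfl⟩
  rw [hdd] at hdetZ hadj
  -- the integer vector
  let t : Fin N → ℤ := fun i => H.adjugate i k
  let tr : Fin N → ℝ := fun i => (t i : ℝ)
  have hHt : (H.map (Int.castRingHom ℝ)) *ᵥ tr = fun i => if i = k then (dd : ℝ) else 0 := by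
    funext i
    have e2 : (H * H.adjugate) i k = (dd • (1 : Matrix (Fin N) (Fin N) ℤ)) i k := by rw [hadj]
    simp only [Matrix.mul_apply, Matrix.smul_apply, Matrix.one_apply, smul_eq_mul] at e2
    simp only [mulVec, dotProduct, Matrix.map_apply, tr, t]
    have e3 : (((∑ j, H i j * H.adjugate j k : ℤ)) : ℝ) = ((dd * if i = k then 1 else 0 : ℤ) : ℝ) := by
      rw [e2]
    push_cast at e3
    calc ∑ x, (Int.castRingHom ℝ) (H i x) * (H.adjugate x k : ℝ)
        = ∑ x, (H i x : ℝ) * (H.adjugate x k : ℝ) := rfl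
      _ = _ := e3
      _ = _ := by split_ifs <;> simp
  have htS : ∀ j, j ∉ S → tr j = 0 := fun j hj => by
    rw [← hHout tr j hj, hHt]
    show (if j = k then (dd : ℝ) else 0) = 0
    rw [if_neg]
    rintro rfl
    exact hj hkS
  have hxt : tr k = (dd : ℝ) := by
    have e1 : ∑ i, x i * ((H.map (Int.castRingHom ℝ)) *ᵥ tr) i = x k * (dd : ℝ) := by
      rw [hHt]
      simp
    have e2 : ∑ i, x i * ((H.map (Int.castRingHom ℝ)) *ᵥ tr) i =
        ∑ i, (x i * (∑ r, (A r i : ℝ) * (∑ j, (A r j : ℝ) * tr j)) +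
          x i * (if i = k then tr k else 0)) := by
      refine Finset.sum_congr rfl fun i _ => ?_
      by_cases hi : i ∈ S
      · rw [hHw tr htS i hi]; ring
      · rw [hS i hi]; ring
    have e3 : ∑ i, x i * (∑ r, (A r i : ℝ) * (∑ j, (A r j : ℝ) * tr j)) = 0 := by
      calc ∑ i, x i * (∑ r, (A r i : ℝ) * (∑ j, (A r j : ℝ) * tr j))
          = ∑ i, ∑ r, ((A r i : ℝ) * x i) * (∑ j, (A r j : ℝ) * tr j) := by
            refine Finset.sum_congr rfl fun i _ => ?_
            rw [Finset.mul_sum]
            exact Finset.sum_congr rfl fun r _ => by ring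
        _ = ∑ r, ∑ i, ((A r i : ℝ) * x i) * (∑ j, (A r j : ℝ) * tr j) := Finset.sum_comm
        _ = 0 := by
            refine Finset.sum_eq_zero fun r _ => ?_
            rw [← Finset.sum_mul, hx.2, zero_mul]
    rw [e2, Finset.sum_add_distrib, e3, zero_add] at e1
    simp only [mul_ite, mul_zero, Finset.sum_ite_eq', Finset.mem_univ, if_true] at e1
    exact mul_left_cancel₀ hxk.ne' e1
  have hAt : ∀ r, ∑ j, (A r j : ℝ) * tr j = 0 := by
    have e1 : ∑ i, tr i * (∑ r, (A r i : ℝ) * (∑ j, (A r j : ℝ) * tr j)) = 0 := by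
      refine Finset.sum_eq_zero fun i _ => ?_
      by_cases hi : i ∈ S
      · have h1 := hHw tr htS i hi
        rw [hHt] at h1
        simp only at h1
        by_cases hik : i = k
        · rw [if_pos hik, if_pos hik, hxt] at h1
          have h2 : ∑ r, (A r i : ℝ) * (∑ j, (A r j : ℝ) * tr j) = 0 := by linarith
          rw [h2, mul_zero]
        · rw [if_neg hik, if_neg hik, add_zero] at h1
          rw [← h1, mul_zero]
      · rw [htS i hi, zero_mul]
    rw [hquad tr htS] at e1
    intro r
    have h1 : (∑ j, (A r j : ℝ) * tr j) ^ 2 ≤ ∑ r, (∑ j, (A r j : ℝ) * tr j) ^ 2 :=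
      Finset.single_le_sum (f := fun r => (∑ j, (A r j : ℝ) * tr j) ^ 2)
        (fun r _ => sq_nonneg _) (Finset.mem_univ r)
    have h2 := sq_nonneg (∑ j, (A r j : ℝ) * tr j)
    have h4 : (∑ j, (A r j : ℝ) * tr j) ^ 2 = 0 := by linarith
    exact pow_eq_zero_iff (two_ne_zero) |>.1 h4
  -- `t` is proportional to `x`
  have hprop : ∀ j, tr j = (tr k / x k) * x j := by
    have := hu (fun j => tr j - (tr k / x k) * x j) (fun i => by
      have : ∑ j, (A i j : ℝ) * (tr j - (tr k / x k) * x j) =
          ∑ j, (A i j : ℝ) * tr j - (tr k / x k) * ∑ j, (A i j : ℝ) * x j := by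
        rw [Finset.mul_sum, ← Finset.sum_sub_distrib]
        exact Finset.sum_congr rfl fun j _ => by ring
      rw [this, hAt, hx.2]
      ring) (fun j hj => by
        rw [htS j (by simp [S, hj]), hj]; ring) (by field_simp; ring)
    intro j
    have h2 := congrFun this j
    simp only [Pi.zero_apply] at h2
    linarith
  have hB : ∀ i, |tr i| ≤ (N.factorial : ℝ) * ((sqSum A : ℝ) + 1) ^ N := by
    intro i
    have h0' := sqSum_nonneg (A := A)
    have e1 : |t i| ≤ N.factorial • (sqSum A + 1) ^ N := by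
      simp only [t]
      rw [Matrix.adjugate_apply]
      have := Matrix.det_le (A := H.updateRow k (Pi.single i 1)) (abv := AbsoluteValue.abs)
        (x := sqSum A + 1) (by
          intro a b
          rw [Matrix.updateRow_apply]
          split_ifs with h
          · rw [Pi.single_apply]
            split_ifs <;> simp <;> linarith
          · exact auxH_entry S k a b)
      simpa using this
    have e2 : ((|t i| : ℤ) : ℝ) ≤ ((N.factorial • (sqSum A + 1) ^ N : ℤ) : ℝ) := by
      exact_mod_cast e1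
    push_cast at e2
    simpa [tr] using e2
  set B : ℝ := (N.factorial : ℝ) * ((sqSum A : ℝ) + 1) ^ N with hBdef
  have hdet1 : 1 ≤ |tr k| := by
    rw [hxt, ← Int.cast_abs]
    have : dd ≠ 0 := by
      intro h
      rw [hdetZ, h] at hdet
      simp at hdet
    have h1 : 1 ≤ |dd| := Int.one_le_abs this
    exact_mod_cast h1
  have hBpos : 0 < B := by linarith [hB k]
  refine ⟨fun j => |tr j| / B, ⟨fun j => by positivity, fun i => ?_⟩, fun j => ?_, ?_⟩
  · have e1 : ∀ j, |tr j| = |tr k / x k| * x j := fun j => by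
      rw [hprop j, abs_mul, abs_of_nonneg (hx.1 j)]
    calc ∑ j, (A i j : ℝ) * (|tr j| / B) = (|tr k / x k| / B) * ∑ j, (A i j : ℝ) * x j := by
          rw [Finset.mul_sum]
          refine Finset.sum_congr rfl fun j _ => ?_
          rw [e1]
          ring
      _ = 0 := by rw [hx.2, mul_zero]
  · rw [div_le_one hBpos]
    exact hB j
  · simp only
    rw [div_mul_cancel₀ _ hBpos.ne']
    exact hdet1

end

end Pool.Agent.Simplex.QP
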