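import Pool.Agent.Lib.MP_4d246d_lc.QP.Conc
import Pool.Agent.Lib.MP_4d246d_lc.QP.Solver

/-! The concrete oracle is correct. -/

namespace Pool.Agent.Simplex.QP

/-- the linear form of a list of coefficients -/
noncomputable def rlin (n : ℕ) (a : List ℤ) : (Fin n → ℝ) →ₗ[ℝ] ℝ where
  toFun := rdot n a
  map_add' x y := by
    unfold rdot
    rw [← Finset.sum_add_distrib]
    exact Finset.sum_congr rfl fun j _ => by simp [mul_add]
  map_smul' t x := by
    unfold rdot
    rw [RingHom.id_apply, smul_eq_mul, Finset.mul_sum]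
    exact Finset.sum_congr rfl fun j _ => by simp; ring

@[simp] theorem rlin_apply (n : ℕ) (a : List ℤ) (x : Fin n → ℝ) : rlin n a x = rdot n a x := rfl

/-- slack functions of the data -/
noncomputable def sysOf (D : Sta) : Sys (Fin D.1 → ℝ) where
  sl i x := ((rowOf D i).2 : ℝ) - rdot D.1 (rowOf D i).1 x
  ln i := -rlin D.1 (rowOf D i).1
  add i x q := by
    have := (rlin D.1 (rowOf D i).1).map_add x q
    simp only [rlin_apply] at this
    rw [this, LinearMap.neg_apply, rlin_apply]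
    ring
  c := rlin D.1 D.2.2

/-- the real vector of a point -/
noncomputable def valOf (D : Sta) (p : Pnt) : Fin D.1 → ℝ :=
  fun j => ((p.1.getD j 0 : ℤ) : ℝ) / ((dn p.2 : ℤ) : ℝ)

theorem dn_pos (d : ℤ) : 0 < dn d := by unfold dn; split_ifs <;> omega

theorem dn_posR (d : ℤ) : (0 : ℝ) < ((dn d : ℤ) : ℝ) := by exact_mod_cast dn_pos d

theorem dn_of_pos {d : ℤ} (h : 0 < d) : dn d = d := by unfold dn; rw [if_pos h]

theorem vleZ_iff (u v : ℤ × ℤ) :
    vleZ u v = true ↔ (u.1 : ℝ) / ((dn u.2 : ℤ) : ℝ) ≤ (v.1 : ℝ) / ((dn v.2 : ℤ) : ℝ) := by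
  unfold vleZ
  rw [decide_eq_true_eq, div_le_div_iff₀ (dn_posR _) (dn_posR _)]
  exact_mod_cast Iff.rfl

theorem vord : VOrd vleZ where
  total a b := by
    rw [vleZ_iff, vleZ_iff]
    exact le_total _ _
  trans a b c := by
    rw [vleZ_iff, vleZ_iff, vleZ_iff]
    exact le_trans

theorem rdot_valOf (D : Sta) (a : List ℤ) (p : Pnt) :
    rdot D.1 a (valOf D p) = ((dotZ (padZ D.1 a) p.1 : ℤ) : ℝ) / ((dn p.2 : ℤ) : ℝ) := by
  rw [dotZ_eq_fin _ _ D.1 (Or.inl (length_padZ _ _).le)]
  unfold rdot valOf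
  push_cast
  rw [Finset.sum_div]
  refine Finset.sum_congr rfl fun j _ => ?_
  rw [getD_padZ, if_pos j.2]
  ring

theorem sat_iff (D : Sta) (J I : List ℕ) (x : Fin D.1 → ℝ) :
    Sat D.1 (J.map (rowOf D)) (I.map (rowOf D)) x ↔ x ∈ (sysOf D).Q J I := by
  unfold Sat Sys.Q sysOf
  simp only [List.forall_mem_map, Set.mem_ofPred_eq]
  constructor
  · rintro ⟨h1, h2⟩
    exact ⟨fun i hi => by rw [h1 i hi]; ring, fun i hi => by have := h2 i hi; linarith⟩
  · rintro ⟨h1, h2⟩
    exact ⟨fun i hi => by have := h1 i hi; linarith, fun i hi => by have := h2 i hi; linarith⟩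

theorem lpZ_opt {D : Sta} {J I : List ℕ} {p : Pnt} (h : lpZ D J I = .opt p) :
    lpsolve D.1 (J.map (rowOf D)) (I.map (rowOf D)) D.2.2 = .opt p.1 p.2 := by
  revert h
  unfold lpZ
  cases lpsolve D.1 (J.map (rowOf D)) (I.map (rowOf D)) D.2.2 with
  | infeas => intro h; simp at h
  | unb => intro h; simp at h
  | opt x d => intro h; simp only [LRes.opt.injEq] at h; subst h; rfl

/-- The concrete oracle is correct. -/
theorem spec_orc (D : Sta) : Spec (orc D) vleZ (sysOf D) (valOf D) where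
  tt p i _ := by
    show ttZ D p i = true ↔ ((rowOf D i).2 : ℝ) - rdot D.1 (rowOf D i).1 (valOf D p) = 0
    unfold ttZ
    rw [decide_eq_true_eq, rdot_valOf, sub_eq_zero, eq_div_iff (dn_posR _).ne']
    constructor
    · intro h; rw [h]; push_cast; ring
    · intro h; exact_mod_cast h.symm
  dep J i _ _ := by
    show depO D J i = true ↔ _
    unfold depO
    rw [depZ_spec]
    unfold Sys.Dep sysOf
    simp only [List.forall_mem_map, LinearMap.neg_apply, rlin_apply, neg_eq_zero]
  vle p q := by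
    show vleZ (objZ D p) (objZ D q) = true ↔ rdot D.1 D.2.2 (valOf D p) ≤
      rdot D.1 D.2.2 (valOf D q)
    rw [vleZ_iff, rdot_valOf, rdot_valOf]
    rfl
  infeas J I _ _ h := by
    have h1 := lpsolve_spec D.1 (J.map (rowOf D)) (I.map (rowOf D)) D.2.2
    have h2 : lpsolve D.1 (J.map (rowOf D)) (I.map (rowOf D)) D.2.2 = .infeas := by
      revert h
      show lpZ D J I = .infeas → _
      unfold lpZ
      cases lpsolve D.1 (J.map (rowOf D)) (I.map (rowOf D)) D.2.2 with
      | infeas => intro; rfl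
      | unb => intro h; simp at h
      | opt x d => intro h; simp at h
    rw [h2] at h1
    rw [Set.eq_empty_iff_forall_notMem]
    intro x hx
    exact h1 ⟨x, (sat_iff D J I x).2 hx⟩
  unb J I _ _ h := by
    have h1 := lpsolve_spec D.1 (J.map (rowOf D)) (I.map (rowOf D)) D.2.2
    have h2 : lpsolve D.1 (J.map (rowOf D)) (I.map (rowOf D)) D.2.2 = .unb := by
      revert h
      show lpZ D J I = .unb → _
      unfold lpZ
      cases lpsolve D.1 (J.map (rowOf D)) (I.map (rowOf D)) D.2.2 with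
      | infeas => intro h; simp at h
      | unb => intro; rfl
      | opt x d => intro h; simp at h
    rw [h2] at h1
    intro r
    obtain ⟨x, hx1, hx2⟩ := h1.2 r
    exact ⟨x, (sat_iff D J I x).1 hx1, hx2⟩
  opt J I p _ _ h := by
    have h1 := lpsolve_spec D.1 (J.map (rowOf D)) (I.map (rowOf D)) D.2.2
    rw [lpZ_opt (show lpZ D J I = .opt p from h)] at h1
    obtain ⟨h3, h4, h5, h6⟩ := h1
    have h7 : valOf D p = fun j : Fin D.1 => ((p.1.getD j 0 : ℤ) : ℝ) / ((p.2 : ℤ) : ℝ) := by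
      unfold valOf
      rw [dn_of_pos h3]
    refine ⟨?_, fun y hy => ?_⟩
    · rw [h7]; exact (sat_iff D J I _).1 h5
    · rw [h7]; exact h6 y ((sat_iff D J I y).2 hy)

end Pool.Agent.Simplex.QP
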