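import Pool.Agent.Lib.MP_4d246d_lc.QP.Moves

/-! The number of pivots of the machine. -/

namespace Pool.Agent.Simplex.QP

variable {Pt Vl : Type} {o : Orc Pt Vl} {vle : Vl → Vl → Bool}
variable {E : Type*} [AddCommGroup E] [Module ℝ E] {S : Sys E} {val : Pt → E}

/-- the directions orthogonal to `J` -/
def Sys.V (S : Sys E) (J : List ℕ) : Submodule ℝ E where
  carrier := {q | ∀ j ∈ J, S.ln j q = 0}
  add_mem' {a b} ha hb j hj := by rw [map_add, ha j hj, hb j hj, add_zero]
  zero_mem' j _ := map_zero _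
  smul_mem' c a ha j hj := by rw [map_smul, ha j hj, smul_zero]

theorem finrank_V_lt [FiniteDimensional ℝ E] {J : List ℕ} {i : ℕ} (h : ¬ S.Dep J i) :
    Module.finrank ℝ (S.V (i :: J)) < Module.finrank ℝ (S.V J) := by
  apply Submodule.finrank_lt_finrank_of_lt
  rw [SetLike.lt_iff_le_and_exists]
  constructor
  · intro q hq j hj
    exact hq j (List.mem_cons_of_mem _ hj)
  · unfold Sys.Dep at h
    push Not at h
    obtain ⟨q, hq, hne⟩ := h
    exact ⟨q, hq, fun h => hne (h i List.mem_cons_self)⟩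

/-- runs with their number of moves -/
inductive Runs (o : Orc Pt Vl) (vle : Vl → Vl → Bool) : St Pt → St Pt → ℕ → Prop
  | refl (s : St Pt) : Runs o vle s s 0
  | quiet {s s' : St Pt} {n : ℕ} : (step o vle s).1 = s.1 → Runs o vle (step o vle s) s' n →
      Runs o vle s s' n
  | move {s s' : St Pt} {n : ℕ} : Runs o vle (step o vle s) s' n → Runs o vle s s' (n + 1)

theorem Runs.trans {s s' s'' : St Pt} {a b : ℕ} (h : Runs o vle s s' a)
    (h' : Runs o vle s' s'' b) : Runs o vle s s'' (a + b) := by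
  induction h with
  | refl s => simpa using h'
  | quiet h1 _ ih => exact Runs.quiet h1 (ih h')
  | move _ ih =>
    have := Runs.move (ih h')
    rwa [show ∀ n, n + 1 + b = n + b + 1 by intro n; omega]

/-! ### The steps -/

theorem step_pop {x : Pt} {f p : Frame} {r : List Frame}
    (h : (active o vle x f.J f.I).length = 0) (h' : isOpt o vle x f.J f.I = true) :
    step o vle (x, f :: p :: r, .running) = (x, p :: r, .running) := by
  simp only [step, h, h', if_true]

theorem step_fin {x : Pt} {f : Frame}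
    (h : (active o vle x f.J f.I).length = 0) (h' : isOpt o vle x f.J f.I = true) :
    step o vle (x, [f], .running) = (x, [f], .optimal) := by
  simp only [step, h, h', if_true]

theorem step_move {x y : Pt} {f : Frame} {r : List Frame}
    (h : (active o vle x f.J f.I).length = 0) (h' : isOpt o vle x f.J f.I = false)
    (hy : o.lp f.J (List.range o.M) = .opt y) :
    step o vle (x, f :: r, .running) = (y, popTo o y (f :: r), .running) := by
  simp only [step, h, h', if_true, hy]
  simp

theorem step_unb {x : Pt} {f : Frame} {r : List Frame}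
    (h : (active o vle x f.J f.I).length = 0) (h' : isOpt o vle x f.J f.I = false)
    (hy : o.lp f.J (List.range o.M) = .unb) :
    step o vle (x, f :: r, .running) = (x, f :: r, .unbounded) := by
  simp only [step, h, h', if_true, hy]
  simp

theorem step_face {x : Pt} {f : Frame} {r : List Frame} {i : ℕ}
    (h : (active o vle x f.J f.I).length ≠ 0)
    (hi : (upH o vle x f.J f.I).find? (o.tt x) = some i) :
    step o vle (x, f :: r, .running) = (x, face o i f :: f :: r, .running) := by
  simp only [step, if_neg h, hi]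

theorem step_relax {x : Pt} {f : Frame} {r : List Frame}
    (h : (active o vle x f.J f.I).length ≠ 0)
    (hi : (upH o vle x f.J f.I).find? (o.tt x) = none) :
    step o vle (x, f :: r, .running) = (x, relax o vle x f :: f :: r, .running) := by
  simp only [step, if_neg h, hi]

/-- What can happen to a running state. -/
theorem Good.lp_cases (ho : Spec o vle S val) {x : Pt} {f : Frame} {r : List Frame}
    (h : Good S o.M (val x) f r) : o.lp f.J (List.range o.M) = .unb ∨
      ∃ y, o.lp f.J (List.range o.M) = .opt y := by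
  cases hl : o.lp f.J (List.range o.M) with
  | infeas =>
    exfalso
    have h1 := ho.infeas _ _ h.chain.basic.2.1 (fun i hi => List.mem_range.1 hi) hl
    have h2 := h.mem
    rw [h1] at h2
    exact h2
  | unb => exact Or.inl rfl
  | opt y => exact Or.inr ⟨y, rfl⟩

theorem opt_active (ho : Spec o vle S val) {x : Pt} {f : Frame} {r : List Frame}
    (h : Good S o.M (val x) f r) (hopt : ∀ z ∈ S.Q f.J f.I, S.c z ≤ S.c (val x)) :
    (active o vle x f.J f.I).length = 0 ∧ isOpt o vle x f.J f.I = true := by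
  obtain ⟨hIM, hJM, hnd, hdep⟩ := h.chain.basic
  refine ⟨?_, (isOpt_iff ho hJM hIM h.memQ).2 hopt⟩
  rw [← length_actI]
  by_contra hne
  obtain ⟨i, hi⟩ := List.exists_mem_of_length_pos (Nat.pos_of_ne_zero hne)
  obtain ⟨_, z, hz, hlt⟩ := (mem_actI ho hJM hIM).1 hi
  linarith [hopt z (mem_Q_cons.1 hz).2]

/-! ### Counting active constraints -/

theorem len_le {l l' : List ℕ} (h : l.Nodup) (hs : ∀ i ∈ l, i ∈ l') : l.length ≤ l'.length :=
  (h.subperm hs).length_le

/-- relaxed frames -/
theorem count_relax (ho : Spec o vle S val) {x : Pt} {f : Frame} {r : List Frame}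
    (h : Good S o.M (val x) f r)
    (hnt : ∀ i ∈ upH o vle x f.J f.I, o.tt x i = false) :
    (active o vle x (relax o vle x f).J (relax o vle x f).I).length ≤
      (active o vle x f.J f.I).length / 2 := by
  obtain ⟨hIM, hJM, hnd, hdep⟩ := h.chain.basic
  rw [← length_actI, ← length_lowH (o := o) (vle := vle) x f.J f.I]
  have hnd' : (relax o vle x f).I.Nodup := hnd.filter _
  have hmem : ∀ j, j ∈ (relax o vle x f).I ↔
      j ∈ f.I ∧ (S.sl j (val x) = 0 ∨ j ∈ lowH o vle x f.J f.I) := by
    intro j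
    show j ∈ f.I.filter _ ↔ _
    rw [List.mem_filter]
    simp only [Bool.or_eq_true, decide_eq_true_eq]
    constructor
    · rintro ⟨h1, h2⟩
      exact ⟨h1, h2.imp_left fun h => (ho.tt x j (hIM j h1)).1 h⟩
    · rintro ⟨h1, h2⟩
      exact ⟨h1, h2.imp_left fun h => (ho.tt x j (hIM j h1)).2 h⟩
  refine len_le (nodup_actI hnd') fun i hi => ?_
  obtain ⟨h1, z, hz, hlt⟩ := (mem_actI ho hJM (fun j hj => hIM j ((hmem j).1 hj).1)).1 hi
  obtain ⟨h2, h3⟩ := (hmem i).1 h1
  rcases h3 with h3 | h3
  · obtain ⟨hz0, hzQ⟩ := mem_Q_cons.1 hz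
    have hact : i ∈ actI o vle x f.J f.I := by
      rw [mem_actI ho hJM hIM]
      refine ⟨h2, ?_⟩
      obtain ⟨ε, hε, hp⟩ := S.pert f.I (val x) (z - val x) (fun j hj => by
        rcases (h.memQ.2 j hj).lt_or_eq with h4 | h4
        · exact Or.inl h4
        · refine Or.inr ⟨h4.le, ?_⟩
          rw [S.ln_sub, ← h4, sub_zero]
          exact hzQ.2 j ((hmem j).2 ⟨hj, Or.inl h4.symm⟩))
      refine ⟨val x + ε • (z - val x), mem_Q_cons.2 ⟨?_, ?_, hp ε hε.le le_rfl⟩, ?_⟩
      · rw [S.smul_add, S.ln_sub, h3, hz0]; ring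
      · intro j hj
        rw [S.smul_add, S.ln_sub, h.mem.1 j hj, hzQ.1 j hj]; ring
      · rw [map_add, map_smul, smul_eq_mul, map_sub]
        have := mul_pos hε (sub_pos.2 hlt)
        linarith
    rcases mem_halves.1 hact with h4 | h4
    · exact h4
    · have := (ho.tt x i (hIM i h2)).2 h3
      rw [hnt i h4] at this
      simp at this
  · exact h3

theorem mem_face_I (ho : Spec o vle S val) {f : Frame} (hJM : ∀ j ∈ f.J, j < o.M)
    (hIM : ∀ i ∈ f.I, i < o.M) {i : ℕ} (hi : i < o.M) (j : ℕ) :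
    j ∈ (face o i f).I ↔ j ∈ f.I ∧ ¬ S.Dep (i :: f.J) j := by
  have hJ' : ∀ j ∈ i :: f.J, j < o.M := by
    intro j hj
    rcases List.mem_cons.1 hj with rfl | hj
    · exact hi
    · exact hJM j hj
  show j ∈ f.I.filter (fun j => !o.dep (i :: f.J) j) ↔ _
  rw [List.mem_filter]
  constructor
  · rintro ⟨h1, h2⟩
    refine ⟨h1, fun h3 => ?_⟩
    rw [(ho.dep _ _ hJ' (hIM j h1)).2 h3] at h2
    simp at h2
  · rintro ⟨h1, h2⟩
    refine ⟨h1, ?_⟩
    cases h3 : o.dep (i :: f.J) j with
    | false => rfl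
    | true => exact absurd ((ho.dep _ _ hJ' (hIM j h1)).1 h3) h2

/-- face frames -/
theorem count_face (ho : Spec o vle S val) {x y : Pt} {f : Frame} {r : List Frame} {i : ℕ}
    (hy : Good S o.M (val y) (face o i f) (f :: r)) (hxy : S.c (val x) ≤ S.c (val y))
    (hi : i ∈ actI o vle x f.J f.I) :
    (active o vle y (face o i f).J (face o i f).I).length ≤
      (active o vle x f.J f.I).length - 1 := by
  obtain ⟨hIM, hJM, hnd, hdep⟩ := hy.chain.2.basic
  obtain ⟨hIM', hJM', hnd', hdep'⟩ := hy.chain.basic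
  have hiI := ((mem_actI ho hJM hIM).1 hi).1
  rw [← length_actI, ← length_actI, ← List.length_erase_of_mem hi]
  refine len_le (nodup_actI hnd') fun j hj => ?_
  obtain ⟨h1, z, hz, hlt⟩ := (mem_actI ho hJM' hIM').1 hj
  obtain ⟨h2, h3⟩ := (mem_face_I ho hJM hIM (hIM i hiI) j).1 h1
  obtain ⟨hz0, hzQ⟩ := mem_Q_cons.1 hz
  have hji : j ≠ i := by
    rintro rfl
    exact h3 fun q hq => hq j List.mem_cons_self
  rw [List.mem_erase_of_ne hji, mem_actI ho hJM hIM]
  refine ⟨h2, z, mem_Q_cons.2 ⟨hz0, fun j' hj' => hzQ.1 j' (List.mem_cons_of_mem _ hj'), ?_⟩,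
    hxy.trans_lt hlt⟩
  intro j' hj'
  by_cases hd : S.Dep (i :: f.J) j'
  · have h4 := hd (z - val y) fun l hl => by
      rw [S.ln_sub, hzQ.1 l hl, hy.mem.1 l hl, sub_zero]
    rw [S.ln_sub] at h4
    have h5 := hy.mem.2 j' (List.mem_range.2 (hIM j' hj'))
    linarith
  · exact hzQ.2 j' ((mem_face_I ho hJM hIM (hIM i hiI) j').2 ⟨hj', hd⟩)

/-- after topping a facet of the upper half -/
theorem count_top (ho : Spec o vle S val) (hv : VOrd vle) {x w : Pt} {f : Frame} {r : List Frame}
    {i : ℕ} (hw : Good S o.M (val w) (face o i f) (f :: r)) (hxw : S.c (val x) ≤ S.c (val w))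
    (hi : i ∈ upH o vle x f.J f.I)
    (hopt : ∀ z ∈ S.Q (face o i f).J (face o i f).I, S.c z ≤ S.c (val w)) :
    (active o vle w f.J f.I).length ≤ (active o vle x f.J f.I).length / 2 := by
  obtain ⟨hIM, hJM, hnd, hdep⟩ := hw.chain.2.basic
  have hiA := mem_halves.2 (Or.inr hi)
  have hiI := ((mem_actI ho hJM hIM).1 hiA).1
  have htop : ∀ z ∈ S.Q (i :: f.J) f.I, S.c z ≤ S.c (val w) := fun z hz =>
    hopt z ⟨hz.1, fun j hj => hz.2 j ((mem_face_I ho hJM hIM (hIM i hiI) j).1 hj).1⟩
  have hkey : (actI o vle w f.J f.I).length ≤ ((upH o vle x f.J f.I).erase i).length := by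
    refine len_le (nodup_actI hnd) fun j hj => ?_
    obtain ⟨h1, z, hz, hlt⟩ := (mem_actI ho hJM hIM).1 hj
    have hji : j ≠ i := by
      rintro rfl
      linarith [htop z hz]
    rw [List.mem_erase_of_ne hji]
    have hjA : j ∈ actI o vle x f.J f.I :=
      (mem_actI ho hJM hIM).2 ⟨h1, z, hz, hxw.trans_lt hlt⟩
    rcases mem_halves.1 hjA with h2 | h2
    · exfalso
      obtain ⟨a, b, ha, hb, hab⟩ := halves_order hv h2 hi
      have := top_le ho hJM hIM h1 hiI ha hb hab htop z hz
      linarith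
    · exact h2
  rw [length_actI, List.length_erase_of_mem hi, length_upH] at hkey
  omega

end Pool.Agent.Simplex.QP
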