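import Pool.Agent.Lib.MP_4d246d_lc.QP.Big

/-!
# The root face

The machine is started on the smallest face containing the starting vertex and a face on which the
objective has its supremum.  This makes the number of pivots depend only on the number of
constraints which are not sign constraints.
-/

namespace Pool.Agent.Simplex.QP

variable {Pt Vl : Type} {o : Orc Pt Vl} {vle : Vl → Vl → Bool}
variable {E : Type*} [AddCommGroup E] [Module ℝ E] {S : Sys E} {val : Pt → E}

/-- the objective has the same supremum on the face `J` as on the polyhedron -/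
def Full (S : Sys E) (M : ℕ) (J : List ℕ) : Prop :=
  ∀ z ∈ S.Q [] (List.range M), ∃ y ∈ S.Q J (List.range M), S.c z ≤ S.c y

/-- can constraint `i` be added to the equalities without changing the supremum? -/
def keep (o : Orc Pt Vl) (vle : Vl → Vl → Bool) (J : List ℕ) (i : ℕ) : Bool :=
  match o.lp [] (List.range o.M), o.lp (i :: J) (List.range o.M) with
  | .unb, .unb => true
  | .opt p, .opt y => vle (o.obj p) (o.obj y)
  | _, _ => false

/-- add a constraint if possible -/
def addJ (o : Orc Pt Vl) (vle : Vl → Vl → Bool) (J : List ℕ) (i : ℕ) : List ℕ :=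
  if keep o vle J i then i :: J else J

/-- equalities of a minimal face on which the objective has its supremum -/
def targetJ (o : Orc Pt Vl) (vle : Vl → Vl → Bool) : List ℕ :=
  (List.range o.M).foldl (addJ o vle) []

/-- equalities of the root face -/
def rootK (o : Orc Pt Vl) (vle : Vl → Vl → Bool) (x : Pt) : List ℕ :=
  (targetJ o vle).filter (o.tt x)

/-- the root frame -/
def rootFrame (o : Orc Pt Vl) (vle : Vl → Vl → Bool) (x : Pt) : Frame :=
  (rootK o vle x, (List.range o.M).filter (fun i => !o.dep (rootK o vle x) i), [])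

theorem Full.anti {M : ℕ} {J J' : List ℕ} (h : Full S M J) (hJ : ∀ j ∈ J', j ∈ J) :
    Full S M J' := by
  intro z hz
  obtain ⟨y, hy, h1⟩ := h z hz
  exact ⟨y, Q_mono hJ (fun _ h => h) hy, h1⟩

theorem keep_iff (ho : Spec o vle S val) {x : E} (hx : x ∈ S.Q [] (List.range o.M)) {J : List ℕ}
    {i : ℕ} (hJ : ∀ j ∈ J, j < o.M) (hi : i < o.M) :
    keep o vle J i = true ↔ Full S o.M (i :: J) := by
  have hJ' : ∀ j ∈ i :: J, j < o.M := by
    intro j hj
    rcases List.mem_cons.1 hj with rfl | hj
    · exact hi
    · exact hJ j hj
  have h0 : ∀ j ∈ ([] : List ℕ), j < o.M := by simp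
  have hr : ∀ j ∈ List.range o.M, j < o.M := fun j hj => List.mem_range.1 hj
  have hsub : S.Q (i :: J) (List.range o.M) ⊆ S.Q [] (List.range o.M) :=
    Q_mono (by simp) (fun _ h => h)
  unfold keep
  cases h1 : o.lp [] (List.range o.M) with
  | infeas =>
    have := ho.infeas _ _ h0 hr h1
    rw [this] at hx
    exact absurd hx (Set.notMem_empty _)
  | unb =>
    have hu := ho.unb _ _ h0 hr h1
    cases h2 : o.lp (i :: J) (List.range o.M) with
    | infeas =>
      simp only [Bool.false_eq_true, false_iff]
      intro hf
      obtain ⟨y, hy, _⟩ := hf x hx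
      rw [ho.infeas _ _ hJ' hr h2] at hy
      exact hy
    | unb =>
      simp only [true_iff]
      intro z _
      obtain ⟨y, hy, h3⟩ := ho.unb _ _ hJ' hr h2 (S.c z)
      exact ⟨y, hy, h3.le⟩
    | opt p =>
      simp only [Bool.false_eq_true, false_iff]
      intro hf
      obtain ⟨z, hz, h3⟩ := hu (S.c (val p))
      obtain ⟨y, hy, h4⟩ := hf z hz
      have h5 := (ho.opt _ _ _ hJ' hr h2).2 y hy
      linarith
  | opt q =>
    obtain ⟨hq1, hq2⟩ := ho.opt _ _ _ h0 hr h1
    cases h2 : o.lp (i :: J) (List.range o.M) with
    | infeas =>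
      simp only [Bool.false_eq_true, false_iff]
      intro hf
      obtain ⟨y, hy, _⟩ := hf x hx
      rw [ho.infeas _ _ hJ' hr h2] at hy
      exact hy
    | unb =>
      exfalso
      obtain ⟨y, hy, h3⟩ := ho.unb _ _ hJ' hr h2 (S.c (val q))
      have h5 := hq2 y (hsub hy)
      linarith
    | opt p =>
      obtain ⟨hp1, hp2⟩ := ho.opt _ _ _ hJ' hr h2
      simp only
      rw [ho.vle]
      constructor
      · intro h3 z hz
        exact ⟨val p, hp1, (hq2 z hz).trans h3⟩
      · intro hf
        obtain ⟨y, hy, h3⟩ := hf (val q) hq1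
        exact h3.trans (hp2 y hy)

theorem fold_spec (ho : Spec o vle S val) {x : E} (hx : x ∈ S.Q [] (List.range o.M)) (m : ℕ)
    (hm : m ≤ o.M) :
    Full S o.M ((List.range m).foldl (addJ o vle) []) ∧
    (∀ j ∈ (List.range m).foldl (addJ o vle) [], j < m) ∧
    ∀ i < m, i ∉ (List.range m).foldl (addJ o vle) [] →
      ¬ Full S o.M (i :: (List.range m).foldl (addJ o vle) []) := by
  induction m with
  | zero =>
    refine ⟨fun z hz => ⟨z, hz, le_rfl⟩, by simp, by simp⟩
  | succ m ih =>
    obtain ⟨h1, h2, h3⟩ := ih (by omega)
    rw [List.range_succ, List.foldl_append]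
    simp only [List.foldl_cons, List.foldl_nil]
    set J := (List.range m).foldl (addJ o vle) [] with hJ
    have hk := keep_iff ho hx (J := J) (i := m) (fun j hj => by have := h2 j hj; omega) (by omega)
    unfold addJ
    cases hb : keep o vle J m with
    | true =>
      rw [hb] at hk
      simp only [true_iff, if_true] at hk ⊢
      refine ⟨hk, ?_, ?_⟩
      · intro j hj
        rcases List.mem_cons.1 hj with rfl | hj
        · omega
        · have := h2 j hj; omega
      · intro i hi hiJ hf
        rw [List.mem_cons, not_or] at hiJ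
        refine h3 i (by omega) hiJ.2 (hf.anti fun j hj => ?_)
        rcases List.mem_cons.1 hj with rfl | hj
        · exact List.mem_cons_self
        · exact List.mem_cons_of_mem _ (List.mem_cons_of_mem _ hj)
    | false =>
      rw [hb] at hk
      simp only [Bool.false_eq_true, false_iff, if_false] at hk ⊢
      refine ⟨h1, fun j hj => by have := h2 j hj; omega, ?_⟩
      intro i hi hiJ
      by_cases him : i = m
      · subst him
        exact hk
      · exact h3 i (by omega) hiJ

theorem target_full (ho : Spec o vle S val) {x : E} (hx : x ∈ S.Q [] (List.range o.M)) :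
    Full S o.M (targetJ o vle) := (fold_spec ho hx o.M le_rfl).1

theorem target_lt (ho : Spec o vle S val) {x : E} (hx : x ∈ S.Q [] (List.range o.M)) :
    ∀ j ∈ targetJ o vle, j < o.M := (fold_spec ho hx o.M le_rfl).2.1

/-- directions in the target face along which the objective is constant vanish -/
theorem target_dir (ho : Spec o vle S val) {x : E} (hx : x ∈ S.Q [] (List.range o.M))
    (hv : S.Vx (fun i => i < o.M) x) {q : E} (hq : ∀ j ∈ targetJ o vle, S.ln j q = 0)
    (hc : S.c q = 0) : q = 0 := by
  by_contra hne
  obtain ⟨h1, h2, h3⟩ := fold_spec ho hx o.M le_rfl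
  change Full S o.M (targetJ o vle) at h1
  change ∀ j ∈ targetJ o vle, j < o.M at h2
  change ∀ i < o.M, i ∉ targetJ o vle → ¬ Full S o.M (i :: targetJ o vle) at h3
  obtain ⟨i, hi, hiq⟩ : ∃ i < o.M, S.ln i q ≠ 0 := by
    by_contra hno
    push Not at hno
    exact hne (hv q fun i hi _ => hno i hi)
  obtain ⟨q2, hq2c, hq2J, hq2i⟩ : ∃ q2 : E, S.c q2 = 0 ∧ (∀ j ∈ targetJ o vle, S.ln j q2 = 0) ∧
      S.ln i q2 < 0 := by
    rcases lt_or_gt_of_ne hiq with h | h
    · exact ⟨q, hc, hq, h⟩
    · refine ⟨-q, by rw [map_neg, hc, neg_zero], fun j hj => by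
        rw [map_neg, hq j hj, neg_zero], by rw [map_neg]; linarith⟩
  -- a point above all the faces outside
  obtain ⟨z, hz, hzm⟩ : ∃ z ∈ S.Q [] (List.range o.M), ∀ j < o.M, j ∉ targetJ o vle →
      ∀ y ∈ S.Q (j :: targetJ o vle) (List.range o.M), S.c y < S.c z := by
    have key : ∀ m ≤ o.M, ∃ z ∈ S.Q [] (List.range o.M), ∀ j < m, j ∉ targetJ o vle →
        ∀ y ∈ S.Q (j :: targetJ o vle) (List.range o.M), S.c y < S.c z := by
      intro m
      induction m with
      | zero => intro _; exact ⟨x, hx, fun j hj => by omega⟩
      | succ m ih =>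
        intro hm
        obtain ⟨z, hz, hz1⟩ := ih (by omega)
        by_cases hmJ : m ∈ targetJ o vle
        · refine ⟨z, hz, fun j hj hjJ => ?_⟩
          have : j ≠ m := by rintro rfl; exact hjJ hmJ
          exact hz1 j (by omega) hjJ
        · have h4 := h3 m (by omega) hmJ
          unfold Full at h4
          push Not at h4
          obtain ⟨z', hz', h5⟩ := h4
          rcases le_total (S.c z) (S.c z') with h6 | h6
          · refine ⟨z', hz', fun j hj hjJ y hy => ?_⟩
            by_cases hjm : j = m
            · subst hjm; exact h5 y hy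
            · exact (hz1 j (by omega) hjJ y hy).trans_le h6
          · refine ⟨z, hz, fun j hj hjJ y hy => ?_⟩
            by_cases hjm : j = m
            · subst hjm; exact (h5 y hy).trans_le h6
            · exact hz1 j (by omega) hjJ y hy
    exact key o.M le_rfl
  obtain ⟨y, hy, hzy⟩ := h1 z hz
  obtain ⟨t, ht, h6, j, hj, h7, h8⟩ := S.first_hit (List.range o.M) y q2 hy.2
    ⟨i, List.mem_range.2 hi, hq2i⟩
  have hjJ : j ∉ targetJ o vle := fun h => by
    rw [hq2J j h] at h7
    exact lt_irrefl _ h7
  have h9 : y + t • q2 ∈ S.Q (j :: targetJ o vle) (List.range o.M) := by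
    refine ⟨fun l hl => ?_, h6⟩
    rcases List.mem_cons.1 hl with rfl | hl
    · exact h8
    · rw [S.smul_add, hy.1 l hl, hq2J l hl]; ring
  have h10 := hzm j (List.mem_range.1 hj) hjJ _ h9
  rw [map_add, map_smul, hq2c, smul_zero, add_zero] at h10
  linarith

/-! ### Dimension counting -/

theorem V_cons_le (J : List ℕ) (i : ℕ) : S.V (i :: J) ≤ S.V J :=
  fun _ hq j hj => hq j (List.mem_cons_of_mem _ hj)

theorem finrank_V_cons [FiniteDimensional ℝ E] (J : List ℕ) (i : ℕ) :
    Module.finrank ℝ (S.V J) ≤ Module.finrank ℝ (S.V (i :: J)) + 1 := by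
  let g : S.V J →ₗ[ℝ] ℝ := (S.ln i).comp (S.V J).subtype
  have h1 := LinearMap.finrank_range_add_finrank_ker g
  have h2 : Module.finrank ℝ (LinearMap.range g) ≤ 1 := by
    have := Submodule.finrank_le (LinearMap.range g)
    rwa [Module.finrank_self] at this
  have h3 : Module.finrank ℝ (LinearMap.ker g) ≤ Module.finrank ℝ (S.V (i :: J)) := by
    let φ : LinearMap.ker g →ₗ[ℝ] S.V (i :: J) :=
      { toFun := fun q => ⟨(q.1 : E), fun j hj => by
          rcases List.mem_cons.1 hj with rfl | hj
          · exact q.2
          · exact q.1.2 j hj⟩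
        map_add' := fun _ _ => rfl
        map_smul' := fun _ _ => rfl }
    refine LinearMap.finrank_le_finrank_of_injective (f := φ) ?_
    intro a b hab
    apply Subtype.ext
    apply Subtype.ext
    exact congrArg (fun q : S.V (i :: J) => (q : E)) hab
  omega

theorem finrank_V_append [FiniteDimensional ℝ E] (L J : List ℕ) :
    Module.finrank ℝ (S.V J) ≤ Module.finrank ℝ (S.V (L ++ J)) + L.length := by
  induction L with
  | nil => simp
  | cons i L ih =>
    have := finrank_V_cons (S := S) (L ++ J) i
    simp only [List.cons_append, List.length_cons]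
    omega

theorem finrank_V_mono [FiniteDimensional ℝ E] {J J' : List ℕ} (h : S.V J ≤ S.V J') :
    Module.finrank ℝ (S.V J) ≤ Module.finrank ℝ (S.V J') :=
  Submodule.finrank_mono h

/-- number of constraints which are not dependent on the root equalities -/
theorem root_counts [FiniteDimensional ℝ E] (ho : Spec o vle S val) {x : Pt}
    (hx : val x ∈ S.Q [] (List.range o.M)) (hv : S.Vx (fun i => i < o.M) (val x)) {m : ℕ}
    (hm : o.M = m + Module.finrank ℝ E) :
    Module.finrank ℝ (S.V (rootK o vle x)) ≤ m + 1 ∧
      (rootFrame o vle x).I.length ≤ 2 * m + 1 := by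
  classical
  set C := rootK o vle x with hC
  have hCt : ∀ j, j ∈ C ↔ j ∈ targetJ o vle ∧ o.tt x j = true := fun j => by
    rw [hC, rootK, List.mem_filter]
  have hlt := target_lt ho hx
  have hCM : ∀ j ∈ C, j < o.M := fun j hj => hlt j ((hCt j).1 hj).1
  set n := Module.finrank ℝ E with hn
  -- the independent and the dependent constraints
  set I0 := (List.range o.M).filter (fun i => !o.dep C i) with hI0
  set Z := (List.range o.M).filter (fun i => o.dep C i) with hZ
  have hlen : I0.length + Z.length = o.M := by
    rw [hI0, hZ, ← List.countP_eq_length_filter, ← List.countP_eq_length_filter]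
    have := List.length_eq_countP_add_countP (fun i => o.dep C i) (l := List.range o.M)
    rw [List.length_range] at this
    have e : List.countP (fun i => !o.dep C i) (List.range o.M) =
      List.countP (fun a => decide (¬ o.dep C a = true)) (List.range o.M) := by
      congr 1
      funext a
      cases o.dep C a <;> rfl
    omega
  -- `V Z = V C`
  have hVZ : S.V (Z ++ C) = S.V C := by
    apply le_antisymm
    · intro q hq j hj
      exact hq j (List.mem_append_right _ hj)
    · intro q hq j hj
      rcases List.mem_append.1 hj with h | h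
      · rw [hZ, List.mem_filter, List.mem_range] at h
        exact (ho.dep C j hCM h.1).1 h.2 q hq
      · exact hq j h
  have hVZ' : S.V (Z ++ []) = S.V C := by
    rw [List.append_nil]
    apply le_antisymm
    · intro q hq j hj
      refine hq j ?_
      rw [hZ, List.mem_filter, List.mem_range]
      exact ⟨hCM j hj, (ho.dep C j hCM (hCM j hj)).2 fun q' hq' => hq' j hj⟩
    · intro q hq j hj
      rw [hZ, List.mem_filter, List.mem_range] at hj
      exact (ho.dep C j hCM hj.1).1 hj.2 q hq
  have hVnil : Module.finrank ℝ (S.V []) = n := by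
    have : S.V [] = ⊤ := by
      rw [eq_top_iff]
      intro q _ j hj
      simp at hj
    rw [this, finrank_top]
  have h1 : n ≤ Module.finrank ℝ (S.V C) + Z.length := by
    have := finrank_V_append (S := S) Z []
    rw [hVZ', hVnil] at this
    exact this
  -- the constraints of `I0` tight at `x`, and those in the target
  set A := I0.filter (fun i => o.tt x i) with hA
  set B := I0.filter (fun i => decide (i ∈ targetJ o vle)) with hB
  have hVA : S.V (A ++ C) = ⊥ := by
    rw [eq_bot_iff]
    intro q hq
    rw [Submodule.mem_bot]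
    apply hv
    intro i hi hi0
    have hti : o.tt x i = true := (ho.tt x i hi).2 hi0
    cases hd : o.dep C i with
    | true => exact (ho.dep C i hCM hi).1 hd q fun j hj => hq j (List.mem_append_right _ hj)
    | false =>
      refine hq i (List.mem_append_left _ ?_)
      rw [hA, List.mem_filter, hI0, List.mem_filter, List.mem_range]
      exact ⟨⟨hi, by rw [hd]; rfl⟩, hti⟩
  have h2 : Module.finrank ℝ (S.V C) ≤ A.length := by
    have := finrank_V_append (S := S) A C
    rw [hVA, finrank_bot] at this
    omega
  have hVB : Module.finrank ℝ (S.V (B ++ C)) ≤ 1 := by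
    have hinj : Function.Injective ((S.c).comp (S.V (B ++ C)).subtype) := by
      rw [← LinearMap.ker_eq_bot, LinearMap.ker_eq_bot']
      intro q hq
      apply Subtype.ext
      refine target_dir ho hx hv (q := q.1) (fun j hj => ?_) hq
      have hjM := hlt j hj
      cases hd : o.dep C j with
      | true => exact (ho.dep C j hCM hjM).1 hd q.1 fun l hl => q.2 l (List.mem_append_right _ hl)
      | false =>
        refine q.2 j (List.mem_append_left _ ?_)
        rw [hB, List.mem_filter, hI0, List.mem_filter, List.mem_range, decide_eq_true_eq]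
        exact ⟨⟨hjM, by rw [hd]; rfl⟩, hj⟩
    have := LinearMap.finrank_le_finrank_of_injective hinj
    rwa [Module.finrank_self] at this
  have h3 : Module.finrank ℝ (S.V C) ≤ 1 + B.length := by
    have := finrank_V_append (S := S) B C
    omega
  -- they are disjoint
  have h4 : A.length + B.length ≤ I0.length := by
    have hsub : ∀ i ∈ I0, ¬ (o.tt x i = true ∧ i ∈ targetJ o vle) := by
      rintro i hi ⟨ht, hT⟩
      rw [hI0, List.mem_filter, List.mem_range] at hi
      have : o.dep C i = true :=
        (ho.dep C i hCM hi.1).2 fun q hq => hq i ((hCt i).2 ⟨hT, ht⟩)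
      rw [this] at hi
      simp at hi
    have key : ∀ l : List ℕ, (∀ i ∈ l, ¬ (o.tt x i = true ∧ i ∈ targetJ o vle)) →
        (l.filter (fun i => o.tt x i)).length +
        (l.filter (fun i => decide (i ∈ targetJ o vle))).length ≤ l.length := by
      intro l
      induction l with
      | nil => intro _; simp
      | cons a l ih =>
        intro h
        have h5 := ih fun i hi => h i (List.mem_cons_of_mem _ hi)
        have h6 := h a List.mem_cons_self
        rw [List.filter_cons, List.filter_cons]
        by_cases ha : o.tt x a = true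
        · have hb : a ∉ targetJ o vle := fun hb => h6 ⟨ha, hb⟩
          simp only [ha, hb, if_true, decide_false, Bool.false_eq_true, if_false,
            List.length_cons]
          omega
        · by_cases hb : a ∈ targetJ o vle
          · simp only [ha, hb, decide_true, if_true, List.length_cons]
            simp only [Bool.false_eq_true, if_false]
            omega
          · simp only [ha, hb, decide_false, Bool.false_eq_true, if_false, List.length_cons]
            omega
    exact key I0 hsub
  have h5 : (rootFrame o vle x).I.length = I0.length := rfl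
  rw [h5]
  constructor <;> omega

theorem root_finrank_le [FiniteDimensional ℝ E] (x : Pt) :
    Module.finrank ℝ (S.V (rootK o vle x)) ≤ Module.finrank ℝ E :=
  Submodule.finrank_le _

theorem root_length_le (x : Pt) : (rootFrame o vle x).I.length ≤ o.M := by
  have := List.length_filter_le (fun i => !o.dep (rootK o vle x) i) (List.range o.M)
  rw [List.length_range] at this
  exact this

/-- The root state is good. -/
theorem root_good (ho : Spec o vle S val) {x : Pt} (hx : val x ∈ S.Q [] (List.range o.M))
    (hv : S.Vx (fun i => i < o.M) (val x)) :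
    Good S o.M (val x) (rootFrame o vle x) [] := by
  have hlt := target_lt ho hx
  have hCM : ∀ j ∈ rootK o vle x, j < o.M := fun j hj =>
    hlt j (List.mem_filter.1 hj).1
  have hmem : ∀ i, i ∈ (rootFrame o vle x).I ↔ i < o.M ∧ ¬ S.Dep (rootK o vle x) i := by
    intro i
    show i ∈ (List.range o.M).filter _ ↔ _
    rw [List.mem_filter, List.mem_range]
    constructor
    · rintro ⟨h1, h2⟩
      refine ⟨h1, fun h3 => ?_⟩
      rw [(ho.dep _ _ hCM h1).2 h3] at h2
      simp at h2
    · rintro ⟨h1, h2⟩
      refine ⟨h1, ?_⟩
      cases h3 : o.dep (rootK o vle x) i with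
      | false => rfl
      | true => exact absurd ((ho.dep _ _ hCM h1).1 h3) h2
  refine ⟨⟨rfl, fun i hi => ?_, fun i hi => ((hmem i).1 hi).1, hCM,
    List.nodup_range.filter _, fun i hi => ((hmem i).1 hi).2⟩, ⟨fun j hj => ?_, hx.2⟩, ?_⟩
  · by_cases hd : S.Dep (rootK o vle x) i
    · exact Or.inr hd
    · exact Or.inl ((hmem i).2 ⟨hi, hd⟩)
  · have h1 := (List.mem_filter.1 hj).2
    exact (ho.tt x j (hCM j hj)).1 h1
  · intro q hq
    have hJq : ∀ j ∈ rootK o vle x, S.ln j q = 0 := fun j hj =>
      hq j (Or.inl hj) ((ho.tt x j (hCM j hj)).1 (List.mem_filter.1 hj).2)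
    apply hv
    intro i hi hi0
    by_cases hd : S.Dep (rootK o vle x) i
    · exact hd q hJq
    · exact hq i (Or.inr ((hmem i).2 ⟨hi, hd⟩)) hi0

/-- The objective has the same supremum on the root face. -/
theorem root_full (ho : Spec o vle S val) {x : Pt} (hx : val x ∈ S.Q [] (List.range o.M)) :
    Full S o.M (rootK o vle x) :=
  (target_full ho hx).anti fun _ hj => (List.mem_filter.1 hj).1

end Pool.Agent.Simplex.QP
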