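import Pool.Agent.Lib.MP_4d246d_lc.QP.Inv

/-! Active constraints, their halves, and the effect of the steps of the machine. -/

namespace Pool.Agent.Simplex.QP

variable {Pt Vl : Type} {o : Orc Pt Vl} {vle : Vl → Vl → Bool}
variable {E : Type*} [AddCommGroup E] [Module ℝ E] {S : Sys E} {val : Pt → E}

theorem map_snd_filterMap {β : Type} (g : ℕ → Option (β × ℕ)) (hg : ∀ i a, g i = some a → a.2 = i)
    (l : List ℕ) : (l.filterMap g).map Prod.snd = l.filter (fun i => (g i).isSome) := by
  induction l with
  | nil => rfl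
  | cons i t ih =>
    cases h : g i with
    | none => rw [List.filterMap_cons_none h, List.filter_cons_of_neg (by simp [h]), ih]
    | some a =>
      rw [List.filterMap_cons_some h, List.filter_cons_of_pos (by simp [h]), List.map_cons, ih,
        hg i a h]

theorem keyOf_snd {x : Pt} {J I : List ℕ} {i : ℕ} {a : Option Vl × ℕ}
    (h : keyOf o vle x J I i = some a) : a.2 = i := by
  unfold keyOf at h
  split at h
  · simp at h
  · simp only [Option.some.injEq] at h; rw [← h]
  · split_ifs at h
    simp only [Option.some.injEq] at h; rw [← h]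

/-- indices of the active constraints -/
def actI (o : Orc Pt Vl) (vle : Vl → Vl → Bool) (x : Pt) (J I : List ℕ) : List ℕ :=
  (active o vle x J I).map Prod.snd

theorem actI_eq (x : Pt) (J I : List ℕ) :
    actI o vle x J I = I.filter (fun i => (keyOf o vle x J I i).isSome) :=
  map_snd_filterMap _ (fun _ _ h => keyOf_snd h) _

theorem length_actI (x : Pt) (J I : List ℕ) :
    (actI o vle x J I).length = (active o vle x J I).length := by
  unfold actI; rw [List.length_map]

theorem nodup_actI {x : Pt} {J I : List ℕ} (h : I.Nodup) : (actI o vle x J I).Nodup := by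
  rw [actI_eq]; exact h.filter _

theorem length_active_le (x : Pt) (J I : List ℕ) : (active o vle x J I).length ≤ I.length := by
  rw [← length_actI, actI_eq]; exact List.length_filter_le _ _

theorem length_sorted (x : Pt) (J I : List ℕ) :
    (sorted o vle x J I).length = (active o vle x J I).length := by
  unfold sorted; rw [List.length_insertionSort]

theorem perm_halves (x : Pt) (J I : List ℕ) :
    (lowH o vle x J I ++ upH o vle x J I).Perm (actI o vle x J I) := by
  unfold lowH upH actI
  rw [← List.map_append, List.take_append_drop]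
  exact (List.perm_insertionSort _ _).map _

theorem length_lowH (x : Pt) (J I : List ℕ) :
    (lowH o vle x J I).length = (active o vle x J I).length / 2 := by
  unfold lowH
  rw [List.length_map, List.length_take, length_sorted]
  omega

theorem length_upH (x : Pt) (J I : List ℕ) :
    (upH o vle x J I).length = (active o vle x J I).length - (active o vle x J I).length / 2 := by
  unfold upH
  rw [List.length_map, List.length_drop, length_sorted]

theorem mem_halves {x : Pt} {J I : List ℕ} {i : ℕ} :
    i ∈ actI o vle x J I ↔ i ∈ lowH o vle x J I ∨ i ∈ upH o vle x J I := by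
  rw [← (perm_halves x J I).mem_iff, List.mem_append]

theorem halves_disj {x : Pt} {J I : List ℕ} (h : I.Nodup) {i : ℕ} (h1 : i ∈ lowH o vle x J I)
    (h2 : i ∈ upH o vle x J I) : False := by
  have h3 := (perm_halves x J I).nodup_iff.2 (nodup_actI (o := o) (vle := vle) (x := x) (J := J) h)
  exact (List.nodup_append.1 h3).2.2 i h1 i h2 rfl

theorem upH_nodup {x : Pt} {J I : List ℕ} (h : I.Nodup) : (upH o vle x J I).Nodup := by
  have h3 := (perm_halves x J I).nodup_iff.2 (nodup_actI (o := o) (vle := vle) (x := x) (J := J) h)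
  exact (List.nodup_append.1 h3).2.1

/-- Order between the halves. -/
theorem halves_order (hv : VOrd vle) {x : Pt} {J I : List ℕ} {i j : ℕ}
    (hi : i ∈ lowH o vle x J I) (hj : j ∈ upH o vle x J I) :
    ∃ a b, keyOf o vle x J I i = some a ∧ keyOf o vle x J I j = some b ∧ kle vle a b = true := by
  have htot : Std.Total (fun a b : Option Vl × ℕ => kle vle a b = true) := by
    refine ⟨fun a b => ?_⟩
    rcases a with ⟨_ | u, n⟩ <;> rcases b with ⟨_ | w, n'⟩ <;> simp [kle]
    exact hv.total u w
  have htr : IsTrans (Option Vl × ℕ) (fun a b => kle vle a b = true) := by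
    refine ⟨fun a b c => ?_⟩
    rcases a with ⟨_ | u, n⟩ <;> rcases b with ⟨_ | w, n'⟩ <;> rcases c with ⟨_ | z, n''⟩ <;>
      simp [kle]
    exact hv.trans u w z
  have hp := List.pairwise_insertionSort (fun a b : Option Vl × ℕ => kle vle a b = true)
    (active o vle x J I)
  unfold lowH at hi
  unfold upH at hj
  rw [List.mem_map] at hi hj
  obtain ⟨a, ha, rfl⟩ := hi
  obtain ⟨b, hb, rfl⟩ := hj
  have hab : kle vle a b = true := by
    have h1 : (sorted o vle x J I) = (sorted o vle x J I).take ((sorted o vle x J I).length / 2) ++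
      (sorted o vle x J I).drop ((sorted o vle x J I).length / 2) := (List.take_append_drop _ _).symm
    have h2 : List.Pairwise (fun a b : Option Vl × ℕ => kle vle a b = true)
        (sorted o vle x J I) := hp
    rw [h1, List.pairwise_append] at h2
    exact h2.2.2 a ha b hb
  have key : ∀ a ∈ sorted o vle x J I, keyOf o vle x J I a.2 = some a := by
    intro a ha
    have : a ∈ active o vle x J I := (List.perm_insertionSort _ _).mem_iff.1 ha
    unfold active at this
    rw [List.mem_filterMap] at this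
    obtain ⟨i, _, hi⟩ := this
    rw [keyOf_snd hi]; exact hi
  exact ⟨a, b, key a (List.mem_of_mem_take ha), key b (List.mem_of_mem_drop hb), hab⟩

/-- The meaning of activity. -/
theorem keyOf_isSome (ho : Spec o vle S val) {x : Pt} {J I : List ℕ} (hJ : ∀ i ∈ J, i < o.M)
    (hI : ∀ i ∈ I, i < o.M) {i : ℕ} (hi : i < o.M) :
    (∃ a, keyOf o vle x J I i = some a) ↔ ∃ z ∈ S.Q (i :: J) I, S.c (val x) < S.c z := by
  have hJ' : ∀ j ∈ i :: J, j < o.M := by
    intro j hj
    rcases List.mem_cons.1 hj with rfl | hj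
    · exact hi
    · exact hJ j hj
  unfold keyOf
  split
  · rename_i h
    have := ho.infeas _ _ hJ' hI h
    simp [this]
  · rename_i h
    have := ho.unb _ _ hJ' hI h (S.c (val x))
    simpa using this
  · rename_i y h
    obtain ⟨h1, h2⟩ := ho.opt _ _ _ hJ' hI h
    by_cases hc : S.c (val y) ≤ S.c (val x)
    · rw [if_pos ((ho.vle y x).2 hc)]
      constructor
      · rintro ⟨a, ha⟩; exact absurd ha (by simp)
      · rintro ⟨z, hz, hlt⟩; linarith [h2 z hz]
    · rw [if_neg fun h => hc ((ho.vle y x).1 h)]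
      exact ⟨fun _ => ⟨val y, h1, not_le.1 hc⟩, fun _ => ⟨_, rfl⟩⟩

theorem mem_actI (ho : Spec o vle S val) {x : Pt} {J I : List ℕ} (hJ : ∀ i ∈ J, i < o.M)
    (hI : ∀ i ∈ I, i < o.M) {i : ℕ} :
    i ∈ actI o vle x J I ↔ i ∈ I ∧ ∃ z ∈ S.Q (i :: J) I, S.c (val x) < S.c z := by
  rw [actI_eq, List.mem_filter]
  constructor
  · rintro ⟨h1, h2⟩
    exact ⟨h1, (keyOf_isSome ho hJ hI (hI i h1)).1 (Option.isSome_iff_exists.1 h2)⟩
  · rintro ⟨h1, h2⟩
    exact ⟨h1, Option.isSome_iff_exists.2 ((keyOf_isSome ho hJ hI (hI i h1)).2 h2)⟩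

theorem mem_Q_cons {J I : List ℕ} {i : ℕ} {z : E} :
    z ∈ S.Q (i :: J) I ↔ S.sl i z = 0 ∧ z ∈ S.Q J I := by
  constructor
  · intro h
    exact ⟨h.1 i List.mem_cons_self, fun j hj => h.1 j (List.mem_cons_of_mem _ hj), h.2⟩
  · rintro ⟨h1, h2, h3⟩
    refine ⟨fun j hj => ?_, h3⟩
    rcases List.mem_cons.1 hj with rfl | hj
    · exact h1
    · exact h2 j hj

/-- Inactive constraints. -/
theorem inactive (ho : Spec o vle S val) {x : Pt} {J I : List ℕ} (hJ : ∀ i ∈ J, i < o.M)
    (hI : ∀ i ∈ I, i < o.M) {i : ℕ} (hi : i ∈ I) (h : i ∉ actI o vle x J I) :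
    ∀ z ∈ S.Q J I, S.sl i z = 0 → S.c z ≤ S.c (val x) := by
  intro z hz h0
  by_contra hlt
  push Not at hlt
  exact h ((mem_actI ho hJ hI).2 ⟨hi, z, mem_Q_cons.2 ⟨h0, hz⟩, hlt⟩)

theorem active_nil {x : Pt} {J I : List ℕ} (h : (active o vle x J I).length = 0) (i : ℕ) :
    i ∉ actI o vle x J I := by
  rw [← length_actI] at h
  rw [List.length_eq_zero_iff.1 h]
  simp

/-- Correctness of the optimality test. -/
theorem isOpt_iff (ho : Spec o vle S val) {x : Pt} {J I : List ℕ} (hJ : ∀ i ∈ J, i < o.M)
    (hI : ∀ i ∈ I, i < o.M) (hx : val x ∈ S.Q J I) :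
    isOpt o vle x J I = true ↔ ∀ z ∈ S.Q J I, S.c z ≤ S.c (val x) := by
  unfold isOpt
  split
  · rename_i y h
    obtain ⟨h1, h2⟩ := ho.opt _ _ _ hJ hI h
    rw [ho.vle]
    exact ⟨fun h3 z hz => (h2 z hz).trans h3, fun h3 => h3 _ h1⟩
  · rename_i h
    constructor
    · intro h'; simp at h'
    · intro h3
      exfalso
      cases h4 : o.lp J I with
      | infeas =>
        have := ho.infeas _ _ hJ hI h4
        rw [this] at hx
        exact hx
      | unb =>
        obtain ⟨y, hy, hlt⟩ := ho.unb _ _ hJ hI h4 (S.c (val x))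
        linarith [h3 y hy]
      | opt p => exact h p h4

/-- Comparison of the tops of two active constraints. -/
theorem top_le (ho : Spec o vle S val) {x : Pt} {J I : List ℕ} (hJ : ∀ i ∈ J, i < o.M)
    (hI : ∀ i ∈ I, i < o.M) {i j : ℕ} (hi : i ∈ I) (hj : j ∈ I) {a b : Option Vl × ℕ}
    (ha : keyOf o vle x J I i = some a) (hb : keyOf o vle x J I j = some b)
    (hab : kle vle a b = true) {r : ℝ} (hr : ∀ z ∈ S.Q (j :: J) I, S.c z ≤ r) :
    ∀ z ∈ S.Q (i :: J) I, S.c z ≤ r := by
  have hJ' : ∀ i ∈ I, ∀ j ∈ i :: J, j < o.M := by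
    intro i hi j hj
    rcases List.mem_cons.1 hj with rfl | hj
    · exact hI _ hi
    · exact hJ j hj
  unfold keyOf at ha hb
  split at hb
  · simp at hb
  · rename_i h
    exfalso
    obtain ⟨z, hz, hlt⟩ := ho.unb _ _ (hJ' j hj) hI h r
    linarith [hr z hz]
  · rename_i y h
    obtain ⟨h1, h2⟩ := ho.opt _ _ _ (hJ' j hj) hI h
    split_ifs at hb
    simp only [Option.some.injEq] at hb
    subst hb
    split at ha
    · simp at ha
    · simp only [Option.some.injEq] at ha
      subst ha
      simp [kle] at hab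
    · rename_i y' h'
      obtain ⟨h3, h4⟩ := ho.opt _ _ _ (hJ' i hi) hI h'
      split_ifs at ha
      simp only [Option.some.injEq] at ha
      subst ha
      simp only [kle] at hab
      rw [ho.vle] at hab
      intro z hz
      exact (h4 z hz).trans (hab.trans (hr _ h1))

end Pool.Agent.Simplex.QP
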