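import Pool.Agent.Lib.MP_4d246d_lc.QP.Count

/-! The bound on the number of pivots. -/

namespace Pool.Agent.Simplex.QP

variable {Pt Vl : Type} {o : Orc Pt Vl} {vle : Vl → Vl → Bool}
variable {E : Type*} [AddCommGroup E] [Module ℝ E] {S : Sys E} {val : Pt → E}

/-- outcomes of the processing of a frame -/
inductive Out (o : Orc Pt Vl) (vle : Vl → Vl → Bool) (S : Sys E) (val : Pt → E) (x : Pt)
    (f : Frame) (r : List Frame) : St Pt → Prop
  | opt (w : Pt) : Good S o.M (val w) f r → S.c (val x) ≤ S.c (val w) →
      (∀ z ∈ S.Q f.J f.I, S.c z ≤ S.c (val w)) → Out o vle S val x f r (w, f :: r, .running)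
  | hit (y : Pt) (pre : List Frame) (g p : Frame) (r' : List Frame) (i : ℕ) :
      f :: r = pre ++ g :: p :: r' → i ∈ g.B → S.sl i (val y) = 0 →
      Good S o.M (val y) (face o i p) (p :: r') → S.c (val x) ≤ S.c (val y) →
      Out o vle S val x f r (y, face o i p :: p :: r', .running)
  | unb (w : Pt) (f' : Frame) (r' : List Frame) : Good S o.M (val w) f' r' →
      (active o vle w f'.J f'.I).length = 0 → isOpt o vle w f'.J f'.I = false →
      o.lp f'.J (List.range o.M) = .unb → Out o vle S val x f r (w, f' :: r', .unbounded)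

theorem size_step {k : ℕ} (hk : k ≠ 0) : Nat.size k = Nat.size (k / 2) + 1 := by
  apply le_antisymm
  · rw [Nat.size_le, pow_succ]
    have := Nat.lt_size_self (k / 2)
    omega
  · have h1 : Nat.size (k / 2) < Nat.size k := by
      rcases Nat.eq_zero_or_pos (Nat.size (k / 2)) with h | h
      · rw [h]; exact Nat.size_pos.2 (Nat.pos_of_ne_zero hk)
      · by_contra hle
        push Not at hle
        have h2 : k < 2 ^ Nat.size (k / 2) := Nat.size_le.1 hle
        have h3 : ¬ (Nat.size (k / 2) ≤ Nat.size (k / 2) - 1) := by omega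
        rw [Nat.size_le] at h3
        have h4 : 2 ^ Nat.size (k / 2) = 2 * 2 ^ (Nat.size (k / 2) - 1) := by
          rw [← pow_succ']; congr 1; omega
        omega
    exact h1

/-- the bound -/
def hb (d k : ℕ) : ℕ := 2 ^ Nat.size k * (d + Nat.size k).choose (Nat.size k)

theorem choose_mono2 {d d' s s' : ℕ} (h : d ≤ d') (h' : s ≤ s') :
    (d + s).choose s ≤ (d' + s').choose s' := by
  calc (d + s).choose s ≤ (d' + s).choose s := Nat.choose_le_choose _ (by omega)
    _ = (d' + s).choose d' := by
        rw [← Nat.choose_symm_of_eq_add (show d' + s = s + d' by omega)]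
    _ ≤ (d' + s').choose d' := Nat.choose_le_choose _ (by omega)
    _ = (d' + s').choose s' := by
        rw [← Nat.choose_symm_of_eq_add (show d' + s' = d' + s' from rfl)]

theorem hb_mono {d d' k k' : ℕ} (h : d ≤ d') (h' : k ≤ k') : hb d k ≤ hb d' k' := by
  unfold hb
  exact Nat.mul_le_mul (Nat.pow_le_pow_right (by omega) (Nat.size_le_size h'))
    (choose_mono2 h (Nat.size_le_size h'))

theorem hb_pos (d k : ℕ) : 1 ≤ hb d k :=
  Nat.mul_pos (Nat.pow_pos (by omega)) (Nat.choose_pos (by omega))

theorem hb_rec {d k : ℕ} (hd : 1 ≤ d) (hk : k ≠ 0) :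
    hb d (k / 2) + hb (d - 1) (k - 1) + hb d (k / 2) ≤ hb d k := by
  have h1 : hb (d - 1) (k - 1) ≤ hb (d - 1) k := hb_mono le_rfl (by omega)
  unfold hb at *
  rw [size_step hk] at *
  obtain ⟨e, rfl⟩ : ∃ e, d = e + 1 := ⟨d - 1, by omega⟩
  simp only [Nat.add_sub_cancel] at *
  generalize Nat.size (k / 2) = s at *
  have h2 : (e + 1 + (s + 1)).choose (s + 1) =
      (e + (s + 1)).choose s + (e + (s + 1)).choose (s + 1) := by
    rw [show e + 1 + (s + 1) = (e + (s + 1)) + 1 by ring, Nat.choose_succ_succ]
  have h3 : (e + 1 + s).choose s = (e + (s + 1)).choose s := by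
    rw [show e + 1 + s = e + (s + 1) by ring]
  rw [h2, h3, Nat.mul_add]
  have h4 : 2 ^ (s + 1) * (e + (s + 1)).choose s =
      2 ^ s * (e + (s + 1)).choose s + 2 ^ s * (e + (s + 1)).choose s := by
    rw [pow_succ]; ring
  omega

/-- The main count. -/
theorem big [FiniteDimensional ℝ E] (ho : Spec o vle S val) (hv : VOrd vle) :
    ∀ (k d : ℕ) (x : Pt) (f : Frame) (r : List Frame), Good S o.M (val x) f r →
      (active o vle x f.J f.I).length ≤ k → Module.finrank ℝ (S.V f.J) ≤ d →
      ∃ s' n, Runs o vle (x, f :: r, .running) s' n ∧ n ≤ hb d k ∧ Out o vle S val x f r s' := by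
  intro k
  induction k using Nat.strong_induction_on with
  | _ k ih =>
  intro d x f r hG hk hd
  obtain ⟨hIM, hJM, hnd, hdep⟩ := hG.chain.basic
  by_cases h0 : (active o vle x f.J f.I).length = 0
  · -- no active constraints
    cases hopt : isOpt o vle x f.J f.I with
    | true =>
      exact ⟨_, 0, Runs.refl _, Nat.zero_le _,
        Out.opt x hG le_rfl ((isOpt_iff ho hJM hIM hG.memQ).1 hopt)⟩
    | false =>
      rcases hG.lp_cases ho with hl | ⟨y, hl⟩
      · refine ⟨(x, f :: r, .unbounded), 0, Runs.quiet ?_ ?_, Nat.zero_le _,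
          Out.unb x f r hG h0 hopt hl⟩
        · rw [step_unb h0 hopt hl]
        · rw [step_unb h0 hopt hl]; exact Runs.refl _
      · obtain ⟨pre, g, p, r', i, e1, e2, e3, e4, e5, e6, _⟩ := hG.move ho h0 hopt hl
        refine ⟨_, 1, Runs.move (Runs.refl _), hb_pos _ _, ?_⟩
        rw [step_move h0 hopt hl, e4]
        exact Out.hit y pre g p r' i e1 e2 e3 e5 e6.le
  · -- there are active constraints
    have hk0 : k ≠ 0 := by omega
    -- the vertex is not optimal, so the dimension is positive
    have hd1 : 1 ≤ d := by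
      refine le_trans ?_ hd
      rw [Nat.one_le_iff_ne_zero]
      intro hzero
      obtain ⟨i, hi⟩ : ∃ i, i ∈ actI o vle x f.J f.I := by
        apply List.exists_mem_of_length_pos
        rw [length_actI]; omega
      have hiI := ((mem_actI ho hJM hIM).1 hi).1
      have := finrank_V_lt (hdep i hiI)
      omega
    -- processing after entering a facet of the upper half
    have AF : ∀ (y : Pt) (i : ℕ), i ∈ upH o vle x f.J f.I → S.c (val x) ≤ S.c (val y) →
        Good S o.M (val y) (face o i f) (f :: r) →
        ∃ s' n, Runs o vle (y, face o i f :: f :: r, .running) s' n ∧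
          n ≤ hb (d - 1) (k - 1) + hb d (k / 2) ∧ Out o vle S val x f r s' := by
      intro y i hi hxy hy
      have hiA := mem_halves.2 (Or.inr hi)
      have hiI := ((mem_actI ho hJM hIM).1 hiA).1
      have hc := count_face ho hy hxy hiA
      have hfr : Module.finrank ℝ (S.V (face o i f).J) ≤ d - 1 := by
        have : Module.finrank ℝ (S.V (i :: f.J)) < Module.finrank ℝ (S.V f.J) :=
          finrank_V_lt (hdep i hiI)
        show Module.finrank ℝ (S.V (i :: f.J)) ≤ d - 1
        omega
      obtain ⟨s1, n1, hr1, hn1, ho1⟩ := ih (k - 1) (by omega) (d - 1) y (face o i f) (f :: r) hy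
        (by omega) hfr
      cases ho1 with
      | opt w hw hyw hwo =>
        obtain ⟨ha, hio⟩ := opt_active ho hw hwo
        have hxw := hxy.trans hyw
        have hct := count_top ho hv hw hxw hi hwo
        obtain ⟨s2, n2, hr2, hn2, ho2⟩ := ih (k / 2) (by omega) d w f r hw.pop (by omega) hd
        have hq : Runs o vle (w, face o i f :: f :: r, .running) (w, f :: r, .running) 0 := by
          refine Runs.quiet ?_ ?_
          · rw [step_pop ha hio]
          · rw [step_pop ha hio]; exact Runs.refl _
        refine ⟨s2, n1 + 0 + n2, (hr1.trans hq).trans hr2, by omega, ?_⟩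
        cases ho2 with
        | opt w' a b c => exact Out.opt w' a (hxw.trans b) c
        | hit y' pre g p r' i' a b c e b' => exact Out.hit y' pre g p r' i' a b c e (hxw.trans b')
        | unb w' f' r' a b c e => exact Out.unb w' f' r' a b c e
      | hit y' pre g p r' i' e1 e2 e3 e4 e5 =>
        cases pre with
        | nil =>
          exfalso
          have hg : face o i f = g := (List.cons.inj e1).1
          rw [← hg] at e2
          simp [face, Frame.B] at e2
        | cons a pre =>
          have hfr' : f :: r = pre ++ g :: p :: r' := (List.cons.inj e1).2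
          exact ⟨_, n1, hr1, by omega, Out.hit y' pre g p r' i' hfr' e2 e3 e4 (hxy.trans e5)⟩
      | unb w' f' r' e1 e2 e3 e4 =>
        exact ⟨_, n1, hr1, by omega, Out.unb w' f' r' e1 e2 e3 e4⟩
    have hrec := hb_rec hd1 hk0
    cases hf : (upH o vle x f.J f.I).find? (o.tt x) with
    | some i =>
      have hi := List.mem_of_find?_eq_some hf
      have hit := List.find?_some hf
      have hiI := ((mem_actI ho hJM hIM).1 (mem_halves.2 (Or.inr hi))).1
      have hi0 := (ho.tt x i (hIM i hiI)).1 hit
      have hGf : Good S o.M (val x) (face o i f) (f :: r) :=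
        Good.face ho hG.chain hG.mem hiI hi0 fun q hq => hG.vx q hq
      obtain ⟨s', n, h1, h2, h3⟩ := AF x i hi le_rfl hGf
      refine ⟨s', n, Runs.quiet ?_ ?_, by omega, h3⟩
      · rw [step_face h0 hf]
      · rw [step_face h0 hf]; exact h1
    | none =>
      have hnt : ∀ i ∈ upH o vle x f.J f.I, o.tt x i = false := by
        intro i hi
        have := List.find?_eq_none.1 hf i hi
        simpa using this
      have hGr := hG.relax ho h0 hnt
      have hc := count_relax ho hG hnt
      obtain ⟨s1, n1, hr1, hn1, ho1⟩ := ih (k / 2) (by omega) d x (relax o vle x f) (f :: r) hGr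
        (by omega) hd
      have hr1' : Runs o vle (x, f :: r, .running) s1 n1 := by
        refine Runs.quiet ?_ ?_
        · rw [step_relax h0 hf]
        · rw [step_relax h0 hf]; exact hr1
      cases ho1 with
      | opt w hw hxw hwo =>
        obtain ⟨ha, hio⟩ := opt_active ho hw hwo
        have hq : Runs o vle (w, relax o vle x f :: f :: r, .running) (w, f :: r, .running) 0 := by
          refine Runs.quiet ?_ ?_
          · rw [step_pop ha hio]
          · rw [step_pop ha hio]; exact Runs.refl _
        refine ⟨_, n1 + 0, hr1'.trans hq, by omega, Out.opt w hw.pop hxw fun z hz => hwo z ?_⟩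
        refine ⟨hz.1, fun j hj => hz.2 j ?_⟩
        exact (List.mem_filter.1 hj).1
      | hit y pre g p r' i e1 e2 e3 e4 e5 =>
        cases pre with
        | nil =>
          obtain ⟨hg, hp⟩ := List.cons.inj e1
          obtain ⟨hp1, hp2⟩ := List.cons.inj hp
          subst hp1 hp2
          rw [← hg] at e2
          obtain ⟨s', n, h1, h2, h3⟩ := AF y i e2 e5 e4
          exact ⟨s', n1 + n, hr1'.trans h1, by omega, h3⟩
        | cons a pre =>
          have hfr' : f :: r = pre ++ g :: p :: r' := (List.cons.inj e1).2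
          exact ⟨_, n1, hr1', by omega, Out.hit y pre g p r' i hfr' e2 e3 e4 e5⟩
      | unb w' f' r' e1 e2 e3 e4 =>
        exact ⟨_, n1, hr1', by omega, Out.unb w' f' r' e1 e2 e3 e4⟩

end Pool.Agent.Simplex.QP
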