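import Pool.Agent.Lib.PolyTime.RatBin

/-!
Linear programs with rational data in the form of the problem file, their vertices and edges,
and the inputs and outputs of a version of the simplex method.
-/

namespace Pool.Agent.Simplex

open Pool.Agent.Lib.PolyTime

/-- Data of a linear program: maximise `c x` subject to `A x ≤ b`, `x ≥ 0`, with rational
`A`, `b`, `c`. -/
structure QLP (m n : ℕ) where
  /-- the constraint matrix -/
  A : Fin m → Fin n → ℚ
  /-- the right hand side -/
  b : Fin m → ℚ
  /-- the objective -/
  c : Fin n → ℚ

namespace QLP

variable {m n : ℕ} (D : QLP m n)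

/-- The feasible polyhedron `{x | A x ≤ b, x ≥ 0}`. -/
def feasible : Set (Fin n → ℝ) := {x | (∀ i, ∑ j, (D.A i j : ℝ) * x j ≤ D.b i) ∧ ∀ j, 0 ≤ x j}

/-- The objective function. -/
def obj (x : Fin n → ℝ) : ℝ := ∑ j, (D.c j : ℝ) * x j

/-- `x` is a vertex (extreme point) of the feasible polyhedron. -/
def Vertex (x : Fin n → ℝ) : Prop := x ∈ Set.extremePoints ℝ D.feasible

/-- `x` and `y` are the two ends of an edge of the feasible polyhedron. -/
def Edge (x y : Fin n → ℝ) : Prop :=
  D.Vertex x ∧ D.Vertex y ∧ x ≠ y ∧ IsExtreme ℝ D.feasible (segment ℝ x y)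

/-- The edge from `x` to `y` strictly increases the objective: `x → y` is a simplex pivot. -/
def Improving (x y : Fin n → ℝ) : Prop := D.Edge x y ∧ D.obj x < D.obj y

/-- `x` is an optimal feasible point. -/
def Optimal (x : Fin n → ℝ) : Prop := x ∈ D.feasible ∧ ∀ y ∈ D.feasible, D.obj y ≤ D.obj x

/-- The vertex `x` has an unbounded edge, with direction `z`, along which the objective
increases. -/
def Unbounded (x : Fin n → ℝ) : Prop :=
  D.Vertex x ∧ ∃ z : Fin n → ℝ, 0 < D.obj z ∧
    IsExtreme ℝ D.feasible {w | ∃ s : ℝ, 0 ≤ s ∧ w = x + s • z}

end QLP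

/-- the real vector of a rational vector -/
def toReal {n : ℕ} (x : Fin n → ℚ) : Fin n → ℝ := fun j => (x j : ℝ)

/-- An input: a linear program and a vertex of its feasible polyhedron. -/
structure Input where
  /-- number of rows -/
  m : ℕ
  /-- number of variables -/
  n : ℕ
  /-- the linear program -/
  lp : QLP m n
  /-- the starting vertex -/
  v : Fin n → ℚ
  /-- it is a vertex -/
  vertex : lp.Vertex (toReal v)

/-- The data of an input as a tuple of lists: number of variables, rows of the matrix, right
hand side, objective, starting vertex. -/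
def Input.data (I : Input) : ℕ × List (List ℚ) × List ℚ × List ℚ × List ℚ :=
  (I.n, List.ofFn (fun i => List.ofFn (I.lp.A i)), List.ofFn I.lp.b, List.ofFn I.lp.c,
    List.ofFn I.v)

/-- Inputs are encoded through their data, all numbers except the dimension in binary. -/
instance : TEnc Input := ⟨fun I => enc I.data⟩

/-- What is said about a vertex: a pivot follows, it is optimal, or it has an unbounded
improving edge. -/
inductive Verdict : Type
  | pivot : Verdict
  | optimal : Verdict
  | unbounded : Verdict
  deriving DecidableEq

instance : TEnc Verdict := ⟨fun s => match s with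
  | .pivot => enc (0 : ℕ)
  | .optimal => enc (1 : ℕ)
  | .unbounded => enc (2 : ℕ)⟩

/-- `x 0, …, x N` is a complete run of the simplex method on the input `I`: it starts at the
given vertex, each step moves along an edge that strictly increases the objective, and the last
vertex is optimal or has an unbounded edge along which the objective increases, as the verdict
`s` says. -/
structure SimplexRun (I : Input) (N : ℕ) (x : ℕ → Fin I.n → ℚ) (s : Verdict) : Prop where
  /-- the first vertex -/
  start : x 0 = I.v
  /-- each step is a pivot -/
  pivot : ∀ t < N, I.lp.Improving (toReal (x t)) (toReal (x (t + 1)))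
  /-- the last vertex -/
  stop : s = .optimal ∧ I.lp.Vertex (toReal (x N)) ∧ I.lp.Optimal (toReal (x N)) ∨
    s = .unbounded ∧ I.lp.Unbounded (toReal (x N))

/-- What is reported at the `t`-th vertex of a run with `N` pivots and final verdict `s`: the
coordinates of the vertex, and whether a pivot follows. -/
def reportAt {n : ℕ} (N : ℕ) (x : ℕ → Fin n → ℚ) (s : Verdict) (t : ℕ) : List ℚ × Verdict :=
  (List.ofFn (x t), if t < N then .pivot else s)

/-- The protocol of a run: all the reports, from the first vertex to the last one. -/
def protocol {n : ℕ} (N : ℕ) (x : ℕ → Fin n → ℚ) (s : Verdict) : List (List ℚ × Verdict) :=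
  (List.range (N + 1)).map (reportAt N x s)

/-- The bit string by which an object is written on the tape. -/
abbrev code {α : Type} [TEnc α] (a : α) : List Bool := wd false true a

/-- The bound `2 ^ s * C(d + s, s)`, `s = ⌊log₂ k⌋ + 1`. -/
def pivotBound (d k : ℕ) : ℕ := 2 ^ Nat.size k * (d + Nat.size k).choose (Nat.size k)

end Pool.Agent.Simplex
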