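import Pool.Agent.Lib.MP_4d246d_lc.QP.Spec
import Pool.Agent.Lib.MP_4d246d_lc.QP.Defs

/-! Clearing denominators. -/

namespace Pool.Agent.Simplex.QP

open Pool.Agent.Lib.PolyTime

theorem denZ_pos (l : List ℚ) : 0 < denZ l := by
  unfold denZ
  apply List.prod_pos
  intro a ha
  obtain ⟨q, _, rfl⟩ := List.mem_map.1 ha
  exact_mod_cast q.den_pos

theorem den_dvd {l : List ℚ} {q : ℚ} (h : q ∈ l) : (q.den : ℤ) ∣ denZ l := by
  unfold denZ
  exact List.dvd_prod (List.mem_map.2 ⟨q, h, rfl⟩)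

theorem clr_val {d : ℤ} {q : ℚ} (h : (q.den : ℤ) ∣ d) :
    ((q.num * (d / (q.den : ℤ)) : ℤ) : ℝ) = (d : ℝ) * (q : ℝ) := by
  obtain ⟨k, rfl⟩ := h
  have h0 : (q.den : ℤ) ≠ 0 := by exact_mod_cast q.den_ne_zero
  rw [Int.mul_ediv_cancel_left _ h0]
  have h1 : (q : ℝ) = (q.num : ℝ) / (q.den : ℝ) := by
    exact_mod_cast (congrArg (fun x : ℚ => (x : ℝ)) (Rat.num_div_den q)).symm
  have h2 : ((q.den : ℕ) : ℝ) ≠ 0 := by exact_mod_cast q.den_ne_zero
  rw [h1]
  push_cast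
  field_simp

theorem getD_clr {d : ℤ} {n : ℕ} (f : Fin n → ℚ) (hd : ∀ j, ((f j).den : ℤ) ∣ d) (j : Fin n) :
    (((clr d (List.ofFn f)).getD j 0 : ℤ) : ℝ) = (d : ℝ) * ((f j : ℚ) : ℝ) := by
  unfold clr
  rw [getD_map _ _ _ 0 0 (by simp)]
  have : (List.ofFn f).getD j 0 = f j := by
    rw [List.getD_eq_getElem _ _ (by simp)]
    simp
  rw [this]
  exact clr_val (hd j)

theorem rdot_clr {d : ℤ} {n : ℕ} (f : Fin n → ℚ) (hd : ∀ j, ((f j).den : ℤ) ∣ d)
    (x : Fin n → ℝ) : rdot n (clr d (List.ofFn f)) x = (d : ℝ) * ∑ j, ((f j : ℚ) : ℝ) * x j := by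
  unfold rdot
  rw [Finset.mul_sum]
  exact Finset.sum_congr rfl fun j _ => by rw [getD_clr f hd]; ring

variable (I : Input)

/-- the integer data of an input -/
abbrev dat : Sta := staOf I.data

/-- the system of an input -/
noncomputable def sysI : Sys (Fin I.n → ℝ) := sysOf (dat I)

/-- the real vector of a point -/
noncomputable def valI : Pnt → Fin I.n → ℝ := valOf (dat I)

theorem spec_I : Spec (orc (dat I)) vleZ (sysI I) (valI I) := spec_orc (dat I)

theorem dat_rows : (dat I).2.1 = (List.ofFn fun i => clrRow (List.ofFn (I.lp.A i), I.lp.b i)) ++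
    (List.range I.n).map (fun j => (negZ (unitZ I.n j), 0)) := by
  show (List.zip _ _).map clrRow ++ _ = _
  congr 1
  apply List.ext_getElem
  · simp [Input.data]
  · intro i h1 h2
    simp [Input.data]

theorem dat_len : (dat I).2.1.length = I.m + I.n := by
  rw [dat_rows]; simp

theorem row_lt {i : ℕ} (hi : i < I.m) :
    rowOf (dat I) i = clrRow (List.ofFn (I.lp.A ⟨i, hi⟩), I.lp.b ⟨i, hi⟩) := by
  unfold rowOf
  rw [dat_rows, List.getD_append _ _ _ _ (by simpa using hi),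
    List.getD_eq_getElem _ _ (by simpa using hi)]
  simp

theorem row_ge {j : ℕ} (hj : j < I.n) :
    rowOf (dat I) (I.m + j) = (negZ (unitZ I.n j), 0) := by
  unfold rowOf
  rw [dat_rows, List.getD_append_right _ _ _ _ (by simp),
    List.getD_eq_getElem _ _ (by simpa using hj)]
  simp

theorem sl_lt {i : ℕ} (hi : i < I.m) : ∃ d : ℝ, 0 < d ∧ ∀ x : Fin I.n → ℝ,
    (sysI I).sl i x = d * ((I.lp.b ⟨i, hi⟩ : ℝ) - ∑ j, (I.lp.A ⟨i, hi⟩ j : ℝ) * x j) := by
  set l := I.lp.b ⟨i, hi⟩ :: List.ofFn (I.lp.A ⟨i, hi⟩) with hl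
  refine ⟨(denZ l : ℝ), by exact_mod_cast denZ_pos l, fun x => ?_⟩
  show ((rowOf (dat I) i).2 : ℝ) - rdot I.n (rowOf (dat I) i).1 x = _
  rw [row_lt I hi]
  unfold clrRow
  show ((((I.lp.b ⟨i, hi⟩).num * (denZ l / ((I.lp.b ⟨i, hi⟩).den : ℤ)) : ℤ)) : ℝ) -
    rdot I.n (clr (denZ l) (List.ofFn (I.lp.A ⟨i, hi⟩))) x = _
  rw [clr_val (den_dvd List.mem_cons_self), rdot_clr _ (fun j => den_dvd
    (List.mem_cons_of_mem _ (List.mem_ofFn.2 ⟨j, rfl⟩)))]
  ring

theorem sl_ge {j : ℕ} (hj : j < I.n) (x : Fin I.n → ℝ) :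
    (sysI I).sl (I.m + j) x = x ⟨j, hj⟩ := by
  show ((rowOf (dat I) (I.m + j)).2 : ℝ) - rdot I.n (rowOf (dat I) (I.m + j)).1 x = _
  rw [row_ge I hj]
  unfold rdot
  rw [Finset.sum_eq_single (⟨j, hj⟩ : Fin I.n)]
  · rw [getD_negZ, getD_unitZ]
    simp [hj]
  · intro k _ hk
    rw [getD_negZ, getD_unitZ]
    have : (k : ℕ) ≠ j := fun h => hk (Fin.ext h)
    simp [this]
  · intro h; exact absurd (Finset.mem_univ _) h

/-- The feasible polyhedron. -/
theorem feasible_eq : (sysI I).Q [] (List.range (dat I).2.1.length) = I.lp.feasible := by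
  ext x
  show (_ ∧ _) ↔ (_ ∧ _)
  constructor
  · rintro ⟨-, h⟩
    refine ⟨fun i => ?_, fun j => ?_⟩
    · obtain ⟨d, hd, h1⟩ := sl_lt I i.2
      have h2 := h i (List.mem_range.2 (by rw [dat_len]; omega))
      rw [h1] at h2
      have h3 := nonneg_of_mul_nonneg_right h2 hd
      linarith
    · have h2 := h (I.m + j) (List.mem_range.2 (by rw [dat_len]; omega))
      rw [sl_ge I j.2] at h2
      exact h2
  · rintro ⟨h1, h2⟩
    refine ⟨fun i hi => by simp at hi, fun i hi => ?_⟩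
    rw [List.mem_range, dat_len] at hi
    by_cases him : i < I.m
    · obtain ⟨d, hd, h3⟩ := sl_lt I him
      rw [h3]
      have := h1 ⟨i, him⟩
      exact mul_nonneg hd.le (by linarith)
    · obtain ⟨j, rfl⟩ := Nat.exists_eq_add_of_le (not_lt.1 him)
      have hj : j < I.n := by omega
      rw [sl_ge I hj]
      exact h2 ⟨j, hj⟩

/-- The objective. -/
theorem obj_eq : ∃ d : ℝ, 0 < d ∧ ∀ x : Fin I.n → ℝ, (sysI I).c x = d * I.lp.obj x := by
  refine ⟨(denZ (List.ofFn I.lp.c) : ℝ), by exact_mod_cast denZ_pos _, fun x => ?_⟩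
  show rdot I.n (clr (denZ (List.ofFn I.lp.c)) (List.ofFn I.lp.c)) x = _
  rw [rdot_clr _ (fun j => den_dvd (List.mem_ofFn.2 ⟨j, rfl⟩))]
  rfl

/-- The starting vertex. -/
theorem val_pntOf : valI I (pntOf I.data) = toReal I.v := by
  funext j
  show (((clr (denZ (List.ofFn I.v)) (List.ofFn I.v)).getD j 0 : ℤ) : ℝ) /
    ((dn (denZ (List.ofFn I.v)) : ℤ) : ℝ) = (I.v j : ℝ)
  rw [dn_of_pos (denZ_pos _)]
  have h := getD_clr (d := denZ (List.ofFn I.v)) I.v
    (fun j => den_dvd (List.mem_ofFn.2 ⟨j, rfl⟩)) j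
  rw [h, mul_comm, mul_div_assoc, div_self, mul_one]
  exact_mod_cast (denZ_pos _).ne'

/-- The rational coordinates of a point. -/
def qv (n : ℕ) (p : Pnt) : Fin n → ℚ := fun j => (ratsOf p).getD j 0

theorem toReal_qv (p : Pnt) : toReal (qv I.n p) = valI I p := by
  funext j
  show (((ratsOf p).getD j 0 : ℚ) : ℝ) = ((p.1.getD j 0 : ℤ) : ℝ) / ((dn p.2 : ℤ) : ℝ)
  unfold ratsOf
  by_cases hj : (j : ℕ) < p.1.length
  · rw [getD_map _ _ _ 0 0 hj]
    push_cast
    rfl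
  · rw [List.getD_eq_default _ _ (by simpa using hj), List.getD_eq_default _ _ (by simpa using hj)]
    simp

theorem ofFn_qv {n : ℕ} {p : Pnt} (h : p.1.length = n) : List.ofFn (qv n p) = ratsOf p := by
  subst h
  apply List.ext_getElem
  · simp [ratsOf]
  · intro i h1 h2
    simp only [List.getElem_ofFn, qv]
    rw [List.getD_eq_getElem _ _ h2]

theorem qv_pntOf : qv I.n (pntOf I.data) = I.v := by
  have h1 := toReal_qv I (pntOf I.data)
  rw [val_pntOf] at h1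
  funext j
  have h2 := congrFun h1 j
  unfold toReal at h2
  exact_mod_cast h2

end Pool.Agent.Simplex.QP
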