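import Mathlib

/-! Geometry of faces of polyhedra given by slack functions indexed by natural numbers. -/

namespace Pool.Agent.Simplex.QP

/-- a family of affine slack functions and a linear objective -/
structure Sys (E : Type*) [AddCommGroup E] [Module ℝ E] where
  sl : ℕ → E → ℝ
  ln : ℕ → E →ₗ[ℝ] ℝ
  add : ∀ i x q, sl i (x + q) = sl i x + ln i q
  c : E →ₗ[ℝ] ℝ

namespace Sys

variable {E : Type*} [AddCommGroup E] [Module ℝ E] (S : Sys E)

/-- the face: equalities `J`, inequalities `I` -/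
def Q (J I : List ℕ) : Set E := {x | (∀ i ∈ J, S.sl i x = 0) ∧ ∀ i ∈ I, 0 ≤ S.sl i x}

/-- the tight constraints in `K` have full rank -/
def Vx (K : ℕ → Prop) (x : E) : Prop := ∀ q, (∀ i, K i → S.sl i x = 0 → S.ln i q = 0) → q = 0

/-- the constraints `J` cut out a line with direction `z` -/
def One (J : List ℕ) (z : E) : Prop :=
  (∀ i ∈ J, S.ln i z = 0) ∧ ∀ q, (∀ i ∈ J, S.ln i q = 0) → ∃ t : ℝ, q = t • z

theorem smul_add (i : ℕ) (x q : E) (t : ℝ) : S.sl i (x + t • q) = S.sl i x + t * S.ln i q := by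
  rw [S.add, map_smul, smul_eq_mul]

theorem ln_sub (i : ℕ) (x y : E) : S.ln i (y - x) = S.sl i y - S.sl i x := by
  have := S.add i x (y - x)
  rw [add_sub_cancel] at this
  linarith

theorem pert (K : List ℕ) (x q : E)
    (h : ∀ i ∈ K, 0 < S.sl i x ∨ (0 ≤ S.sl i x ∧ 0 ≤ S.ln i q)) :
    ∃ ε : ℝ, 0 < ε ∧ ∀ t, 0 ≤ t → t ≤ ε → ∀ i ∈ K, 0 ≤ S.sl i (x + t • q) := by
  induction K with
  | nil => exact ⟨1, one_pos, fun _ _ _ i hi => by simp at hi⟩
  | cons k K ih =>
    obtain ⟨ε, hε, h1⟩ := ih fun i hi => h i (List.mem_cons_of_mem _ hi)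
    rcases h k List.mem_cons_self with h2 | ⟨h2, h3⟩
    · refine ⟨min ε (S.sl k x / (|S.ln k q| + 1)), lt_min hε (by positivity), ?_⟩
      intro t ht0 ht i hi
      rcases List.mem_cons.1 hi with rfl | hi
      · rw [S.smul_add]
        have h4 : t ≤ S.sl i x / (|S.ln i q| + 1) := ht.trans (min_le_right _ _)
        rw [le_div_iff₀ (by positivity)] at h4
        have h5 := neg_abs_le (S.ln i q)
        have h6 : t * (|S.ln i q|) ≤ t * (|S.ln i q| + 1) :=
          mul_le_mul_of_nonneg_left (by linarith) ht0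
        nlinarith
      · exact h1 t ht0 (ht.trans (min_le_left _ _)) i hi
    · refine ⟨ε, hε, fun t ht0 ht i hi => ?_⟩
      rcases List.mem_cons.1 hi with rfl | hi
      · rw [S.smul_add]
        have := mul_nonneg ht0 h3
        linarith
      · exact h1 t ht0 ht i hi

/-- first constraint hit when moving in direction `q` -/
theorem first_hit (K : List ℕ) (x q : E) (h0 : ∀ i ∈ K, 0 ≤ S.sl i x)
    (h : ∃ i ∈ K, S.ln i q < 0) :
    ∃ t : ℝ, 0 ≤ t ∧ (∀ i ∈ K, 0 ≤ S.sl i (x + t • q)) ∧
      ∃ i ∈ K, S.ln i q < 0 ∧ S.sl i (x + t • q) = 0 := by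
  induction K with
  | nil => simp at h
  | cons k K ih =>
    by_cases hK : ∃ i ∈ K, S.ln i q < 0
    · obtain ⟨t, ht, h1, i, hi, h2, h3⟩ := ih (fun i hi => h0 i (List.mem_cons_of_mem _ hi)) hK
      by_cases hk : 0 ≤ S.sl k (x + t • q)
      · refine ⟨t, ht, fun j hj => ?_, i, List.mem_cons_of_mem _ hi, h2, h3⟩
        rcases List.mem_cons.1 hj with rfl | hj
        · exact hk
        · exact h1 j hj
      · push Not at hk
        have hk0 := h0 k List.mem_cons_self
        rw [S.smul_add] at hk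
        have hln : S.ln k q < 0 := by
          by_contra hge
          push Not at hge
          have := mul_nonneg ht hge
          linarith
        have hln' : 0 < -S.ln k q := by linarith
        have hu : S.sl k x / (-S.ln k q) * (-S.ln k q) = S.sl k x := div_mul_cancel₀ _ hln'.ne'
        refine ⟨S.sl k x / (-S.ln k q), by positivity, fun j hj => ?_, k, List.mem_cons_self,
          hln, ?_⟩
        · rcases List.mem_cons.1 hj with rfl | hj
          · rw [S.smul_add]; linarith
          · have hle : S.sl k x / (-S.ln k q) ≤ t := by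
              rw [div_le_iff₀ hln']; linarith
            have hnn : 0 ≤ S.sl k x / (-S.ln k q) := by positivity
            have e1 := h1 j hj
            have e0 := h0 j (List.mem_cons_of_mem _ hj)
            rw [S.smul_add] at e1 ⊢
            by_cases hs : 0 ≤ S.ln j q
            · have := mul_nonneg hnn hs
              linarith
            · push Not at hs
              have := mul_le_mul_of_nonpos_right hle hs.le
              linarith
        · rw [S.smul_add]; linarith
    · push Not at hK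
      have hln : S.ln k q < 0 := by
        obtain ⟨i, hi, h2⟩ := h
        rcases List.mem_cons.1 hi with rfl | hi
        · exact h2
        · exact absurd h2 (not_lt.2 (hK i hi))
      have hln' : 0 < -S.ln k q := by linarith
      have hk0 := h0 k List.mem_cons_self
      have hu : S.sl k x / (-S.ln k q) * (-S.ln k q) = S.sl k x := div_mul_cancel₀ _ hln'.ne'
      have hnn : 0 ≤ S.sl k x / (-S.ln k q) := by positivity
      refine ⟨S.sl k x / (-S.ln k q), hnn, fun j hj => ?_, k, List.mem_cons_self, hln, ?_⟩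
      · rcases List.mem_cons.1 hj with rfl | hj
        · rw [S.smul_add]; linarith
        · rw [S.smul_add]
          have := mul_nonneg hnn (hK j hj)
          have e0 := h0 j (List.mem_cons_of_mem _ hj)
          linarith
      · rw [S.smul_add]; linarith

/-- If no constraint of `I` is active at the vertex `x` of `Q J I` and `x` is not optimal, then
`Q J I` is a ray. -/
theorem ray_of_inactive {J I : List ℕ} {x y : E} (hx : x ∈ S.Q J I)
    (hv : S.Vx (fun i => i ∈ J ∨ i ∈ I) x) (hy : y ∈ S.Q J I) (hxy : S.c x < S.c y)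
    (ha : ∀ i ∈ I, ∀ z ∈ S.Q J I, S.sl i z = 0 → S.c z ≤ S.c x) :
    S.One J (y - x) ∧ 0 < S.c (y - x) ∧ ∀ i ∈ I, 0 ≤ S.ln i (y - x) := by
  have hc : 0 < S.c (y - x) := by rw [map_sub]; linarith
  have hJ : ∀ i ∈ J, S.ln i (y - x) = 0 := fun i hi => by
    rw [S.ln_sub, hx.1 i hi, hy.1 i hi, sub_zero]
  -- no point of `Q J I` above `x` lies on a constraint of `I`
  have key : ∀ q : E, (∀ i ∈ J, S.ln i q = 0) → 0 < S.c q → (∀ i ∈ I, S.sl i x = 0 →
      0 ≤ S.ln i q) → ∀ i ∈ I, S.sl i x = 0 → S.ln i q ≠ 0 := by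
    intro q hqJ hqc hqI i hi hix hq0
    obtain ⟨ε, hε, h1⟩ := S.pert I x q (fun j hj => by
      rcases (hx.2 j hj).lt_or_eq with h | h
      · exact Or.inl h
      · exact Or.inr ⟨h.le, hqI j hj h.symm⟩)
    have h2 : x + ε • q ∈ S.Q J I :=
      ⟨fun j hj => by rw [S.smul_add, hx.1 j hj, hqJ j hj]; ring, h1 ε hε.le le_rfl⟩
    have h3 := ha i hi _ h2 (by rw [S.smul_add, hix, hq0]; ring)
    rw [map_add, map_smul, smul_eq_mul] at h3
    have := mul_pos hε hqc
    linarith
  refine ⟨⟨hJ, ?_⟩, hc, ?_⟩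
  · intro q hq
    by_contra hne
    push Not at hne
    -- make `q` orthogonal to the objective
    set q1 : E := q - (S.c q / S.c (y - x)) • (y - x) with hq1
    have hq1c : S.c q1 = 0 := by
      rw [hq1, map_sub, map_smul, smul_eq_mul, div_mul_cancel₀ _ hc.ne', sub_self]
    have hq1J : ∀ i ∈ J, S.ln i q1 = 0 := fun i hi => by
      rw [hq1, map_sub, map_smul, hq i hi, hJ i hi]; simp
    have hq1ne : q1 ≠ 0 := by
      intro h
      apply hne (S.c q / S.c (y - x))
      rw [hq1] at h
      exact sub_eq_zero.1 h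
    obtain ⟨i, hi, hix, hiq⟩ : ∃ i ∈ I, S.sl i x = 0 ∧ S.ln i q1 ≠ 0 := by
      by_contra hno
      push Not at hno
      apply hq1ne
      apply hv
      rintro i (hi | hi) hix
      · exact hq1J i hi
      · exact hno i hi hix
    -- choose the sign
    obtain ⟨q2, hq2c, hq2J, hq2i⟩ : ∃ q2 : E, S.c q2 = 0 ∧ (∀ i ∈ J, S.ln i q2 = 0) ∧
        S.ln i q2 < 0 := by
      rcases lt_or_gt_of_ne hiq with h | h
      · exact ⟨q1, hq1c, hq1J, h⟩
      · refine ⟨-q1, by rw [map_neg, hq1c, neg_zero], fun j hj => by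
          rw [map_neg, hq1J j hj, neg_zero], by rw [map_neg]; linarith⟩
    -- move from `y - x` in direction `q2` within the tangent cone
    classical
    let T : Sys E :=
      { sl := fun i z => S.ln i z, ln := S.ln, add := fun i x q => map_add _ _ _, c := S.c }
    obtain ⟨t, ht, h1, j, hj, h2, h3⟩ := T.first_hit (I.filter fun i => decide (S.sl i x = 0))
      (y - x) q2 (by
        intro j hj
        rw [List.mem_filter, decide_eq_true_eq] at hj
        show 0 ≤ S.ln j (y - x)
        rw [S.ln_sub, hj.2, sub_zero]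
        exact hy.2 j hj.1) ⟨i, by rw [List.mem_filter, decide_eq_true_eq]; exact ⟨hi, hix⟩, hq2i⟩
    rw [List.mem_filter, decide_eq_true_eq] at hj
    refine key (y - x + t • q2) ?_ ?_ ?_ j hj.1 hj.2 h3
    · intro i hi
      rw [map_add, map_smul, hJ i hi, hq2J i hi]; simp
    · rw [map_add, map_smul, hq2c]; simpa using hc
    · intro i hi hix
      exact h1 i (by rw [List.mem_filter, decide_eq_true_eq]; exact ⟨hi, hix⟩)
  · intro i hi
    by_contra hneg
    push Not at hneg
    obtain ⟨t, ht, h1, j, hj, h2, h3⟩ := S.first_hit I x (y - x) hx.2 ⟨i, hi, hneg⟩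
    have ht0 : 0 < t := by
      rcases ht.lt_or_eq with h | h
      · exact h
      · exfalso
        rw [← h] at h3
        simp only [zero_smul, add_zero] at h3
        have h4 := hy.2 j hj
        rw [S.ln_sub, h3] at h2
        linarith
    have h4 : x + t • (y - x) ∈ S.Q J I :=
      ⟨fun j hj => by rw [S.smul_add, hx.1 j hj, hJ j hj]; ring, h1⟩
    have h5 := ha j hj _ h4 h3
    rw [map_add, map_smul, smul_eq_mul] at h5
    have := mul_pos ht0 hc
    linarith

/-- maximising over a line segment of the polyhedron: unbounded case -/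
theorem line_unb {J K : List ℕ} {x z : E} (hx : x ∈ S.Q J K) (hz : S.One J z) (hc : 0 < S.c z)
    (hu : ∀ r : ℝ, ∃ y ∈ S.Q J K, r < S.c y) : ∀ i ∈ K, 0 ≤ S.ln i z := by
  intro i hi
  by_contra hneg
  push Not at hneg
  obtain ⟨y, hy, hlt⟩ := hu (S.c x + S.sl i x / (-S.ln i z) * S.c z)
  obtain ⟨t, ht⟩ := hz.2 (y - x) fun j hj => by rw [S.ln_sub, hx.1 j hj, hy.1 j hj, sub_zero]
  have hy' : y = x + t • z := by rw [← ht]; abel
  have h1 := hy.2 i hi
  rw [hy', S.smul_add] at h1
  rw [hy', map_add, map_smul, smul_eq_mul] at hlt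
  have hn : 0 < -S.ln i z := by linarith
  have h2 : t ≤ S.sl i x / (-S.ln i z) := by
    rw [le_div_iff₀ hn]; linarith
  have h3 := mul_le_mul_of_nonneg_right h2 hc.le
  linarith

/-- maximising over a line segment of the polyhedron: bounded case -/
theorem line_opt {J K : List ℕ} {x y z : E} (hx : x ∈ S.Q J K) (hz : S.One J z) (hc : 0 < S.c z)
    (ht : ∀ i ∈ K, S.sl i x = 0 → 0 ≤ S.ln i z)
    (hy : y ∈ S.Q J K) (ho : ∀ w ∈ S.Q J K, S.c w ≤ S.c y) :
    ∃ t : ℝ, 0 < t ∧ y = x + t • z ∧ ∃ i ∈ K, S.sl i y = 0 ∧ S.ln i z < 0 := by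
  obtain ⟨t, ht'⟩ := hz.2 (y - x) fun j hj => by rw [S.ln_sub, hx.1 j hj, hy.1 j hj, sub_zero]
  have hy' : y = x + t • z := by rw [← ht']; abel
  have hline : ∀ s : ℝ, ∀ i ∈ J, S.sl i (x + s • z) = 0 := fun s i hi => by
    rw [S.smul_add, hx.1 i hi, hz.1 i hi]; ring
  refine ⟨t, ?_, hy', ?_⟩
  · obtain ⟨ε, hε, h1⟩ := S.pert K x z (fun j hj => by
      rcases (hx.2 j hj).lt_or_eq with h | h
      · exact Or.inl h
      · exact Or.inr ⟨h.le, ht j hj h.symm⟩)
    have h2 := ho _ ⟨hline ε, h1 ε hε.le le_rfl⟩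
    rw [hy', map_add, map_smul, map_add, map_smul, smul_eq_mul, smul_eq_mul] at h2
    have h3 : ε * S.c z ≤ t * S.c z := by linarith
    have h4 := le_of_mul_le_mul_right h3 hc
    linarith
  · by_contra hno
    push Not at hno
    obtain ⟨ε, hε, h1⟩ := S.pert K y z (fun j hj => by
      rcases (hy.2 j hj).lt_or_eq with h | h
      · exact Or.inl h
      · exact Or.inr ⟨h.le, hno j hj h.symm⟩)
    have h2 : y + ε • z ∈ S.Q J K := by
      refine ⟨fun i hi => ?_, h1 ε hε.le le_rfl⟩
      rw [S.smul_add, hy.1 i hi, hz.1 i hi]; ring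
    have h3 := ho _ h2
    rw [map_add, map_smul, smul_eq_mul] at h3
    have := mul_pos hε hc
    linarith

end Sys

end Pool.Agent.Simplex.QP
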