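import Pool.Agent.Lib.PolyTime.IntBin
import Pool.Agent.Lib.PolyTime.NatBin

/-!
# Integer operations in polynomial time (collected imports) and list access
-/

namespace Pool.Agent.Lib.PolyTime

section

variable {α β γ δ ε : Type*} [TEnc α] [TEnc β] [TEnc γ] [TEnc δ] [TEnc ε]

namespace PolyF

/-- List access with default value. -/
theorem getDL {n : α → ℕ} {l : α → List β} {d : α → β} (hl : PolyF l) (hn : PolyF n)
    (hd : PolyF d) : PolyF (fun x => (l x).getD (n x) (d x)) :=
  ((hn.getElem? hl).getD hd).congr fun x => by rw [List.getD_eq_getElem?_getD]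

/-- List access for lists of integers. -/
theorem getDZ {n : α → ℕ} {l : α → List ℤ} (hl : PolyF l) (hn : PolyF n) :
    PolyF (fun x => (l x).getD (n x) 0) := hl.getDL hn (const 0)

end PolyF

end

end Pool.Agent.Lib.PolyTime
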