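import Pool.Agent.Lib.MP_4d246d_lc.QP.Machine

/-! Invariants of the pivoting machine. -/

namespace Pool.Agent.Simplex.QP

variable {Pt Vl : Type} {o : Orc Pt Vl} {vle : Vl → Vl → Bool}
variable {E : Type*} [AddCommGroup E] [Module ℝ E] {S : Sys E} {val : Pt → E}

/-- consecutive frames -/
structure Link (S : Sys E) (x : E) (f p : Frame) : Prop where
  hJ : ∀ j ∈ p.J, j ∈ f.J
  hK : ∀ i, (i ∈ f.J ∨ i ∈ f.I) → (i ∈ p.J ∨ i ∈ p.I)
  hI : ∀ i ∈ p.I, i ∈ f.I ∨ S.Dep f.J i ∨ i ∈ f.B ∨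
    (S.sl i x ≠ 0 ∧ ∀ z ∈ S.Q p.J p.I, S.sl i z = 0 → S.c z ≤ S.c x)
  hB : ∀ i ∈ f.B, i ∈ p.I ∧ S.sl i x ≠ 0
  hnd : f.I.Nodup
  hdep : ∀ i ∈ f.I, ¬ S.Dep f.J i
  hlen : f.I.length < p.I.length

/-- invariants of the stack -/
def Chain (S : Sys E) (M : ℕ) (x : E) : List Frame → Prop
  | [] => False
  | [f] => f.B = [] ∧ (∀ i < M, i ∈ f.I ∨ S.Dep f.J i) ∧ (∀ i ∈ f.I, i < M) ∧
      (∀ j ∈ f.J, j < M) ∧ f.I.Nodup ∧ ∀ i ∈ f.I, ¬ S.Dep f.J i
  | f :: p :: r => Link S x f p ∧ Chain S M x (p :: r)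

/-- the state is good -/
structure Good (S : Sys E) (M : ℕ) (x : E) (f : Frame) (r : List Frame) : Prop where
  chain : Chain S M x (f :: r)
  mem : x ∈ S.Q f.J (List.range M)
  vx : S.Vx (fun i => i ∈ f.J ∨ i ∈ f.I) x

theorem Chain.basic {M : ℕ} {x : E} {f : Frame} {r : List Frame} (h : Chain S M x (f :: r)) :
    (∀ i ∈ f.I, i < M) ∧ (∀ j ∈ f.J, j < M) ∧ f.I.Nodup ∧ ∀ i ∈ f.I, ¬ S.Dep f.J i := by
  induction r generalizing f with
  | nil => exact ⟨h.2.2.1, h.2.2.2.1, h.2.2.2.2.1, h.2.2.2.2.2⟩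
  | cons p r ih =>
    obtain ⟨hl, hc⟩ := h
    obtain ⟨h1, h2, -, -⟩ := ih hc
    refine ⟨fun i hi => ?_, fun j hj => ?_, hl.hnd, hl.hdep⟩
    · rcases hl.hK i (Or.inr hi) with h | h
      · exact h2 i h
      · exact h1 i h
    · rcases hl.hK j (Or.inl hj) with h | h
      · exact h2 j h
      · exact h1 j h

theorem Chain.B_lt {M : ℕ} {x : E} {f : Frame} {r : List Frame} (h : Chain S M x (f :: r)) :
    ∀ i ∈ f.B, i < M ∧ S.sl i x ≠ 0 := by
  cases r with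
  | nil => intro i hi; rw [h.1] at hi; simp at hi
  | cons p r =>
    intro i hi
    have h1 := h.1.hB i hi
    exact ⟨h.2.basic.1 i h1.1, h1.2⟩

/-- Every constraint is in the top system, dependent, blocking, or irrelevant. -/
theorem Chain.cover {M : ℕ} {x : E} {st : List Frame} {f : Frame} {r : List Frame}
    (hst : st = f :: r) (h : Chain S M x st) {i : ℕ} (hi : i < M) :
    i ∈ f.I ∨ S.Dep f.J i ∨ (∃ g ∈ st, i ∈ g.B) ∨
      (S.sl i x ≠ 0 ∧ ∃ p ∈ r, ∀ z ∈ S.Q p.J p.I, S.sl i z = 0 → S.c z ≤ S.c x) := by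
  subst hst
  induction r generalizing f with
  | nil =>
    rcases h.2.1 i hi with h1 | h1
    · exact Or.inl h1
    · exact Or.inr (Or.inl h1)
  | cons p r ih =>
    obtain ⟨hl, hc⟩ := h
    rcases ih hc with h1 | h1 | ⟨g, hg, h1⟩ | ⟨h0, g, hg, h1⟩
    · rcases hl.hI i h1 with h2 | h2 | h2 | h2
      · exact Or.inl h2
      · exact Or.inr (Or.inl h2)
      · exact Or.inr (Or.inr (Or.inl ⟨f, List.mem_cons_self, h2⟩))
      · exact Or.inr (Or.inr (Or.inr ⟨h2.1, p, List.mem_cons_self, h2.2⟩))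
    · exact Or.inr (Or.inl fun q hq => h1 q fun j hj => hq j (hl.hJ j hj))
    · exact Or.inr (Or.inr (Or.inl ⟨g, List.mem_cons_of_mem _ hg, h1⟩))
    · exact Or.inr (Or.inr (Or.inr ⟨h0, g, List.mem_cons_of_mem _ hg, h1⟩))

/-- The equalities and the system of all frames below. -/
theorem Chain.below {M : ℕ} {x : E} {f : Frame} {r : List Frame} (h : Chain S M x (f :: r)) :
    ∀ p ∈ f :: r, (∀ j ∈ p.J, j ∈ f.J) ∧ (∀ i, (i ∈ f.J ∨ i ∈ f.I) → (i ∈ p.J ∨ i ∈ p.I)) ∧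
      (∀ i ∈ p.I, i < M) ∧ ∀ j ∈ p.J, j < M := by
  induction r generalizing f with
  | nil =>
    intro p hp
    rw [List.mem_singleton] at hp
    subst hp
    exact ⟨fun _ h => h, fun _ h => h, h.basic.1, h.basic.2.1⟩
  | cons g r ih =>
    intro p hp
    rcases List.mem_cons.1 hp with rfl | hp
    · exact ⟨fun _ h => h, fun _ h => h, h.basic.1, h.basic.2.1⟩
    · obtain ⟨h1, h2, h3, h4⟩ := ih h.2 p hp
      exact ⟨fun j hj => h.1.hJ j (h1 j hj), fun i hi => h2 i (h.1.hK i hi), h3, h4⟩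

theorem Q_mono {J J' I I' : List ℕ} (hJ : ∀ j ∈ J', j ∈ J) (hI : ∀ i ∈ I', i ∈ I) :
    S.Q J I ⊆ S.Q J' I' :=
  fun _ hx => ⟨fun j hj => hx.1 j (hJ j hj), fun i hi => hx.2 i (hI i hi)⟩

/-- Moving up without touching the blocking constraints keeps the chain. -/
theorem Chain.mono {M : ℕ} {x y : E} {f : Frame} {r : List Frame} (h : Chain S M x (f :: r))
    (hxy : S.c x < S.c y) (hy : y ∈ S.Q f.J (List.range M))
    (hB : ∀ g ∈ f :: r, ∀ i ∈ g.B, S.sl i y ≠ 0) : Chain S M y (f :: r) := by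
  induction r generalizing f with
  | nil => exact h
  | cons p r ih =>
    obtain ⟨hl, hc⟩ := h
    have hyp : y ∈ S.Q p.J (List.range M) := ⟨fun j hj => hy.1 j (hl.hJ j hj), hy.2⟩
    refine ⟨⟨hl.hJ, hl.hK, fun i hi => ?_, fun i hi => ⟨(hl.hB i hi).1, ?_⟩, hl.hnd, hl.hdep,
      hl.hlen⟩, ih hc hyp fun g hg => hB g (List.mem_cons_of_mem _ hg)⟩
    · rcases hl.hI i hi with h1 | h1 | h1 | ⟨h1, h2⟩
      · exact Or.inl h1
      · exact Or.inr (Or.inl h1)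
      · exact Or.inr (Or.inr (Or.inl h1))
      · refine Or.inr (Or.inr (Or.inr ⟨fun h0 => ?_, fun z hz hz0 => (h2 z hz hz0).trans hxy.le⟩))
        have h3 : y ∈ S.Q p.J p.I := ⟨hyp.1, fun j hj => hyp.2 j (List.mem_range.2 (hc.basic.1 j hj))⟩
        exact absurd (h2 y h3 h0) (not_le.2 hxy)
    · exact hB f List.mem_cons_self i hi

/-- Membership in the top system. -/
theorem Good.memQ {M : ℕ} {x : E} {f : Frame} {r : List Frame} (h : Good S M x f r) :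
    x ∈ S.Q f.J f.I :=
  ⟨h.mem.1, fun i hi => h.mem.2 i (List.mem_range.2 (h.chain.basic.1 i hi))⟩

/-- Pop. -/
theorem Good.pop {M : ℕ} {x : E} {f p : Frame} {r : List Frame} (h : Good S M x f (p :: r)) :
    Good S M x p r := by
  obtain ⟨⟨hl, hc⟩, h2, h3⟩ := h
  refine ⟨hc, ⟨fun j hj => h2.1 j (hl.hJ j hj), h2.2⟩, fun q hq => h3 q fun i hi => ?_⟩
  exact hq i (hl.hK i hi)

/-- Push a face frame. -/
theorem Good.face (ho : Spec o vle S val) {x : E} {f : Frame} {r : List Frame}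
    (hc : Chain S o.M x (f :: r)) (hx : x ∈ S.Q f.J (List.range o.M)) {i : ℕ} (hi : i ∈ f.I)
    (hix : S.sl i x = 0)
    (hv : ∀ q, (∀ j, (j ∈ f.J ∨ j ∈ f.I) → S.sl j x = 0 → S.ln j q = 0) → q = 0) :
    Good S o.M x (face o i f) (f :: r) := by
  obtain ⟨hIM, hJM, hnd, hdep⟩ := hc.basic
  have hiM := hIM i hi
  have hJ' : ∀ j ∈ i :: f.J, j < o.M := by
    intro j hj
    rcases List.mem_cons.1 hj with rfl | hj
    · exact hiM
    · exact hJM j hj
  have hdi : o.dep (i :: f.J) i = true :=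
    (ho.dep _ _ hJ' hiM).2 fun q hq => hq i List.mem_cons_self
  have hmem : ∀ j, j ∈ (QP.face o i f).I ↔ j ∈ f.I ∧ ¬ S.Dep (i :: f.J) j := by
    intro j
    show j ∈ f.I.filter (fun j => !o.dep (i :: f.J) j) ↔ _
    rw [List.mem_filter]
    constructor
    · rintro ⟨h1, h2⟩
      refine ⟨h1, fun h3 => ?_⟩
      rw [(ho.dep _ _ hJ' (hIM j h1)).2 h3] at h2
      simp at h2
    · rintro ⟨h1, h2⟩
      refine ⟨h1, ?_⟩
      cases h3 : o.dep (i :: f.J) j with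
      | false => rfl
      | true => exact absurd ((ho.dep _ _ hJ' (hIM j h1)).1 h3) h2
  refine ⟨⟨⟨?_, ?_, ?_, ?_, ?_, ?_, ?_⟩, hc⟩, ⟨?_, hx.2⟩, ?_⟩
  · intro j hj; exact List.mem_cons_of_mem _ hj
  · rintro j (hj | hj)
    · rcases List.mem_cons.1 hj with rfl | hj
      · exact Or.inr hi
      · exact Or.inl hj
    · exact Or.inr ((hmem j).1 hj).1
  · intro j hj
    by_cases hd : S.Dep (i :: f.J) j
    · exact Or.inr (Or.inl hd)
    · exact Or.inl ((hmem j).2 ⟨hj, hd⟩)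
  · intro j hj; simp [QP.face, Frame.B] at hj
  · exact hnd.filter _
  · intro j hj; exact ((hmem j).1 hj).2
  · show (f.I.filter (fun j => !o.dep (i :: f.J) j)).length < f.I.length
    exact List.length_filter_lt_length_iff_exists.2 ⟨i, hi, by simp [hdi]⟩
  · intro j hj
    rcases List.mem_cons.1 hj with rfl | hj
    · exact hix
    · exact hx.1 j hj
  · intro q hq
    apply hv
    rintro j hj hj0
    have hface : ∀ j' ∈ i :: f.J, S.ln j' q = 0 := by
      intro j' hj'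
      refine hq j' (Or.inl hj') ?_
      rcases List.mem_cons.1 hj' with rfl | hj'
      · exact hix
      · exact hx.1 j' hj'
    rcases hj with hj | hj
    · exact hface j (List.mem_cons_of_mem _ hj)
    · by_cases hd : S.Dep (i :: f.J) j
      · exact hd q hface
      · exact hq j (Or.inr ((hmem j).2 ⟨hj, hd⟩)) hj0

end Pool.Agent.Simplex.QP
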