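import Pool.Agent.Lib.MP_4d246d_lc.QP.SolverDefs

/-!
# Lists of integers as vectors
-/

namespace Pool.Agent.Simplex.QP

@[simp] lemma dotZ_nil_left (v : List ℤ) : dotZ [] v = 0 := by simp [dotZ]
@[simp] lemma dotZ_nil_right (u : List ℤ) : dotZ u [] = 0 := by simp [dotZ]
@[simp] lemma dotZ_cons (a b : ℤ) (u v : List ℤ) : dotZ (a :: u) (b :: v) = a * b + dotZ u v := by
  simp [dotZ]

/-- the dot product as a sum -/
lemma dotZ_eq_sum (u v : List ℤ) (N : ℕ) (h : u.length ≤ N ∨ v.length ≤ N) :
    dotZ u v = ∑ j ∈ Finset.range N, u.getD j 0 * v.getD j 0 := by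
  induction u generalizing v N with
  | nil => simp
  | cons a u ih =>
    cases v with
    | nil => simp
    | cons b v =>
      cases N with
      | zero => simp at h
      | succ N =>
        rw [Finset.sum_range_succ', dotZ_cons, ih v N (by simpa using h)]
        simp [add_comm]

lemma dotZ_eq_fin (u v : List ℤ) (N : ℕ) (h : u.length ≤ N ∨ v.length ≤ N) :
    dotZ u v = ∑ j : Fin N, u.getD j 0 * v.getD j 0 := by
  rw [dotZ_eq_sum u v N h, Finset.sum_range]

lemma dotZ_comm (u v : List ℤ) : dotZ u v = dotZ v u := by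
  induction u generalizing v with
  | nil => simp
  | cons a u ih => cases v with
    | nil => simp
    | cons b v => simp [ih v, mul_comm]

@[simp] lemma ldot_nil (x : ℕ → ℝ) : ldot [] x = 0 := rfl
@[simp] lemma ldot_cons (a : ℤ) (l : List ℤ) (x : ℕ → ℝ) :
    ldot (a :: l) x = (a : ℝ) * x 0 + ldot l (fun j => x (j + 1)) := rfl

lemma ldot_eq_sum (l : List ℤ) (x : ℕ → ℝ) (N : ℕ) (h : l.length ≤ N) :
    ldot l x = ∑ j ∈ Finset.range N, ((l.getD j 0 : ℤ) : ℝ) * x j := by
  induction l generalizing x N with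
  | nil => simp
  | cons a l ih =>
    cases N with
    | zero => simp at h
    | succ N =>
      rw [Finset.sum_range_succ', ldot_cons, ih _ N (by simpa using h)]
      simp [add_comm]

lemma ldot_eq_fin (l : List ℤ) (x : ℕ → ℝ) (N : ℕ) (h : l.length ≤ N) :
    ldot l x = ∑ j : Fin N, ((l.getD j 0 : ℤ) : ℝ) * x j := by
  rw [ldot_eq_sum l x N h, Finset.sum_range]

lemma ldot_congr (l : List ℤ) {x y : ℕ → ℝ} (h : ∀ j < l.length, x j = y j) :
    ldot l x = ldot l y := by
  rw [ldot_eq_sum l x _ le_rfl, ldot_eq_sum l y _ le_rfl]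
  exact Finset.sum_congr rfl fun j hj => by rw [h j (Finset.mem_range.1 hj)]

lemma ldot_append (l l' : List ℤ) (x : ℕ → ℝ) :
    ldot (l ++ l') x = ldot l x + ldot l' (fun j => x (l.length + j)) := by
  induction l generalizing x with
  | nil => simp
  | cons a l ih =>
    rw [List.cons_append, ldot_cons, ldot_cons, ih]
    have : (fun j => x (l.length + j + 1)) = fun j => x ((a :: l).length + j) := by
      funext j
      congr 1
      simp only [List.length_cons]
      ring
    rw [this]
    ring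

lemma ldot_replicate_zero (k : ℕ) (x : ℕ → ℝ) : ldot (List.replicate k 0) x = 0 := by
  induction k generalizing x with
  | zero => simp
  | succ k ih => simp [List.replicate_succ, ih]

lemma ldot_add (l : List ℤ) (x y : ℕ → ℝ) :
    ldot l (fun j => x j + y j) = ldot l x + ldot l y := by
  rw [ldot_eq_sum l _ _ le_rfl, ldot_eq_sum l _ _ le_rfl, ldot_eq_sum l _ _ le_rfl,
    ← Finset.sum_add_distrib]
  exact Finset.sum_congr rfl fun j _ => by ring

lemma ldot_sub (l : List ℤ) (x y : ℕ → ℝ) :
    ldot l (fun j => x j - y j) = ldot l x - ldot l y := by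
  rw [ldot_eq_sum l _ _ le_rfl, ldot_eq_sum l _ _ le_rfl, ldot_eq_sum l _ _ le_rfl,
    ← Finset.sum_sub_distrib]
  exact Finset.sum_congr rfl fun j _ => by ring

lemma ldot_smul (l : List ℤ) (c : ℝ) (x : ℕ → ℝ) :
    ldot l (fun j => c * x j) = c * ldot l x := by
  rw [ldot_eq_sum l _ _ le_rfl, ldot_eq_sum l _ _ le_rfl, Finset.mul_sum]
  exact Finset.sum_congr rfl fun j _ => by ring

lemma ldot_negZ (l : List ℤ) (x : ℕ → ℝ) : ldot (negZ l) x = -ldot l x := by
  induction l generalizing x with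
  | nil => simp [negZ]
  | cons a l ih =>
    have : negZ (a :: l) = -a :: negZ l := by simp [negZ]
    rw [this, ldot_cons, ldot_cons, ih]
    push_cast
    ring

@[simp] lemma length_padZ (N : ℕ) (v : List ℤ) : (padZ N v).length = N := by simp [padZ]
@[simp] lemma length_unitZ (N i : ℕ) : (unitZ N i).length = N := by simp [unitZ]
@[simp] lemma length_idZ (N : ℕ) : (idZ N).length = N := by simp [idZ]
@[simp] lemma length_negZ (v : List ℤ) : (negZ v).length = v.length := by simp [negZ]
@[simp] lemma length_mulVecZ (M : List (List ℤ)) (v : List ℤ) : (mulVecZ M v).length = M.length := by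
  simp [mulVecZ]

lemma getD_map_range {α : Type*} (f : ℕ → α) (N j : ℕ) (d : α) :
    ((List.range N).map f).getD j d = if j < N then f j else d := by
  by_cases h : j < N
  · simp [List.getD_eq_getElem?_getD, h]
  · simp [List.getD_eq_getElem?_getD, h]

lemma getD_padZ (N : ℕ) (v : List ℤ) (j : ℕ) :
    (padZ N v).getD j 0 = if j < N then v.getD j 0 else 0 := getD_map_range _ _ _ _

lemma getD_unitZ (N i j : ℕ) :
    (unitZ N i).getD j 0 = if j < N ∧ j = i then 1 else 0 := by
  rw [unitZ, getD_map_range]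
  by_cases h1 : j < N
  · by_cases h2 : j = i
    · rw [if_pos h1, if_pos h2, if_pos ⟨h1, h2⟩]
    · rw [if_pos h1, if_neg h2, if_neg (fun h => h2 h.2)]
  · rw [if_neg h1, if_neg (fun h => h1 h.1)]

lemma getD_negZ (v : List ℤ) (j : ℕ) : (negZ v).getD j 0 = - v.getD j 0 := by
  simp only [negZ, List.getD_eq_getElem?_getD, List.getElem?_map]
  cases v[j]? <;> simp

lemma getD_map {α β : Type*} (f : α → β) (l : List α) (j : ℕ) (d : α) (d' : β) (hj : j < l.length) :
    (l.map f).getD j d' = f (l.getD j d) := by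
  simp [List.getD_eq_getElem?_getD, hj]

lemma getD_mulVecZ (M : List (List ℤ)) (v : List ℤ) (i : ℕ) :
    (mulVecZ M v).getD i 0 = dotZ (M.getD i []) v := by
  simp only [mulVecZ, List.getD_eq_getElem?_getD, List.getElem?_map]
  cases M[i]? <;> simp

lemma getD_eq_zero {v : List ℤ} {j : ℕ} (h : v.length ≤ j) : v.getD j 0 = 0 := by
  simp [List.getD_eq_getElem?_getD, h]

lemma getD_mem {α : Type*} {l : List α} {j : ℕ} {d : α} (h : j < l.length) : l.getD j d ∈ l := by
  simp [List.getD_eq_getElem?_getD, h]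

lemma padZ_of_length {N : ℕ} {v : List ℤ} (h : v.length = N) : padZ N v = v := by
  apply List.ext_getElem
  · simp [h]
  · intro i h1 h2
    simp [padZ, List.getD_eq_getElem?_getD, h2]

lemma ldot_padZ (N : ℕ) (v : List ℤ) (x : ℕ → ℝ) :
    ldot (padZ N v) x = ∑ j : Fin N, ((v.getD j 0 : ℤ) : ℝ) * x j := by
  rw [ldot_eq_fin _ _ N (by simp)]
  refine Finset.sum_congr rfl fun j _ => ?_
  rw [getD_padZ, if_pos j.2]

lemma ldot_unitZ (N i : ℕ) (hi : i < N) (x : ℕ → ℝ) : ldot (unitZ N i) x = x i := by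
  rw [ldot_eq_sum _ _ N (by simp)]
  rw [Finset.sum_eq_single i]
  · rw [getD_unitZ, if_pos ⟨hi, rfl⟩]; simp
  · intro j _ hj
    rw [getD_unitZ, if_neg (fun h => hj h.2)]
    simp
  · intro h; exact absurd (Finset.mem_range.2 hi) h

/-- value of a linear form at an integer vector -/
lemma ldot_intVec (u v : List ℤ) : ldot u (fun j => ((v.getD j 0 : ℤ) : ℝ)) = (dotZ u v : ℝ) := by
  rw [dotZ_eq_sum u v _ (Or.inl le_rfl), ldot_eq_sum u _ _ le_rfl]
  push_cast
  rfl

end Pool.Agent.Simplex.QP
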