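import Pool.Agent.Lib.MP_4d246d_lc.QP.MaxSol

/-!
# Correctness of the linear programming solver
-/

namespace Pool.Agent.Simplex.QP

/-! ### Block vectors -/

/-- concatenation of block vectors -/
def cat (k : ℕ) (f g : ℕ → ℝ) : ℕ → ℝ := fun j => if j < k then f j else g (j - k)

/-- prepend a coordinate -/
def rcons (a : ℝ) (g : ℕ → ℝ) : ℕ → ℝ
  | 0 => a
  | j + 1 => g j

@[simp] lemma rcons_zero (a : ℝ) (g : ℕ → ℝ) : rcons a g 0 = a := rfl
@[simp] lemma rcons_succ (a : ℝ) (g : ℕ → ℝ) (j : ℕ) : rcons a g (j + 1) = g j := rfl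

lemma cat_lt {k : ℕ} {f g : ℕ → ℝ} {j : ℕ} (h : j < k) : cat k f g j = f j := if_pos h

@[simp] lemma cat_add (k : ℕ) (f g : ℕ → ℝ) (j : ℕ) : cat k f g (k + j) = g j := by
  rw [cat, if_neg (by omega)]
  congr 1
  omega

lemma ldot_append_cat (l1 l2 : List ℤ) (f g : ℕ → ℝ) {k : ℕ} (h : l1.length = k) :
    ldot (l1 ++ l2) (cat k f g) = ldot l1 f + ldot l2 g := by
  subst h
  rw [ldot_append]
  congr 1
  · exact ldot_congr _ fun j hj => cat_lt hj
  · exact ldot_congr _ fun j _ => cat_add _ _ _ _

lemma cat_nonneg {k m : ℕ} {f g : ℕ → ℝ} (hf : ∀ j < k, 0 ≤ f j) (hg : ∀ j < m, 0 ≤ g j) :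
    ∀ j < k + m, 0 ≤ cat k f g j := by
  intro j hj
  unfold cat
  split_ifs with h
  · exact hf j h
  · exact hg _ (by omega)

lemma rcons_nonneg {m : ℕ} {a : ℝ} {g : ℕ → ℝ} (ha : 0 ≤ a) (hg : ∀ j < m, 0 ≤ g j) :
    ∀ j < 1 + m, 0 ≤ rcons a g j := by
  intro j hj
  cases j with
  | zero => exact ha
  | succ j => exact hg j (by omega)

lemma ldot_map {α : Type*} (f : α → ℤ) (L : List α) (u : ℕ → ℝ) :
    ldot (L.map f) u = ∑ k : Fin L.length, (f (L.get k) : ℝ) * u k := by
  induction L generalizing u with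
  | nil => simp
  | cons a L ih =>
    rw [List.map_cons, ldot_cons, ih]
    exact (Fin.sum_univ_succ (n := L.length)
      (fun k : Fin (L.length + 1) => (f ((a :: L).get k) : ℝ) * u k)).symm

lemma ldot_padZ_rdot (n : ℕ) (a : List ℤ) (u : ℕ → ℝ) :
    ldot (padZ n a) u = rdot n a (fun j => u j) := ldot_padZ n a u

lemma rdot_sub (n : ℕ) (a : List ℤ) (x y : Fin n → ℝ) :
    rdot n a (fun j => x j - y j) = rdot n a x - rdot n a y := by
  unfold rdot
  rw [← Finset.sum_sub_distrib]
  exact Finset.sum_congr rfl fun j _ => by ring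

lemma rdot_div (n : ℕ) (a : List ℤ) (x : Fin n → ℝ) (d : ℝ) :
    rdot n a (fun j => x j / d) = rdot n a x / d := by
  unfold rdot
  rw [Finset.sum_div]
  exact Finset.sum_congr rfl fun j _ => by ring

/-- value of a primal row -/
lemma ldot_row1 (n : ℕ) (a : List ℤ) (b : ℤ) (t : List ℤ) (u : ℕ → ℝ) :
    ldot (padZ n a ++ (negZ (padZ n a) ++ (b :: t))) u =
      rdot n a (fun j => u j - u (n + j)) + (b : ℝ) * u (n + n) +
        ldot t (fun j => u (n + n + 1 + j)) := by
  rw [ldot_append, ldot_append, ldot_negZ, ldot_cons, ldot_padZ_rdot, ldot_padZ_rdot, rdot_sub]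
  simp only [length_padZ, length_negZ]
  have e : (fun j => u (n + (n + (j + 1)))) = fun j => u (n + n + 1 + j) := by
    funext j; congr 1; ring
  rw [e]
  have e2 : n + (n + 0) = n + n := by ring
  rw [e2]
  ring

/-- value of a dual row -/
lemma ldot_row2 (n m : ℕ) (b : ℤ) (l1 l2 l3 : List ℤ) (u : ℕ → ℝ) :
    ldot (List.replicate (n + n) 0 ++ (b :: (List.replicate m 0 ++ (l1 ++ (l2 ++ l3))))) u =
      (b : ℝ) * u (n + n) + ldot l1 (fun k => u (n + n + 1 + m + k)) +
        ldot l2 (fun k => u (n + n + 1 + m + l1.length + k)) +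
        ldot l3 (fun k => u (n + n + 1 + m + l1.length + l2.length + k)) := by
  simp only [ldot_append, ldot_cons, ldot_replicate_zero, List.length_replicate]
  have e1 : (fun j => u (n + n + (m + j + 1))) = fun j => u (n + n + 1 + m + j) := by
    funext j; congr 1; ring
  have e2 : (fun j => u (n + n + (m + (l1.length + j) + 1))) =
      fun j => u (n + n + 1 + m + l1.length + j) := by
    funext j; congr 1; ring
  have e3 : (fun j => u (n + n + (m + (l1.length + (l2.length + j)) + 1))) =
      fun j => u (n + n + 1 + m + l1.length + l2.length + j) := by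
    funext j; congr 1; ring
  rw [e1, e2, e3]
  simp only [add_zero]
  ring

/-- value of the gap row -/
lemma ldot_row3 (n m : ℕ) (a : List ℤ) (l1 l2 l3 : List ℤ) (u : ℕ → ℝ) :
    ldot (padZ n a ++ (negZ (padZ n a) ++ (0 :: (List.replicate m 0 ++ (l1 ++ (l2 ++ l3)))))) u =
      rdot n a (fun j => u j - u (n + j)) + ldot l1 (fun k => u (n + n + 1 + m + k)) +
        ldot l2 (fun k => u (n + n + 1 + m + l1.length + k)) +
        ldot l3 (fun k => u (n + n + 1 + m + l1.length + l2.length + k)) := by
  rw [ldot_row1]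
  simp only [ldot_append, ldot_replicate_zero, List.length_replicate]
  have e1 : (fun j => u (n + n + 1 + (m + j))) = fun j => u (n + n + 1 + m + j) := by
    funext j; congr 1; ring
  have e2 : (fun j => u (n + n + 1 + (m + (l1.length + j)))) =
      fun j => u (n + n + 1 + m + l1.length + j) := by
    funext j; congr 1; ring
  have e3 : (fun j => u (n + n + 1 + (m + (l1.length + (l2.length + j))))) =
      fun j => u (n + n + 1 + m + l1.length + l2.length + j) := by
    funext j; congr 1; ring
  rw [e1, e2, e3]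
  push_cast
  ring

/-! ### The two systems -/

lemma feasRows_iff (n : ℕ) (E I : List (List ℤ × ℤ)) (u : ℕ → ℝ) :
    (∀ r ∈ feasRows n E I, ldot r u = 0) ↔
      (∀ r ∈ E, rdot n r.1 (fun j => u j - u (n + j)) = r.2 * u (n + n)) ∧
      (∀ i : Fin I.length, rdot n (I.get i).1 (fun j => u j - u (n + j)) +
        u (n + n + 1 + i) = (I.get i).2 * u (n + n)) := by
  have hget : ∀ i : Fin I.length, I.getD i ([], 0) = I.get i := fun i => by
    simp [List.getD_eq_getElem?_getD]
  unfold feasRows
  constructor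
  · intro h
    refine ⟨fun r hr => ?_, fun i => ?_⟩
    · have h1 := h _ (List.mem_append_left _ (List.mem_map_of_mem hr))
      rw [ldot_row1, ldot_replicate_zero] at h1
      push_cast at h1
      linarith
    · have h1 := h _ (List.mem_append_right _ (List.mem_map_of_mem (List.mem_range.2 i.2)))
      rw [ldot_row1, ldot_unitZ _ _ i.2, hget] at h1
      push_cast at h1
      linarith
  · rintro ⟨h1, h2⟩ r hr
    rcases List.mem_append.1 hr with h | h
    · obtain ⟨s, hs, rfl⟩ := List.mem_map.1 h
      rw [ldot_row1, ldot_replicate_zero, h1 s hs]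
      push_cast
      ring
    · obtain ⟨i, hi, rfl⟩ := List.mem_map.1 h
      have hi' := List.mem_range.1 hi
      have h3 := h2 ⟨i, hi'⟩
      rw [ldot_row1, ldot_unitZ _ _ hi', hget ⟨i, hi'⟩]
      push_cast
      simp only at h3
      linarith

lemma length_feasRows (n : ℕ) (E I : List (List ℤ × ℤ)) :
    ∀ r ∈ feasRows n E I, r.length = n + n + 1 + I.length := by
  intro r hr
  unfold feasRows at hr
  rcases List.mem_append.1 hr with h | h
  · obtain ⟨s, _, rfl⟩ := List.mem_map.1 h
    simp only [List.length_append, length_padZ, length_negZ, List.length_cons,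
      List.length_replicate]
    ring
  · obtain ⟨i, _, rfl⟩ := List.mem_map.1 h
    simp only [List.length_append, length_padZ, length_negZ, List.length_cons, length_unitZ]
    ring

lemma length_pdRows (n : ℕ) (E I : List (List ℤ × ℤ)) (c : List ℤ) :
    ∀ r ∈ pdRows n E I c, r.length = n + n + 1 + I.length +
      (E.length + E.length + I.length) := by
  intro r hr
  unfold pdRows at hr
  rcases List.mem_append.1 hr with h | h
  · obtain ⟨s, hs, rfl⟩ := List.mem_map.1 h
    rw [List.length_append, length_feasRows n E I s hs, List.length_replicate]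
  · rcases List.mem_append.1 h with h | h
    · obtain ⟨i, _, rfl⟩ := List.mem_map.1 h
      simp only [List.length_append, length_negZ, List.length_cons, List.length_replicate,
        List.length_map]
      ring
    · rw [List.mem_singleton] at h
      subst h
      simp only [List.length_append, length_padZ, length_negZ, List.length_cons,
        List.length_replicate, List.length_map]
      ring

/-- the dual part of a block vector -/
def lamOf (n m e : ℕ) (u : ℕ → ℝ) (k : ℕ) : ℝ :=
  u (n + n + 1 + m + k) - u (n + n + 1 + m + e + k)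

/-- the dual part of a block vector -/
def muOf (n m e : ℕ) (u : ℕ → ℝ) (k : ℕ) : ℝ := u (n + n + 1 + m + e + e + k)

lemma pdRows_iff (n : ℕ) (E I : List (List ℤ × ℤ)) (c : List ℤ) (u : ℕ → ℝ) :
    (∀ r ∈ pdRows n E I c, ldot r u = 0) ↔
      (∀ r ∈ feasRows n E I, ldot r u = 0) ∧
      (∀ j : Fin n, ∑ k : Fin E.length, lamOf n I.length E.length u k *
          (((E.get k).1.getD j 0 : ℤ) : ℝ) +
        ∑ i : Fin I.length, muOf n I.length E.length u i * (((I.get i).1.getD j 0 : ℤ) : ℝ) =
        (c.getD j 0 : ℤ) * u (n + n)) ∧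
      rdot n c (fun j => u j - u (n + j)) =
        ∑ k : Fin E.length, lamOf n I.length E.length u k * (((E.get k).2 : ℤ) : ℝ) +
        ∑ i : Fin I.length, muOf n I.length E.length u i * (((I.get i).2 : ℤ) : ℝ) := by
  have hrow : ∀ r ∈ feasRows n E I,
      ldot (r ++ List.replicate (E.length + E.length + I.length) 0) u = ldot r u := by
    intro r _
    rw [ldot_append, ldot_replicate_zero, add_zero]
  have e2 : ∀ j : ℕ, ldot (List.replicate (n + n) 0 ++ (-(c.getD j 0) ::
      (List.replicate I.length 0 ++ (E.map (fun r => r.1.getD j 0) ++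
        (negZ (E.map (fun r => r.1.getD j 0)) ++ I.map (fun r => r.1.getD j 0)))))) u =
      -((c.getD j 0 : ℤ) * u (n + n)) + ∑ k : Fin E.length, lamOf n I.length E.length u k *
          (((E.get k).1.getD j 0 : ℤ) : ℝ) +
        ∑ i : Fin I.length, muOf n I.length E.length u i *
          (((I.get i).1.getD j 0 : ℤ) : ℝ) := by
    intro j
    rw [ldot_row2, ldot_negZ, ldot_map, ldot_map, ldot_map]
    simp only [length_negZ, List.length_map]
    have : ∑ k : Fin E.length, lamOf n I.length E.length u k *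
          (((E.get k).1.getD j 0 : ℤ) : ℝ) =
        ∑ k : Fin E.length, (((E.get k).1.getD j 0 : ℤ) : ℝ) * u (n + n + 1 + I.length + k) -
        ∑ k : Fin E.length, (((E.get k).1.getD j 0 : ℤ) : ℝ) *
          u (n + n + 1 + I.length + E.length + k) := by
      rw [← Finset.sum_sub_distrib]
      exact Finset.sum_congr rfl fun k _ => by unfold lamOf; ring
    rw [this]
    have : ∑ i : Fin I.length, muOf n I.length E.length u i *
          (((I.get i).1.getD j 0 : ℤ) : ℝ) =
        ∑ k : Fin I.length, (((I.get k).1.getD j 0 : ℤ) : ℝ) *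
          u (n + n + 1 + I.length + E.length + E.length + k) :=
      Finset.sum_congr rfl fun k _ => by unfold muOf; ring
    rw [this]
    push_cast
    ring
  have e3 : ldot (padZ n c ++ (negZ (padZ n c) ++ (0 :: (List.replicate I.length 0 ++
      (negZ (E.map (fun r => r.2)) ++ (E.map (fun r => r.2) ++
        negZ (I.map (fun r => r.2)))))))) u =
      rdot n c (fun j => u j - u (n + j)) -
        ∑ k : Fin E.length, lamOf n I.length E.length u k * (((E.get k).2 : ℤ) : ℝ) -
        ∑ i : Fin I.length, muOf n I.length E.length u i * (((I.get i).2 : ℤ) : ℝ) := by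
    rw [ldot_row3, ldot_negZ, ldot_negZ, ldot_map, ldot_map, ldot_map]
    simp only [length_negZ, List.length_map]
    have : ∑ k : Fin E.length, lamOf n I.length E.length u k * (((E.get k).2 : ℤ) : ℝ) =
        ∑ k : Fin E.length, (((E.get k).2 : ℤ) : ℝ) * u (n + n + 1 + I.length + k) -
        ∑ k : Fin E.length, (((E.get k).2 : ℤ) : ℝ) *
          u (n + n + 1 + I.length + E.length + k) := by
      rw [← Finset.sum_sub_distrib]
      exact Finset.sum_congr rfl fun k _ => by unfold lamOf; ring
    rw [this]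
    have : ∑ i : Fin I.length, muOf n I.length E.length u i * (((I.get i).2 : ℤ) : ℝ) =
        ∑ k : Fin I.length, (((I.get k).2 : ℤ) : ℝ) *
          u (n + n + 1 + I.length + E.length + E.length + k) :=
      Finset.sum_congr rfl fun k _ => by unfold muOf; ring
    rw [this]
    ring
  unfold pdRows
  constructor
  · intro h
    refine ⟨fun r hr => ?_, fun j => ?_, ?_⟩
    · rw [← hrow r hr]
      exact h _ (List.mem_append_left _ (List.mem_map_of_mem hr))
    · have h1 := h _ (List.mem_append_right _ (List.mem_append_left _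
        (List.mem_map_of_mem (List.mem_range.2 j.2))))
      rw [e2 j] at h1
      linarith
    · have h1 := h _ (List.mem_append_right _ (List.mem_append_right _
        (List.mem_singleton_self _)))
      rw [e3] at h1
      linarith
  · rintro ⟨h1, h2, h3⟩ r hr
    rcases List.mem_append.1 hr with h | h
    · obtain ⟨s, hs, rfl⟩ := List.mem_map.1 h
      rw [hrow s hs, h1 s hs]
    · rcases List.mem_append.1 h with h | h
      · obtain ⟨j, hj, rfl⟩ := List.mem_map.1 h
        rw [e2 j]
        have := h2 ⟨j, List.mem_range.1 hj⟩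
        simp only at this
        linarith
      · rw [List.mem_singleton] at h
        subst h
        rw [e3]
        linarith

/-! ### From a feasible point to a solution of the homogeneous systems -/

/-- extend a point by zeros -/
def ext0 (n : ℕ) (x : Fin n → ℝ) : ℕ → ℝ := fun j => if h : j < n then x ⟨j, h⟩ else 0

lemma ext0_fin {n : ℕ} (x : Fin n → ℝ) (j : Fin n) : ext0 n x j = x j := by simp [ext0, j.2]

/-- the block vector belonging to a primal point and an arbitrary tail -/
noncomputable def blockVec (n : ℕ) (I : List (List ℤ × ℤ)) (x : Fin n → ℝ) (w : ℕ → ℝ) : ℕ → ℝ :=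
  cat n (fun j => max (ext0 n x j) 0) (cat n (fun j => max (-(ext0 n x j)) 0)
    (rcons 1 (cat I.length
      (fun i => ((I.getD i ([], 0)).2 : ℝ) - rdot n (I.getD i ([], 0)).1 x) w)))

lemma blockVec_pq {n : ℕ} {I : List (List ℤ × ℤ)} (x : Fin n → ℝ) (w : ℕ → ℝ) (j : Fin n) :
    blockVec n I x w j - blockVec n I x w (n + j) = x j := by
  unfold blockVec
  rw [cat_lt j.2, cat_add, cat_lt j.2, ext0_fin]
  rcases le_total (x j) 0 with h | h
  · rw [max_eq_right h, max_eq_left (by linarith)]; ring
  · rw [max_eq_left h, max_eq_right (by linarith)]; ring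

lemma blockVec_tau {n : ℕ} {I : List (List ℤ × ℤ)} (x : Fin n → ℝ) (w : ℕ → ℝ) :
    blockVec n I x w (n + n) = 1 := by
  unfold blockVec
  rw [cat_add]
  have : n = n + 0 := rfl
  conv_lhs => rw [show cat n (fun j => max (-(ext0 n x j)) 0) _ n =
    cat n (fun j => max (-(ext0 n x j)) 0) (rcons 1 (cat I.length
      (fun i => ((I.getD i ([], 0)).2 : ℝ) - rdot n (I.getD i ([], 0)).1 x) w)) (n + 0) from rfl]
  rw [cat_add, rcons_zero]

lemma blockVec_tail {n : ℕ} {I : List (List ℤ × ℤ)} (x : Fin n → ℝ) (w : ℕ → ℝ) (j : ℕ) :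
    blockVec n I x w (n + n + 1 + j) = cat I.length
      (fun i => ((I.getD i ([], 0)).2 : ℝ) - rdot n (I.getD i ([], 0)).1 x) w j := by
  unfold blockVec
  rw [show n + n + 1 + j = n + (n + (j + 1)) by ring, cat_add, cat_add, rcons_succ]

lemma blockVec_slack {n : ℕ} {I : List (List ℤ × ℤ)} (x : Fin n → ℝ) (w : ℕ → ℝ)
    (i : Fin I.length) :
    blockVec n I x w (n + n + 1 + i) = ((I.get i).2 : ℝ) - rdot n (I.get i).1 x := by
  rw [blockVec_tail, cat_lt i.2]
  have hget : I.getD i ([], 0) = I.get i := by simp [List.getD_eq_getElem?_getD]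
  rw [hget]

lemma blockVec_feas {n : ℕ} {E I : List (List ℤ × ℤ)} {x : Fin n → ℝ} (hx : Sat n E I x)
    (w : ℕ → ℝ) : ∀ r ∈ feasRows n E I, ldot r (blockVec n I x w) = 0 := by
  rw [feasRows_iff]
  have e : (fun j : Fin n => blockVec n I x w j - blockVec n I x w (n + j)) = x := by
    funext j; exact blockVec_pq x w j
  refine ⟨fun r hr => ?_, fun i => ?_⟩
  · rw [e, blockVec_tau, mul_one]
    exact hx.1 r hr
  · rw [e, blockVec_tau, mul_one, blockVec_slack]
    ring

lemma blockVec_nonneg {n : ℕ} {E I : List (List ℤ × ℤ)} {x : Fin n → ℝ} (hx : Sat n E I x)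
    {w : ℕ → ℝ} {m : ℕ} (hw : ∀ j < m, 0 ≤ w j) :
    ∀ j < n + n + 1 + I.length + m, 0 ≤ blockVec n I x w j := by
  have h1 : ∀ j < n + (n + (1 + (I.length + m))), 0 ≤ blockVec n I x w j := by
    unfold blockVec
    refine cat_nonneg (fun j _ => le_max_right _ _) (cat_nonneg (fun j _ => le_max_right _ _)
      (rcons_nonneg zero_le_one (cat_nonneg (fun i hi => ?_) hw)))
    have := hx.2 (I.getD i ([], 0)) (getD_mem hi)
    linarith
  intro j hj
  exact h1 j (by omega)

lemma map_padZ {N : ℕ} {M : List (List ℤ)} (hM : ∀ r ∈ M, r.length = N) :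
    M.map (fun r => padZ N r) = M := by
  conv_rhs => rw [← List.map_id M]
  exact List.map_congr_left fun r hr => padZ_of_length (hM r hr)

section

variable (hproj : ∀ (N : ℕ) (rows : List (List ℤ)), (∀ r ∈ rows, r.length = N) →
    IsProj N rows (projZ N rows).1 (projZ N rows).2)

include hproj

theorem goodSol_maxSol {N : ℕ} {M : List (List ℤ)} (hM : ∀ r ∈ M, r.length = N) :
    GoodSol N M (maxSol N M) := by
  unfold maxSol
  rw [map_padZ hM]
  exact goodSol_maxSolCore hproj hM

omit hproj in
lemma GoodSol.isSol {N : ℕ} {M : List (List ℤ)} {v : List ℤ} (h : GoodSol N M v) :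
    IsSol N M (fun j => ((v.getD j 0 : ℤ) : ℝ)) :=
  ⟨fun j _ => by
    have := h.nonneg j
    show (0 : ℝ) ≤ ((v.getD j 0 : ℤ) : ℝ)
    exact_mod_cast this, fun r hr => by
    rw [ldot_intVec, h.sol r hr]; simp⟩

omit hproj in
/-- a solution of the homogeneous system with `tau > 0` gives a feasible point -/
lemma sat_of_feasRows {n : ℕ} {E I : List (List ℤ × ℤ)} {u : ℕ → ℝ}
    (h : ∀ r ∈ feasRows n E I, ldot r u = 0)
    (hnn : ∀ j < n + n + 1 + I.length, 0 ≤ u j) (ht : 0 < u (n + n)) :
    Sat n E I (fun j => (u j - u (n + j)) / u (n + n)) := by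
  rw [feasRows_iff] at h
  refine ⟨fun r hr => ?_, fun r hr => ?_⟩
  · rw [rdot_div, h.1 r hr]
    field_simp
  · obtain ⟨i, rfl⟩ := List.get_of_mem hr
    rw [rdot_div, div_le_iff₀ ht, ← h.2 i]
    have := hnn (n + n + 1 + i) (by omega)
    linarith

variable (hdual : ∀ {κ ι : Type} [Fintype κ] [Fintype ι] {n : ℕ} (Ae : κ → Fin n → ℝ)
    (be : κ → ℝ) (Ai : ι → Fin n → ℝ) (bi : ι → ℝ) (c : Fin n → ℝ)
    (x0 : Fin n → ℝ) (_h0e : ∀ k, ∑ j, Ae k j * x0 j = be k)
    (_h0i : ∀ i, ∑ j, Ai i j * x0 j ≤ bi i)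
    (M : ℝ) (_hM : ∀ x : Fin n → ℝ, (∀ k, ∑ j, Ae k j * x j = be k) →
      (∀ i, ∑ j, Ai i j * x j ≤ bi i) → ∑ j, c j * x j ≤ M),
    ∃ (x : Fin n → ℝ) (lam : κ → ℝ) (mu : ι → ℝ), (∀ k, ∑ j, Ae k j * x j = be k) ∧
      (∀ i, ∑ j, Ai i j * x j ≤ bi i) ∧ (∀ i, 0 ≤ mu i) ∧
      (∀ j, ∑ k, lam k * Ae k j + ∑ i, mu i * Ai i j = c j) ∧
      ∑ j, c j * x j = ∑ k, lam k * be k + ∑ i, mu i * bi i)

omit hproj in
/-- weak duality -/
lemma weak_duality {n : ℕ} {E I : List (List ℤ × ℤ)} {c : List ℤ} {lam : Fin E.length → ℝ}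
    {mu : Fin I.length → ℝ} (hmu : ∀ i, 0 ≤ mu i)
    (h : ∀ j : Fin n, ∑ k, lam k * (((E.get k).1.getD j 0 : ℤ) : ℝ) +
      ∑ i, mu i * (((I.get i).1.getD j 0 : ℤ) : ℝ) = (c.getD j 0 : ℤ)) {y : Fin n → ℝ}
    (hy : Sat n E I y) :
    rdot n c y ≤ ∑ k, lam k * ((E.get k).2 : ℝ) + ∑ i, mu i * ((I.get i).2 : ℝ) := by
  have e1 : rdot n c y = ∑ k, lam k * rdot n (E.get k).1 y + ∑ i, mu i * rdot n (I.get i).1 y := by
    have e2 : rdot n c y = ∑ j : Fin n, (∑ k, lam k * (((E.get k).1.getD j 0 : ℤ) : ℝ) +
        ∑ i, mu i * (((I.get i).1.getD j 0 : ℤ) : ℝ)) * y j := by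
      unfold rdot
      exact Finset.sum_congr rfl fun j _ => by rw [h j]
    rw [e2]
    simp only [add_mul, Finset.sum_add_distrib, Finset.sum_mul]
    congr 1
    · rw [Finset.sum_comm]
      refine Finset.sum_congr rfl fun k _ => ?_
      unfold rdot
      rw [Finset.mul_sum]
      exact Finset.sum_congr rfl fun j _ => by ring
    · rw [Finset.sum_comm]
      refine Finset.sum_congr rfl fun k _ => ?_
      unfold rdot
      rw [Finset.mul_sum]
      exact Finset.sum_congr rfl fun j _ => by ring
  rw [e1]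
  refine add_le_add (le_of_eq ?_) (Finset.sum_le_sum fun i _ => ?_)
  · refine Finset.sum_congr rfl fun k _ => ?_
    rw [hy.1 _ (List.get_mem _ _)]
  · exact mul_le_mul_of_nonneg_left (hy.2 _ (List.get_mem _ _)) (hmu i)

include hdual

theorem lpsolve_spec_aux (n : ℕ) (E I : List (List ℤ × ℤ)) (c : List ℤ) :
    match lpsolve n E I c with
    | .infeas => ¬ ∃ x, Sat n E I x
    | .unb => (∃ x, Sat n E I x) ∧ ∀ M : ℝ, ∃ x, Sat n E I x ∧ M < rdot n c x
    | .opt x d => 0 < d ∧ x.length = n ∧
        Sat n E I (fun j => ((x.getD j 0 : ℤ) : ℝ) / d) ∧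
        ∀ y, Sat n E I y → rdot n c y ≤ rdot n c (fun j => ((x.getD j 0 : ℤ) : ℝ) / d) := by
  have hv1 := goodSol_maxSol hproj (length_feasRows n E I)
  have hv2 := goodSol_maxSol hproj (length_pdRows n E I c)
  unfold lpsolve
  set v1 := maxSol (n + n + 1 + I.length) (feasRows n E I) with hv1def
  set v2 := maxSol (n + n + 1 + I.length + (E.length + E.length + I.length))
    (pdRows n E I c) with hv2def
  split_ifs with h1 h2
  · -- infeasible
    rintro ⟨x, hx⟩
    have h3 : IsSol (n + n + 1 + I.length) (feasRows n E I) (blockVec n I x (fun _ => 0)) :=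
      ⟨fun j hj => blockVec_nonneg (m := 0) hx (fun j hj => by omega) j (by omega),
        blockVec_feas hx _⟩
    have h4 := hv1.max _ h3 (n + n) (by omega) (by rw [blockVec_tau]; exact one_pos)
    omega
  · -- unbounded
    have hpos : 0 < v1.getD (n + n) 0 := lt_of_le_of_ne (hv1.nonneg _) (Ne.symm h1)
    have hfeas : ∃ x, Sat n E I x := by
      refine ⟨_, sat_of_feasRows (u := fun j => ((v1.getD j 0 : ℤ) : ℝ)) hv1.isSol.2
        hv1.isSol.1 (by exact_mod_cast hpos)⟩
    refine ⟨hfeas, fun M => ?_⟩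
    by_contra hcon
    push Not at hcon
    obtain ⟨x0, hx0⟩ := hfeas
    obtain ⟨x, lam, mu, hxe, hxi, hmu, hd, hg⟩ := hdual
      (fun (k : Fin E.length) (j : Fin n) => (((E.get k).1.getD j 0 : ℤ) : ℝ))
      (fun k => (((E.get k).2 : ℤ) : ℝ))
      (fun (k : Fin I.length) (j : Fin n) => (((I.get k).1.getD j 0 : ℤ) : ℝ))
      (fun k => (((I.get k).2 : ℤ) : ℝ)) (fun j => ((c.getD j 0 : ℤ) : ℝ)) x0
      (fun k => hx0.1 _ (List.get_mem _ _)) (fun k => hx0.2 _ (List.get_mem _ _)) M
      (fun y hye hyi => hcon y ⟨fun r hr => by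
        obtain ⟨k, rfl⟩ := List.get_of_mem hr
        exact hye k, fun r hr => by
        obtain ⟨k, rfl⟩ := List.get_of_mem hr
        exact hyi k⟩)
    have hx : Sat n E I x := ⟨fun r hr => by
        obtain ⟨k, rfl⟩ := List.get_of_mem hr
        exact hxe k, fun r hr => by
        obtain ⟨k, rfl⟩ := List.get_of_mem hr
        exact hxi k⟩
    let w : ℕ → ℝ := cat E.length (fun k => max (ext0 _ lam k) 0)
      (cat E.length (fun k => max (-(ext0 _ lam k)) 0) (fun k => ext0 _ mu k))
    have hw : ∀ j < E.length + E.length + I.length, 0 ≤ w j := by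
      intro j hj
      refine cat_nonneg (m := E.length + I.length) (fun j _ => le_max_right _ _)
        (cat_nonneg (fun j _ => le_max_right _ _) (fun j hj => ?_)) j (by omega)
      rw [show ext0 _ mu j = mu ⟨j, hj⟩ from ext0_fin mu ⟨j, hj⟩]
      exact hmu _
    have hlam : ∀ k : Fin E.length,
        lamOf n I.length E.length (blockVec n I x w) k = lam k := by
      intro k
      unfold lamOf
      rw [show n + n + 1 + I.length + (k : ℕ) = n + n + 1 + (I.length + k) by ring,
        show n + n + 1 + I.length + E.length + (k : ℕ) = n + n + 1 + (I.length + (E.length + k))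
          by ring, blockVec_tail, blockVec_tail, cat_add, cat_add]
      simp only [w]
      rw [cat_lt k.2, cat_add, cat_lt k.2, ext0_fin]
      rcases le_total (lam k) 0 with h | h
      · rw [max_eq_right h, max_eq_left (by linarith)]; ring
      · rw [max_eq_left h, max_eq_right (by linarith)]; ring
    have hmu' : ∀ k : Fin I.length,
        muOf n I.length E.length (blockVec n I x w) k = mu k := by
      intro k
      unfold muOf
      rw [show n + n + 1 + I.length + E.length + E.length + (k : ℕ) =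
        n + n + 1 + (I.length + (E.length + (E.length + k))) by ring, blockVec_tail, cat_add]
      simp only [w]
      rw [cat_add, cat_add, ext0_fin]
    have hpd : IsSol (n + n + 1 + I.length + (E.length + E.length + I.length)) (pdRows n E I c)
        (blockVec n I x w) := by
      refine ⟨blockVec_nonneg hx hw, ?_⟩
      rw [pdRows_iff]
      have e : (fun j : Fin n => blockVec n I x w j - blockVec n I x w (n + j)) = x := by
        funext j; exact blockVec_pq x w j
      refine ⟨blockVec_feas hx w, fun j => ?_, ?_⟩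
      · simp only [hlam, hmu', blockVec_tau, mul_one]
        exact hd j
      · simp only [hlam, hmu', e]
        exact hg
    have h4 := hv2.max _ hpd (n + n) (by omega) (by rw [blockVec_tau]; exact one_pos)
    omega
  · -- optimum
    have hpos : 0 < v2.getD (n + n) 0 := lt_of_le_of_ne (hv2.nonneg _) (Ne.symm h2)
    have hposR : (0 : ℝ) < ((v2.getD (n + n) 0 : ℤ) : ℝ) := by exact_mod_cast hpos
    have hsol := hv2.isSol
    obtain ⟨h3, h4⟩ := hsol
    rw [pdRows_iff] at h4
    obtain ⟨h4, h5, h6⟩ := h4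
    set u : ℕ → ℝ := fun j => ((v2.getD j 0 : ℤ) : ℝ) with hu
    have hS : Sat n E I (fun j => (u j - u (n + j)) / u (n + n)) :=
      sat_of_feasRows h4 (fun j hj => h3 j (by omega)) hposR
    have hpt : (fun j : Fin n => (((pointOf n v2).getD j 0 : ℤ) : ℝ) /
        ((v2.getD (n + n) 0 : ℤ) : ℝ)) = fun j : Fin n => (u j - u (n + j)) / u (n + n) := by
      funext j
      unfold pointOf
      rw [getD_map_range, if_pos j.2]
      simp only [hu]
      push_cast
      rfl
    refine ⟨hpos, by simp [pointOf], ?_, fun y hy => ?_⟩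
    · rw [hpt]; exact hS
    · rw [hpt, rdot_div, h6, add_div, Finset.sum_div, Finset.sum_div]
      have hw := weak_duality (n := n) (E := E) (I := I) (c := c)
        (lam := fun k => lamOf n I.length E.length u k / u (n + n))
        (mu := fun k => muOf n I.length E.length u k / u (n + n))
        (fun i => div_nonneg (h3 _ (by omega)) hposR.le)
        (fun j => by
          have h7 := h5 j
          have h8 : ((c.getD j 0 : ℤ) : ℝ) =
              ((c.getD j 0 : ℤ) : ℝ) * u (n + n) / u (n + n) := by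
            have : u (n + n) ≠ 0 := hposR.ne'
            field_simp
          rw [h8, ← h7, add_div, Finset.sum_div, Finset.sum_div]
          congr 1
          · exact Finset.sum_congr rfl fun k _ => by ring
          · exact Finset.sum_congr rfl fun k _ => by ring) hy
      refine hw.trans (le_of_eq ?_)
      congr 1
      · exact Finset.sum_congr rfl fun k _ => by ring
      · exact Finset.sum_congr rfl fun k _ => by ring

end

end Pool.Agent.Simplex.QP
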