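import Pool.Agent.Lib.MP_4d246d_lc.QP.Geom

/-! The pivoting machine, with an abstract LP oracle. -/

namespace Pool.Agent.Simplex.QP

/-- result of a linear program -/
inductive LRes (Pt : Type) : Type
  | infeas : LRes Pt
  | unb : LRes Pt
  | opt : Pt → LRes Pt

/-- what the machine can ask -/
structure Orc (Pt Vl : Type) where
  /-- number of constraints -/
  M : ℕ
  /-- is the constraint tight at the point? -/
  tt : Pt → ℕ → Bool
  /-- objective value -/
  obj : Pt → Vl
  /-- is the constraint linearly dependent on the constraints of the list? -/
  dep : List ℕ → ℕ → Bool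
  /-- linear program on the face with equalities `J` and inequalities `I` -/
  lp : List ℕ → List ℕ → LRes Pt

/-- status of the machine -/
inductive Status : Type
  | running : Status
  | optimal : Status
  | unbounded : Status
  deriving DecidableEq

/-- frames: equalities, inequalities, blocking constraints -/
abbrev Frame : Type := List ℕ × List ℕ × List ℕ

/-- equalities -/
abbrev Frame.J (f : Frame) : List ℕ := f.1
/-- inequalities -/
abbrev Frame.I (f : Frame) : List ℕ := f.2.1
/-- blocking constraints -/
abbrev Frame.B (f : Frame) : List ℕ := f.2.2

/-- states: current point, stack, status -/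
abbrev St (Pt : Type) : Type := Pt × List Frame × Status

variable {Pt Vl : Type} (o : Orc Pt Vl) (vle : Vl → Vl → Bool)

/-- comparison of keys, `none` being infinite -/
def kle (a b : Option Vl × ℕ) : Bool :=
  match a.1, b.1 with
  | _, none => true
  | none, some _ => false
  | some u, some v => vle u v

/-- the key of constraint `i`, if it is active at `x` -/
def keyOf (x : Pt) (J I : List ℕ) (i : ℕ) : Option (Option Vl × ℕ) :=
  match o.lp (i :: J) I with
  | .infeas => none
  | .unb => some (none, i)
  | .opt y => if vle (o.obj y) (o.obj x) then none else some (some (o.obj y), i)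

/-- the active constraints at `x`, with their tops -/
def active (x : Pt) (J I : List ℕ) : List (Option Vl × ℕ) := I.filterMap (keyOf o vle x J I)

/-- is `x` optimal? -/
def isOpt (x : Pt) (J I : List ℕ) : Bool :=
  match o.lp J I with
  | .opt y => vle (o.obj y) (o.obj x)
  | _ => false

/-- the face frame of constraint `i` -/
def face (i : ℕ) (f : Frame) : Frame := (i :: f.J, f.I.filter (fun j => !o.dep (i :: f.J) j), [])

/-- one step of the search for the outermost blocking frame -/
def popStep (y : Pt) (f : Frame) (s : List Frame × Option (List Frame)) :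
    List Frame × Option (List Frame) :=
  (f :: s.1, match s.2 with
    | some st => some st
    | none => match f.B.find? (o.tt y), s.1 with
      | some i, p :: r => some (face o i p :: p :: r)
      | _, _ => none)

/-- pop to the outermost frame with a constraint of `B` tight at `y`, and enter the face -/
def popTo (y : Pt) (st : List Frame) : List Frame :=
  ((st.foldr (popStep o y) ([], none)).2).getD st

/-- active constraints sorted by their tops -/
def sorted (x : Pt) (J I : List ℕ) : List (Option Vl × ℕ) :=
  (active o vle x J I).insertionSort (fun a b => kle vle a b = true)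

/-- lower half of the active constraints -/
def lowH (x : Pt) (J I : List ℕ) : List ℕ :=
  ((sorted o vle x J I).take ((sorted o vle x J I).length / 2)).map Prod.snd

/-- upper half of the active constraints -/
def upH (x : Pt) (J I : List ℕ) : List ℕ :=
  ((sorted o vle x J I).drop ((sorted o vle x J I).length / 2)).map Prod.snd

/-- the relaxed frame: the upper half of the active constraints is dropped -/
def relax (x : Pt) (f : Frame) : Frame :=
  (f.J, f.I.filter (fun i => o.tt x i || decide (i ∈ lowH o vle x f.J f.I)), upH o vle x f.J f.I)

/-- one step of the machine -/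
def step (s : St Pt) : St Pt :=
  match s.2.2, s.2.1 with
  | .running, f :: rest =>
    if (active o vle s.1 f.J f.I).length = 0 then
      if isOpt o vle s.1 f.J f.I then
        match rest with
        | [] => (s.1, f :: rest, .optimal)
        | _ => (s.1, rest, .running)
      else
        match o.lp f.J (List.range o.M) with
        | .opt y => (y, popTo o y (f :: rest), .running)
        | _ => (s.1, f :: rest, .unbounded)
    else
      match (upH o vle s.1 f.J f.I).find? (o.tt s.1) with
      | some i => (s.1, face o i f :: f :: rest, .running)
      | none => (s.1, relax o vle s.1 f :: f :: rest, .running)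
  | _, _ => s

/-- the objective order is a total preorder on values -/
structure VOrd : Prop where
  total : ∀ a b : Vl, vle a b = true ∨ vle b a = true
  trans : ∀ a b c : Vl, vle a b = true → vle b c = true → vle a c = true

/-- Linear dependence. -/
def Sys.Dep {E : Type*} [AddCommGroup E] [Module ℝ E] (S : Sys E) (J : List ℕ) (i : ℕ) : Prop :=
  ∀ q, (∀ j ∈ J, S.ln j q = 0) → S.ln i q = 0

/-- The oracle answers correctly; `Ok` are the well-formed points. -/
structure Spec {E : Type*} [AddCommGroup E] [Module ℝ E] (S : Sys E) (val : Pt → E) : Prop where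
  tt : ∀ p i, i < o.M → (o.tt p i = true ↔ S.sl i (val p) = 0)
  dep : ∀ J i, (∀ j ∈ J, j < o.M) → i < o.M → (o.dep J i = true ↔ S.Dep J i)
  vle : ∀ p q, (vle (o.obj p) (o.obj q) = true ↔ S.c (val p) ≤ S.c (val q))
  infeas : ∀ J I, (∀ i ∈ J, i < o.M) → (∀ i ∈ I, i < o.M) → o.lp J I = .infeas → S.Q J I = ∅
  unb : ∀ J I, (∀ i ∈ J, i < o.M) → (∀ i ∈ I, i < o.M) → o.lp J I = .unb →
    ∀ r : ℝ, ∃ y ∈ S.Q J I, r < S.c y
  opt : ∀ J I p, (∀ i ∈ J, i < o.M) → (∀ i ∈ I, i < o.M) → o.lp J I = .opt p →
    val p ∈ S.Q J I ∧ ∀ y ∈ S.Q J I, S.c y ≤ S.c (val p)

end Pool.Agent.Simplex.QP
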