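import Pool.Agent.Lib.MP_4d246d_lc.QP.Percep
import Pool.Agent.Lib.MP_4d246d_lc.QP.LowerBd

/-!
# Correctness of the solver for homogeneous systems
-/

namespace Pool.Agent.Simplex.QP

open Matrix

/-- nonnegative real solution of the homogeneous system -/
def IsSol (N : ℕ) (M : List (List ℤ)) (x : ℕ → ℝ) : Prop :=
  (∀ j < N, 0 ≤ x j) ∧ ∀ r ∈ M, ldot r x = 0

/-- what the solver guarantees -/
structure GoodSol (N : ℕ) (M : List (List ℤ)) (v : List ℤ) : Prop where
  len : v.length = N
  nonneg : ∀ j, 0 ≤ v.getD j 0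
  sol : ∀ r ∈ M, dotZ r v = 0
  max : ∀ y : ℕ → ℝ, IsSol N M y → ∀ j < N, 0 < y j → 0 < v.getD j 0

/-- invariant of the rescaling loop -/
structure CInv (N K : ℕ) (M : List (List ℤ)) (c : List (Option ℕ)) : Prop where
  len : c.length = N
  le : ∀ j e, c.getD j none = some e → e ≤ K
  removed : ∀ x, IsSol N M x → (∀ j < N, x j ≤ 1) → ∀ j < N, c.getD j none = none → x j = 0
  active : ∀ x, IsSol N M x → (∀ j < N, x j ≤ 1) → ∀ j < N, ∀ e, c.getD j none = some e →
    x j * 2 ^ e ≤ 1

/-- potential of a coordinate -/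
def potc (K : ℕ) (o : Option ℕ) : ℕ := match o with
  | none => K + 1
  | some e => e

/-- potential -/
def pot (N K : ℕ) (c : List (Option ℕ)) : ℕ := ∑ j : Fin N, potc K (c.getD j none)

lemma isSol_smul {N : ℕ} {M : List (List ℤ)} {x : ℕ → ℝ} (h : IsSol N M x) {a : ℝ} (ha : 0 ≤ a) :
    IsSol N M (fun j => a * x j) :=
  ⟨fun j hj => mul_nonneg ha (h.1 j hj), fun r hr => by rw [ldot_smul, h.2 r hr, mul_zero]⟩

lemma isSol_normalise {N : ℕ} {M : List (List ℤ)} {x : ℕ → ℝ} (h : IsSol N M x) :
    ∃ a : ℝ, 0 < a ∧ IsSol N M (fun j => a * x j) ∧ ∀ j < N, a * x j ≤ 1 := by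
  have hs : 0 ≤ ∑ j ∈ Finset.range N, x j :=
    Finset.sum_nonneg fun j hj => h.1 j (Finset.mem_range.1 hj)
  have hpos : 0 < 1 + ∑ j ∈ Finset.range N, x j := by linarith
  refine ⟨(1 + ∑ j ∈ Finset.range N, x j)⁻¹, inv_pos.2 hpos, isSol_smul h (inv_pos.2 hpos).le,
    fun j hj => ?_⟩
  rw [inv_mul_le_iff₀ hpos, mul_one]
  have : x j ≤ ∑ j ∈ Finset.range N, x j :=
    Finset.single_le_sum (f := x) (fun i hi => h.1 i (Finset.mem_range.1 hi))
      (Finset.mem_range.2 hj)
  linarith

lemma getD_zipWith (f : Option ℕ → ℤ → ℤ) (c : List (Option ℕ)) (r : List ℤ) (j : ℕ)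
    (h1 : j < c.length) (h2 : j < r.length) :
    (List.zipWith f c r).getD j 0 = f (c.getD j none) (r.getD j 0) := by
  simp [List.getD_eq_getElem?_getD, h1, h2]

lemma getD_scaleRow {N K : ℕ} {c : List (Option ℕ)} {r : List ℤ} (hc : c.length = N)
    (hr : r.length = N) (j : ℕ) :
    (scaleRow K c r).getD j 0 = scaleOf K (c.getD j none) * r.getD j 0 := by
  by_cases hj : j < N
  · exact getD_zipWith _ _ _ _ (by omega) (by omega)
  · rw [getD_eq_zero (v := r) (by omega), mul_zero, getD_eq_zero]
    rw [scaleRow, List.length_zipWith]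
    omega

lemma length_scaleRow {N K : ℕ} {c : List (Option ℕ)} {r : List ℤ} (hc : c.length = N)
    (hr : r.length = N) : (scaleRow K c r).length = N := by
  rw [scaleRow, List.length_zipWith]
  omega

lemma length_phaseRows {N K : ℕ} {c : List (Option ℕ)} {M : List (List ℤ)} (hc : c.length = N)
    (hM : ∀ r ∈ M, r.length = N) : ∀ r ∈ phaseRows N K c M, r.length = N := by
  intro r hr
  rcases List.mem_append.1 hr with h | h
  · obtain ⟨i, _, rfl⟩ := List.mem_map.1 h
    simp
  · obtain ⟨s, hs, rfl⟩ := List.mem_map.1 h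
    exact length_scaleRow hc (hM s hs)

/-- scaled coordinate -/
noncomputable def scl (c : List (Option ℕ)) (x : ℕ → ℝ) (j : ℕ) : ℝ :=
  match c.getD j none with
  | none => x j
  | some e => x j * 2 ^ e

lemma phase_kernel {N K : ℕ} {c : List (Option ℕ)} {M : List (List ℤ)} (h : CInv N K M c)
    (hM : ∀ r ∈ M, r.length = N) {x : ℕ → ℝ} (hx : IsSol N M x) (hx1 : ∀ j < N, x j ≤ 1) :
    ∀ r ∈ phaseRows N K c M, ldot r (scl c x) = 0 := by
  intro r hr
  rcases List.mem_append.1 hr with h1 | h1
  · obtain ⟨i, hi, rfl⟩ := List.mem_map.1 h1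
    rw [List.mem_filter, List.mem_range] at hi
    rw [ldot_unitZ _ _ hi.1]
    have h2 : c.getD i none = none := by
      have := hi.2
      rwa [Option.isNone_iff_eq_none] at this
    rw [scl, h2]
    exact h.removed x hx hx1 i hi.1 h2
  · obtain ⟨s, hs, rfl⟩ := List.mem_map.1 h1
    rw [ldot_eq_sum _ _ N (length_scaleRow h.len (hM s hs)).le]
    have e1 : ∀ j ∈ Finset.range N, (((scaleRow K c s).getD j 0 : ℤ) : ℝ) * scl c x j =
        2 ^ K * (((s.getD j 0 : ℤ) : ℝ) * x j) := by
      intro j hj
      have hj' := Finset.mem_range.1 hj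
      rw [getD_scaleRow h.len (hM s hs), scl]
      rcases hc : c.getD j none with _ | e
      · rw [h.removed x hx hx1 j hj' hc]
        simp
      · have he := h.le j e hc
        simp only [scaleOf]
        push_cast
        have : (2 : ℝ) ^ K = 2 ^ (K - e) * 2 ^ e := by rw [← pow_add]; congr 1; omega
        rw [this]
        ring
    rw [Finset.sum_congr rfl e1, ← Finset.mul_sum, ← ldot_eq_sum _ _ N (hM s hs).le,
      hx.2 s hs, mul_zero]

lemma sum_potc_set {N : ℕ} (K : ℕ) {c : List (Option ℕ)} (hc : c.length = N) {k : ℕ} (hk : k < N)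
    (o : Option ℕ) (ho : potc K o = potc K (c.getD k none) + 1) :
    pot N K (c.set k o) = pot N K c + 1 := by
  unfold pot
  rw [← Finset.add_sum_erase _ _ (Finset.mem_univ (⟨k, hk⟩ : Fin N)),
    ← Finset.add_sum_erase _ (fun j : Fin N => potc K (c.getD j none))
      (Finset.mem_univ (⟨k, hk⟩ : Fin N))]
  have e1 : ∑ j ∈ Finset.univ.erase (⟨k, hk⟩ : Fin N), potc K ((c.set k o).getD j none) =
      ∑ j ∈ Finset.univ.erase (⟨k, hk⟩ : Fin N), potc K (c.getD j none) := by
    refine Finset.sum_congr rfl fun j hj => ?_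
    rw [getD_set _ _ _ _ _ (by omega), if_neg]
    intro h
    exact (Finset.mem_erase.1 hj).1 (Fin.ext h)
  rw [e1]
  have e2 : potc K ((c.set k o).getD k none) = potc K (c.getD k none) + 1 := by
    rw [getD_set _ _ _ _ _ (by omega), if_pos rfl, ho]
  simp only [e2]
  omega

lemma pot_le {N K : ℕ} {M : List (List ℤ)} {c : List (Option ℕ)} (h : CInv N K M c) :
    pot N K c ≤ N * (K + 1) := by
  unfold pot
  calc ∑ j : Fin N, potc K (c.getD j none) ≤ ∑ _j : Fin N, (K + 1) := by
        refine Finset.sum_le_sum fun j _ => ?_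
        rcases hc : c.getD j none with _ | e
        · exact le_rfl
        · have := h.le j e hc
          simp only [potc]
          omega
    _ = N * (K + 1) := by simp

section

variable (hproj : ∀ (N : ℕ) (rows : List (List ℤ)), (∀ r ∈ rows, r.length = N) →
    IsProj N rows (projZ N rows).1 (projZ N rows).2)

include hproj

lemma phase_spec {N K : ℕ} {c : List (Option ℕ)} {M : List (List ℤ)} (h : CInv N K M c)
    (hM : ∀ r ∈ M, r.length = N)
    (hK : ∀ x, IsSol N M x → ∀ j < N, 0 < x j → ∃ y, IsSol N M y ∧ (∀ j < N, y j ≤ 1) ∧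
      1 ≤ y j * 2 ^ K) :
    (∃ v, phase N K M (c, none) = (c, some v) ∧ GoodSol N M v) ∨
    (∃ c', phase N K M (c, none) = (c', none) ∧ CInv N K M c' ∧ pot N K c' = pot N K c + 1) := by
  have hlen := length_phaseRows (K := K) h.len hM
  have hP := hproj N (phaseRows N K c M) hlen
  set D := (projZ N (phaseRows N K c M)).1 with hD
  set P := (projZ N (phaseRows N K c M)).2 with hPdef
  have hY := percInv_iter hP h.len (4 * N ^ 3)
  have hphase : phase N K M (c, none) = phaseEnd N K c (phaseY N c P) (mulVecZ P (phaseY N c P)) :=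
    rfl
  rw [hphase]
  have hYdef : phaseY N c P = (fun Y => percStep c P Y)^[4 * N ^ 3] (List.replicate N 0) := rfl
  rw [← hYdef] at hY
  generalize phaseY N c P = Y at hY ⊢
  obtain ⟨hY1, hY2, hY3, hY4⟩ := hY
  unfold phaseEnd
  rcases hb : badIdx c (mulVecZ P Y) with _ | b
  · left
    refine ⟨_, rfl, ?_⟩
    have hz : (mulVecZ P Y).length = N := by rw [length_mulVecZ, hP.len]
    rw [badIdx_eq_none] at hb
    refine ⟨length_scaleRow h.len hz, fun j => ?_, fun r hr => ?_, fun y hy j hj hyj => ?_⟩
    · rw [getD_scaleRow h.len hz]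
      rcases hc : c.getD j none with _ | e
      · simp [scaleOf]
      · have hj : j < c.length := by
          by_contra hcon
          simp [List.getD_eq_getElem?_getD, List.getElem?_eq_none (not_lt.1 hcon)] at hc
        have := hb j hj (by rw [hc]; rfl)
        simp only [scaleOf]
        positivity
    · have e1 : dotZ r (scaleRow K c (mulVecZ P Y)) = dotZ (scaleRow K c r) (mulVecZ P Y) := by
        rw [dotZ_eq_sum _ _ N (Or.inl (hM r hr).le),
          dotZ_eq_sum _ _ N (Or.inr hz.le)]
        refine Finset.sum_congr rfl fun j _ => ?_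
        rw [getD_scaleRow h.len hz, getD_scaleRow h.len (hM r hr)]
        ring
      rw [e1]
      exact hP.ldot_row_zero hlen (List.mem_append_right _ (List.mem_map_of_mem hr)) Y hY1
    · rw [getD_scaleRow h.len hz]
      obtain ⟨a, ha, ha1, ha2⟩ := isSol_normalise hy
      rcases hc : c.getD j none with _ | e
      · have := h.removed _ ha1 ha2 j hj hc
        have : y j = 0 := by
          rcases mul_eq_zero.1 this with h1 | h1
          · exact absurd h1 ha.ne'
          · exact h1
        exact absurd this hyj.ne'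
      · have := hb j (by rw [h.len]; exact hj) (by rw [hc]; rfl)
        simp only [scaleOf]
        positivity
  · right
    obtain ⟨hb1, -, -⟩ := badIdx_eq_some hb
    rw [hb] at hY4
    obtain ⟨hsum, hnorm⟩ := hY4.resolve_left (by simp)
    have hN : 0 < N := by rw [h.len] at hb1; omega
    -- a heavy index exists
    rcases hh : heavyIdx N Y with _ | k
    · exfalso
      unfold heavyIdx at hh
      rw [List.find?_eq_none] at hh
      have h1 : ∀ j : Fin N, Y.getD j 0 < 4 * (N : ℤ) ^ 2 := fun j => by
        have := hh j (List.mem_range.2 j.2)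
        simpa using this
      have h2 : ∑ j : Fin N, Y.getD j 0 < ∑ _j : Fin N, 4 * (N : ℤ) ^ 2 := by
        apply Finset.sum_lt_sum_of_nonempty
        · exact ⟨⟨0, hN⟩, Finset.mem_univ _⟩
        · intro j _
          exact h1 j
      rw [hsum] at h2
      simp at h2
      have : (N : ℤ) * (4 * (N : ℤ) ^ 2) = 4 * (N : ℤ) ^ 3 := by ring
      omega
    · unfold heavyIdx at hh
      have hk1 := List.find?_some hh
      have hk2 := List.mem_range.1 (List.mem_of_find?_eq_some hh)
      simp only [decide_eq_true_eq] at hk1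
      have hYk : 0 < Y.getD k 0 := by
        have : 0 < 4 * (N : ℤ) ^ 2 := by positivity
        omega
      obtain ⟨e, he⟩ : ∃ e, c.getD k none = some e := by
        rcases hc : c.getD k none with _ | e
        · rw [hY3 k hc] at hYk
          exact absurd hYk (lt_irrefl _)
        · exact ⟨e, rfl⟩
      have heK := h.le k e he
      -- the cut
      have hcut : ∀ x, IsSol N M x → (∀ j < N, x j ≤ 1) → x k * 2 ^ (e + 1) ≤ 1 := by
        intro x hx hx1
        have hker := phase_kernel h hM hx hx1
        have h3 := cut hP.transpose (vecOf N Y)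
          (fun i => by simp only [vecOf]; exact_mod_cast hY2 i)
          (by
            refine hnorm.trans ?_
            push_cast
            exact le_rfl) ⟨k, hk2⟩ (by simp only [vecOf]; exact_mod_cast hk1)
          (fun i => scl c x i)
          (fun i => by
            rw [scl]
            rcases c.getD i none with _ | e'
            · exact hx.1 i i.2
            · exact mul_nonneg (hx.1 i i.2) (by positivity))
          (fun i => by
            rw [scl]
            rcases hci : c.getD i none with _ | e'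
            · exact hx1 i i.2
            · exact h.active x hx hx1 i i.2 e' hci)
          (hP.fix_fin hker)
        simp only [scl, he] at h3
        rw [pow_succ]
        linarith
      refine ⟨_, rfl, ⟨by simp [h.len], ?_, ?_, ?_⟩, ?_⟩
      · intro j e' hj
        rw [getD_set _ _ _ _ _ (by rw [h.len]; exact hk2)] at hj
        split_ifs at hj with h1
        · rw [he] at hj
          simp only [bump] at hj
          split_ifs at hj with h2
          simp only [Option.some.injEq] at hj
          omega
        · exact h.le j e' hj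
      · intro x hx hx1 j hj hcj
        rw [getD_set _ _ _ _ _ (by rw [h.len]; exact hk2)] at hcj
        split_ifs at hcj with h1
        · subst h1
          rw [he] at hcj
          simp only [bump] at hcj
          split_ifs at hcj with h2
          by_contra hne
          have hpos : 0 < x j := lt_of_le_of_ne (hx.1 j hj) (Ne.symm hne)
          obtain ⟨y, hy, hy1, hyj⟩ := hK x hx j hj hpos
          have h4 := hcut y hy hy1
          have h5 : e = K := by omega
          subst h5
          rw [pow_succ] at h4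
          linarith
        · exact h.removed x hx hx1 j hj hcj
      · intro x hx hx1 j hj e' hcj
        rw [getD_set _ _ _ _ _ (by rw [h.len]; exact hk2)] at hcj
        split_ifs at hcj with h1
        · subst h1
          rw [he] at hcj
          simp only [bump] at hcj
          split_ifs at hcj with h2
          simp only [Option.some.injEq] at hcj
          subst hcj
          exact hcut x hx hx1
        · exact h.active x hx hx1 j hj e' hcj
      · apply sum_potc_set K h.len hk2
        rw [he]
        simp only [bump]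
        split_ifs with h2
        · rfl
        · simp only [potc]
          omega

lemma phase_iter {N K : ℕ} {M : List (List ℤ)} (hM : ∀ r ∈ M, r.length = N)
    (hK : ∀ x, IsSol N M x → ∀ j < N, 0 < x j → ∃ y, IsSol N M y ∧ (∀ j < N, y j ≤ 1) ∧
      1 ≤ y j * 2 ^ K) (t : ℕ) :
    (∃ c v, (fun st => phase N K M st)^[t] (List.replicate N (some 0), none) = (c, some v) ∧
      GoodSol N M v) ∨
    (∃ c, (fun st => phase N K M st)^[t] (List.replicate N (some 0), none) = (c, none) ∧
      CInv N K M c ∧ pot N K c = t) := by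
  induction t with
  | zero =>
    right
    have h0 : ∀ j < N, (List.replicate N (some 0) : List (Option ℕ)).getD j none = some 0 := by
      intro j hj
      simp [List.getD_eq_getElem?_getD, hj]
    have h1 : ∀ j, ¬ j < N → (List.replicate N (some 0) : List (Option ℕ)).getD j none = none := by
      intro j hj
      rw [List.getD_eq_getElem?_getD, List.getElem?_replicate, if_neg hj]
      rfl
    refine ⟨_, rfl, ⟨by simp, ?_, ?_, ?_⟩, ?_⟩
    · intro j e hj
      by_cases hjN : j < N
      · rw [h0 j hjN] at hj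
        simp only [Option.some.injEq] at hj
        omega
      · rw [h1 j hjN] at hj
        simp at hj
    · intro x _ _ j hj hc
      rw [h0 j hj] at hc
      simp at hc
    · intro x _ hx1 j hj e hc
      rw [h0 j hj] at hc
      simp only [Option.some.injEq] at hc
      subst hc
      simpa using hx1 j hj
    · unfold pot
      refine Finset.sum_eq_zero fun j _ => ?_
      rw [h0 j j.2]
      rfl
  | succ t ih =>
    simp only [Function.iterate_succ_apply']
    rcases ih with ⟨c, v, h1, h2⟩ | ⟨c, h1, h2, h3⟩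
    · left
      refine ⟨c, v, ?_, h2⟩
      rw [h1]
      rfl
    · rw [h1]
      rcases phase_spec hproj h2 hM hK with ⟨v, h4, h5⟩ | ⟨c', h4, h5, h6⟩
      · left
        exact ⟨c, v, h4, h5⟩
      · right
        exact ⟨c', h4, h5, by omega⟩

omit hproj in
lemma sumSq_eq {N : ℕ} {M : List (List ℤ)} (hM : ∀ r ∈ M, r.length = N) :
    sumSq M = sqSum (fun (i : Fin M.length) (j : Fin N) => (M.get i).getD j 0) := by
  unfold sumSq sqSum
  have e1 : ∀ r ∈ M, dotZ r r = ∑ j : Fin N, r.getD j 0 ^ 2 := by
    intro r hr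
    rw [dotZ_eq_fin _ _ N (Or.inl (hM r hr).le)]
    exact Finset.sum_congr rfl fun j _ => by ring
  rw [List.map_congr_left e1]
  clear e1 hM
  induction M with
  | nil => simp
  | cons r M ih =>
    rw [List.map_cons, List.sum_cons, ih]
    exact (Fin.sum_univ_succ (n := M.length)
      (fun i : Fin (M.length + 1) => ∑ j : Fin N, ((r :: M).get i).getD (j : ℕ) 0 ^ 2)).symm

omit hproj in
lemma hK_kBound {N : ℕ} {M : List (List ℤ)} (hM : ∀ r ∈ M, r.length = N) :
    ∀ x, IsSol N M x → ∀ j < N, 0 < x j → ∃ y, IsSol N M y ∧ (∀ j < N, y j ≤ 1) ∧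
      1 ≤ y j * 2 ^ (kBound N M) := by
  intro x hx j hj hxj
  let A : Fin M.length → Fin N → ℤ := fun i j => (M.get i).getD j 0
  have hA : ∀ (u : ℕ → ℝ) (i : Fin M.length),
      ldot (M.get i) u = ∑ j : Fin N, (A i j : ℝ) * u j := fun u i =>
    ldot_eq_fin _ _ N (hM _ (List.get_mem _ _)).le
  have h1 : RSol A (fun j : Fin N => x j) :=
    ⟨fun j => hx.1 j j.2, fun i => by rw [← hA x i, hx.2 _ (List.get_mem _ _)]⟩
  obtain ⟨y, hy1, hy2, hy3⟩ := exists_large (k := ⟨j, hj⟩) h1 hxj
  let y' : ℕ → ℝ := fun i => if h : i < N then y ⟨i, h⟩ else 0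
  have hy' : ∀ i : Fin N, y' i = y i := fun i => by simp [y', i.2]
  refine ⟨y', ⟨fun i hi => ?_, fun r hr => ?_⟩, fun i hi => ?_, ?_⟩
  · rw [show y' i = y ⟨i, hi⟩ from hy' ⟨i, hi⟩]; exact hy1.1 _
  · obtain ⟨i, rfl⟩ := List.get_of_mem hr
    rw [hA]
    simp only [hy']
    exact hy1.2 i
  · rw [show y' i = y ⟨i, hi⟩ from hy' ⟨i, hi⟩]; exact hy2 _
  · rw [show y' j = y ⟨j, hj⟩ from hy' ⟨j, hj⟩]
    refine hy3.trans (mul_le_mul_of_nonneg_left ?_ (hy1.1 _))
    have hs0 := sqSum_nonneg (A := A)
    have hs : sumSq M = sqSum A := sumSq_eq hM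
    have h2 : (N.factorial : ℝ) ≤ (2 ^ Nat.size N) ^ N := by
      have h3 : N.factorial ≤ N ^ N := Nat.factorial_le_pow N
      have h4 : N ≤ 2 ^ Nat.size N := (Nat.lt_size_self N).le
      have h5 : N.factorial ≤ (2 ^ Nat.size N) ^ N := h3.trans (Nat.pow_le_pow_left h4 N)
      exact_mod_cast h5
    have h6 : ((sqSum A : ℝ) + 1) ^ N ≤ (2 ^ Nat.size ((sumSq M).natAbs + 1)) ^ N := by
      have h7 : (sumSq M).natAbs + 1 ≤ 2 ^ Nat.size ((sumSq M).natAbs + 1) :=
        (Nat.lt_size_self _).le
      have h8 : ((sqSum A : ℝ) + 1) = (((sumSq M).natAbs + 1 : ℕ) : ℝ) := by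
        push_cast
        rw [hs]
        congr 1
        rw [Nat.cast_natAbs, abs_of_nonneg hs0]
      rw [h8]
      have h9 : ((sumSq M).natAbs + 1) ^ N ≤ (2 ^ Nat.size ((sumSq M).natAbs + 1)) ^ N :=
        Nat.pow_le_pow_left h7 N
      exact_mod_cast h9
    calc (N.factorial : ℝ) * ((sqSum A : ℝ) + 1) ^ N
        ≤ (2 ^ Nat.size N) ^ N * (2 ^ Nat.size ((sumSq M).natAbs + 1)) ^ N := by
          apply mul_le_mul h2 h6 _ (by positivity)
          have : (0 : ℝ) ≤ sqSum A := by exact_mod_cast hs0
          positivity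
      _ = 2 ^ kBound N M := by
          unfold kBound
          rw [← pow_mul, ← pow_mul, ← pow_add]
          congr 1
          ring

theorem goodSol_maxSolCore {N : ℕ} {M : List (List ℤ)} (hM : ∀ r ∈ M, r.length = N) :
    GoodSol N M (maxSolCore N M) := by
  unfold maxSolCore
  rcases phase_iter hproj hM (hK_kBound hM) (N * (kBound N M + 1) + 1) with
    ⟨c, v, h1, h2⟩ | ⟨c, h1, h2, h3⟩
  · rw [h1]
    exact h2
  · exfalso
    have := pot_le h2
    omega

end

end Pool.Agent.Simplex.QP
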