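import Pool.Agent.Lib.MP_4d246d_lc.QP.Act

/-! The effect of the steps of the machine. -/

namespace Pool.Agent.Simplex.QP

variable {Pt Vl : Type} {o : Orc Pt Vl} {vle : Vl → Vl → Bool}
variable {E : Type*} [AddCommGroup E] [Module ℝ E] {S : Sys E} {val : Pt → E}

theorem popStep_fst (y : Pt) (st : List Frame) :
    (st.foldr (popStep o y) ([], none)).1 = st := by
  induction st with
  | nil => rfl
  | cons f r ih => rw [List.foldr_cons]; show f :: _ = _; rw [ih]

/-- The result of the search for the outermost blocking frame. -/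
theorem popStep_snd {M : ℕ} {x : E} (y : Pt) (f : Frame) (r : List Frame)
    (h : Chain S M x (f :: r)) :
    (((f :: r).foldr (popStep o y) ([], none)).2 = none ∧
      ∀ g ∈ f :: r, ∀ i ∈ g.B, o.tt y i = false) ∨
    ∃ pre g p r' i, f :: r = pre ++ g :: p :: r' ∧ i ∈ g.B ∧ o.tt y i = true ∧
      (∀ h ∈ p :: r', ∀ j ∈ h.B, o.tt y j = false) ∧
      ((f :: r).foldr (popStep o y) ([], none)).2 = some (face o i p :: p :: r') := by
  induction r generalizing f with
  | nil =>
    left
    refine ⟨?_, fun g hg i hi => ?_⟩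
    · rw [List.foldr_cons, List.foldr_nil]
      simp only [popStep]
      cases List.find? (o.tt y) f.B <;> rfl
    · rw [List.mem_singleton] at hg
      subst hg
      rw [h.1] at hi; simp at hi
  | cons p r ih =>
    rcases ih p h.2 with ⟨h1, h2⟩ | ⟨pre, g, p', r', i, h1, h2, h3, h4, h5⟩
    · rw [List.foldr_cons]
      have hfst := popStep_fst (o := o) y (p :: r)
      cases hf : f.B.find? (o.tt y) with
      | none =>
        left
        refine ⟨?_, fun g hg i hi => ?_⟩
        · show (match ((p :: r).foldr (popStep o y) ([], none)).2 with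
            | some st => some st
            | none => match f.B.find? (o.tt y), ((p :: r).foldr (popStep o y) ([], none)).1 with
              | some i, p :: r => some (face o i p :: p :: r)
              | _, _ => none) = none
          rw [h1, hf]
        · rcases List.mem_cons.1 hg with rfl | hg
          · have := List.find?_eq_none.1 hf i hi
            simpa using this
          · exact h2 g hg i hi
      | some i =>
        right
        refine ⟨[], f, p, r, i, rfl, List.mem_of_find?_eq_some hf, List.find?_some hf,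
          fun g hg j hj => h2 g hg j hj, ?_⟩
        show (match ((p :: r).foldr (popStep o y) ([], none)).2 with
            | some st => some st
            | none => match f.B.find? (o.tt y), ((p :: r).foldr (popStep o y) ([], none)).1 with
              | some i, p :: r => some (face o i p :: p :: r)
              | _, _ => none) = _
        rw [h1, hf, hfst]
    · right
      refine ⟨f :: pre, g, p', r', i, by rw [h1]; rfl, h2, h3, h4, ?_⟩
      rw [List.foldr_cons]
      show (match ((p :: r).foldr (popStep o y) ([], none)).2 with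
            | some st => some st
            | none => _) = _
      rw [h5]

theorem popTo_spec {M : ℕ} {x : E} {y : Pt} {f : Frame} {r : List Frame}
    (h : Chain S M x (f :: r)) (hex : ∃ g ∈ f :: r, ∃ i ∈ g.B, o.tt y i = true) :
    ∃ pre g p r' i, f :: r = pre ++ g :: p :: r' ∧ i ∈ g.B ∧ o.tt y i = true ∧
      (∀ h ∈ p :: r', ∀ j ∈ h.B, o.tt y j = false) ∧
      popTo o y (f :: r) = face o i p :: p :: r' := by
  rcases popStep_snd (o := o) y f r h with ⟨_, h2⟩ | ⟨pre, g, p, r', i, h1, h2, h3, h4, h5⟩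
  · obtain ⟨g, hg, i, hi, hit⟩ := hex
    rw [h2 g hg i hi] at hit
    simp at hit
  · exact ⟨pre, g, p, r', i, h1, h2, h3, h4, by unfold popTo; rw [h5]; rfl⟩

/-- Suffixes of chains. -/
theorem Chain.suffix {M : ℕ} {x : E} {pre : List Frame} {g : Frame} {r : List Frame}
    (h : Chain S M x (pre ++ g :: r)) : Chain S M x (g :: r) := by
  induction pre with
  | nil => exact h
  | cons a pre ih =>
    cases pre with
    | nil => exact h.2
    | cons b pre => exact ih h.2

/-- Push a relaxed frame. -/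
theorem Good.relax (ho : Spec o vle S val) {x : Pt} {f : Frame} {r : List Frame}
    (h : Good S o.M (val x) f r) (hne : (active o vle x f.J f.I).length ≠ 0)
    (hnt : ∀ i ∈ upH o vle x f.J f.I, o.tt x i = false) :
    Good S o.M (val x) (QP.relax o vle x f) (f :: r) := by
  obtain ⟨hIM, hJM, hnd, hdep⟩ := h.chain.basic
  have hmem : ∀ j, j ∈ (QP.relax o vle x f).I ↔
      j ∈ f.I ∧ (S.sl j (val x) = 0 ∨ j ∈ lowH o vle x f.J f.I) := by
    intro j
    show j ∈ f.I.filter _ ↔ _
    rw [List.mem_filter]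
    simp only [Bool.or_eq_true, decide_eq_true_eq]
    constructor
    · rintro ⟨h1, h2⟩
      exact ⟨h1, h2.imp_left fun h => (ho.tt x j (hIM j h1)).1 h⟩
    · rintro ⟨h1, h2⟩
      exact ⟨h1, h2.imp_left fun h => (ho.tt x j (hIM j h1)).2 h⟩
  have hup : ∀ i ∈ upH o vle x f.J f.I, i ∈ f.I ∧ S.sl i (val x) ≠ 0 := by
    intro i hi
    have h1 := ((mem_actI ho hJM hIM).1 (mem_halves.2 (Or.inr hi))).1
    refine ⟨h1, fun h0 => ?_⟩
    have := (ho.tt x i (hIM i h1)).2 h0
    rw [hnt i hi] at this
    simp at this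
  refine ⟨⟨⟨fun j hj => hj, ?_, ?_, hup, hnd.filter _, fun i hi => hdep i ((hmem i).1 hi).1, ?_⟩,
    h.chain⟩, h.mem, ?_⟩
  · rintro j (hj | hj)
    · exact Or.inl hj
    · exact Or.inr ((hmem j).1 hj).1
  · intro i hi
    by_cases h1 : i ∈ (QP.relax o vle x f).I
    · exact Or.inl h1
    · by_cases h2 : i ∈ upH o vle x f.J f.I
      · exact Or.inr (Or.inr (Or.inl h2))
      · have h3 : ¬ (S.sl i (val x) = 0 ∨ i ∈ lowH o vle x f.J f.I) := fun h => h1 ((hmem i).2 ⟨hi, h⟩)
        push Not at h3
        refine Or.inr (Or.inr (Or.inr ⟨h3.1, inactive ho hJM hIM hi fun h4 => ?_⟩))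
        rcases mem_halves.1 h4 with h5 | h5
        · exact h3.2 h5
        · exact h2 h5
  · obtain ⟨i, hi⟩ : ∃ i, i ∈ upH o vle x f.J f.I := by
      apply List.exists_mem_of_length_pos
      rw [length_upH]; omega
    show (f.I.filter _).length < f.I.length
    refine List.length_filter_lt_length_iff_exists.2 ⟨i, (hup i hi).1, ?_⟩
    simp only [Bool.or_eq_true, decide_eq_true_eq, hnt i hi]
    intro hc
    rcases hc with hc | hc
    · simp at hc
    · exact halves_disj hnd hc hi
  · intro q hq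
    apply h.vx
    rintro i (hi | hi) h0
    · exact hq i (Or.inl hi) h0
    · exact hq i (Or.inr ((hmem i).2 ⟨hi, Or.inl h0⟩)) h0

/-- Facts about a vertex at which no constraint is active and which is not optimal. -/
theorem Good.ray (ho : Spec o vle S val) {x : Pt} {f : Frame} {r : List Frame}
    (h : Good S o.M (val x) f r) (hact : (active o vle x f.J f.I).length = 0)
    (hopt : isOpt o vle x f.J f.I = false) :
    ∃ z, S.One f.J z ∧ 0 < S.c z ∧ (∀ i ∈ f.I, 0 ≤ S.ln i z) ∧
      (∀ i < o.M, S.sl i (val x) = 0 → 0 ≤ S.ln i z) := by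
  obtain ⟨hIM, hJM, hnd, hdep⟩ := h.chain.basic
  have hno : ¬ ∀ z ∈ S.Q f.J f.I, S.c z ≤ S.c (val x) := by
    intro h1
    rw [(isOpt_iff ho hJM hIM h.memQ).2 h1] at hopt
    simp at hopt
  push Not at hno
  obtain ⟨y, hy, hlt⟩ := hno
  obtain ⟨h1, h2, h3⟩ := S.ray_of_inactive h.memQ h.vx hy hlt fun i hi =>
    inactive ho hJM hIM hi (active_nil hact i)
  refine ⟨y - val x, h1, h2, h3, fun i hi h0 => ?_⟩
  rcases h.chain.cover rfl hi with h4 | h4 | ⟨g, hg, h4⟩ | ⟨h4, _⟩
  · exact h3 i h4
  · rw [h4 _ h1.1]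
  · exfalso
    obtain ⟨pre, r', hsplit⟩ := List.append_of_mem hg
    have hc := h.chain
    rw [hsplit] at hc
    exact (hc.suffix.B_lt i h4).2 h0
  · exact absurd h0 h4

/-- Moving to the end of an edge. -/
theorem Good.move (ho : Spec o vle S val) {x y : Pt} {f : Frame} {r : List Frame}
    (h : Good S o.M (val x) f r) (hact : (active o vle x f.J f.I).length = 0)
    (hopt : isOpt o vle x f.J f.I = false) (hy : o.lp f.J (List.range o.M) = .opt y) :
    ∃ pre g p r' i, f :: r = pre ++ g :: p :: r' ∧ i ∈ g.B ∧ S.sl i (val y) = 0 ∧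
      popTo o y (f :: r) = QP.face o i p :: p :: r' ∧ Good S o.M (val y) (QP.face o i p) (p :: r') ∧
      S.c (val x) < S.c (val y) ∧
      ∃ (z : E) (t : ℝ), S.One f.J z ∧ 0 < S.c z ∧ 0 < t ∧ val y = val x + t • z := by
  obtain ⟨z, h1, h2, h3, h4⟩ := h.ray ho hact hopt
  obtain ⟨hIM, hJM, hnd, hdep⟩ := h.chain.basic
  obtain ⟨hy1, hy2⟩ := ho.opt _ _ _ hJM (fun i hi => List.mem_range.1 hi) hy
  obtain ⟨t, ht, hyt, k, hk, hk0, hkz⟩ := S.line_opt h.mem h1 h2
    (fun i hi h0 => h4 i (List.mem_range.1 hi) h0) hy1 hy2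
  have hlt : S.c (val x) < S.c (val y) := by
    rw [hyt, map_add, map_smul, smul_eq_mul]
    have := mul_pos ht h2
    linarith
  have hkM := List.mem_range.1 hk
  -- a blocking constraint is hit
  have hhit : ∃ g ∈ f :: r, ∃ i ∈ g.B, o.tt y i = true := by
    rcases h.chain.cover rfl hkM with h5 | h5 | ⟨g, hg, h5⟩ | ⟨_, p, hp, h5⟩
    · exact absurd (h3 k h5) (not_le.2 hkz)
    · rw [h5 _ h1.1] at hkz; exact absurd hkz (lt_irrefl _)
    · exact ⟨g, hg, k, h5, (ho.tt y k hkM).2 hk0⟩
    · exfalso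
      obtain ⟨b1, b2, b3, b4⟩ := h.chain.below p (List.mem_cons_of_mem _ hp)
      have : val y ∈ S.Q p.J p.I :=
        ⟨fun j hj => hy1.1 j (b1 j hj), fun i hi => hy1.2 i (List.mem_range.2 (b3 i hi))⟩
      exact absurd (h5 _ this hk0) (not_le.2 hlt)
  obtain ⟨pre, g, p, r', i, e1, e2, e3, e4, e5⟩ := popTo_spec (S := S) h.chain hhit
  have hgc : Chain S o.M (val x) (g :: p :: r') := by
    have := h.chain
    rw [e1] at this
    exact this.suffix
  have hiM : i < o.M := (hgc.B_lt i e2).1
  have hi0 : S.sl i (val y) = 0 := (ho.tt y i hiM).1 e3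
  have hip := hgc.1.hB i e2
  have hpmem : p ∈ f :: r := by rw [e1]; simp
  obtain ⟨b1, b2, b3, b4⟩ := h.chain.below p hpmem
  have hyp : val y ∈ S.Q p.J (List.range o.M) := ⟨fun j hj => hy1.1 j (b1 j hj), hy1.2⟩
  have hpc : Chain S o.M (val y) (p :: r') := by
    refine hgc.2.mono hlt hyp fun h' hh' j hj h0 => ?_
    have hjM : j < o.M := by
      obtain ⟨pre', r'', hsplit⟩ := List.append_of_mem hh'
      have hc := hgc.2
      rw [hsplit] at hc
      exact (hc.suffix.B_lt j hj).1
    have := (ho.tt y j hjM).2 h0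
    rw [e4 h' hh' j hj] at this
    simp at this
  refine ⟨pre, g, p, r', i, e1, e2, hi0, e5, Good.face ho hpc hyp hip.1 hi0 ?_, hlt, z, t, h1, h2, ht, hyt⟩
  intro q hq
  obtain ⟨s, rfl⟩ := h1.2 q fun j hj => by
    have h0 : S.sl j (val y) = 0 := hy1.1 j hj
    exact hq j (b2 j (Or.inl hj)) h0
  have hiz : S.ln i z ≠ 0 := by
    intro h0
    have := hi0
    rw [hyt, S.smul_add, h0, mul_zero, add_zero] at this
    exact hip.2 this
  have := hq i (Or.inr hip.1) hi0
  rw [map_smul, smul_eq_mul] at this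
  rcases mul_eq_zero.1 this with h0 | h0
  · rw [h0, zero_smul]
  · exact absurd h0 hiz

end Pool.Agent.Simplex.QP
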