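import Pool.Agent.Lib.MP_4d246d_lc.QP.Big

/-! One pivot per call: the rule `next`. -/

namespace Pool.Agent.Simplex.QP

variable {Pt Vl : Type} [DecidableEq Pt] {o : Orc Pt Vl} {vle : Vl → Vl → Bool}
variable {E : Type*} [AddCommGroup E] [Module ℝ E] {S : Sys E} {val : Pt → E}

/-- run until the point or the status changes -/
def runB (o : Orc Pt Vl) (vle : Vl → Vl → Bool) : ℕ → St Pt → St Pt
  | 0, s => s
  | b + 1, s => if (step o vle s).2.2 = .running ∧ (step o vle s).1 = s.1 then
      runB o vle b (step o vle s) else step o vle s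

/-- one pivot -/
def next (o : Orc Pt Vl) (vle : Vl → Vl → Bool) (s : St Pt) : St Pt :=
  runB o vle (2 * o.M + 2) s

/-- improving edges, in terms of tight constraints -/
def EStep (S : Sys E) (M : ℕ) (x y : E) : Prop :=
  ∃ (J : List ℕ) (z : E) (t : ℝ), (∀ j ∈ J, j < M) ∧ S.One J z ∧ x ∈ S.Q J (List.range M) ∧
    y ∈ S.Q J (List.range M) ∧ 0 < S.c z ∧ 0 < t ∧ y = x + t • z ∧
    S.Vx (fun i => i < M) x ∧ S.Vx (fun i => i < M) y

/-- unbounded improving edges of the face `J0`, in terms of tight constraints -/
def RStep (S : Sys E) (M : ℕ) (J0 : List ℕ) (x : E) : Prop :=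
  ∃ (J : List ℕ) (z : E), (∀ j ∈ J, j < M) ∧ (∀ j ∈ J0, j ∈ J) ∧ S.One J z ∧
    x ∈ S.Q J (List.range M) ∧ 0 < S.c z ∧ (∀ i < M, 0 ≤ S.ln i z) ∧ S.Vx (fun i => i < M) x

/-- good states -/
inductive GoodS (o : Orc Pt Vl) (vle : Vl → Vl → Bool) (S : Sys E) (val : Pt → E) (f₀ : Frame) :
    St Pt → Prop
  | run (x : Pt) (f : Frame) (r : List Frame) : Good S o.M (val x) f r →
      (f :: r).getLast? = some f₀ → GoodS o vle S val f₀ (x, f :: r, .running)
  | opt (x : Pt) : Good S o.M (val x) f₀ [] → (∀ z ∈ S.Q f₀.J f₀.I, S.c z ≤ S.c (val x)) →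
      GoodS o vle S val f₀ (x, [f₀], .optimal)
  | unb (x : Pt) (f : Frame) (r : List Frame) : Good S o.M (val x) f r →
      RStep S o.M f₀.J (val x) → GoodS o vle S val f₀ (x, f :: r, .unbounded)

theorem Good.vxM {M : ℕ} {x : E} {f : Frame} {r : List Frame} (h : Good S M x f r) :
    S.Vx (fun i => i < M) x := by
  intro q hq
  apply h.vx
  rintro i (hi | hi) h0
  · exact hq i (h.chain.basic.2.1 i hi) h0
  · exact hq i (h.chain.basic.1 i hi) h0

omit [DecidableEq Pt] in
/-- One step preserves goodness; a change of the point is an improving edge. -/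
theorem step_good (ho : Spec o vle S val) {f₀ : Frame} {s : St Pt}
    (h : GoodS o vle S val f₀ s) : GoodS o vle S val f₀ (step o vle s) ∧
      ((step o vle s).1 = s.1 ∨ EStep S o.M (val s.1) (val (step o vle s).1) ∧
        (step o vle s).2.2 = .running) := by
  cases h with
  | opt x h1 h2 => exact ⟨GoodS.opt x h1 h2, Or.inl rfl⟩
  | unb x f r h1 h2 => exact ⟨GoodS.unb x f r h1 h2, Or.inl rfl⟩
  | run x f r hG hlast =>
    obtain ⟨hIM, hJM, hnd, hdep⟩ := hG.chain.basic
    by_cases h0 : (active o vle x f.J f.I).length = 0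
    · cases hopt : isOpt o vle x f.J f.I with
      | true =>
        cases r with
        | nil =>
          rw [step_fin h0 hopt]
          have hf : f = f₀ := by simpa using hlast
          subst hf
          exact ⟨GoodS.opt x hG ((isOpt_iff ho hJM hIM hG.memQ).1 hopt), Or.inl rfl⟩
        | cons p r =>
          rw [step_pop h0 hopt]
          exact ⟨GoodS.run x p r hG.pop (by simpa using hlast), Or.inl rfl⟩
      | false =>
        rcases hG.lp_cases ho with hl | ⟨y, hl⟩
        · rw [step_unb h0 hopt hl]
          obtain ⟨z, h1, h2, h3, h4⟩ := hG.ray ho h0 hopt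
          have hu := S.line_unb hG.mem h1 h2 (ho.unb _ _ hJM (fun i hi => List.mem_range.1 hi) hl)
          have hf₀ : f₀ ∈ f :: r := List.mem_of_getLast? hlast
          exact ⟨GoodS.unb x f r hG ⟨f.J, z, hJM, (hG.chain.below f₀ hf₀).1, h1, hG.mem, h2,
            fun i hi => hu i (List.mem_range.2 hi), hG.vxM⟩, Or.inl rfl⟩
        · obtain ⟨pre, g, p, r', i, e1, e2, e3, e4, e5, e6, z, t, e7, e8, e9, e10⟩ :=
            hG.move ho h0 hopt hl
          rw [step_move h0 hopt hl, e4]
          obtain ⟨hy1, hy2⟩ := ho.opt _ _ _ hJM (fun i hi => List.mem_range.1 hi) hl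
          refine ⟨GoodS.run y _ _ e5 ?_, Or.inr ⟨⟨f.J, z, t, hJM, e7, hG.mem, hy1, e8, e9, e10,
            hG.vxM, e5.vxM⟩, rfl⟩⟩
          rw [e1, List.getLast?_append_cons] at hlast
          rw [List.getLast?_cons_cons] at hlast ⊢
          exact hlast
    · cases hf : (upH o vle x f.J f.I).find? (o.tt x) with
      | some i =>
        have hi := List.mem_of_find?_eq_some hf
        have hit := List.find?_some hf
        have hiI := ((mem_actI ho hJM hIM).1 (mem_halves.2 (Or.inr hi))).1
        have hi0 := (ho.tt x i (hIM i hiI)).1 hit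
        rw [step_face h0 hf]
        exact ⟨GoodS.run x _ _ (Good.face ho hG.chain hG.mem hiI hi0 fun q hq => hG.vx q hq)
          (by rw [List.getLast?_cons_cons]; exact hlast), Or.inl rfl⟩
      | none =>
        have hnt : ∀ i ∈ upH o vle x f.J f.I, o.tt x i = false := by
          intro i hi
          have := List.find?_eq_none.1 hf i hi
          simpa using this
        rw [step_relax h0 hf]
        exact ⟨GoodS.run x _ _ (hG.relax ho h0 hnt)
          (by rw [List.getLast?_cons_cons]; exact hlast), Or.inl rfl⟩

omit [DecidableEq Pt] in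
theorem Chain.depth {M : ℕ} {x : E} {f : Frame} {r : List Frame} (h : Chain S M x (f :: r)) :
    f.I.length + r.length ≤ M := by
  induction r generalizing f with
  | nil =>
    have h1 := h.basic
    have h2 : f.I.length ≤ (List.range M).length :=
      len_le h1.2.2.1 fun i hi => List.mem_range.2 (h1.1 i hi)
    simpa using h2
  | cons p r ih =>
    have h1 := ih h.2
    have h2 := h.1.hlen
    simp only [List.length_cons]
    omega

/-- The pushes end after at most `|I| + 1` steps. -/
theorem stops_of_not_opt (ho : Spec o vle S val) : ∀ (n : ℕ) (x : Pt) (f : Frame)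
    (r : List Frame), Good S o.M (val x) f r → f.I.length ≤ n →
      (∃ z ∈ S.Q f.J f.I, S.c (val x) < S.c z) → ∀ b, n + 1 ≤ b →
      (runB o vle b (x, f :: r, .running)).2.2 ≠ .running ∨
      (runB o vle b (x, f :: r, .running)).1 ≠ x := by
  intro n
  induction n with
  | zero =>
    intro x f r hG hn hz b hb
    obtain ⟨hIM, hJM, hnd, hdep⟩ := hG.chain.basic
    obtain ⟨b', rfl⟩ : ∃ b', b = b' + 1 := ⟨b - 1, by omega⟩
    have h0 : (active o vle x f.J f.I).length = 0 := by
      have := length_active_le (o := o) (vle := vle) x f.J f.I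
      omega
    have hopt : isOpt o vle x f.J f.I = false := by
      cases h : isOpt o vle x f.J f.I with
      | false => rfl
      | true =>
        obtain ⟨z, hz1, hz2⟩ := hz
        have := (isOpt_iff ho hJM hIM hG.memQ).1 h z hz1
        linarith
    rcases hG.lp_cases ho with hl | ⟨y, hl⟩
    · left
      simp only [runB, step_unb h0 hopt hl]
      simp
    · right
      obtain ⟨_, _, _, _, _, _, _, _, _, _, e6, _⟩ := hG.move ho h0 hopt hl
      have hne : y ≠ x := by rintro rfl; exact lt_irrefl _ e6
      simp only [runB, step_move h0 hopt hl]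
      simp [hne]
  | succ n ih =>
    intro x f r hG hn hz b hb
    obtain ⟨hIM, hJM, hnd, hdep⟩ := hG.chain.basic
    obtain ⟨b', rfl⟩ : ∃ b', b = b' + 1 := ⟨b - 1, by omega⟩
    by_cases h0 : (active o vle x f.J f.I).length = 0
    · have hopt : isOpt o vle x f.J f.I = false := by
        cases h : isOpt o vle x f.J f.I with
        | false => rfl
        | true =>
          obtain ⟨z, hz1, hz2⟩ := hz
          have := (isOpt_iff ho hJM hIM hG.memQ).1 h z hz1
          linarith
      rcases hG.lp_cases ho with hl | ⟨y, hl⟩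
      · left
        simp only [runB, step_unb h0 hopt hl]
        simp
      · right
        obtain ⟨_, _, _, _, _, _, _, _, _, _, e6, _⟩ := hG.move ho h0 hopt hl
        have hne : y ≠ x := by rintro rfl; exact lt_irrefl _ e6
        simp only [runB, step_move h0 hopt hl]
        simp [hne]
    · cases hf : (upH o vle x f.J f.I).find? (o.tt x) with
      | some i =>
        have hi := List.mem_of_find?_eq_some hf
        have hit := List.find?_some hf
        obtain ⟨hiI, z, hz1, hz2⟩ := (mem_actI ho hJM hIM).1 (mem_halves.2 (Or.inr hi))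
        have hi0 := (ho.tt x i (hIM i hiI)).1 hit
        have hG' := Good.face ho hG.chain hG.mem hiI hi0 fun q hq => hG.vx q hq
        simp only [runB, step_face h0 hf]
        simp only [and_self, if_true]
        refine ih x _ _ hG' ?_ ⟨z, ⟨hz1.1, fun j hj => hz1.2 j
          ((mem_face_I ho hJM hIM (hIM i hiI) j).1 hj).1⟩, hz2⟩ b' (by omega)
        have := hG'.chain.1.hlen
        omega
      | none =>
        have hnt : ∀ i ∈ upH o vle x f.J f.I, o.tt x i = false := by
          intro i hi
          have := List.find?_eq_none.1 hf i hi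
          simpa using this
        have hG' := hG.relax ho h0 hnt
        simp only [runB, step_relax h0 hf]
        simp only [and_self, if_true]
        obtain ⟨z, hz1, hz2⟩ := hz
        refine ih x _ _ hG' ?_ ⟨z, ⟨hz1.1, fun j hj => hz1.2 j (List.mem_filter.1 hj).1⟩, hz2⟩
          b' (by omega)
        have := hG'.chain.1.hlen
        omega

/-- Every call of `next` on a running state changes the point or the status. -/
theorem stops (ho : Spec o vle S val) : ∀ (r : List Frame) (x : Pt) (f : Frame),
    Good S o.M (val x) f r → ∀ b, r.length + o.M + 2 ≤ b →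
      (runB o vle b (x, f :: r, .running)).2.2 ≠ .running ∨
      (runB o vle b (x, f :: r, .running)).1 ≠ x := by
  intro r
  induction r with
  | nil =>
    intro x f hG b hb
    obtain ⟨hIM, hJM, hnd, hdep⟩ := hG.chain.basic
    by_cases hz : ∃ z ∈ S.Q f.J f.I, S.c (val x) < S.c z
    · have := hG.chain.depth
      exact stops_of_not_opt ho o.M x f [] hG (by simpa using this) hz b (by omega)
    · push Not at hz
      obtain ⟨h0, hopt⟩ := opt_active ho hG hz
      obtain ⟨b', rfl⟩ : ∃ b', b = b' + 1 := ⟨b - 1, by omega⟩
      left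
      simp only [runB, step_fin h0 hopt]
      simp
  | cons p r ih =>
    intro x f hG b hb
    obtain ⟨hIM, hJM, hnd, hdep⟩ := hG.chain.basic
    by_cases hz : ∃ z ∈ S.Q f.J f.I, S.c (val x) < S.c z
    · have := hG.chain.depth
      exact stops_of_not_opt ho o.M x f (p :: r) hG (by omega) hz b (by omega)
    · push Not at hz
      obtain ⟨h0, hopt⟩ := opt_active ho hG hz
      obtain ⟨b', rfl⟩ : ∃ b', b = b' + 1 := ⟨b - 1, by omega⟩
      simp only [runB, step_pop h0 hopt]
      simp only [and_self, if_true]
      exact ih x p hG.pop b' (by simp only [List.length_cons] at hb; omega)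

theorem runB_good (ho : Spec o vle S val) {f₀ : Frame} (b : ℕ) {s : St Pt}
    (h : GoodS o vle S val f₀ s) : GoodS o vle S val f₀ (runB o vle b s) ∧
      ((runB o vle b s).1 = s.1 ∨ EStep S o.M (val s.1) (val (runB o vle b s).1) ∧
        (runB o vle b s).2.2 = .running) := by
  induction b generalizing s with
  | zero => exact ⟨h, Or.inl rfl⟩
  | succ b ih =>
    obtain ⟨h1, h2⟩ := step_good ho h
    simp only [runB]
    split_ifs with hc
    · obtain ⟨h3, h4⟩ := ih h1
      rw [hc.2] at h4
      exact ⟨h3, h4⟩
    · exact ⟨h1, h2⟩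

/-- Properties of one pivot. -/
theorem next_good (ho : Spec o vle S val) {f₀ : Frame} {s : St Pt}
    (h : GoodS o vle S val f₀ s) : GoodS o vle S val f₀ (next o vle s) ∧
      ((next o vle s).2.2 = .running → EStep S o.M (val s.1) (val (next o vle s).1)) ∧
      ((next o vle s).2.2 ≠ .running → (next o vle s).1 = s.1) := by
  obtain ⟨h1, h2⟩ := runB_good ho (2 * o.M + 2) h
  refine ⟨h1, fun h3 => ?_, fun h3 => ?_⟩
  · rcases h2 with h2 | h2
    · exfalso
      cases h with
      | opt x a b =>
        have : ∀ b, (runB o vle b (x, [f₀], .optimal)).2.2 = .optimal := by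
          intro b
          induction b with
          | zero => rfl
          | succ b ih => simp only [runB, step]; simp
        unfold next at h3
        rw [this] at h3
        simp at h3
      | unb x f r a b =>
        have : ∀ b, (runB o vle b (x, f :: r, .unbounded)).2.2 = .unbounded := by
          intro b
          induction b with
          | zero => rfl
          | succ b ih => simp only [runB, step]; simp
        unfold next at h3
        rw [this] at h3
        simp at h3
      | run x f r hG _ =>
        have := hG.chain.depth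
        rcases stops ho r x f hG (2 * o.M + 2) (by omega) with h4 | h4
        · exact h4 h3
        · exact h4 h2
    · exact h2.1
  · rcases h2 with h2 | h2
    · exact h2
    · exact absurd h2.2 h3

/-- Runs go through the calls of `next`. -/
theorem runs_runB {s s' : St Pt} {n : ℕ} (b : ℕ) (h : Runs o vle s s' n)
    (hs' : s'.2.2 ≠ .running) (hs : s.2.2 = .running) :
    ∃ n', Runs o vle (runB o vle b s) s' n' ∧ n' ≤ n ∧
      ((runB o vle b s).1 ≠ s.1 → n' + 1 ≤ n) := by
  induction b generalizing s n with
  | zero => exact ⟨n, h, le_rfl, fun h => absurd rfl h⟩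
  | succ b ih =>
    have key : ∃ n', Runs o vle (step o vle s) s' n' ∧ n' ≤ n ∧
        ((step o vle s).1 ≠ s.1 → n' + 1 ≤ n) := by
      cases h with
      | refl => exact absurd hs hs'
      | quiet h1 h2 => exact ⟨n, h2, le_rfl, fun h => absurd h1 h⟩
      | move h2 => exact ⟨_, h2, Nat.le_succ _, fun _ => le_rfl⟩
    obtain ⟨n', h1, h2, h3⟩ := key
    simp only [runB]
    split_ifs with hc
    · obtain ⟨n'', h4, h5, h6⟩ := ih h1 hc.1
      refine ⟨n'', h4, by omega, fun h7 => ?_⟩
      have := h6 (by rw [hc.2]; exact h7)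
      omega
    · exact ⟨n', h1, h2, h3⟩

/-- The number of pivots until the machine halts. -/
theorem halts (ho : Spec o vle S val) {f₀ : Frame} : ∀ (n : ℕ) (s s' : St Pt),
    Runs o vle s s' n → s'.2.2 ≠ .running → GoodS o vle S val f₀ s → s.2.2 = .running →
    ∃ N ≤ n, (∀ t ≤ N, ((next o vle)^[t] s).2.2 = .running) ∧
      ((next o vle)^[N + 1] s).2.2 ≠ .running := by
  intro n
  induction n using Nat.strong_induction_on with
  | _ n ih =>
  intro s s' hr hs' hg hs
  obtain ⟨n', h1, h2, h3⟩ := runs_runB (2 * o.M + 2) hr hs' hs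
  by_cases hrun : (next o vle s).2.2 = .running
  · have hne : (next o vle s).1 ≠ s.1 := by
      cases hg with
      | opt x a b => simp at hs
      | unb x f r a b => simp at hs
      | run x f r hG _ =>
        have := hG.chain.depth
        rcases stops ho r x f hG (2 * o.M + 2) (by omega) with h4 | h4
        · exact absurd hrun h4
        · exact h4
    have h4 := h3 hne
    obtain ⟨N, h5, h6, h7⟩ := ih n' (by omega) (next o vle s) s' h1 hs' (next_good ho hg).1 hrun
    refine ⟨N + 1, by omega, fun t ht => ?_, ?_⟩
    · cases t with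
      | zero => exact hs
      | succ t => rw [Function.iterate_succ_apply]; exact h6 t (by omega)
    · rw [Function.iterate_succ_apply]; exact h7
  · refine ⟨0, Nat.zero_le _, fun t ht => ?_, hrun⟩
    have : t = 0 := by omega
    subst this
    exact hs

end Pool.Agent.Simplex.QP
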