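import Pool.Agent.Lib.MP_4d246d_lc.QP.ListLin

/-!
# The perceptron for a projection matrix, and the cutting lemma
-/

namespace Pool.Agent.Simplex.QP

open Matrix

section Abstract

variable {N : ℕ} {Q : Matrix (Fin N) (Fin N) ℝ}

lemma proj_diag_le (hs : Qᵀ = Q) (hi : Q * Q = Q) (k : Fin N) : Q k k ≤ 1 := by
  have h1 : Q k k = ∑ j, Q k j * Q j k := by
    conv_lhs => rw [← hi]
    rfl
  have h2 : Q k k = ∑ j, Q k j ^ 2 := by
    rw [h1]
    refine Finset.sum_congr rfl fun j _ => ?_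
    have : Q j k = Q k j := congrFun (congrFun hs k) j
    rw [this, sq]
  have h3 : Q k k ^ 2 ≤ Q k k := by
    conv_rhs => rw [h2]
    exact Finset.single_le_sum (f := fun j => Q k j ^ 2) (fun j _ => sq_nonneg _)
      (Finset.mem_univ k)
  nlinarith [sq_nonneg (Q k k)]

lemma proj_dot (hs : Qᵀ = Q) (hi : Q * Q = Q) (x y : Fin N → ℝ) :
    (Q *ᵥ x) ⬝ᵥ (Q *ᵥ y) = (Q *ᵥ x) ⬝ᵥ y := by
  rw [dotProduct_mulVec, ← mulVec_transpose, hs, mulVec_mulVec, hi]

lemma percep_step (hs : Qᵀ = Q) (hi : Q * Q = Q) (y : Fin N → ℝ) (k : Fin N)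
    (hk : (Q *ᵥ y) k ≤ 0) :
    (Q *ᵥ (y + Pi.single k 1)) ⬝ᵥ (Q *ᵥ (y + Pi.single k 1)) ≤
      (Q *ᵥ y) ⬝ᵥ (Q *ᵥ y) + 1 := by
  have h1 : (Q *ᵥ y) ⬝ᵥ (Q *ᵥ (Pi.single k 1)) = (Q *ᵥ y) k := by
    rw [proj_dot hs hi, dotProduct_single, mul_one]
  have h2 : (Q *ᵥ (Pi.single k 1)) ⬝ᵥ (Q *ᵥ (Pi.single k 1)) = Q k k := by
    rw [proj_dot hs hi, dotProduct_single, mul_one, mulVec_single_one]
    rfl
  rw [mulVec_add, add_dotProduct, dotProduct_add, dotProduct_add,
    dotProduct_comm (Q *ᵥ (Pi.single k 1)) (Q *ᵥ y), h1, h2]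
  have := proj_diag_le hs hi k
  linarith

lemma cut (hs : Qᵀ = Q) (y : Fin N → ℝ) (hy : ∀ i, 0 ≤ y i)
    (hn : (Q *ᵥ y) ⬝ᵥ (Q *ᵥ y) ≤ 4 * (N : ℝ) ^ 3) (k : Fin N) (hk : 4 * (N : ℝ) ^ 2 ≤ y k)
    (x : Fin N → ℝ) (hx0 : ∀ i, 0 ≤ x i) (hx1 : ∀ i, x i ≤ 1) (hx : Q *ᵥ x = x) :
    2 * x k ≤ 1 := by
  have hN : (1 : ℝ) ≤ N := by
    have : 0 < N := k.pos
    exact_mod_cast this
  have h1 : y k * x k ≤ y ⬝ᵥ x :=
    Finset.single_le_sum (f := fun i => y i * x i) (fun i _ => mul_nonneg (hy i) (hx0 i))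
      (Finset.mem_univ k)
  have h2 : y ⬝ᵥ x = (Q *ᵥ y) ⬝ᵥ x := by
    conv_lhs => rw [← hx]
    rw [dotProduct_mulVec, ← mulVec_transpose, hs]
  have h3 : (Q *ᵥ y) ⬝ᵥ x ≤ ∑ i, |(Q *ᵥ y) i| := by
    refine Finset.sum_le_sum fun i _ => ?_
    calc (Q *ᵥ y) i * x i ≤ |(Q *ᵥ y) i| * x i :=
          mul_le_mul_of_nonneg_right (le_abs_self _) (hx0 i)
      _ ≤ |(Q *ᵥ y) i| * 1 := mul_le_mul_of_nonneg_left (hx1 i) (abs_nonneg _)
      _ = |(Q *ᵥ y) i| := mul_one _
  have h4 : (∑ i, |(Q *ᵥ y) i|) ^ 2 ≤ (N : ℝ) * ∑ i, |(Q *ᵥ y) i| ^ 2 := by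
    have := sq_sum_le_card_mul_sum_sq (s := (Finset.univ : Finset (Fin N)))
      (f := fun i => |(Q *ᵥ y) i|)
    simpa using this
  have h5 : ∑ i, |(Q *ᵥ y) i| ^ 2 = (Q *ᵥ y) ⬝ᵥ (Q *ᵥ y) := by
    refine Finset.sum_congr rfl fun i _ => ?_
    rw [sq_abs, sq]
  rw [h5] at h4
  have h6 : (∑ i, |(Q *ᵥ y) i|) ^ 2 ≤ (2 * (N : ℝ) ^ 2) ^ 2 := by
    refine h4.trans ?_
    calc (N : ℝ) * ((Q *ᵥ y) ⬝ᵥ (Q *ᵥ y)) ≤ N * (4 * (N : ℝ) ^ 3) :=
          mul_le_mul_of_nonneg_left hn (by positivity)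
      _ = (2 * (N : ℝ) ^ 2) ^ 2 := by ring
  have h7 : ∑ i, |(Q *ᵥ y) i| ≤ 2 * (N : ℝ) ^ 2 := abs_le_of_sq_le_sq' h6 (by positivity) |>.2
  have h8 : 4 * (N : ℝ) ^ 2 * x k ≤ 2 * (N : ℝ) ^ 2 := by
    calc 4 * (N : ℝ) ^ 2 * x k ≤ y k * x k := mul_le_mul_of_nonneg_right hk (hx0 k)
      _ ≤ 2 * (N : ℝ) ^ 2 := by linarith
  have h9 : 0 < 2 * (N : ℝ) ^ 2 := by positivity
  have h10 : 2 * (N : ℝ) ^ 2 * (2 * x k) ≤ 2 * (N : ℝ) ^ 2 * 1 := by linarith
  exact le_of_mul_le_mul_left h10 h9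

end Abstract

/-! ### Lists -/

/-- the real matrix `P / D` -/
noncomputable def matOf (N : ℕ) (P : List (List ℤ)) (D : ℤ) : Matrix (Fin N) (Fin N) ℝ :=
  fun i j => (((P.getD i []).getD j 0 : ℤ) : ℝ) / D

/-- the real vector of a list -/
def vecOf (N : ℕ) (v : List ℤ) : Fin N → ℝ := fun i => ((v.getD i 0 : ℤ) : ℝ)

lemma matOf_mulVec {N : ℕ} {P : List (List ℤ)} {D : ℤ} {v : List ℤ}
    (hv : v.length = N) (i : Fin N) :
    (matOf N P D *ᵥ vecOf N v) i = (((mulVecZ P v).getD i 0 : ℤ) : ℝ) / D := by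
  rw [getD_mulVecZ, dotZ_eq_fin _ _ N (Or.inr hv.le)]
  simp only [mulVec, dotProduct, matOf, vecOf]
  push_cast
  rw [Finset.sum_div]
  exact Finset.sum_congr rfl fun j _ => by ring

/-- The matrix part of the data: `P / D` is the orthogonal projector onto the kernel of the
rows. -/
structure IsProj (N : ℕ) (rows : List (List ℤ)) (D : ℤ) (P : List (List ℤ)) : Prop where
  pos : 0 < D
  len : P.length = N
  lens : ∀ p ∈ P, p.length = N
  symm : ∀ i j, (P.getD i []).getD j 0 = (P.getD j []).getD i 0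
  ker : ∀ r ∈ rows, ∀ p ∈ P, dotZ p r = 0
  fix : ∀ x : ℕ → ℝ, (∀ r ∈ rows, ldot r x = 0) → ∀ i < N,
      ldot (P.getD i []) x = (D : ℝ) * x i

namespace IsProj

variable {N : ℕ} {rows : List (List ℤ)} {D : ℤ} {P : List (List ℤ)}

lemma length_row (h : IsProj N rows D P) (i : ℕ) (hi : i < N) : (P.getD i []).length = N :=
  h.lens _ (getD_mem (by rw [h.len]; exact hi))

lemma transpose (h : IsProj N rows D P) : (matOf N P D)ᵀ = matOf N P D := by
  ext i j
  simp only [Matrix.transpose_apply, matOf]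
  rw [h.symm]

lemma fix_fin (h : IsProj N rows D P) {x : ℕ → ℝ} (hx : ∀ r ∈ rows, ldot r x = 0) :
    matOf N P D *ᵥ (fun i : Fin N => x i) = fun i : Fin N => x i := by
  funext i
  have h1 := h.fix x hx i i.2
  rw [ldot_eq_fin _ _ N (h.length_row i i.2).le] at h1
  have hD : (D : ℝ) ≠ 0 := by exact_mod_cast h.pos.ne'
  have h2 : (matOf N P D *ᵥ (fun i : Fin N => x i)) i =
      (∑ j : Fin N, (((P.getD i []).getD j 0 : ℤ) : ℝ) * x j) / D := by
    simp only [mulVec, dotProduct, matOf]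
    rw [Finset.sum_div]
    exact Finset.sum_congr rfl fun j _ => by ring
  rw [h2, h1]
  field_simp

lemma ldot_row_zero (h : IsProj N rows D P) (hlen : ∀ r ∈ rows, r.length = N)
    {r : List ℤ} (hr : r ∈ rows) (v : List ℤ) (hv : v.length = N) :
    dotZ r (mulVecZ P v) = 0 := by
  rw [dotZ_eq_fin _ _ N (Or.inl (hlen r hr).le)]
  have h1 : ∀ j : Fin N, (mulVecZ P v).getD j 0 =
      ∑ k : Fin N, (P.getD j []).getD k 0 * v.getD k 0 := fun j => by
    rw [getD_mulVecZ, dotZ_eq_fin _ _ N (Or.inr hv.le)]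
  calc ∑ j : Fin N, r.getD j 0 * (mulVecZ P v).getD j 0
      = ∑ j : Fin N, ∑ k : Fin N, r.getD j 0 * ((P.getD j []).getD k 0 * v.getD k 0) := by
        refine Finset.sum_congr rfl fun j _ => ?_
        rw [h1, Finset.mul_sum]
    _ = ∑ k : Fin N, ∑ j : Fin N, r.getD j 0 * ((P.getD j []).getD k 0 * v.getD k 0) :=
        Finset.sum_comm
    _ = ∑ k : Fin N, 0 := by
        refine Finset.sum_congr rfl fun k _ => ?_
        have h2 : dotZ (P.getD k []) r = 0 := h.ker r hr _ (getD_mem (by rw [h.len]; exact k.2))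
        rw [dotZ_eq_fin _ _ N (Or.inr (hlen r hr).le)] at h2
        calc ∑ j : Fin N, r.getD j 0 * ((P.getD j []).getD k 0 * v.getD k 0)
            = (∑ j : Fin N, (P.getD k []).getD j 0 * r.getD j 0) * v.getD k 0 := by
              rw [Finset.sum_mul]
              refine Finset.sum_congr rfl fun j _ => ?_
              rw [h.symm]
              ring
          _ = 0 := by rw [h2, zero_mul]
    _ = 0 := by simp

lemma idem (h : IsProj N rows D P) :
    matOf N P D * matOf N P D = matOf N P D := by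
  ext i j
  have h1 := h.fix_fin (x := fun k => (((P.getD j []).getD k 0 : ℤ) : ℝ)) (by
    intro r hr
    rw [ldot_intVec, dotZ_comm, h.ker r hr _ (getD_mem (by rw [h.len]; exact j.2))]
    simp)
  have h2 := congrFun h1 i
  simp only [mulVec, dotProduct] at h2
  simp only [Matrix.mul_apply]
  have h3 : ∀ k : Fin N, matOf N P D k j = (((P.getD j []).getD k 0 : ℤ) : ℝ) / D := fun k => by
    simp only [matOf]
    rw [h.symm]
  simp only [h3]
  rw [← h2, Finset.sum_div]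
  exact Finset.sum_congr rfl fun k _ => by ring

end IsProj

/-! ### The iteration -/

lemma badIdx_eq_none {c : List (Option ℕ)} {z : List ℤ} :
    badIdx c z = none ↔ ∀ k < c.length, (c.getD k none).isSome → 0 < z.getD k 0 := by
  unfold badIdx
  rw [List.find?_eq_none]
  simp only [List.mem_range, Bool.and_eq_true, decide_eq_true_eq, not_and, not_le]

lemma badIdx_eq_some {c : List (Option ℕ)} {z : List ℤ} {k : ℕ} (h : badIdx c z = some k) :
    k < c.length ∧ (c.getD k none).isSome ∧ z.getD k 0 ≤ 0 := by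
  unfold badIdx at h
  have h1 := List.find?_some h
  have h2 := List.mem_of_find?_eq_some h
  simp only [Bool.and_eq_true, decide_eq_true_eq] at h1
  exact ⟨List.mem_range.1 h2, h1.1, h1.2⟩

lemma getD_set {α : Type*} (l : List α) (k j : ℕ) (a d : α) (hk : k < l.length) :
    (l.set k a).getD j d = if j = k then a else l.getD j d := by
  by_cases h : j = k
  · subst h
    simp [List.getD_eq_getElem?_getD, hk]
  · rw [if_neg h]
    simp [List.getD_eq_getElem?_getD, List.getElem?_set_ne (Ne.symm h)]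

/-- invariant of the perceptron -/
def PercInv (N : ℕ) (c : List (Option ℕ)) (D : ℤ) (P : List (List ℤ)) (t : ℕ) (Y : List ℤ) :
    Prop :=
  Y.length = N ∧ (∀ j, 0 ≤ Y.getD j 0) ∧ (∀ j, c.getD j none = none → Y.getD j 0 = 0) ∧
  (badIdx c (mulVecZ P Y) = none ∨ (∑ j : Fin N, Y.getD j 0 = t ∧
    (matOf N P D *ᵥ vecOf N Y) ⬝ᵥ (matOf N P D *ᵥ vecOf N Y) ≤ t))

lemma percInv_zero {N : ℕ} {c : List (Option ℕ)} {D : ℤ} {P : List (List ℤ)} :
    PercInv N c D P 0 (List.replicate N 0) := by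
  have h0 : ∀ j, (List.replicate N (0 : ℤ)).getD j 0 = 0 := fun j => by
    rw [List.getD_eq_getElem?_getD, List.getElem?_replicate]
    split_ifs <;> rfl
  refine ⟨by simp, fun j => by rw [h0], fun j _ => h0 j, Or.inr ⟨by simp, ?_⟩⟩
  have : vecOf N (List.replicate N 0) = 0 := by
    funext i
    simp [vecOf]
  rw [this]
  simp

lemma percInv_step {N : ℕ} {c : List (Option ℕ)} {D : ℤ} {P : List (List ℤ)}
    {rows : List (List ℤ)} (h : IsProj N rows D P) (hc : c.length = N) {t : ℕ} {Y : List ℤ} (hY : PercInv N c D P t Y) :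
    PercInv N c D P (t + 1) (percStep c P Y) := by
  obtain ⟨h1, h2, h3, h4⟩ := hY
  unfold percStep
  rcases hb : badIdx c (mulVecZ P Y) with _ | k
  · exact ⟨h1, h2, h3, Or.inl hb⟩
  · obtain ⟨hk1, hk2, hk3⟩ := badIdx_eq_some hb
    rw [hb] at h4
    obtain ⟨h4, h5⟩ := h4.resolve_left (by simp)
    have hkN : k < N := hc ▸ hk1
    have hkY : k < Y.length := by omega
    have hg : ∀ j, (Y.set k (Y.getD k 0 + 1)).getD j 0 =
        Y.getD j 0 + if j = k then 1 else 0 := fun j => by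
      rw [getD_set _ _ _ _ _ hkY]
      split_ifs with h
      · rw [h]
      · simp
    refine ⟨by simp [h1], fun j => ?_, fun j hj => ?_, Or.inr ⟨?_, ?_⟩⟩
    · rw [hg]
      have := h2 j
      split_ifs <;> omega
    · rw [hg, if_neg, h3 j hj, add_zero]
      rintro rfl
      rw [hj] at hk2
      simp at hk2
    · simp only [hg]
      rw [Finset.sum_add_distrib, h4]
      have : ∑ j : Fin N, (if (j : ℕ) = k then (1 : ℤ) else 0) = 1 := by
        rw [Finset.sum_eq_single (⟨k, hkN⟩ : Fin N)]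
        · simp
        · intro b _ hb'
          rw [if_neg]
          intro hb2
          exact hb' (Fin.ext hb2)
        · simp
      rw [this]
      push_cast
      ring
    · have hv : vecOf N (Y.set k (Y.getD k 0 + 1)) = vecOf N Y + Pi.single ⟨k, hkN⟩ 1 := by
        funext j
        simp only [vecOf, hg, Pi.add_apply, Pi.single_apply, Fin.ext_iff]
        push_cast
        rfl
      rw [hv]
      have h6 := percep_step h.transpose h.idem (vecOf N Y) ⟨k, hkN⟩ (by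
        rw [matOf_mulVec h1]
        refine div_nonpos_of_nonpos_of_nonneg ?_ ?_
        · exact_mod_cast hk3
        · exact_mod_cast h.pos.le)
      push_cast
      linarith

lemma percInv_iter {N : ℕ} {c : List (Option ℕ)} {D : ℤ} {P : List (List ℤ)}
    {rows : List (List ℤ)} (h : IsProj N rows D P) (hc : c.length = N) (t : ℕ) :
    PercInv N c D P t ((fun Y => percStep c P Y)^[t] (List.replicate N 0)) := by
  induction t with
  | zero => exact percInv_zero
  | succ t ih =>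
    rw [Function.iterate_succ_apply']
    exact percInv_step h hc ih

end Pool.Agent.Simplex.QP
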