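import Pool.Agent.Lib.MP_4d246d_lc.QP.VecOps
import Pool.Agent.Lib.MP_4d246d_lc.QP.Proj

/-!
# The projector and the solver are computable in polynomial time

`ProjBound` is the size bound for the projector.
-/

set_option linter.unusedSimpArgs false

namespace Pool.Agent.Simplex.QP

/-- Bound for the entries of the projector. -/
def ProjBound : Prop := ∀ (N : ℕ) (rows : List (List ℤ)), (∀ r ∈ rows, r.length = N) →
    ∀ B : ℕ, (∀ r ∈ rows, ∀ a ∈ r, |a| ≤ B) →
    (0 < (projZ N rows).1 ∧ (projZ N rows).2.length = N ∧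
      (∀ p ∈ (projZ N rows).2, p.length = N)) ∧
    (projZ N rows).1 ≤ ((N.factorial * (N * B ^ 2 + 1) ^ N : ℕ) : ℤ) ∧
    ∀ p ∈ (projZ N rows).2, ∀ a ∈ p, |a| ≤ (projZ N rows).1

theorem projBound : ProjBound := fun N rows hlen B hB =>
  ⟨⟨(projZ_spec N rows hlen).1, (projZ_spec N rows hlen).2.1, (projZ_spec N rows hlen).2.2.1⟩,
    projZ_bound N rows hlen B hB⟩

/-- Exponent bounding the entries of the projector of rows of size `s`. -/
def pexp (N s : ℕ) : ℕ := N * N + N * (N + 2 * s + 1) + 1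

theorem projZ_lt (H : ProjBound) {N s : ℕ} {rows : List (List ℤ)}
    (hlen : ∀ r ∈ rows, r.length = N) (hs : ∀ r ∈ rows, ∀ a ∈ r, |a| ≤ 2 ^ s) :
    0 < (projZ N rows).1 ∧ (projZ N rows).1 < 2 ^ pexp N s ∧ (projZ N rows).2.length = N ∧
      (∀ p ∈ (projZ N rows).2, p.length = N) ∧
      ∀ p ∈ (projZ N rows).2, ∀ a ∈ p, |a| < 2 ^ pexp N s := by
  obtain ⟨⟨h1, h2, h3⟩, h4, h5⟩ := H N rows hlen (2 ^ s) (by exact_mod_cast hs)
  have h6 : (N.factorial * (N * (2 ^ s) ^ 2 + 1) ^ N : ℕ) < 2 ^ pexp N s := by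
    have e1 : N.factorial ≤ 2 ^ (N * N) := by
      refine (Nat.factorial_le_pow N).trans ?_
      rw [pow_mul]
      exact Nat.pow_le_pow_left Nat.lt_two_pow_self.le N
    have e2 : N * (2 ^ s) ^ 2 + 1 ≤ 2 ^ (N + 2 * s + 1) := by
      have e3 : (2 ^ s) ^ 2 = 2 ^ (2 * s) := by rw [← pow_mul, mul_comm]
      have e4 : N * 2 ^ (2 * s) ≤ 2 ^ (N + 2 * s) := by
        rw [pow_add]
        exact Nat.mul_le_mul_right _ Nat.lt_two_pow_self.le
      have e5 : 1 ≤ 2 ^ (N + 2 * s) := Nat.one_le_two_pow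
      rw [e3, pow_succ]
      omega
    have e3 : (N * (2 ^ s) ^ 2 + 1) ^ N ≤ 2 ^ (N * (N + 2 * s + 1)) := by
      rw [mul_comm N (N + 2 * s + 1), pow_mul]
      exact Nat.pow_le_pow_left e2 N
    have e4 := Nat.mul_le_mul e1 e3
    rw [← pow_add] at e4
    refine e4.trans_lt ?_
    unfold pexp
    exact Nat.pow_lt_pow_right (by norm_num) (by omega)
  have h7 : (projZ N rows).1 < 2 ^ pexp N s := h4.trans_lt (by exact_mod_cast h6)
  exact ⟨h1, h7, h2, h3, fun p hp a ha => (h5 p hp a ha).trans_lt h7⟩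

end Pool.Agent.Simplex.QP

namespace Pool.Agent.Lib.PolyTime

open Pool.Agent.Simplex.QP

theorem sz_vecZ_le {v : List ℤ} {N t : ℕ} (hl : v.length ≤ N) (h : ∀ a ∈ v, |a| < 2 ^ t) :
    sz v ≤ (2 * t + 3) * N := by
  have h1 : sz v ≤ (2 * t + 2 + 1) * v.length :=
    sz_le_of_forall fun a ha => sz_int_le_of_abs_lt (h a ha)
  exact h1.trans (Nat.mul_le_mul_left _ hl)

theorem sz_matZ_le {P : List (List ℤ)} {N t : ℕ} (hl : P.length ≤ N) (hr : ∀ r ∈ P, r.length ≤ N)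
    (h : ∀ r ∈ P, ∀ a ∈ r, |a| < 2 ^ t) : sz P ≤ ((2 * t + 3) * N + 1) * N := by
  have h1 : sz P ≤ ((2 * t + 3) * N + 1) * P.length :=
    sz_le_of_forall fun r hr' => sz_vecZ_le (hr r hr') (h r hr')
  exact h1.trans (Nat.mul_le_mul_left _ hl)

theorem abs_le_two_pow_sz_of_mem {M : List (List ℤ)} {r : List ℤ} (hr : r ∈ M) {a : ℤ}
    (ha : a ∈ r) : |a| ≤ 2 ^ sz M := by
  refine (abs_lt_two_pow_sz a).le.trans (pow_le_pow_right₀ (by norm_num) ?_)
  have h1 := sz_mem ha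
  have h2 := sz_mem hr
  omega

section

variable {α β γ δ ε : Type*} [TEnc α] [TEnc β] [TEnc γ] [TEnc δ] [TEnc ε]

theorem PBd.pexp {N s : α → ℕ} (hN : PBd N) (hs : PBd s) : PBd (fun x => pexp (N x) (s x)) :=
  (((hN.mul hN).add (hN.mul ((hN.add ((PBd.const 2).mul hs)).add (PBd.const 1)))).add
    (PBd.const 1)).of_le fun _ => le_rfl

namespace PolyF

theorem projStep {s : α → ℤ × List (List ℤ)} {m : α → List ℤ} (hs : PolyF s) (hm : PolyF m) :
    PolyF (fun x => projStep (s x) (m x)) := by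
  have hv : PolyF (fun x => Pool.Agent.Simplex.QP.mulVecZ (s x).2 (m x)) := PolyF.mulVecZ hs.snd hm
  have hd : PolyF (fun x => Pool.Agent.Simplex.QP.dotZ (m x)
    (Pool.Agent.Simplex.QP.mulVecZ (s x).2 (m x))) := PolyF.dotZ hm hv
  refine ite (p := fun x => Pool.Agent.Simplex.QP.dotZ (m x)
    (Pool.Agent.Simplex.QP.mulVecZ (s x).2 (m x)) = 0) (hd.intEq (const 0)) hs (hd.pair ?_)
  refine zipWith (h := fun x (row : List ℤ) (ui : ℤ) => List.zipWith
      (fun p uj => (Pool.Agent.Simplex.QP.dotZ (m x)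
        (Pool.Agent.Simplex.QP.mulVecZ (s x).2 (m x)) * p - ui * uj) / (s x).1) row
        (Pool.Agent.Simplex.QP.mulVecZ (s x).2 (m x))) hs.snd hv ?_
  refine zipWith (h := fun (q : α × List ℤ × ℤ) (p uj : ℤ) =>
      (Pool.Agent.Simplex.QP.dotZ (m q.1)
        (Pool.Agent.Simplex.QP.mulVecZ (s q.1).2 (m q.1)) * p - q.2.2 * uj) / (s q.1).1) snd'.fst
        (hv.comp fst') ?_
  exact ((((hd.comp fst'.fst).intMul snd'.fst).intSub (fst'.snd.snd.intMul snd'.snd)).intEdiv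
    (hs.fst.comp fst'.fst))

theorem projZ (H : ProjBound) {N : α → ℕ} {rows : α → List (List ℤ)} (hN : PolyF N)
    (hr : PolyF rows) (hlen : ∀ x, ∀ r ∈ rows x, r.length = N x) :
    PolyF (fun x => projZ (N x) (rows x)) := by
  have hE : PBd (fun x => pexp (N x) (sz (rows x))) := hN.pbdNat.pexp hr.pbd
  refine foldl' (f := fun _ s m => Pool.Agent.Simplex.QP.projStep s m) hr
    ((const 1).pair (PolyF.idZ hN)) (PolyF.projStep snd'.fst snd'.snd)
    (fun x => 1 + (2 * pexp (N x) (sz (rows x)) + 2) +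
      ((2 * pexp (N x) (sz (rows x)) + 3) * N x + 1) * N x)
    (((PBd.const 1).add (((PBd.const 2).mul hE).add (PBd.const 2))).add
      ((((((PBd.const 2).mul hE).add (PBd.const 3)).mul hN.pbdNat).add (PBd.const 1)).mul
        hN.pbdNat)) fun x k _ => ?_
  have h := projZ_lt H (N := N x) (s := sz (rows x)) (rows := (rows x).take k)
    (fun r hr => hlen x r (List.mem_of_mem_take hr))
    (fun r hr a ha => abs_le_two_pow_sz_of_mem (List.mem_of_mem_take hr) ha)
  obtain ⟨h1, h2, h3, h4, h5⟩ := h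
  change sz (Pool.Agent.Simplex.QP.projZ (N x) ((rows x).take k)) ≤ _
  rw [sz_prod]
  have e1 := sz_int_le_of_abs_lt (z := (Pool.Agent.Simplex.QP.projZ (N x) ((rows x).take k)).1)
    (n := pexp (N x) (sz (rows x))) (by rw [abs_of_pos h1]; exact h2)
  have e2 := sz_matZ_le h3.le (fun r hr => (h4 r hr).le) h5
  omega

end PolyF

end

end Pool.Agent.Lib.PolyTime
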