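import Mathlib

/-!
# List-level linear algebra and the linear programming solver (definitions)

`projZ` is a fraction-free Gram-Schmidt computation of the orthogonal projector onto the
kernel of an integer matrix; `maxSol` is Chubanov's projection/perceptron algorithm with
rescaling, which finds a nonnegative solution of `M x = 0` with maximal support; `lpsolve`
solves linear programs by means of the homogenised primal-dual system.
-/

namespace Pool.Agent.Simplex.QP

/-! ### Vectors and matrices as lists of integers -/

/-- dot product -/
def dotZ (u v : List ℤ) : ℤ := (List.zipWith (fun a b => a * b) u v).sum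

/-- matrix times vector -/
def mulVecZ (M : List (List ℤ)) (v : List ℤ) : List ℤ := M.map (fun r => dotZ r v)

/-- pad or truncate to length `N` -/
def padZ (N : ℕ) (v : List ℤ) : List ℤ := (List.range N).map (fun j => v.getD j 0)

/-- unit vector -/
def unitZ (N i : ℕ) : List ℤ := (List.range N).map (fun j => if j = i then 1 else 0)

/-- identity matrix -/
def idZ (N : ℕ) : List (List ℤ) := (List.range N).map (fun i => unitZ N i)

/-- negation -/
def negZ (v : List ℤ) : List ℤ := v.map (fun a => -a)

/-- value of an integer linear form, given by its list of coefficients, at a real vector -/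
def ldot : List ℤ → (ℕ → ℝ) → ℝ
  | [], _ => 0
  | a :: l, x => (a : ℝ) * x 0 + ldot l (fun j => x (j + 1))

/-! ### The projector -/

/-- One step of the fraction-free Gram-Schmidt process: `s = (D, P)` with `P / D` the current
projector, `m` a new row. -/
def projStep (s : ℤ × List (List ℤ)) (m : List ℤ) : ℤ × List (List ℤ) :=
  if dotZ m (mulVecZ s.2 m) = 0 then s
  else (dotZ m (mulVecZ s.2 m),
    List.zipWith (fun row ui => List.zipWith
      (fun p uj => (dotZ m (mulVecZ s.2 m) * p - ui * uj) / s.1) row (mulVecZ s.2 m))
      s.2 (mulVecZ s.2 m))

/-- `(D, P)` with `P / D` the orthogonal projector of `ℝ ^ N` onto the common kernel of the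
rows (all of length `N`). -/
def projZ (N : ℕ) (rows : List (List ℤ)) : ℤ × List (List ℤ) :=
  rows.foldl projStep (1, idZ N)

/-! ### The perceptron -/

/-- first active coordinate at which the vector is not positive -/
def badIdx (c : List (Option ℕ)) (z : List ℤ) : Option ℕ :=
  (List.range c.length).find? (fun k => (c.getD k none).isSome && decide (z.getD k 0 ≤ 0))

/-- one perceptron step -/
def percStep (c : List (Option ℕ)) (P : List (List ℤ)) (Y : List ℤ) : List ℤ :=
  match badIdx c (mulVecZ P Y) with
  | none => Y
  | some k => Y.set k (Y.getD k 0 + 1)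

/-- a coordinate carrying at least the average weight -/
def heavyIdx (N : ℕ) (Y : List ℤ) : Option ℕ :=
  (List.range N).find? (fun k => decide ((4 * (N : ℤ) ^ 2) ≤ Y.getD k 0))

/-! ### Rescaling -/

/-- scaling factor of a coordinate: `none` is a removed coordinate, `some e` means that all
solutions in the unit cube are known to have this coordinate at most `2 ^ (-e)` -/
def scaleOf (K : ℕ) (o : Option ℕ) : ℤ :=
  match o with
  | none => 0
  | some e => 2 ^ (K - e)

/-- scale a vector -/
def scaleRow (K : ℕ) (c : List (Option ℕ)) (r : List ℤ) : List ℤ :=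
  List.zipWith (fun o a => scaleOf K o * a) c r

/-- the rows whose common kernel is the scaled solution space -/
def phaseRows (N K : ℕ) (c : List (Option ℕ)) (M : List (List ℤ)) : List (List ℤ) :=
  ((List.range N).filter (fun j => (c.getD j none).isNone)).map (fun i => unitZ N i) ++
    M.map (fun r => scaleRow K c r)

/-- increase the exponent of a coordinate, or remove it -/
def bump (K : ℕ) (o : Option ℕ) : Option ℕ :=
  match o with
  | none => none
  | some e => if e < K then some (e + 1) else none

/-- the vector found by the perceptron in a phase -/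
def phaseY (N : ℕ) (c : List (Option ℕ)) (P : List (List ℤ)) : List ℤ :=
  (fun Y => percStep c P Y)^[4 * N ^ 3] (List.replicate N 0)

/-- the part of a phase after the projector and the vector `Y` have been computed -/
def phaseEnd (N K : ℕ) (c : List (Option ℕ)) (Y z : List ℤ) :
    List (Option ℕ) × Option (List ℤ) :=
  match badIdx c z with
  | none => (c, some (scaleRow K c z))
  | some _ =>
    match heavyIdx N Y with
    | none => (c, none)
    | some k => (c.set k (bump K (c.getD k none)), none)

/-- one phase: compute the projector, run the perceptron, rescale -/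
def phase (N K : ℕ) (M : List (List ℤ)) (st : List (Option ℕ) × Option (List ℤ)) :
    List (Option ℕ) × Option (List ℤ) :=
  match st.2 with
  | some _ => st
  | none =>
    phaseEnd N K st.1 (phaseY N st.1 (projZ N (phaseRows N K st.1 M)).2)
      (mulVecZ (projZ N (phaseRows N K st.1 M)).2
        (phaseY N st.1 (projZ N (phaseRows N K st.1 M)).2))

/-- sum of the squares of the entries -/
def sumSq (M : List (List ℤ)) : ℤ := (M.map (fun r => dotZ r r)).sum

/-- bound for the number of times a coordinate can be halved -/
def kBound (N : ℕ) (M : List (List ℤ)) : ℕ :=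
  N * (Nat.size N + Nat.size ((sumSq M).natAbs + 1))

/-- solver for a matrix all of whose rows have length `N` -/
def maxSolCore (N : ℕ) (M : List (List ℤ)) : List ℤ :=
  ((fun st => phase N (kBound N M) M st)^[N * (kBound N M + 1) + 1]
    (List.replicate N (some 0), none)).2.getD []

/-- nonnegative integer solution of `M x = 0` in `N` unknowns, with maximal support -/
def maxSol (N : ℕ) (M : List (List ℤ)) : List ℤ :=
  maxSolCore N (M.map (fun r => padZ N r))

/-! ### Linear programs -/

/-- result of the solver; `opt x d` stands for the point `x / d` -/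
inductive Res
  | infeas
  | unb
  | opt (x : List ℤ) (d : ℤ)

/-- linear form in `n` real variables -/
def rdot (n : ℕ) (a : List ℤ) (x : Fin n → ℝ) : ℝ := ∑ j : Fin n, ((a.getD j 0 : ℤ) : ℝ) * x j

/-- `x` satisfies the equations `E` and the inequalities `I` -/
def Sat (n : ℕ) (E I : List (List ℤ × ℤ)) (x : Fin n → ℝ) : Prop :=
  (∀ r ∈ E, rdot n r.1 x = r.2) ∧ (∀ r ∈ I, rdot n r.1 x ≤ r.2)

/-- homogeneous feasibility system, unknowns `p, q (n)`, `tau (1)`, slacks `(|I|)` -/
def feasRows (n : ℕ) (E I : List (List ℤ × ℤ)) : List (List ℤ) :=
  E.map (fun r => padZ n r.1 ++ (negZ (padZ n r.1) ++ (-r.2 :: List.replicate I.length 0))) ++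
  (List.range I.length).map (fun i =>
    padZ n (I.getD i ([], 0)).1 ++ (negZ (padZ n (I.getD i ([], 0)).1) ++
      (-(I.getD i ([], 0)).2 :: unitZ I.length i)))

/-- homogeneous primal-dual system, unknowns `p, q (n)`, `tau (1)`, slacks `(|I|)`,
`alpha, beta (|E|)`, `mu (|I|)` -/
def pdRows (n : ℕ) (E I : List (List ℤ × ℤ)) (c : List ℤ) : List (List ℤ) :=
  (feasRows n E I).map (fun r => r ++ List.replicate (E.length + E.length + I.length) 0) ++
  ((List.range n).map (fun j =>
    List.replicate (n + n) 0 ++ (-(c.getD j 0) :: (List.replicate I.length 0 ++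
      (E.map (fun r => r.1.getD j 0) ++ (negZ (E.map (fun r => r.1.getD j 0)) ++
        I.map (fun r => r.1.getD j 0)))))) ++
  [padZ n c ++ (negZ (padZ n c) ++ (0 :: (List.replicate I.length 0 ++
      (negZ (E.map (fun r => r.2)) ++ (E.map (fun r => r.2) ++
        negZ (I.map (fun r => r.2)))))))])

/-- the point `p - q` of a solution vector -/
def pointOf (n : ℕ) (x : List ℤ) : List ℤ :=
  (List.range n).map (fun j => x.getD j 0 - x.getD (n + j) 0)

/-- the linear programming solver: maximise `c` subject to `E`, `I` in `n` free variables -/
def lpsolve (n : ℕ) (E I : List (List ℤ × ℤ)) (c : List ℤ) : Res :=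
  if (maxSol (n + n + 1 + I.length) (feasRows n E I)).getD (n + n) 0 = 0 then .infeas
  else
    if (maxSol (n + n + 1 + I.length + (E.length + E.length + I.length))
      (pdRows n E I c)).getD (n + n) 0 = 0 then .unb
    else .opt
      (pointOf n (maxSol (n + n + 1 + I.length + (E.length + E.length + I.length))
        (pdRows n E I c)))
      ((maxSol (n + n + 1 + I.length + (E.length + E.length + I.length))
        (pdRows n E I c)).getD (n + n) 0)

end Pool.Agent.Simplex.QP
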