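import Pool.Agent.Lib.MP_4d246d_lc.QP.IntOps
import Pool.Agent.Lib.MP_4d246d_lc.QP.SolverDefs

/-!
# Integer vectors and matrices as lists: polynomial-time operations
-/

set_option linter.unusedSimpArgs false

namespace Pool.Agent.Lib.PolyTime

open Pool.Agent.Simplex.QP

section

variable {α β γ δ ε : Type*} [TEnc α] [TEnc β] [TEnc γ] [TEnc δ] [TEnc ε]

namespace PolyF

theorem dotZ {u v : α → List ℤ} (hu : PolyF u) (hv : PolyF v) :
    PolyF (fun x => dotZ (u x) (v x)) :=
  (hu.zipWith (h := fun _ a b => a * b) hv (snd'.fst.intMul snd'.snd)).intSum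

theorem mulVecZ {M : α → List (List ℤ)} {v : α → List ℤ} (hM : PolyF M) (hv : PolyF v) :
    PolyF (fun x => mulVecZ (M x) (v x)) :=
  hM.map (h := fun x r => Pool.Agent.Simplex.QP.dotZ r (v x)) (snd'.dotZ (hv.comp fst'))

theorem padZ {N : α → ℕ} {v : α → List ℤ} (hN : PolyF N) (hv : PolyF v) :
    PolyF (fun x => padZ (N x) (v x)) :=
  hN.range.map (h := fun x j => (v x).getD j 0) ((hv.comp fst').getDZ snd')

theorem unitZ {N i : α → ℕ} (hN : PolyF N) (hi : PolyF i) :
    PolyF (fun x => unitZ (N x) (i x)) :=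
  hN.range.map (h := fun x j => if j = i x then (1 : ℤ) else 0)
    (ite (snd'.natEq (hi.comp fst')) (const 1) (const 0))

theorem idZ {N : α → ℕ} (hN : PolyF N) : PolyF (fun x => idZ (N x)) :=
  hN.range.map (h := fun x i => Pool.Agent.Simplex.QP.unitZ (N x) i)
    (PolyF.unitZ (hN.comp fst') snd')

theorem negZ {v : α → List ℤ} (hv : PolyF v) : PolyF (fun x => negZ (v x)) :=
  hv.map (h := fun _ a => -a) snd'.intNeg

theorem scaleOf {K : α → ℕ} {o : α → Option ℕ} (hK : PolyF K) (ho : PolyF o) :
    PolyF (fun x => scaleOf (K x) (o x)) := by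
  refine optionCases (g := fun _ => (0 : ℤ)) (h := fun p : α × ℕ => (2 : ℤ) ^ (K p.1 - p.2))
    ho (const 0) ((hK.comp fst').natSub snd').intTwoPow (fun x h => ?_) (fun x b h => ?_)
  · rw [h]; rfl
  · rw [h]; rfl

theorem scaleRow {K : α → ℕ} {c : α → List (Option ℕ)} {r : α → List ℤ} (hK : PolyF K)
    (hc : PolyF c) (hr : PolyF r) : PolyF (fun x => scaleRow (K x) (c x) (r x)) :=
  hc.zipWith (h := fun x o a => Pool.Agent.Simplex.QP.scaleOf (K x) o * a) hr
    ((PolyF.scaleOf (hK.comp fst') snd'.fst).intMul snd'.snd)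

theorem sumSq {M : α → List (List ℤ)} (hM : PolyF M) : PolyF (fun x => sumSq (M x)) :=
  (hM.map (h := fun _ r => Pool.Agent.Simplex.QP.dotZ r r) (snd'.dotZ snd')).intSum

theorem natSize {n : α → ℕ} (hn : PolyF n) : PolyF (fun x => Nat.size (n x)) :=
  hn.binOfNat.binSize

theorem kBound {N : α → ℕ} {M : α → List (List ℤ)} (hN : PolyF N) (hM : PolyF M) :
    PolyF (fun x => kBound (N x) (M x)) := by
  have h := hM.sumSq.intNatAbs.binAdd (const (⟨1⟩ : Bin))
  exact hN.natMul (hN.natSize.natAdd h.binSize)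

theorem phaseRows {N K : α → ℕ} {c : α → List (Option ℕ)} {M : α → List (List ℤ)}
    (hN : PolyF N) (hK : PolyF K) (hc : PolyF c) (hM : PolyF M) :
    PolyF (fun x => phaseRows (N x) (K x) (c x) (M x)) := by
  refine append ?_ ?_
  · exact (hN.range.filter (p := fun x j => ((c x).getD j none).isNone)
      ((hc.comp fst').getDL snd' (const none)).isNone).map
      (h := fun x i => Pool.Agent.Simplex.QP.unitZ (N x) i) (PolyF.unitZ (hN.comp fst') snd')
  · exact hM.map (h := fun x r => Pool.Agent.Simplex.QP.scaleRow (K x) (c x) r)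
      (PolyF.scaleRow (hK.comp fst') (hc.comp fst') snd')

theorem bump {K : α → ℕ} {o : α → Option ℕ} (hK : PolyF K) (ho : PolyF o) :
    PolyF (fun x => bump (K x) (o x)) := by
  refine optionCases (g := fun _ => (none : Option ℕ))
    (h := fun p : α × ℕ => if p.2 < K p.1 then Option.some (p.2 + 1) else none)
    ho (const none) (ite (snd'.natLt (hK.comp fst')) snd'.succ.some (const none))
    (fun x h => ?_) (fun x b h => ?_)
  · rw [h]; rfl
  · rw [h]; rfl

theorem badIdx {c : α → List (Option ℕ)} {z : α → List ℤ} (hc : PolyF c) (hz : PolyF z) :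
    PolyF (fun x => badIdx (c x) (z x)) :=
  hc.length.range.find? (p := fun x k => ((c x).getD k none).isSome && decide ((z x).getD k 0 ≤ 0))
    (((hc.comp fst').getDL snd' (const none)).isSome.and
      (((hz.comp fst').getDZ snd').intLe (const 0)))

theorem heavyIdx {N : α → ℕ} {Y : α → List ℤ} (hN : PolyF N) (hY : PolyF Y) :
    PolyF (fun x => heavyIdx (N x) (Y x)) :=
  hN.range.find? (p := fun x k => decide ((4 * ((N x : ℕ) : ℤ) ^ 2) ≤ (Y x).getD k 0))
    (((const 4).intMul (((hN.comp fst').intOfNat).intPow (const 2))).intLe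
      ((hY.comp fst').getDZ snd'))

theorem percStep {c : α → List (Option ℕ)} {P : α → List (List ℤ)} {Y : α → List ℤ}
    (hc : PolyF c) (hP : PolyF P) (hY : PolyF Y) :
    PolyF (fun x => percStep (c x) (P x) (Y x)) := by
  refine optionCases (g := Y) (h := fun p : α × ℕ => (Y p.1).set p.2 ((Y p.1).getD p.2 0 + 1))
    (PolyF.badIdx hc (PolyF.mulVecZ hP hY)) hY
    (snd'.set (hY.comp fst') (((hY.comp fst').getDZ snd').intAdd (const 1)))
    (fun x h => ?_) (fun x b h => ?_)
  · simp only [Pool.Agent.Simplex.QP.percStep, h]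
  · simp only [Pool.Agent.Simplex.QP.percStep, h]

theorem phaseEnd {N K : α → ℕ} {c : α → List (Option ℕ)} {Y z : α → List ℤ} (hN : PolyF N)
    (hK : PolyF K) (hc : PolyF c) (hY : PolyF Y) (hz : PolyF z) :
    PolyF (fun x => phaseEnd (N x) (K x) (c x) (Y x) (z x)) := by
  refine optionCases (g := fun x => (c x, Option.some (Pool.Agent.Simplex.QP.scaleRow (K x) (c x) (z x))))
    (h := fun p : α × ℕ => match Pool.Agent.Simplex.QP.heavyIdx (N p.1) (Y p.1) with
      | none => (c p.1, none)
      | .some k => ((c p.1).set k (Pool.Agent.Simplex.QP.bump (K p.1) ((c p.1).getD k none)), none))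
    (PolyF.badIdx hc hz) (hc.pair (PolyF.scaleRow hK hc hz).some) ?_
    (fun x h => ?_) (fun x b h => ?_)
  · refine optionCases (g := fun p : α × ℕ => (c p.1, (none : Option (List ℤ))))
      (h := fun q : (α × ℕ) × ℕ => ((c q.1.1).set q.2
        (Pool.Agent.Simplex.QP.bump (K q.1.1) ((c q.1.1).getD q.2 none)), (none : Option (List ℤ))))
      (PolyF.heavyIdx (hN.comp fst') (hY.comp fst')) ((hc.comp fst').pair (const none)) ?_
      (fun x h => ?_) (fun x b h => ?_)
    · exact (snd'.set (hc.comp fst'.fst) (PolyF.bump (hK.comp fst'.fst)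
        ((hc.comp fst'.fst).getDL snd' (const none)))).pair (const none)
    · simp only [h]
    · simp only [h]
  · simp only [Pool.Agent.Simplex.QP.phaseEnd, h]
  · simp only [Pool.Agent.Simplex.QP.phaseEnd, h]
    cases Pool.Agent.Simplex.QP.heavyIdx (N x) (Y x) <;> rfl

theorem feasRows {n : α → ℕ} {E I : α → List (List ℤ × ℤ)} (hn : PolyF n) (hE : PolyF E)
    (hI : PolyF I) : PolyF (fun x => feasRows (n x) (E x) (I x)) := by
  refine append ?_ ?_
  · exact hE.map (h := fun x (r : List ℤ × ℤ) => Pool.Agent.Simplex.QP.padZ (n x) r.1 ++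
      (Pool.Agent.Simplex.QP.negZ (Pool.Agent.Simplex.QP.padZ (n x) r.1) ++
        (-r.2 :: List.replicate (I x).length 0)))
      ((PolyF.padZ (hn.comp fst') snd'.fst).append ((PolyF.negZ (PolyF.padZ (hn.comp fst')
        snd'.fst)).append (snd'.snd.intNeg.cons (PolyF.replicate (hI.comp fst').length
          (const 0)))))
  · have h1 : PolyF (fun p : α × ℕ => (I p.1).getD p.2 ([], 0)) :=
      (hI.comp fst').getDL snd' (const ([], 0))
    exact hI.length.range.map (h := fun x (i : ℕ) =>
      Pool.Agent.Simplex.QP.padZ (n x) ((I x).getD i ([], 0)).1 ++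
      (Pool.Agent.Simplex.QP.negZ (Pool.Agent.Simplex.QP.padZ (n x) ((I x).getD i ([], 0)).1) ++
        (-((I x).getD i ([], 0)).2 :: Pool.Agent.Simplex.QP.unitZ (I x).length i)))
      ((PolyF.padZ (hn.comp fst') h1.fst).append ((PolyF.negZ (PolyF.padZ (hn.comp fst')
        h1.fst)).append (h1.snd.intNeg.cons (PolyF.unitZ (hI.comp fst').length snd'))))

theorem pdRows {n : α → ℕ} {E I : α → List (List ℤ × ℤ)} {c : α → List ℤ} (hn : PolyF n)
    (hE : PolyF E) (hI : PolyF I) (hc : PolyF c) :
    PolyF (fun x => pdRows (n x) (E x) (I x) (c x)) := by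
  have hcol : ∀ {R : α → List (List ℤ × ℤ)}, PolyF R →
      PolyF (fun p : α × ℕ => (R p.1).map (fun r => r.1.getD p.2 0)) := fun {R} hR =>
    (hR.comp fst').map (h := fun (p : α × ℕ) (r : List ℤ × ℤ) => r.1.getD p.2 0)
      (snd'.fst.getDZ fst'.snd)
  have hrhs : ∀ {R : α → List (List ℤ × ℤ)}, PolyF R → PolyF (fun x => (R x).map (fun r => r.2)) :=
    fun {R} hR => hR.map (h := fun _ (r : List ℤ × ℤ) => r.2) snd'.snd
  refine append ?_ (append ?_ ?_)
  · exact (PolyF.feasRows hn hE hI).map (h := fun x r => r ++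
      List.replicate ((E x).length + (E x).length + (I x).length) 0)
      (snd'.append (PolyF.replicate (((hE.comp fst').length.natAdd (hE.comp fst').length).natAdd
        (hI.comp fst').length) (const 0)))
  · exact hn.range.map (h := fun x j =>
      List.replicate (n x + n x) 0 ++ (-((c x).getD j 0) :: (List.replicate (I x).length 0 ++
      ((E x).map (fun r => r.1.getD j 0) ++
        (Pool.Agent.Simplex.QP.negZ ((E x).map (fun r => r.1.getD j 0)) ++
        (I x).map (fun r => r.1.getD j 0))))))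
      ((PolyF.replicate ((hn.comp fst').natAdd (hn.comp fst')) (const 0)).append
        ((((hc.comp fst').getDZ snd').intNeg).cons ((PolyF.replicate (hI.comp fst').length
          (const 0)).append ((hcol hE).append ((PolyF.negZ (hcol hE)).append (hcol hI))))))
  · exact (((PolyF.padZ hn hc).append ((PolyF.negZ (PolyF.padZ hn hc)).append
      ((const (0 : ℤ)).cons ((PolyF.replicate hI.length (const 0)).append
        ((PolyF.negZ (hrhs hE)).append ((hrhs hE).append (PolyF.negZ (hrhs hI))))))))).singleton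

theorem pointOf {n : α → ℕ} {v : α → List ℤ} (hn : PolyF n) (hv : PolyF v) :
    PolyF (fun x => pointOf (n x) (v x)) :=
  hn.range.map (h := fun x j => (v x).getD j 0 - (v x).getD (n x + j) 0)
    (((hv.comp fst').getDZ snd').intSub ((hv.comp fst').getDZ ((hn.comp fst').natAdd snd')))

end PolyF

end

end Pool.Agent.Lib.PolyTime
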